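import Pool.Agent.Q118.ConsecTuran2

/-!
The family of triples inside `s` almost equal intervals, families with transitive complement and
point sets without large cups.
-/

namespace Pool.Agent.Q118.ConsecTuran

open Finset

/-- first point of the `i`-th interval -/
def start (n s i : ℕ) : ℕ := i * (n / s) + min i (n % s)

lemma start_zero (n s : ℕ) : start n s 0 = 0 := by simp [start]

lemma start_self (n s : ℕ) (hs : 0 < s) : start n s s = n := by
  unfold start
  have h1 : s * (n / s) + n % s = n := Nat.div_add_mod n s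
  have h2 : n % s < s := Nat.mod_lt n hs
  rw [min_eq_right h2.le]
  exact h1

lemma start_mono (n s : ℕ) : Monotone (start n s) := by
  intro i j hij
  unfold start
  have h1 : i * (n / s) ≤ j * (n / s) := Nat.mul_le_mul_right _ hij
  have h2 : min i (n % s) ≤ min j (n % s) := min_le_min_right _ hij
  omega

lemma start_succ (n s i : ℕ) :
    start n s (i + 1) = start n s i + (n / s + (min (i + 1) (n % s) - min i (n % s))) := by
  unfold start
  have h1 : (i + 1) * (n / s) = i * (n / s) + n / s := by ring
  have h2 : min i (n % s) ≤ min (i + 1) (n % s) := min_le_min_right _ (Nat.le_succ i)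
  omega

/-- index of the interval containing `v` -/
def idx (n s v : ℕ) : ℕ := Nat.findGreatest (fun i => start n s i ≤ v) s

lemma start_idx (n s v : ℕ) : start n s (idx n s v) ≤ v :=
  Nat.findGreatest_spec (P := fun i => start n s i ≤ v) (Nat.zero_le s)
    (by rw [start_zero]; exact Nat.zero_le v)

lemma idx_mono (n s : ℕ) : Monotone (idx n s) := by
  intro v w hvw
  exact Nat.findGreatest_mono_left (fun i hi => le_trans hi hvw) s

lemma lt_start (n s v i : ℕ) (h : idx n s v < i) (hi : i ≤ s) : v < start n s i := by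
  have := Nat.findGreatest_is_greatest (P := fun i => start n s i ≤ v) h hi
  simpa using this

lemma idx_eq (n s v i : ℕ) (hi : i < s) :
    idx n s v = i ↔ start n s i ≤ v ∧ v < start n s (i + 1) := by
  constructor
  · rintro rfl
    exact ⟨start_idx n s v, lt_start n s v _ (Nat.lt_succ_self _) hi⟩
  · rintro ⟨h1, h2⟩
    apply le_antisymm
    · by_contra hcon
      rw [not_le] at hcon
      have h3 := start_idx n s v
      have h4 := start_mono n s (Nat.succ_le_of_lt hcon)
      simp only [Nat.succ_eq_add_one] at h4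
      omega
    · exact Nat.le_findGreatest hi.le h1

lemma idx_lt (n s v : ℕ) (hs : 0 < s) (hv : v < n) : idx n s v < s := by
  have h1 : idx n s v ≤ s := Nat.findGreatest_le s
  rcases lt_or_eq_of_le h1 with h | h
  · exact h
  · have h2 := start_idx n s v
    rw [h, start_self n s hs] at h2
    omega

/-- the points with index `i` -/
def block (n s i : ℕ) : Finset (Fin n) := univ.filter (fun v : Fin n => idx n s (v : ℕ) = i)

lemma card_block (n s i : ℕ) (hs : 0 < s) (hi : i < s) :
    (block n s i).card = n / s + (min (i + 1) (n % s) - min i (n % s)) := by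
  classical
  have h1 : (block n s i).map Fin.valEmbedding = Finset.Ico (start n s i) (start n s (i + 1)) := by
    ext v
    rw [mem_map, mem_Ico]
    constructor
    · rintro ⟨w, hw, rfl⟩
      rw [block, mem_filter] at hw
      exact (idx_eq n s _ i hi).1 hw.2
    · intro hv
      have h2 : v < n := by
        have h3 := start_mono n s (Nat.succ_le_of_lt hi)
        rw [start_self n s hs] at h3
        simp only [Nat.succ_eq_add_one] at h3
        omega
      refine ⟨⟨v, h2⟩, ?_, rfl⟩
      rw [block, mem_filter]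
      exact ⟨mem_univ _, (idx_eq n s v i hi).2 hv⟩
  have h2 := congrArg Finset.card h1
  rw [Finset.card_map, Nat.card_Ico, start_succ, Nat.add_sub_cancel_left] at h2
  exact h2

lemma sum_sizes (f : ℕ → ℕ) (q r s : ℕ) (h : r ≤ s) :
    ∑ i ∈ range s, f (q + (min (i + 1) r - min i r)) = (s - r) * f q + r * f (q + 1) := by
  induction s, h using Nat.le_induction with
  | base =>
    rw [Finset.sum_congr rfl (g := fun _ => f (q + 1))]
    · rw [Finset.sum_const, card_range, smul_eq_mul]
      simp
    · intro i hi
      rw [mem_range] at hi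
      have h1 : min (i + 1) r = i + 1 := min_eq_left (by omega)
      have h2 : min i r = i := min_eq_left (by omega)
      rw [h1, h2]
      congr 2
      omega
  | succ s hs ih =>
    rw [sum_range_succ, ih]
    have h1 : min (s + 1) r = r := min_eq_right (by omega)
    have h2 : min s r = r := min_eq_right (by omega)
    rw [h1, h2]
    obtain ⟨d, rfl⟩ : ∃ d, s = r + d := ⟨s - r, by omega⟩
    have h3 : r + d - r = d := by omega
    have h4 : r + d + 1 - r = d + 1 := by omega
    have h5 : q + (r - r) = q := by omega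
    rw [h3, h4, h5]
    ring

/-- the triples inside the intervals -/
def blockFam (n s : ℕ) : Finset (Finset (Fin n)) :=
  (range s).biUnion (fun i => (block n s i).powersetCard 3)

lemma card_blockFam (n s : ℕ) (hs : 0 < s) : (blockFam n s).card = turanValue n s := by
  classical
  rw [blockFam, Finset.card_biUnion]
  · rw [turanValue, ← sum_sizes (fun x => x.choose 3) (n / s) (n % s) s (Nat.mod_lt n hs).le]
    apply Finset.sum_congr rfl
    intro i hi
    rw [card_powersetCard, card_block n s i hs (mem_range.1 hi)]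
  · intro i _ j _ hij
    simp only [Function.onFun]
    rw [Finset.disjoint_left]
    intro B hB hB'
    rw [mem_powersetCard] at hB hB'
    obtain ⟨v, hv⟩ : B.Nonempty := by
      rw [← Finset.card_pos]; omega
    have h1 := hB.1 hv
    have h2 := hB'.1 hv
    rw [block, mem_filter] at h1 h2
    exact hij (h1.2.symm.trans h2.2)

lemma mem_blockFam {n s : ℕ} (hs : 0 < s) {x y z : Fin n} (hxy : x < y) (hyz : y < z) :
    ({x, y, z} : Finset (Fin n)) ∈ blockFam n s ↔ idx n s x = idx n s z := by
  classical
  have hcard : ({x, y, z} : Finset (Fin n)).card = 3 := by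
    rw [Finset.card_eq_three]
    exact ⟨x, y, z, hxy.ne, (hxy.trans hyz).ne, hyz.ne, rfl⟩
  rw [blockFam, mem_biUnion]
  constructor
  · rintro ⟨i, -, hB⟩
    rw [mem_powersetCard] at hB
    have h1 := hB.1 (show x ∈ ({x, y, z} : Finset (Fin n)) by simp)
    have h2 := hB.1 (show z ∈ ({x, y, z} : Finset (Fin n)) by simp)
    rw [block, mem_filter] at h1 h2
    rw [h1.2, h2.2]
  · intro h
    refine ⟨idx n s x, mem_range.2 (idx_lt n s x hs x.2), ?_⟩
    rw [mem_powersetCard]
    refine ⟨?_, hcard⟩
    have h1 : idx n s x ≤ idx n s y := idx_mono n s (le_of_lt hxy)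
    have h2 : idx n s y ≤ idx n s z := idx_mono n s (le_of_lt hyz)
    intro w hw
    rw [block, mem_filter]
    refine ⟨mem_univ _, ?_⟩
    simp only [mem_insert, mem_singleton] at hw
    rcases hw with rfl | rfl | rfl
    · rfl
    · omega
    · omega

lemma blockFam_consec (n s : ℕ) (hs : 0 < s) : Consec n (2 * s + 1) (blockFam n s) := by
  intro x hx
  by_contra hcon
  push Not at hcon
  have h : ∀ j : ℕ, ∀ hj : j ≤ s, j ≤ idx n s (x ⟨2 * j, by omega⟩) := by
    intro j
    induction j with
    | zero => intro _; exact Nat.zero_le _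
    | succ j ih =>
      intro hj
      have h1 := ih (by omega)
      have h2 := hcon (2 * j) (by omega)
      have h3 : x ⟨2 * j, by omega⟩ < x ⟨2 * j + 1, by omega⟩ := hx (by
        rw [Fin.lt_def]; simp)
      have h4 : x ⟨2 * j + 1, by omega⟩ < x ⟨2 * j + 2, by omega⟩ := hx (by
        rw [Fin.lt_def]; simp)
      rw [mem_blockFam hs h3 h4] at h2
      have h5 : idx n s (x ⟨2 * j, by omega⟩) ≤ idx n s (x ⟨2 * j + 2, by omega⟩) :=
        idx_mono n s (le_of_lt (h3.trans h4))
      have h6 : idx n s (x ⟨2 * j, by omega⟩) < idx n s (x ⟨2 * j + 2, by omega⟩) :=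
        lt_of_le_of_ne h5 h2
      have h7 : (⟨2 * (j + 1), by omega⟩ : Fin (2 * s + 1)) = ⟨2 * j + 2, by omega⟩ := by
        apply Fin.ext; simp only; ring
      rw [h7]
      omega
  have h1 := h s le_rfl
  have h2 := idx_lt n s (x ⟨2 * s, by omega⟩) hs (x ⟨2 * s, by omega⟩).2
  omega

/-- The triples outside `F` are transitive. -/
def CoTransitive (n : ℕ) (F : Finset (Finset (Fin n))) : Prop :=
  ∀ x y z w : Fin n, x < y → y < z → z < w → ({x, y, z} : Finset (Fin n)) ∉ F →
    ({y, z, w} : Finset (Fin n)) ∉ F →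
    ({x, y, w} : Finset (Fin n)) ∉ F ∧ ({x, z, w} : Finset (Fin n)) ∉ F

lemma blockFam_coTransitive (n s : ℕ) (hs : 0 < s) : CoTransitive n (blockFam n s) := by
  intro x y z w hxy hyz hzw h1 h2
  have hx : idx n s x ≤ idx n s y := idx_mono n s (le_of_lt hxy)
  have hy : idx n s y ≤ idx n s z := idx_mono n s (le_of_lt hyz)
  have hz : idx n s z ≤ idx n s w := idx_mono n s (le_of_lt hzw)
  rw [mem_blockFam hs hxy hyz] at h1
  rw [mem_blockFam hs hxy (hyz.trans hzw), mem_blockFam hs (hxy.trans hyz) hzw]
  constructor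
  · intro h; omega
  · intro h; omega

lemma coTransitive_all {n k : ℕ} {F : Finset (Finset (Fin n))} (hT : CoTransitive n F)
    {x : Fin k → Fin n} (hx : StrictMono x)
    (hw : ∀ i : ℕ, ∀ h : i + 2 < k,
      ({x ⟨i, by omega⟩, x ⟨i + 1, by omega⟩, x ⟨i + 2, h⟩} : Finset (Fin n)) ∉ F) :
    ∀ d : ℕ, ∀ i j l : ℕ, ∀ hi : i < k, ∀ hj : j < k, ∀ hl : l < k, i < j → j < l →
      l ≤ i + d → ({x ⟨i, hi⟩, x ⟨j, hj⟩, x ⟨l, hl⟩} : Finset (Fin n)) ∉ F := by
  intro d
  induction d with
  | zero => intro i j l _ _ _ h1 h2 h3; omega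
  | succ d ih =>
    intro i j l hi hj hl hij hjl hd
    rcases Nat.lt_or_ge (i + 1) j with h | h
    · -- points `i, i + 1, j, l`
      have h1 := ih i (i + 1) j hi (by omega) hj (by omega) h (by omega)
      have h2 := ih (i + 1) j l (by omega) hj hl h hjl (by omega)
      exact (hT _ _ _ _ (hx (by rw [Fin.lt_def]; simp)) (hx (by rw [Fin.lt_def]; exact h))
        (hx (by rw [Fin.lt_def]; exact hjl)) h1 h2).2
    · have hji : j = i + 1 := by omega
      subst hji
      rcases Nat.lt_or_ge (i + 2) l with h' | h'
      · have h1 := ih i (i + 1) (l - 1) hi hj (by omega) (by omega) (by omega) (by omega)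
        have h2 := ih (i + 1) (l - 1) l hj (by omega) hl (by omega) (by omega) (by omega)
        exact (hT _ _ _ _ (hx (by rw [Fin.lt_def]; simp))
          (hx (by rw [Fin.lt_def]; simp only; omega))
          (hx (by rw [Fin.lt_def]; simp only; omega)) h1 h2).1
      · have hl' : l = i + 2 := by omega
        subst hl'
        exact hw i hl

/-- covering families with transitive complement -/
theorem consec_of_covering {n k : ℕ} {F : Finset (Finset (Fin n))} (hT : CoTransitive n F)
    (hF3 : ∀ B ∈ F, B.card = 3)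
    (hc : ∀ K : Finset (Fin n), K.card = k → ∃ B ∈ F, B ⊆ K) : Consec n k F := by
  classical
  intro x hx
  by_contra hcon
  push Not at hcon
  obtain ⟨B, hB, hBK⟩ := hc (univ.image x) (by
    rw [Finset.card_image_of_injective _ hx.injective, Finset.card_univ, Fintype.card_fin])
  have h3 := hF3 B hB
  -- order the three points of `B`
  let e : Fin 3 ↪o Fin n := B.orderEmbOfFin h3
  have hBe : B = {e 0, e 1, e 2} := by
    have h4 : univ.image e = B := by
      rw [← Finset.coe_inj, Finset.coe_image, Finset.coe_univ, Set.image_univ]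
      exact Finset.range_orderEmbOfFin B h3
    rw [← h4]
    ext v
    simp only [mem_image, mem_univ, true_and, mem_insert, mem_singleton]
    constructor
    · rintro ⟨i, rfl⟩
      fin_cases i
      · left; rfl
      · right; left; rfl
      · right; right; rfl
    · rintro (rfl | rfl | rfl)
      · exact ⟨0, rfl⟩
      · exact ⟨1, rfl⟩
      · exact ⟨2, rfl⟩
  have hmem : ∀ i, ∃ j, x j = e i := by
    intro i
    have h4 : e i ∈ B := Finset.orderEmbOfFin_mem B h3 i
    have h5 := hBK h4
    rw [mem_image] at h5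
    obtain ⟨j, -, hj⟩ := h5
    exact ⟨j, hj⟩
  obtain ⟨j0, hj0⟩ := hmem 0
  obtain ⟨j1, hj1⟩ := hmem 1
  obtain ⟨j2, hj2⟩ := hmem 2
  have h01 : j0 < j1 := by
    rw [← hx.lt_iff_lt, hj0, hj1]
    exact e.strictMono (by decide)
  have h12 : j1 < j2 := by
    rw [← hx.lt_iff_lt, hj1, hj2]
    exact e.strictMono (by decide)
  have h6 := coTransitive_all hT hx hcon k j0 j1 j2 j0.2 j1.2 j2.2 h01 h12
    (by have := j2.2; omega)
  apply h6
  rw [Fin.eta, Fin.eta, Fin.eta, hj0, hj1, hj2, ← hBe]
  exact hB

lemma covering_of_consec {n k : ℕ} {F : Finset (Finset (Fin n))} (hF : Consec n k F) :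
    ∀ K : Finset (Fin n), K.card = k → ∃ B ∈ F, B ⊆ K := by
  intro K hK
  let x : Fin k ↪o Fin n := K.orderEmbOfFin hK
  obtain ⟨i, hi, hi2⟩ := hF x x.strictMono
  refine ⟨_, hi2, ?_⟩
  intro y hy
  simp only [mem_insert, mem_singleton] at hy
  rcases hy with rfl | rfl | rfl
  · exact Finset.orderEmbOfFin_mem K hK _
  · exact Finset.orderEmbOfFin_mem K hK _
  · exact Finset.orderEmbOfFin_mem K hK _

end Pool.Agent.Q118.ConsecTuran
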