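import Mathlib
set_option autoImplicit false
open Finset

/-!
There is no rational matrix `C` of order 22 with `|C x|^2 = 21 |x|^2`.
-/

namespace Pool.Agent.Q118.Conference

theorem three_dvd {a b : ℤ} (h : (3 : ℤ) ∣ a ^ 2 + b ^ 2) : (3 : ℤ) ∣ a ∧ (3 : ℤ) ∣ b := by
  have h1 : (a ^ 2 + b ^ 2) % 3 = 0 := Int.emod_eq_zero_of_dvd h
  have hsq : ∀ x : ℤ, x % 3 ≠ 0 → x ^ 2 % 3 = 1 := by
    intro x hx
    have h2 : x % 3 = 1 ∨ x % 3 = 2 := by omega
    rcases h2 with h2 | h2 <;> simp [pow_two, Int.mul_emod, h2]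
  have hsq0 : ∀ x : ℤ, x % 3 = 0 → x ^ 2 % 3 = 0 := by
    intro x hx
    simp [pow_two, Int.mul_emod, hx]
  by_cases ha : a % 3 = 0 <;> by_cases hb : b % 3 = 0
  · exact ⟨Int.dvd_of_emod_eq_zero ha, Int.dvd_of_emod_eq_zero hb⟩
  · have := hsq0 a ha; have := hsq b hb; omega
  · have := hsq a ha; have := hsq0 b hb; omega
  · have := hsq a ha; have := hsq b hb; omega

theorem descent (n : ℕ) : ∀ a b c d : ℤ, a ^ 2 + b ^ 2 = 21 * (c ^ 2 + d ^ 2) →
    (3 : ℤ) ^ n ∣ c ∧ (3 : ℤ) ^ n ∣ d := by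
  induction n with
  | zero => intro a b c d _; simp
  | succ n ih =>
    intro a b c d h
    have h1 : (3 : ℤ) ∣ a ^ 2 + b ^ 2 := by rw [h]; exact ⟨7 * (c ^ 2 + d ^ 2), by ring⟩
    obtain ⟨⟨a', rfl⟩, ⟨b', rfl⟩⟩ := three_dvd h1
    have h2 : (3 : ℤ) ∣ c ^ 2 + d ^ 2 := by
      have h3 : 3 * (a' ^ 2 + b' ^ 2) = 7 * (c ^ 2 + d ^ 2) := by linarith
      have h4 : (3 : ℤ) ∣ 7 * (c ^ 2 + d ^ 2) := ⟨_, h3.symm⟩
      omega
    obtain ⟨⟨c', rfl⟩, ⟨d', rfl⟩⟩ := three_dvd h2
    obtain ⟨h5, h6⟩ := ih a' b' c' d' (by linarith)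
    rw [pow_succ, mul_comm ((3 : ℤ) ^ n)]
    exact ⟨mul_dvd_mul_left _ h5, mul_dvd_mul_left _ h6⟩

theorem eq_zero_of_pow_dvd {c : ℤ} (h : ∀ n : ℕ, (3 : ℤ) ^ n ∣ c) : c = 0 := by
  by_contra hc
  have h1 := Int.natAbs_dvd_natAbs.2 (h c.natAbs)
  have h2 := Nat.le_of_dvd (Int.natAbs_pos.2 hc) h1
  rw [Int.natAbs_pow] at h2
  have h3 : c.natAbs < 3 ^ c.natAbs := Nat.lt_pow_self (by norm_num)
  have h4 : Int.natAbs 3 = 3 := rfl
  rw [h4] at h2
  omega

theorem rat_descent {a b c d : ℚ} (h : a ^ 2 + b ^ 2 = 21 * (c ^ 2 + d ^ 2)) : c = 0 ∧ d = 0 := by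
  have key : ∀ x : ℚ, ∃ n : ℤ, n ≠ 0 ∧ ∃ m : ℤ, x * n = m := fun x =>
    ⟨x.den, by exact_mod_cast x.den_nz, x.num, by exact_mod_cast Rat.mul_den_eq_num x⟩
  obtain ⟨na, hna, ma, hma⟩ := key a
  obtain ⟨nb, hnb, mb, hmb⟩ := key b
  obtain ⟨nc, hnc, mc, hmc⟩ := key c
  obtain ⟨nd, hnd, md, hmd⟩ := key d
  have h1 : (ma * nb * nc * nd) ^ 2 + (mb * na * nc * nd) ^ 2 =
      21 * ((mc * na * nb * nd) ^ 2 + (md * na * nb * nc) ^ 2) := by
    have : ((ma : ℚ) * nb * nc * nd) ^ 2 + (mb * na * nc * nd) ^ 2 =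
      21 * ((mc * na * nb * nd) ^ 2 + (md * na * nb * nc) ^ 2) := by
      rw [← hma, ← hmb, ← hmc, ← hmd]
      have : (a * na * nb * nc * nd) ^ 2 + (b * nb * na * nc * nd) ^ 2 =
        (a ^ 2 + b ^ 2) * (na * nb * nc * nd) ^ 2 := by ring
      rw [this, h]
      ring
    exact_mod_cast this
  have h2 := fun n => descent n _ _ _ _ h1
  have h3 := eq_zero_of_pow_dvd fun n => (h2 n).1
  have h4 := eq_zero_of_pow_dvd fun n => (h2 n).2
  have h5 : mc = 0 := by simpa [hna, hnb, hnd] using h3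
  have h6 : md = 0 := by simpa [hna, hnb, hnc] using h4
  rw [h5] at hmc
  rw [h6] at hmd
  have hncq : (nc : ℚ) ≠ 0 := by exact_mod_cast hnc
  have hndq : (nd : ℚ) ≠ 0 := by exact_mod_cast hnd
  constructor
  · simpa [hncq] using hmc
  · simpa [hndq] using hmd

theorem signs {E : Type} [AddCommGroup E] [Module ℚ E] (m : ℕ) :
    ∀ (y z : Fin m → E →ₗ[ℚ] ℚ) (P : Submodule ℚ E), (∀ v ∈ P, (∀ i, z i v = 0) → v = 0) →
    ∃ ε : Fin m → ℚ, (∀ i, ε i ^ 2 = 1) ∧ ∀ v ∈ P, (∀ i, y i v = ε i * z i v) → v = 0 := by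
  induction m with
  | zero =>
    intro y z P h
    exact ⟨fun _ => 1, fun _ => one_pow _, fun v hv _ => h v hv fun i => i.elim0⟩
  | succ m ih =>
    intro y z P h
    obtain ⟨ε, hε, hε2⟩ := ih (fun i => y i.castSucc) (fun i => z i.castSucc)
      (P ⊓ LinearMap.ker (z (Fin.last m))) (by
        intro v hv hz
        rw [Submodule.mem_inf, LinearMap.mem_ker] at hv
        refine h v hv.1 fun i => ?_
        induction i using Fin.lastCases with
        | last => exact hv.2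
        | cast i => exact hz i)
    by_cases hL : ∃ v0 ∈ P, (∀ i : Fin m, y i.castSucc v0 = ε i * z i.castSucc v0) ∧ v0 ≠ 0
    · obtain ⟨v0, hv0P, hv0, hv0ne⟩ := hL
      have hz0 : z (Fin.last m) v0 ≠ 0 := fun hz =>
        hv0ne (hε2 v0 (by rw [Submodule.mem_inf, LinearMap.mem_ker]; exact ⟨hv0P, hz⟩) hv0)
      obtain ⟨e, he, hene⟩ : ∃ e : ℚ, e ^ 2 = 1 ∧ y (Fin.last m) v0 ≠ e * z (Fin.last m) v0 := by
        by_cases h1 : y (Fin.last m) v0 = z (Fin.last m) v0
        · refine ⟨-1, by norm_num, fun h2 => hz0 ?_⟩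
          rw [h1] at h2
          linarith
        · exact ⟨1, by norm_num, by rwa [one_mul]⟩
      refine ⟨Fin.lastCases e ε, ?_, ?_⟩
      · intro i
        induction i using Fin.lastCases with
        | last => simpa using he
        | cast i => simpa using hε i
      · intro v hv hy
        have hy1 : ∀ i : Fin m, y i.castSucc v = ε i * z i.castSucc v := fun i => by
          have := hy i.castSucc
          simpa using this
        have hy2 : y (Fin.last m) v = e * z (Fin.last m) v := by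
          have := hy (Fin.last m)
          simpa using this
        have hcomb : z (Fin.last m) v0 • v - z (Fin.last m) v • v0 = 0 := by
          refine hε2 _ ?_ ?_
          · rw [Submodule.mem_inf, LinearMap.mem_ker]
            refine ⟨P.sub_mem (P.smul_mem _ hv) (P.smul_mem _ hv0P), ?_⟩
            rw [map_sub, map_smul, map_smul, smul_eq_mul, smul_eq_mul]
            ring
          · intro i
            rw [map_sub, map_smul, map_smul, map_sub, map_smul, map_smul]
            simp only [smul_eq_mul]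
            rw [hy1, hv0]
            ring
        have h1 := congrArg (y (Fin.last m)) hcomb
        rw [map_sub, map_smul, map_smul, map_zero, smul_eq_mul, smul_eq_mul, hy2] at h1
        have h2 : z (Fin.last m) v * (e * z (Fin.last m) v0 - y (Fin.last m) v0) = 0 := by
          linarith
        rcases mul_eq_zero.1 h2 with h3 | h3
        · refine hε2 v ?_ hy1
          rw [Submodule.mem_inf, LinearMap.mem_ker]
          exact ⟨hv, h3⟩
        · exact absurd (sub_eq_zero.1 h3).symm hene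
    · push Not at hL
      refine ⟨Fin.lastCases 1 ε, ?_, ?_⟩
      · intro i
        induction i using Fin.lastCases with
        | last => simp
        | cast i => simpa using hε i
      · intro v hv hy
        refine hL v hv fun i => ?_
        have := hy i.castSucc
        simpa using this

/-- The four linear forms whose squares add up to `21` times the sum of the squares. -/
def coef : Fin 4 → Fin 4 → ℚ := ![![4, -2, -1, 0], ![2, 4, 0, 1], ![1, 0, 4, -2], ![0, -1, 2, 4]]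

def idx (b : Fin 5) (j : Fin 4) : Fin 22 := ⟨4 * b + j, by omega⟩

/-- The form number `4 b + i`. -/
noncomputable def zform (b : Fin 5) (i : Fin 4) : (Fin 22 → ℚ) →ₗ[ℚ] ℚ :=
  ∑ j : Fin 4, coef i j • LinearMap.proj (idx b j)

theorem zform_apply (b : Fin 5) (i : Fin 4) (x : Fin 22 → ℚ) :
    zform b i x = ∑ j : Fin 4, coef i j * x (idx b j) := by
  simp [zform]

theorem zform_sq (b : Fin 5) (x : Fin 22 → ℚ) :
    ∑ i : Fin 4, (zform b i x) ^ 2 = 21 * ∑ j : Fin 4, x (idx b j) ^ 2 := by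
  simp only [zform_apply, Fin.sum_univ_four, coef]
  simp
  ring

theorem sum_split (f : Fin 22 → ℚ) :
    ∑ i : Fin 22, f i = (∑ b : Fin 5, ∑ j : Fin 4, f (idx b j)) + (f 20 + f 21) := by
  simp only [Fin.sum_univ_succ, Fin.sum_univ_zero, idx]
  simp
  ring

theorem no_conference (C : Fin 22 → Fin 22 → ℚ)
    (h : ∀ x : Fin 22 → ℚ, ∑ i, (∑ j, C i j * x j) ^ 2 = 21 * ∑ i, x i ^ 2) : False := by
  let e : Fin 20 ≃ Fin 5 × Fin 4 :=
    (finCongr (by norm_num : 20 = 5 * 4)).trans finProdFinEquiv.symm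
  let Y : Fin 22 → (Fin 22 → ℚ) →ₗ[ℚ] ℚ := fun i => ∑ j, C i j • LinearMap.proj j
  have hY : ∀ i x, Y i x = ∑ j, C i j * x j := fun i x => by simp [Y]
  let P : Submodule ℚ (Fin 22 → ℚ) :=
    LinearMap.ker (LinearMap.proj (R := ℚ) (φ := fun _ : Fin 22 => ℚ) 20) ⊓
      LinearMap.ker (LinearMap.proj (R := ℚ) (φ := fun _ : Fin 22 => ℚ) 21)
  have hP : ∀ v, v ∈ P ↔ v 20 = 0 ∧ v 21 = 0 := by
    intro v
    simp only [P, Submodule.mem_inf, LinearMap.mem_ker, LinearMap.proj_apply]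
  obtain ⟨ε, hε, hε2⟩ := signs 20 (fun i => Y (idx (e i).1 (e i).2))
    (fun i => zform (e i).1 (e i).2) P (by
      intro v hv hz
      rw [hP] at hv
      have hz' : ∀ b i, zform b i v = 0 := fun b i => by
        have := hz (e.symm (b, i))
        simpa using this
      have h1 : ∀ b j, v (idx b j) = 0 := by
        intro b j
        have h2 := zform_sq b v
        simp only [hz', zero_pow (two_ne_zero), sum_const_zero] at h2
        have h3 : ∑ j : Fin 4, v (idx b j) ^ 2 = 0 := by linarith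
        have h4 := (sum_eq_zero_iff_of_nonneg (fun i _ => sq_nonneg _)).1 h3 j (mem_univ _)
        exact pow_eq_zero_iff (two_ne_zero) |>.1 h4
      have h5 : ∑ i : Fin 22, v i ^ 2 = 0 := by
        rw [sum_split]
        simp [h1, hv.1, hv.2]
      funext i
      have h4 := (sum_eq_zero_iff_of_nonneg (fun i _ => sq_nonneg _)).1 h5 i (mem_univ _)
      exact pow_eq_zero_iff (two_ne_zero) |>.1 h4)
  -- the equations have a nonzero solution
  let L : (Fin 22 → ℚ) →ₗ[ℚ] (Fin 20 → ℚ) :=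
    LinearMap.pi fun i => Y (idx (e i).1 (e i).2) - ε i • zform (e i).1 (e i).2
  have hker : LinearMap.ker L ≠ ⊥ := by
    apply LinearMap.ker_ne_bot_of_finrank_lt
    simp
  obtain ⟨x, hx, hx0⟩ := Submodule.exists_mem_ne_zero_of_ne_bot hker
  have hx1 : ∀ i, Y (idx (e i).1 (e i).2) x = ε i * zform (e i).1 (e i).2 x := by
    intro i
    have h1 := congrFun (LinearMap.mem_ker.1 hx) i
    simp only [L, LinearMap.pi_apply, LinearMap.sub_apply, LinearMap.smul_apply, smul_eq_mul,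
      Pi.zero_apply] at h1
    linarith
  have hx2 : ∀ b j, (Y (idx b j) x) ^ 2 = (zform b j x) ^ 2 := by
    intro b j
    have h1 := hx1 (e.symm (b, j))
    have h2 := hε (e.symm (b, j))
    simp only [Equiv.apply_symm_apply] at h1
    rw [h1, mul_pow, h2, one_mul]
  have h3 := h x
  simp only [← hY] at h3
  rw [sum_split, sum_split] at h3
  simp only [hx2, zform_sq, ← mul_sum] at h3
  have h4 : (Y 20 x) ^ 2 + (Y 21 x) ^ 2 = 21 * ((x 20) ^ 2 + (x 21) ^ 2) := by linarith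
  obtain ⟨h5, h6⟩ := rat_descent h4
  exact hx0 (hε2 x ((hP x).2 ⟨h5, h6⟩) hx1)

end Pool.Agent.Q118.Conference
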