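import Mathlib

/-!
Sets of two-edge walks of a semicomplete digraph (in particular of a linear order) that meet all
walks with `k` vertices: the lower bound `n C(N,2) - (k-1) C(N+1,3)`.
-/

namespace Pool.Agent.Q118.ConsecTuran

open Finset

lemma two_mul_choose (x : ℕ) : 2 * (x.choose 2 : ℤ) = (x : ℤ) * x - x := by
  induction x with
  | zero => simp
  | succ x ih =>
    have h : (x + 1).choose 2 = x.choose 1 + x.choose 2 := Nat.choose_succ_succ x 1
    rw [h, Nat.choose_one_right]
    push_cast
    linarith

lemma choose_step (L a d : ℕ) :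
    L.choose 2 ≤ a * d + (L - a).choose 2 + (L - d).choose 2 := by
  have h0 := two_mul_choose L
  zify
  rcases le_total a L with ha | ha
  · rcases le_total d L with hd | hd
    · have h1 := two_mul_choose (L - a)
      have h2 := two_mul_choose (L - d)
      push_cast [ha, hd] at h1 h2
      have h3 := Int.le_self_sq ((L : ℤ) - a - d)
      nlinarith
    · have h2 : L - d = 0 := by omega
      have h1 := two_mul_choose (L - a)
      push_cast [ha] at h1
      rw [h2]
      simp only [Nat.choose_zero_succ, Nat.cast_zero, add_zero]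
      have h3 : (a : ℤ) * L ≤ a * d := by
        have : (0 : ℤ) ≤ a := by positivity
        have hd' : (L : ℤ) ≤ d := by exact_mod_cast hd
        nlinarith
      have h4 : (0 : ℤ) ≤ a := by positivity
      nlinarith
  · have h1 : L - a = 0 := by omega
    rw [h1]
    simp only [Nat.choose_zero_succ, Nat.cast_zero, add_zero]
    have ha' : (L : ℤ) ≤ a := by exact_mod_cast ha
    have h4 : (0 : ℤ) ≤ d := by positivity
    have h3 : (L : ℤ) * d ≤ a * d := by nlinarith
    rcases le_total d L with hd | hd
    · have h2 := two_mul_choose (L - d)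
      push_cast [hd] at h2
      nlinarith
    · have h2 : L - d = 0 := by omega
      rw [h2]
      simp only [Nat.choose_zero_succ, Nat.cast_zero, add_zero]
      have hd' : (L : ℤ) ≤ d := by exact_mod_cast hd
      have h5 : (0 : ℤ) ≤ L := by positivity
      nlinarith

/-- the bound at one vertex -/
lemma vertex_bound (N : ℕ) (a b : ℕ → ℕ) (hb0 : b 0 = 0) (hb : Monotone b) (m : ℕ) :
    N.choose 2 ≤ ∑ i ∈ range m, a i * (b (i + 1) - b i) +
      ∑ i ∈ range m, (N - (a i + b i)).choose 2 + (N - b m).choose 2 := by
  induction m with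
  | zero => simp [hb0]
  | succ m ih =>
    rw [sum_range_succ, sum_range_succ]
    have h := choose_step (N - b m) (a m) (b (m + 1) - b m)
    have h1 : N - b m - a m = N - (a m + b m) := by omega
    have h2 : N - b m - (b (m + 1) - b m) = N - b (m + 1) := by
      have := hb (Nat.le_succ m)
      simp only [Nat.succ_eq_add_one] at this
      omega
    rw [h1, h2] at h
    omega

section score

variable {V : Type*} [Fintype V] [DecidableEq V] (D : V → V → Prop) [DecidableRel D]

/-- scores of a tournament -/
lemma sum_sub_score (hD : ∀ v w, v ≠ w → D v w ∨ D w v) (N : ℕ) :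
    ∑ v, (N - (univ.filter (fun w => D v w)).card) ≤ (N + 1).choose 2 := by
  classical
  set σ : V → ℕ := fun v => (univ.filter (fun w => D v w)).card with hσ
  set A : Finset V := univ.filter (fun v => σ v < N) with hA
  have h1 : ∑ v, (N - σ v) = ∑ v ∈ A, (N - σ v) := by
    symm
    apply Finset.sum_subset (subset_univ _)
    intro v _ hv
    rw [hA, mem_filter, not_and] at hv
    have := hv (mem_univ _)
    omega
  have h2 : ∑ v ∈ A, (N - σ v) + ∑ v ∈ A, σ v = A.card * N := by
    rw [← Finset.sum_add_distrib]
    rw [Finset.sum_congr rfl (g := fun _ => N)]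
    · rw [Finset.sum_const, smul_eq_mul]
    · intro v hv
      rw [hA, mem_filter] at hv
      omega
  have h3 : A.offDiag.card ≤ 2 * ∑ v ∈ A, σ v := by
    have h4 : ((A ×ˢ A).filter (fun p => D p.1 p.2)).card ≤ ∑ v ∈ A, σ v := by
      rw [Finset.card_eq_sum_card_fiberwise (f := Prod.fst) (t := A)]
      · apply Finset.sum_le_sum
        intro v hv
        apply Finset.card_le_card_of_injOn Prod.snd
        · rintro ⟨x, y⟩ hp
          simp only [Finset.coe_filter, Set.mem_ofPred_eq, mem_filter, mem_product] at hp
          simp only [Finset.coe_filter, Set.mem_ofPred_eq]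
          refine ⟨mem_univ _, ?_⟩
          rw [← hp.2]
          exact hp.1.2
        · rintro ⟨x, y⟩ hp ⟨x', y'⟩ hp' hxy
          simp only [Finset.coe_filter, Set.mem_ofPred_eq, mem_filter, mem_product] at hp hp'
          simp only at hxy
          rw [hp.2, hp'.2, hxy]
      · rintro ⟨x, y⟩ hp
        simp only [Finset.coe_filter, Set.mem_ofPred_eq, mem_product] at hp
        exact hp.1.1
    have h5 : A.offDiag ⊆ ((A ×ˢ A).filter (fun p => D p.1 p.2)) ∪
        ((A ×ˢ A).filter (fun p => D p.1 p.2)).image Prod.swap := by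
      rintro ⟨x, y⟩ hp
      rw [mem_offDiag] at hp
      rw [mem_union, mem_image]
      rcases hD x y hp.2.2 with h | h
      · left
        rw [mem_filter, mem_product]
        exact ⟨⟨hp.1, hp.2.1⟩, h⟩
      · right
        refine ⟨(y, x), ?_, rfl⟩
        rw [mem_filter, mem_product]
        exact ⟨⟨hp.2.1, hp.1⟩, h⟩
    have h6 := (Finset.card_le_card h5).trans (Finset.card_union_le _ _)
    have h7 := Finset.card_image_le (s := (A ×ˢ A).filter (fun p => D p.1 p.2))
      (f := Prod.swap)
    omega
  rw [Finset.offDiag_card] at h3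
  rw [h1]
  have h8 := two_mul_choose (N + 1)
  zify at h2 h3 ⊢
  have h9 : ((A.card * A.card - A.card : ℕ) : ℤ) = (A.card : ℤ) * A.card - A.card := by
    rw [Nat.cast_sub (Nat.le_mul_self _)]
    push_cast
    ring
  rw [h9] at h3
  push_cast at h8
  have h10 := Int.le_self_sq ((A.card : ℤ) - N)
  nlinarith

lemma sum_choose_score (hD : ∀ v w, v ≠ w → D v w ∨ D w v) (N : ℕ) :
    ∑ v, (N - (univ.filter (fun w => D v w)).card).choose 2 ≤ (N + 1).choose 3 := by
  induction N with
  | zero => simp
  | succ N ih =>
    have h : (N + 2).choose 3 = (N + 1).choose 2 + (N + 1).choose 3 := Nat.choose_succ_succ _ 2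
    have h2 := sum_sub_score D hD N
    have h3 : ∀ v, (N + 1 - (univ.filter (fun w => D v w)).card).choose 2 =
        (N - (univ.filter (fun w => D v w)).card) +
          (N - (univ.filter (fun w => D v w)).card).choose 2 := by
      intro v
      set s := (univ.filter (fun w => D v w)).card with hs
      rcases le_or_gt s N with hsN | hsN
      · have : N + 1 - s = (N - s) + 1 := by omega
        rw [this, Nat.choose_succ_succ, Nat.choose_one_right]
      · have h4 : N + 1 - s = 0 := by omega
        have h5 : N - s = 0 := by omega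
        rw [h4, h5]
        simp
    rw [Finset.sum_congr rfl (fun v _ => h3 v), Finset.sum_add_distrib, h]
    omega

end score

/-- labellings of the arcs of a semicomplete digraph -/
theorem label_bound {V : Type*} [Fintype V] [DecidableEq V] (R : V → V → Prop) [DecidableRel R]
    (hR : ∀ v w, v ≠ w → R v w ∨ R w v) (c : V → V → ℕ) (m : ℕ)
    (hc : ∀ x y, R x y → c x y < m) (N : ℕ) :
    Fintype.card V * N.choose 2 ≤
      (univ.filter (fun p : V × V × V => R p.1 p.2.1 ∧ R p.2.1 p.2.2 ∧
        c p.2.1 p.2.2 ≤ c p.1 p.2.1)).card + (m + 1) * (N + 1).choose 3 := by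
  classical
  set M : Finset (V × V × V) := univ.filter (fun p : V × V × V => R p.1 p.2.1 ∧
    R p.2.1 p.2.2 ∧ c p.2.1 p.2.2 ≤ c p.1 p.2.1) with hM
  let a : V → ℕ → ℕ := fun v i => (univ.filter (fun x => R x v ∧ i ≤ c x v)).card
  let b : V → ℕ → ℕ := fun v i => (univ.filter (fun y => R v y ∧ c v y < i)).card
  have hb0 : ∀ v, b v 0 = 0 := by
    intro v
    simp [b]
  have hbm : ∀ v, Monotone (b v) := by
    intro v i j hij
    apply Finset.card_le_card
    intro y hy
    rw [mem_filter] at hy ⊢
    exact ⟨hy.1, hy.2.1, hy.2.2.trans_le hij⟩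
  have hbe : ∀ v i, b v (i + 1) - b v i = (univ.filter (fun y => R v y ∧ c v y = i)).card := by
    intro v i
    have : univ.filter (fun y => R v y ∧ c v y < i + 1) =
        (univ.filter (fun y => R v y ∧ c v y < i)) ∪
          (univ.filter (fun y => R v y ∧ c v y = i)) := by
      ext y
      simp only [mem_filter, mem_univ, true_and, mem_union]
      constructor
      · rintro ⟨h1, h2⟩
        rcases Nat.lt_succ_iff_lt_or_eq.1 h2 with h | h
        · exact Or.inl ⟨h1, h⟩
        · exact Or.inr ⟨h1, h⟩
      · rintro (⟨h1, h2⟩ | ⟨h1, h2⟩)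
        · exact ⟨h1, by omega⟩
        · exact ⟨h1, by omega⟩
    have h2 : b v (i + 1) = b v i + (univ.filter (fun y => R v y ∧ c v y = i)).card := by
      simp only [b]
      rw [this, Finset.card_union_of_disjoint]
      rw [Finset.disjoint_left]
      intro y hy hy'
      rw [mem_filter] at hy hy'
      omega
    omega
  -- the vertex sums
  have h1 : ∀ v, ∑ i ∈ range m, a v i * (b v (i + 1) - b v i) ≤
      (M.filter (fun p => p.2.1 = v)).card := by
    intro v
    rw [Finset.card_eq_sum_card_fiberwise (f := fun p : V × V × V => c p.2.1 p.2.2)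
      (t := range m)]
    · apply Finset.sum_le_sum
      intro i _
      rw [hbe]
      simp only [a]
      rw [← Finset.card_product]
      apply Finset.card_le_card_of_injOn (fun q : V × V => (q.1, v, q.2))
      · rintro ⟨x, y⟩ hq
        simp only [Finset.coe_product, Finset.coe_filter, Set.mem_prod, Set.mem_ofPred_eq,
          mem_univ, true_and] at hq
        simp only [Finset.coe_filter, Set.mem_ofPred_eq, mem_filter, hM, mem_univ, true_and]
        refine ⟨⟨⟨hq.1.1, hq.2.1, ?_⟩, trivial⟩, hq.2.2⟩
        rw [hq.2.2]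
        exact hq.1.2
      · rintro ⟨x, y⟩ _ ⟨x', y'⟩ _ hxy
        simp only [Prod.mk.injEq] at hxy
        rw [hxy.1, hxy.2.2]
    · rintro ⟨x, w, y⟩ hp
      simp only [Finset.coe_filter, Set.mem_ofPred_eq, hM, mem_filter, mem_univ, true_and] at hp
      simp only [coe_range, Set.mem_Iio]
      exact hc _ _ hp.1.2.1
  have h2 : ∀ v, N.choose 2 ≤ (M.filter (fun p => p.2.1 = v)).card +
      ∑ i ∈ range (m + 1), (N - (a v i + b v i)).choose 2 := by
    intro v
    have h := vertex_bound N (a v) (b v) (hb0 v) (hbm v) m
    have ham : a v m = 0 := by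
      simp only [a]
      rw [Finset.card_eq_zero, Finset.filter_eq_empty_iff]
      intro x _ hx
      exact absurd (hc x v hx.1) (by omega)
    rw [sum_range_succ, ham, zero_add]
    have := h1 v
    omega
  have h3 : ∀ i, ∑ v, (N - (a v i + b v i)).choose 2 ≤ (N + 1).choose 3 := by
    intro i
    have h := sum_choose_score (fun v w => (R w v ∧ i ≤ c w v) ∨ (R v w ∧ c v w < i)) ?_ N
    · refine le_trans (Finset.sum_le_sum fun v _ => ?_) h
      apply Nat.choose_le_choose
      have : (univ.filter (fun w => (R w v ∧ i ≤ c w v) ∨ (R v w ∧ c v w < i))).card ≤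
          a v i + b v i := by
        rw [Finset.filter_or]
        exact Finset.card_union_le _ _
      omega
    · intro v w hvw
      rcases hR v w hvw with h | h
      · rcases lt_or_ge (c v w) i with h' | h'
        · exact Or.inl (Or.inr ⟨h, h'⟩)
        · exact Or.inr (Or.inl ⟨h, h'⟩)
      · rcases lt_or_ge (c w v) i with h' | h'
        · exact Or.inr (Or.inr ⟨h, h'⟩)
        · exact Or.inl (Or.inl ⟨h, h'⟩)
  have h4 : M.card = ∑ v, (M.filter (fun p => p.2.1 = v)).card :=
    Finset.card_eq_sum_card_fiberwise (f := fun p : V × V × V => p.2.1) (t := univ)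
      (fun _ _ => by simp)
  calc Fintype.card V * N.choose 2 = ∑ _v : V, N.choose 2 := by
        rw [Finset.sum_const, Finset.card_univ, smul_eq_mul]
    _ ≤ ∑ v, ((M.filter (fun p => p.2.1 = v)).card +
        ∑ i ∈ range (m + 1), (N - (a v i + b v i)).choose 2) :=
        Finset.sum_le_sum fun v _ => h2 v
    _ = M.card + ∑ i ∈ range (m + 1), ∑ v, (N - (a v i + b v i)).choose 2 := by
        rw [Finset.sum_add_distrib, ← h4, Finset.sum_comm]
    _ ≤ M.card + ∑ _i ∈ range (m + 1), (N + 1).choose 3 := by
        have := Finset.sum_le_sum (s := range (m + 1)) fun i _ => h3 i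
        omega
    _ = M.card + (m + 1) * (N + 1).choose 3 := by
        rw [Finset.sum_const, card_range, smul_eq_mul]

/-- Walks: `W F R j x y` says that some walk of `R` with `j + 2` vertices ending with `x, y` has no
three consecutive vertices in `F`. -/
def W {V : Type*} (R : V → V → Prop) (F : Finset (V × V × V)) : ℕ → V → V → Prop
  | 0, x, y => R x y
  | j + 1, x, y => R x y ∧ ∃ w, W R F j w x ∧ (w, x, y) ∉ F

lemma W_rel {V : Type*} {R : V → V → Prop} {F : Finset (V × V × V)} {j : ℕ} {x y : V}
    (h : W R F j x y) : R x y := by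
  cases j with
  | zero => exact h
  | succ j => exact h.1

lemma W_seq {V : Type*} {R : V → V → Prop} {F : Finset (V × V × V)} : ∀ (j : ℕ) (x y : V),
    W R F j x y → ∃ s : ℕ → V, s j = x ∧ s (j + 1) = y ∧ (∀ i, i ≤ j → R (s i) (s (i + 1))) ∧
      (∀ i, i < j → (s i, s (i + 1), s (i + 2)) ∉ F) := by
  intro j
  induction j with
  | zero =>
    intro x y h
    refine ⟨fun i => if i = 0 then x else y, by simp, by simp, ?_, ?_⟩
    · intro i hi
      have : i = 0 := by omega
      subst this
      simp only [if_true, zero_add, one_ne_zero, if_false]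
      exact h
    · intro i hi
      omega
  | succ j ih =>
    rintro x y ⟨hxy, w, hw, hF⟩
    obtain ⟨s, hs1, hs2, hs3, hs4⟩ := ih w x hw
    refine ⟨fun i => if i = j + 2 then y else s i, ?_, ?_, ?_, ?_⟩
    · simp only
      rw [if_neg (by omega)]
      exact hs2
    · simp
    · intro i hi
      simp only
      rw [if_neg (by omega : ¬ i = j + 2)]
      rcases Nat.lt_or_ge i (j + 1) with h | h
      · rw [if_neg (by omega)]
        exact hs3 i (by omega)
      · have : i = j + 1 := by omega
        subst this
        rw [if_pos (by omega), hs2]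
        exact hxy
    · intro i hi
      simp only
      rw [if_neg (by omega : ¬ i = j + 2), if_neg (by omega : ¬ i + 1 = j + 2)]
      rcases Nat.lt_or_ge i j with h | h
      · rw [if_neg (by omega)]
        exact hs4 i h
      · have : i = j := by omega
        subst this
        rw [if_pos (by omega), hs1, hs2]
        exact hF

/-- the bound for sets of two-edge walks of a semicomplete digraph meeting all walks with `m + 2`
vertices -/
theorem walk_bound {V : Type*} [Fintype V] [DecidableEq V] (R : V → V → Prop) [DecidableRel R]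
    (hR : ∀ v w, v ≠ w → R v w ∨ R w v) (F : Finset (V × V × V)) (m : ℕ)
    (hF : ∀ s : ℕ → V, (∀ i, i ≤ m → R (s i) (s (i + 1))) →
      ∃ i, i < m ∧ (s i, s (i + 1), s (i + 2)) ∈ F) (N : ℕ) :
    Fintype.card V * N.choose 2 ≤ F.card + (m + 1) * (N + 1).choose 3 := by
  classical
  have hW : ∀ x y, ¬ W R F m x y := by
    intro x y h
    obtain ⟨s, -, -, h3, h4⟩ := W_seq m x y h
    obtain ⟨i, hi, hi2⟩ := hF s h3
    exact h4 i hi hi2
  let c : V → V → ℕ := fun x y => Nat.findGreatest (fun j => W R F j x y) m
  have hc1 : ∀ x y, R x y → W R F (c x y) x y := by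
    intro x y hxy
    have : (fun j => W R F j x y) 0 := hxy
    exact Nat.findGreatest_spec (P := fun j => W R F j x y) (Nat.zero_le m) this
  have hc2 : ∀ x y, R x y → c x y < m := by
    intro x y hxy
    rcases lt_or_eq_of_le (Nat.findGreatest_le (P := fun j => W R F j x y) m) with h | h
    · exact h
    · exact absurd (hc1 x y hxy) (by
        show ¬ W R F (Nat.findGreatest (fun j => W R F j x y) m) x y
        rw [h]
        exact hW x y)
  have h := label_bound R hR c m hc2 N
  have h2 : (univ.filter (fun p : V × V × V => R p.1 p.2.1 ∧ R p.2.1 p.2.2 ∧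
      c p.2.1 p.2.2 ≤ c p.1 p.2.1)) ⊆ F := by
    rintro ⟨x, v, y⟩ hp
    simp only [mem_filter, mem_univ, true_and] at hp
    by_contra hcon
    have h5 : W R F (c x v + 1) v y := ⟨hp.2.1, x, hc1 x v hp.1, hcon⟩
    have h6 : c x v + 1 ≤ c v y :=
      Nat.le_findGreatest (P := fun j => W R F j v y) (hc2 x v hp.1) h5
    omega
  have h3 := Finset.card_le_card h2
  omega

end Pool.Agent.Q118.ConsecTuran
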