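import Pool.Agent.Q118.ConsecTuran

/-!
The linear order: families of triples such that every `k` increasing points contain three
consecutive ones forming a member.
-/

namespace Pool.Agent.Q118.ConsecTuran

open Finset

lemma triple_inj {n : ℕ} {x y z x' y' z' : Fin n} (h1 : x < y) (h2 : y < z) (h1' : x' < y')
    (h2' : y' < z') (h : ({x, y, z} : Finset (Fin n)) = {x', y', z'}) :
    x = x' ∧ y = y' ∧ z = z' := by
  have hx : x ∈ ({x', y', z'} : Finset (Fin n)) := by rw [← h]; simp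
  have hy : y ∈ ({x', y', z'} : Finset (Fin n)) := by rw [← h]; simp
  have hz : z ∈ ({x', y', z'} : Finset (Fin n)) := by rw [← h]; simp
  have hx' : x' ∈ ({x, y, z} : Finset (Fin n)) := by rw [h]; simp
  have hy' : y' ∈ ({x, y, z} : Finset (Fin n)) := by rw [h]; simp
  have hz' : z' ∈ ({x, y, z} : Finset (Fin n)) := by rw [h]; simp
  simp only [mem_insert, mem_singleton, Fin.ext_iff] at hx hy hz hx' hy' hz'
  simp only [Fin.lt_def] at h1 h2 h1' h2'
  simp only [Fin.ext_iff]
  omega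

/-- Every increasing sequence of `k` points has three consecutive members forming a set of `F`. -/
def Consec (n k : ℕ) (F : Finset (Finset (Fin n))) : Prop :=
  ∀ x : Fin k → Fin n, StrictMono x → ∃ i : ℕ, ∃ h : i + 2 < k,
    ({x ⟨i, by omega⟩, x ⟨i + 1, by omega⟩, x ⟨i + 2, h⟩} : Finset (Fin n)) ∈ F

theorem order_bound (n k : ℕ) (hk : 2 ≤ k) (F : Finset (Finset (Fin n)))
    (hF : Consec n k F) (N : ℕ) :
    n * N.choose 2 ≤ F.card + (k - 1) * (N + 1).choose 3 := by
  classical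
  obtain ⟨m, rfl⟩ : ∃ m, k = m + 2 := ⟨k - 2, by omega⟩
  set G : Finset (Fin n × Fin n × Fin n) := univ.filter (fun p => p.1 < p.2.1 ∧ p.2.1 < p.2.2 ∧
    ({p.1, p.2.1, p.2.2} : Finset (Fin n)) ∈ F) with hG
  have h1 : G.card ≤ F.card := by
    apply Finset.card_le_card_of_injOn
      (fun p : Fin n × Fin n × Fin n => ({p.1, p.2.1, p.2.2} : Finset (Fin n)))
    · intro p hp
      rw [Finset.mem_coe, hG, mem_filter] at hp
      exact hp.2.2.2
    · rintro ⟨x, y, z⟩ hp ⟨x', y', z'⟩ hp' h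
      rw [Finset.mem_coe, hG, mem_filter] at hp hp'
      obtain ⟨g1, g2, g3⟩ := triple_inj hp.2.1 hp.2.2.1 hp'.2.1 hp'.2.2.1 h
      simp only at g1 g2 g3
      rw [g1, g2, g3]
  have h2 := walk_bound (fun v w : Fin n => v < w) (fun v w h => lt_or_gt_of_ne h) G m ?_ N
  · rw [Fintype.card_fin] at h2
    have : m + 2 - 1 = m + 1 := by omega
    rw [this]
    omega
  · intro s hs
    have hx : StrictMono (fun i : Fin (m + 2) => s i) := by
      have : StrictMono (fun i : Fin (m + 1 + 1) => s i) := by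
        rw [Fin.strictMono_iff_lt_succ]
        intro i
        have hi := i.2
        exact hs i (by omega)
      exact this
    obtain ⟨i, hi, hi2⟩ := hF _ hx
    refine ⟨i, by omega, ?_⟩
    rw [hG, mem_filter]
    exact ⟨mem_univ _, hs i (by omega), hs (i + 1) (by omega), hi2⟩

/-- `∑ C(n_i, 3)` over a partition of `n` points into `s` parts of almost equal sizes. -/
def turanValue (n s : ℕ) : ℕ := (s - n % s) * (n / s).choose 3 + (n % s) * (n / s + 1).choose 3

lemma choose_identity (q : ℕ) : q * q.choose 2 = q.choose 3 + 2 * (q + 1).choose 3 := by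
  have h1 : (q + 1).choose 3 = q.choose 2 + q.choose 3 := Nat.choose_succ_succ q 2
  have h2 : q.choose 3 * 3 = q.choose 2 * (q - 2) := Nat.choose_succ_right_eq q 2
  rcases Nat.lt_or_ge q 2 with h | h
  · have h3 : q.choose 2 = 0 := Nat.choose_eq_zero_of_lt h
    have h4 : q.choose 3 = 0 := Nat.choose_eq_zero_of_lt (by omega)
    rw [h1, h3, h4]
    simp
  · obtain ⟨r, rfl⟩ : ∃ r, q = r + 2 := ⟨q - 2, by omega⟩
    have h3 : r + 2 - 2 = r := by omega
    rw [h3] at h2
    rw [h1]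
    nlinarith

lemma turanValue_eq (n s : ℕ) (hs : 0 < s) :
    turanValue n s + 2 * s * (n / s + 1).choose 3 = n * (n / s).choose 2 := by
  unfold turanValue
  have h1 := choose_identity (n / s)
  have h2 : (n / s + 1).choose 3 = (n / s).choose 2 + (n / s).choose 3 :=
    Nat.choose_succ_succ (n / s) 2
  have h3 : s * (n / s) + n % s = n := Nat.div_add_mod n s
  have h4 : n % s < s := Nat.mod_lt n hs
  set q := n / s
  set r := n % s
  obtain ⟨d, hd⟩ : ∃ d, s = r + d := ⟨s - r, by omega⟩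
  have h5 : s - r = d := by omega
  rw [h5]
  have h6 : n * q.choose 2 = s * (q * q.choose 2) + r * q.choose 2 := by
    rw [← h3]; ring
  rw [h6, h1, h2, hd]
  ring

theorem order_exact (n s : ℕ) (hs : 0 < s) (F : Finset (Finset (Fin n)))
    (hF : Consec n (2 * s + 1) F) : turanValue n s ≤ F.card := by
  have h1 := order_bound n (2 * s + 1) (by omega) F hF (n / s)
  have h2 := turanValue_eq n s hs
  have h3 : 2 * s + 1 - 1 = 2 * s := by omega
  rw [h3] at h1
  omega

/-- the continuous form of the bound -/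
theorem order_density (n k : ℕ) (hk : 2 ≤ k) (F : Finset (Finset (Fin n)))
    (hF : Consec n k F) :
    n * (n - (k - 1)) * (2 * n - (k - 1)) ≤ 3 * (k - 1) ^ 2 * F.card := by
  obtain ⟨K, hK⟩ : ∃ K, k = K + 1 := ⟨k - 1, by omega⟩
  subst hK
  have hK1 : K + 1 - 1 = K := by omega
  rw [hK1]
  rcases Nat.lt_or_ge n K with hn | hn
  · have : n - K = 0 := by omega
    rw [this]
    simp
  have h1 := order_bound n (K + 1) hk F hF (2 * n / K)
  rw [hK1] at h1
  have hKpos : 0 < K := by omega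
  have h2 : K * (2 * n / K) + 2 * n % K = 2 * n := Nat.div_add_mod _ _
  have h3 : 2 * n % K < K := Nat.mod_lt _ hKpos
  generalize 2 * n / K = N at h1 h2
  generalize 2 * n % K = ρ at h2 h3
  have hN : 1 ≤ N := by
    by_contra hN
    have hN0 : N = 0 := Nat.eq_zero_of_not_pos hN
    rw [hN0, mul_zero, zero_add] at h2
    omega
  have h4 := two_mul_choose N
  have h5 : (N + 1).choose 3 * 3 = (N + 1).choose 2 * (N + 1 - 2) :=
    Nat.choose_succ_right_eq (N + 1) 2
  have h6 := two_mul_choose (N + 1)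
  obtain ⟨P, hP⟩ : ∃ P, N = P + 1 := ⟨N - 1, by omega⟩
  have h7 : N + 1 - 2 = P := by omega
  rw [h7] at h5
  zify [hn, (by omega : K ≤ 2 * n)]
  zify at h1 h2 h3 h5 hKpos
  have hn' : (K : ℤ) ≤ n := by exact_mod_cast hn
  have hPN : (P : ℤ) = N - 1 := by rw [hP]; push_cast; ring
  rw [hPN] at h5
  push_cast at h6
  set c2 : ℤ := (N.choose 2 : ℤ)
  set c3 : ℤ := ((N + 1).choose 3 : ℤ)
  set d2 : ℤ := ((N + 1).choose 2 : ℤ)
  set f : ℤ := (F.card : ℤ)
  have e1 : 6 * c3 = ((N : ℤ) + 1) * N * (N - 1) := by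
    have : 6 * c3 = (2 * d2) * (N - 1) := by linarith
    rw [this, h6]; ring
  have e2 : 6 * ((n : ℤ) * c2) = 3 * n * (N * (N - 1)) := by
    have : 6 * ((n : ℤ) * c2) = 3 * n * (2 * c2) := by ring
    rw [this, h4]; ring
  -- `6 f ≥ N (N-1) (3 n - K (N+1))`
  have e3 : (N : ℤ) * (N - 1) * (3 * n - K * (N + 1)) ≤ 6 * f := by
    have : (N : ℤ) * (N - 1) * (3 * n - K * (N + 1)) = 6 * (n * c2) - K * (6 * c3) := by
      rw [e1, e2]; ring
    rw [this]
    linarith
  have e4 : (K : ℤ) * N = 2 * n - ρ := by linarith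
  have e5 : (2 * n - (ρ : ℤ)) * (2 * n - ρ - K) * (n + ρ - K) ≤ 6 * K ^ 2 * f := by
    have : (2 * n - (ρ : ℤ)) * (2 * n - ρ - K) * (n + ρ - K) =
        K ^ 2 * ((N : ℤ) * (N - 1) * (3 * n - K * (N + 1))) := by
      have h8 : K ^ 2 * ((N : ℤ) * (N - 1) * (3 * n - K * (N + 1))) =
          (K * N) * (K * N - K) * (3 * n - K * N - K) := by ring
      rw [h8, e4]; ring
    rw [this]
    nlinarith [mul_le_mul_of_nonneg_left e3 (by positivity : (0 : ℤ) ≤ K ^ 2)]
  have hρ0 : (0 : ℤ) ≤ ρ := by positivity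
  have e6 : 0 ≤ (ρ : ℤ) * (K - ρ) * (3 * n - K - ρ) := by
    have g1 : (0 : ℤ) ≤ K - ρ := by linarith
    have g2 : (0 : ℤ) ≤ 3 * n - K - ρ := by linarith
    positivity
  have e7 : (2 * n - (ρ : ℤ)) * (2 * n - ρ - K) * (n + ρ - K) =
      2 * n * (2 * n - K) * (n - K) + ρ * (K - ρ) * (3 * n - K - ρ) := by ring
  nlinarith

end Pool.Agent.Q118.ConsecTuran
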