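import Pool.Agent.Q118.DStar
import Pool.Agent.Q118.Conference
set_option autoImplicit false
open Finset
open scoped Classical

/-!
Counting common neighbours in the opposite colour.
-/

namespace Pool.Agent.Q118.DCount

open Pool.Agent.Q118.ShallowTree Pool.Agent.Q118.DStar

variable {N : ℕ}

/-- The vertices joined to both `u` and `v` in the colour opposite to the colour of `u v`. -/
noncomputable def opp (R : SimpleGraph (Fin N)) (u v : Fin N) : Finset (Fin N) :=
  univ.filter fun w => w ≠ u ∧ w ≠ v ∧ (R.Adj u w ↔ R.Adj v w) ∧ ¬ (R.Adj u w ↔ R.Adj u v)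

/-- The signed adjacency matrix. -/
noncomputable def sg (R : SimpleGraph (Fin N)) (u v : Fin N) : ℤ :=
  if u = v then 0 else if R.Adj u v then 1 else -1

theorem sg_self (R : SimpleGraph (Fin N)) (u : Fin N) : sg R u u = 0 := by simp [sg]

theorem sg_comm (R : SimpleGraph (Fin N)) (u v : Fin N) : sg R u v = sg R v u := by
  unfold sg
  by_cases h : u = v
  · simp [h]
  · rw [if_neg h, if_neg (Ne.symm h), SimpleGraph.adj_comm]

theorem sg_sq (R : SimpleGraph (Fin N)) {u v : Fin N} (h : u ≠ v) : sg R u v * sg R u v = 1 := by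
  unfold sg
  rw [if_neg h]
  split <;> norm_num

theorem pointwise (R : SimpleGraph (Fin N)) {u v : Fin N} (huv : u ≠ v) (w : Fin N) :
    4 * (if w ∈ opp R u v then 1 else 0 : ℤ) =
      1 + sg R u w * sg R v w - sg R u v * (sg R u w + sg R v w) := by
  by_cases h1 : w = u
  · subst h1
    have h2 : w ∉ opp R w v := by simp [opp]
    rw [if_neg h2, sg_self, sg_comm R v w]
    have := sg_sq R huv
    linarith
  by_cases h2 : w = v
  · subst h2
    have h3 : w ∉ opp R u w := by simp [opp]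
    rw [if_neg h3, sg_self]
    have := sg_sq R huv
    linarith
  have h3 : w ∈ opp R u v ↔ ((R.Adj u w ↔ R.Adj v w) ∧ ¬ (R.Adj u w ↔ R.Adj u v)) := by
    simp only [opp, mem_filter, mem_univ, true_and]
    exact ⟨fun h => h.2.2, fun h => ⟨h1, h2, h⟩⟩
  rw [if_congr h3 rfl rfl]
  unfold sg
  rw [if_neg huv, if_neg (Ne.symm h1), if_neg (Ne.symm h2)]
  by_cases a : R.Adj u v <;> by_cases b : R.Adj u w <;> by_cases c : R.Adj v w <;> simp [a, b, c]

/-- Row sums of the signed adjacency matrix. -/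
noncomputable def rs (R : SimpleGraph (Fin N)) (u : Fin N) : ℤ := ∑ w, sg R u w

/-- Inner products of rows. -/
noncomputable def ip (R : SimpleGraph (Fin N)) (u v : Fin N) : ℤ := ∑ w, sg R u w * sg R v w

theorem card_opp (R : SimpleGraph (Fin N)) {u v : Fin N} (huv : u ≠ v) :
    4 * ((opp R u v).card : ℤ) = N + ip R u v - sg R u v * (rs R u + rs R v) := by
  have h1 : ((opp R u v).card : ℤ) = ∑ w, (if w ∈ opp R u v then 1 else 0 : ℤ) := by
    rw [sum_ite_mem, univ_inter, sum_const, nsmul_eq_mul, mul_one]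
  rw [h1, mul_sum, sum_congr rfl fun w _ => pointwise R huv w, sum_sub_distrib, sum_add_distrib,
    ← mul_sum, sum_add_distrib]
  simp [ip, rs]

theorem ip_self (R : SimpleGraph (Fin N)) (u : Fin N) : ip R u u = N - 1 := by
  unfold ip
  rw [← add_sum_erase univ _ (mem_univ u), sg_self, zero_mul, zero_add,
    sum_congr rfl (g := fun _ => (1 : ℤ)) fun w hw => sg_sq R (ne_of_mem_erase hw).symm, sum_const,
    card_erase_of_mem (mem_univ u), card_univ, Fintype.card_fin, nsmul_eq_mul, mul_one,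
    Nat.cast_sub (show 1 ≤ N from u.pos), Nat.cast_one]

theorem sum_ip (R : SimpleGraph (Fin N)) : ∑ u, ∑ v, ip R u v = ∑ w, rs R w ^ 2 := by
  unfold ip rs
  have h1 : ∀ u, ∑ v, ∑ w, sg R u w * sg R v w = ∑ w, ∑ v, sg R u w * sg R v w := fun u =>
    sum_comm
  simp only [h1]
  rw [sum_comm]
  refine sum_congr rfl fun w _ => ?_
  rw [pow_two, sum_mul_sum]
  refine sum_congr rfl fun u _ => sum_congr rfl fun v _ => ?_
  rw [sg_comm R u w, sg_comm R v w]

theorem sum_sg (R : SimpleGraph (Fin N)) :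
    ∑ u, ∑ v, sg R u v * (rs R u + rs R v) = 2 * ∑ w, rs R w ^ 2 := by
  simp only [mul_add, sum_add_distrib]
  have h1 : ∑ u, ∑ v, sg R u v * rs R u = ∑ w, rs R w ^ 2 := by
    refine sum_congr rfl fun u _ => ?_
    rw [← sum_mul, pow_two]
    rfl
  have h2 : ∑ u, ∑ v, sg R u v * rs R v = ∑ w, rs R w ^ 2 := by
    rw [sum_comm]
    refine sum_congr rfl fun u _ => ?_
    rw [← sum_mul, pow_two]
    congr 1
    exact sum_congr rfl fun v _ => sg_comm R v u
  rw [h1, h2]
  ring

theorem count_bound {k : ℕ} (hN : 2 ≤ N) (R : SimpleGraph (Fin N))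
    (h : ∀ u v, u ≠ v → k ≤ (opp R u v).card) :
    4 * k + 1 ≤ N ∧ (4 * k + 1 = N → (∀ u, rs R u = 0) ∧ ∀ u v, u ≠ v → ip R u v = -1) := by
  set F : Fin N → Fin N → ℤ := fun u v => N + ip R u v - sg R u v * (rs R u + rs R v) with hF
  set D : Fin N → Fin N → ℤ := fun u v => if u = v then 2 * N - 1 else 4 * k with hD
  have hDF : ∀ u v, D u v ≤ F u v := by
    intro u v
    by_cases huv : u = v
    · subst huv
      simp only [hD, hF, if_true, sg_self, ip_self]
      linarith
    · simp only [hD, hF, if_neg huv]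
      rw [← card_opp R huv]
      have := h u v huv
      exact_mod_cast Nat.mul_le_mul_left 4 this
  have hsumF : ∑ u, ∑ v, F u v = (N : ℤ) ^ 3 - ∑ w, rs R w ^ 2 := by
    simp only [hF, sum_sub_distrib, sum_add_distrib]
    rw [sum_ip, sum_sg]
    simp only [sum_const, card_univ, Fintype.card_fin, nsmul_eq_mul]
    ring
  have hsumD : ∑ u, ∑ v, D u v = (N : ℤ) * (2 * N - 1) + 4 * k * (N * (N - 1)) := by
    have h1 : ∀ u : Fin N, ∑ v, D u v = (2 * (N : ℤ) - 1) + 4 * k * (N - 1) := by
      intro u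
      rw [← add_sum_erase univ _ (mem_univ u)]
      have h2 : ∀ v ∈ univ.erase u, D u v = 4 * k := fun v hv => by
        simp only [hD, if_neg (ne_of_mem_erase hv).symm]
      rw [sum_congr rfl h2, sum_const, card_erase_of_mem (mem_univ u), card_univ, Fintype.card_fin]
      simp only [hD, if_true, nsmul_eq_mul]
      rw [Nat.cast_sub (show 1 ≤ N by omega), Nat.cast_one]
      ring
    simp only [h1, sum_const, card_univ, Fintype.card_fin, nsmul_eq_mul]
    ring
  have hle : ∑ u, ∑ v, D u v ≤ ∑ u, ∑ v, F u v :=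
    sum_le_sum fun u _ => sum_le_sum fun v _ => hDF u v
  rw [hsumF, hsumD] at hle
  have hsq : 0 ≤ ∑ w, rs R w ^ 2 := sum_nonneg fun w _ => sq_nonneg _
  have hN' : (2 : ℤ) ≤ N := by exact_mod_cast hN
  have hprod : 0 < (N : ℤ) * (N - 1) := by nlinarith
  have hkey : 0 ≤ (N : ℤ) * (N - 1) * (N - 1 - 4 * k) - ∑ w, rs R w ^ 2 := by
    have : (N : ℤ) * (N - 1) * (N - 1 - 4 * k) =
      N ^ 3 - (N * (2 * N - 1) + 4 * k * (N * (N - 1))) := by ring
    rw [this]
    linarith
  have hk : 0 ≤ (N : ℤ) - 1 - 4 * k := by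
    by_contra hneg
    push Not at hneg
    have := mul_neg_of_pos_of_neg hprod hneg
    linarith
  refine ⟨by omega, fun heq => ?_⟩
  have heq' : (N : ℤ) = 4 * k + 1 := by exact_mod_cast heq.symm
  have hz : (N : ℤ) - 1 - 4 * k = 0 := by linarith
  rw [hz, mul_zero] at hkey
  have hsq0 : ∑ w, rs R w ^ 2 = 0 := by linarith
  have hrs : ∀ u, rs R u = 0 := fun u => by
    have := (sum_eq_zero_iff_of_nonneg fun w _ => sq_nonneg (rs R w)).1 hsq0 u (mem_univ u)
    exact pow_eq_zero_iff (two_ne_zero) |>.1 this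
  refine ⟨hrs, fun u v huv => ?_⟩
  have hdiff : ∑ u, ∑ v, (F u v - D u v) = 0 := by
    simp only [sum_sub_distrib]
    rw [hsumF, hsumD, hsq0, heq']
    ring
  have h1 := (sum_eq_zero_iff_of_nonneg fun u _ => sum_nonneg fun v _ =>
    sub_nonneg.2 (hDF u v)).1 hdiff u (mem_univ u)
  have h2 := (sum_eq_zero_iff_of_nonneg fun v _ => sub_nonneg.2 (hDF u v)).1 h1 v (mem_univ v)
  simp only [hF, hD, if_neg huv, hrs, add_zero, mul_zero, sub_zero] at h2
  linarith

/-- There is no colouring of 21 points in which every pair has five opposite common neighbours. -/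
theorem no_21 (R : SimpleGraph (Fin 21)) (h : ∀ u v, u ≠ v → 5 ≤ (opp R u v).card) : False := by
  obtain ⟨-, h1⟩ := count_bound (k := 5) (by norm_num) R h
  obtain ⟨hrs, hip⟩ := h1 (by norm_num)
  let C : Fin 22 → Fin 22 → ℚ := fun i j =>
    Fin.cases (motive := fun _ => ℚ) (Fin.cases (motive := fun _ => ℚ) 0 (fun _ => 1) j)
      (fun a => Fin.cases (motive := fun _ => ℚ) 1 (fun b => (sg R a b : ℚ)) j) i
  refine Conference.no_conference C fun x => ?_
  rw [Fin.sum_univ_succ, Fin.sum_univ_succ (n := 21) (f := fun i => x i ^ 2)]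
  have e0 : ∑ j, C 0 j * x j = ∑ b : Fin 21, x b.succ := by
    rw [Fin.sum_univ_succ]
    simp [C]
  have e1 : ∀ a : Fin 21, ∑ j, C a.succ j * x j = x 0 + ∑ b : Fin 21, (sg R a b : ℚ) * x b.succ := by
    intro a
    rw [Fin.sum_univ_succ]
    simp [C]
  rw [e0]
  simp only [e1, add_sq, sum_add_distrib]
  have hcol : ∀ b : Fin 21, ∑ a : Fin 21, (sg R a b : ℚ) = 0 := by
    intro b
    have h2 : ∑ a : Fin 21, sg R a b = 0 := by
      rw [← hrs b]
      exact sum_congr rfl fun a _ => sg_comm R a b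
    exact_mod_cast h2
  have e2 : ∑ a : Fin 21, 2 * x 0 * ∑ b : Fin 21, (sg R a b : ℚ) * x b.succ = 0 := by
    rw [← mul_sum, sum_comm]
    have : ∀ b : Fin 21, ∑ a : Fin 21, (sg R a b : ℚ) * x b.succ = 0 := fun b => by
      rw [← sum_mul, hcol, zero_mul]
    simp [this]
  have hipq : ∀ b c : Fin 21, ∑ a : Fin 21, (sg R a b : ℚ) * (sg R a c : ℚ) =
      if b = c then 20 else -1 := by
    intro b c
    have h2 : ∑ a : Fin 21, sg R a b * sg R a c = ip R b c := by
      unfold ip
      exact sum_congr rfl fun a _ => by rw [sg_comm R a b, sg_comm R a c]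
    have h3 : ip R b c = if b = c then 20 else -1 := by
      by_cases hbc : b = c
      · rw [if_pos hbc, hbc, ip_self]
        norm_num
      · rw [if_neg hbc]
        exact hip b c hbc
    have h4 : ((∑ a : Fin 21, sg R a b * sg R a c : ℤ) : ℚ) = if b = c then 20 else -1 := by
      rw [h2, h3]
      split <;> norm_num
    rw [← h4]
    push_cast
    rfl
  have e3 : ∑ a : Fin 21, (∑ b : Fin 21, (sg R a b : ℚ) * x b.succ) ^ 2 =
      21 * ∑ b : Fin 21, x b.succ ^ 2 - (∑ b : Fin 21, x b.succ) ^ 2 := by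
    have h2 : ∀ a : Fin 21, (∑ b : Fin 21, (sg R a b : ℚ) * x b.succ) ^ 2 =
        ∑ b : Fin 21, ∑ c : Fin 21, (x b.succ * x c.succ) * ((sg R a b : ℚ) * (sg R a c : ℚ)) := by
      intro a
      rw [pow_two, sum_mul_sum]
      refine sum_congr rfl fun b _ => sum_congr rfl fun c _ => ?_
      ring
    simp only [h2]
    rw [sum_comm]
    have h3 : ∀ b : Fin 21, ∑ a : Fin 21, ∑ c : Fin 21, (x b.succ * x c.succ) *
        ((sg R a b : ℚ) * (sg R a c : ℚ)) = 21 * x b.succ ^ 2 -
          x b.succ * ∑ c : Fin 21, x c.succ := by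
      intro b
      rw [sum_comm]
      have h4 : ∀ c : Fin 21, ∑ a : Fin 21, (x b.succ * x c.succ) *
        ((sg R a b : ℚ) * (sg R a c : ℚ)) = (if b = c then 21 * x b.succ ^ 2 else 0) -
          x b.succ * x c.succ := by
        intro c
        rw [← mul_sum, hipq]
        by_cases hbc : b = c
        · rw [if_pos hbc, if_pos hbc, hbc]; ring
        · rw [if_neg hbc, if_neg hbc]; ring
      simp only [h4, sum_sub_distrib, sum_ite_eq, mem_univ, if_true, ← mul_sum]
    simp only [h3, sum_sub_distrib, ← mul_sum, ← sum_mul]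
    ring
  rw [e2, e3]
  simp only [sum_const, card_univ, Fintype.card_fin, nsmul_eq_mul]
  push_cast
  ring

end Pool.Agent.Q118.DCount
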