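import Pool.Agent.Q118.ShallowTree
set_option autoImplicit false
open Finset

/-!
Two-colourings in which every pair has many common neighbours in the opposite colour.
-/

namespace Pool.Agent.Q118.DStar

open Pool.Agent.Q118.ShallowTree

/-- There is a symmetric two-colouring of pairs (with repetition) of `N` points in which every two
points have at least `k` common neighbours in the colour opposite to their own. -/
def Good (N k : ℕ) : Prop :=
  ∃ A : Fin N → Fin N → Bool, (∀ u v, A u v = A v u) ∧
    ∀ u v, k ≤ (univ.filter fun w => A u w = A v w ∧ A u w ≠ A u v).card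

theorem Good.mono {N k l : ℕ} (h : Good N k) (hl : l ≤ k) : Good N l := by
  obtain ⟨A, hA, h⟩ := h
  exact ⟨A, hA, fun u v => hl.trans (h u v)⟩

theorem good_zero (N : ℕ) : Good N 0 := ⟨fun _ _ => false, fun _ _ => rfl, fun _ _ => Nat.zero_le _⟩

theorem Good.blow {q t m M : ℕ} (hq : 0 < q) (h : Good q t) (hM : q * m ≤ M) : Good M (t * m) := by
  obtain ⟨A, hA, h⟩ := h
  let φ : Fin M → Fin q := fun i => ⟨i % q, Nat.mod_lt _ hq⟩
  have hfib : ∀ c : Fin q, m ≤ (univ.filter fun i => φ i = c).card := by
    intro c
    have hlt : ∀ j : Fin m, (c : ℕ) + q * j < M := by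
      intro j
      have h1 := c.2
      have h2 := j.2
      have h3 : q * (j + 1) ≤ q * m := Nat.mul_le_mul_left _ h2
      rw [Nat.mul_add] at h3
      omega
    let ψ : Fin m → Fin M := fun j => ⟨c + q * j, hlt j⟩
    have hψ : Function.Injective ψ := by
      intro a b hab
      have h1 : (c : ℕ) + q * a = c + q * b := congrArg Fin.val hab
      have h2 : q * (a : ℕ) = q * b := by omega
      exact Fin.ext (Nat.eq_of_mul_eq_mul_left hq h2)
    calc m = (univ.image ψ).card := by rw [card_image_of_injective _ hψ, card_univ, Fintype.card_fin]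
      _ ≤ _ := card_le_card (by
        intro i hi
        rw [mem_image] at hi
        obtain ⟨j, -, rfl⟩ := hi
        rw [mem_filter]
        refine ⟨mem_univ _, Fin.ext ?_⟩
        change ((c : ℕ) + q * j) % q = c
        rw [Nat.add_mul_mod_self_left, Nat.mod_eq_of_lt c.2])
  refine ⟨fun u v => A (φ u) (φ v), fun u v => hA _ _, fun u v => ?_⟩
  set S := univ.filter fun w => A (φ u) w = A (φ v) w ∧ A (φ u) w ≠ A (φ u) (φ v) with hS
  have h1 : (univ.filter fun w => A (φ u) (φ w) = A (φ v) (φ w) ∧
      A (φ u) (φ w) ≠ A (φ u) (φ v)).card = ∑ c ∈ S, ((univ.filter fun w =>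
      A (φ u) (φ w) = A (φ v) (φ w) ∧ A (φ u) (φ w) ≠ A (φ u) (φ v)).filter
        fun w => φ w = c).card := by
    apply card_eq_sum_card_fiberwise
    intro w hw
    simp only [coe_filter, mem_univ, true_and, Set.mem_ofPred_eq] at hw
    simp only [hS, coe_filter, mem_univ, true_and, Set.mem_ofPred_eq]
    exact hw
  rw [h1]
  have h2 : ∀ c ∈ S, m ≤ ((univ.filter fun w =>
      A (φ u) (φ w) = A (φ v) (φ w) ∧ A (φ u) (φ w) ≠ A (φ u) (φ v)).filter
        fun w => φ w = c).card := by
    intro c hc
    refine (hfib c).trans (card_le_card ?_)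
    intro i hi
    rw [mem_filter] at hi
    rw [hS, mem_filter] at hc
    rw [mem_filter, mem_filter, hi.2]
    exact ⟨⟨mem_univ _, hc.2⟩, rfl⟩
  calc t * m ≤ S.card * m := Nat.mul_le_mul_right _ (h _ _)
    _ = ∑ _c ∈ S, m := by rw [sum_const, smul_eq_mul]
    _ ≤ _ := sum_le_sum h2

theorem Good.delete {N k : ℕ} (h : Good (N + 1) k) : Good N (k - 1) := by
  obtain ⟨A, hA, h⟩ := h
  refine ⟨fun u v => A u.castSucc v.castSucc, fun u v => hA _ _, fun u v => ?_⟩
  have h1 := h u.castSucc v.castSucc
  have h2 : (univ.filter fun w => A u.castSucc w = A v.castSucc w ∧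
      A u.castSucc w ≠ A u.castSucc v.castSucc) ⊆ insert (Fin.last N)
      ((univ.filter fun w : Fin N => A u.castSucc w.castSucc = A v.castSucc w.castSucc ∧
        A u.castSucc w.castSucc ≠ A u.castSucc v.castSucc).map Fin.castSuccEmb) := by
    intro w hw
    rw [mem_filter] at hw
    rw [mem_insert]
    induction w using Fin.lastCases with
    | last => exact Or.inl rfl
    | cast w =>
      right
      rw [mem_map]
      exact ⟨w, by rw [mem_filter]; exact ⟨mem_univ _, hw.2⟩, rfl⟩
  have h3 := (card_le_card h2).trans (card_insert_le _ _)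
  rw [card_map] at h3
  change k - 1 ≤ (univ.filter fun w : Fin N => A u.castSucc w.castSucc = A v.castSucc w.castSucc ∧
        A u.castSucc w.castSucc ≠ A u.castSucc v.castSucc).card
  omega

theorem Good.delete_many {N k : ℕ} (j : ℕ) : Good (N + j) k → Good N (k - j) := by
  induction j generalizing k with
  | zero => exact fun h => h
  | succ j ih =>
    intro h
    have h1 := ih (Good.delete (by rw [add_assoc]; exact h))
    rwa [Nat.sub_sub, add_comm 1 j] at h1

/-- Blow up by `m` and then delete `j` points. -/
theorem Good.general {q t : ℕ} (hq : 0 < q) (h : Good q t) (m j M : ℕ) (hM : q * m ≤ M + j) :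
    Good M (t * m - j) :=
  Good.delete_many j (h.blow hq hM)

/-- The matrix whose rows are the binary expansions of the numbers in the list. -/
def mat (l : List ℕ) {q : ℕ} (i j : Fin q) : Bool := (l.getD i 0).testBit j

theorem good_5 : Good 5 1 := ⟨mat [18, 5, 10, 20, 9], by decide, by decide⟩

theorem good_9 : Good 9 2 :=
  ⟨mat [78, 149, 291, 113, 170, 284, 393, 338, 228], by decide +kernel, by decide +kernel⟩

theorem good_13 : Good 13 3 :=
  ⟨mat [5658, 3125, 6250, 4309, 427, 854, 1708, 3416, 6832, 5473, 2755, 5510, 2829],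
    by decide +kernel, by decide +kernel⟩

theorem good_17 : Good 17 4 :=
  ⟨mat [107286, 83501, 35931, 71862, 12653, 25306, 50612, 101224, 71377, 11683, 23366, 46732,
    93464, 55857, 111714, 92357, 53643], by decide +kernel, by decide +kernel⟩

theorem good_22 : Good 22 5 :=
  ⟨mat [3854732, 3516184, 3885617, 3576931, 4008134, 734796, 452792, 873809, 700035, 383270,
    2312618, 2496340, 2894505, 2675058, 2205381, 1467211, 1853110, 1609069, 1153754, 1257909,
    3112991, 1080351], by decide +kernel, by decide +kernel⟩

theorem good_29 : Good 29 7 :=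
  ⟨mat [332473074, 128075237, 256150474, 512300948, 487730985, 438591059, 340311207, 143751503,
    287503006, 38135101, 76270202, 152540404, 305080808, 73290705, 146581410, 293162820, 49454729,
    98909458, 197818916, 395637832, 254404753, 508809506, 480748101, 424625291, 312379671,
    87888431, 175776862, 351553724, 166236537], by decide +kernel, by decide +kernel⟩

/-- The colourings needed above the formula. -/
theorem good_above {k r : ℕ} (hr : 1 ≤ r) (hr4 : r ≤ 4) (hk : r + 1 ≤ k)
    (hex : ¬ (k = 5 ∧ r = 4)) : Good (5 * k - r) k := by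
  have hbig : 16 ≤ k → Good (5 * k - r) k := by
    intro h16
    have h := Good.general (by norm_num) good_13 ((k + 2) / 3) (3 * ((k + 2) / 3) - k) (5 * k - r)
      (by omega)
    exact h.mono (by omega)
  by_cases h16 : 16 ≤ k
  · exact hbig h16
  have hcase : k = 2 ∨ k = 3 ∨ k = 4 ∨ k = 5 ∨ k = 6 ∨ k = 7 ∨ k = 8 ∨ k = 9 ∨ k = 10 ∨ k = 11 ∨
    k = 12 ∨ k = 13 ∨ k = 14 ∨ k = 15 := by omega
  rcases hcase with rfl | rfl | rfl | rfl | rfl | rfl | rfl | rfl | rfl | rfl | rfl | rfl | rfl |
    rfl
  · exact (Good.general (by norm_num) good_9 1 0 _ (by omega)).mono (by norm_num)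
  · exact (Good.general (by norm_num) good_13 1 0 _ (by omega)).mono (by norm_num)
  · exact (Good.general (by norm_num) good_17 1 0 _ (by omega)).mono (by norm_num)
  · exact (Good.general (by norm_num) good_22 1 0 _ (by omega)).mono (by norm_num)
  · exact (Good.general (by norm_num) good_13 2 0 _ (by omega)).mono (by norm_num)
  · exact (Good.general (by norm_num) good_29 1 0 _ (by omega)).mono (by norm_num)
  · exact (Good.general (by norm_num) good_17 2 0 _ (by omega)).mono (by norm_num)
  · exact (Good.general (by norm_num) good_13 3 0 _ (by omega)).mono (by norm_num)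
  · exact (Good.general (by norm_num) good_22 2 0 _ (by omega)).mono (by norm_num)
  · exact (Good.general (by norm_num) good_13 4 1 _ (by omega)).mono (by norm_num)
  · exact (Good.general (by norm_num) good_13 4 0 _ (by omega)).mono (by norm_num)
  · exact (Good.general (by norm_num) good_29 2 1 _ (by omega)).mono (by norm_num)
  · exact (Good.general (by norm_num) good_13 5 1 _ (by omega)).mono (by norm_num)
  · exact (Good.general (by norm_num) good_13 5 0 _ (by omega)).mono (by norm_num)

/-- The colourings needed just below the formula. -/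
theorem good_below {k r : ℕ} (hk : 1 ≤ k) (hr4 : r ≤ 4) (h : k ≤ r ∨ (k = 5 ∧ r = 4)) :
    Good (5 * k - r - 1) (k - 1) := by
  have hcase : k = 1 ∨ k = 2 ∨ k = 3 ∨ k = 4 ∨ k = 5 := by omega
  rcases hcase with rfl | rfl | rfl | rfl | rfl
  · exact good_zero _
  · exact (Good.general (by norm_num) good_5 1 0 _ (by omega)).mono (by norm_num)
  · exact (Good.general (by norm_num) good_9 1 0 _ (by omega)).mono (by norm_num)
  · exact (Good.general (by norm_num) good_13 1 0 _ (by omega)).mono (by norm_num)
  · exact (Good.general (by norm_num) good_17 1 0 _ (by omega)).mono (by norm_num)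

end Pool.Agent.Q118.DStar
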