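import Mathlib
set_option autoImplicit false
open Finset

/-!
Triangle-free graphs and complete multipartite subgraphs of their complements.
-/

namespace Pool.Agent.Q118.Multipartite

variable {V W : Type} [DecidableEq V] [DecidableEq W]

/-- Greedy selection: the survivors of `j` chosen vertices. -/
theorem greedy (H : SimpleGraph W) [DecidableRel H.Adj] (X : Finset W) (k s : ℕ)
    (hdeg : ∀ y ∈ X, (X.filter (H.Adj y)).card + 1 ≤ k)
    (h2s : 2 * s ≤ k)
    (hcond : ∀ j : ℕ, j < s → (k : ℤ) * (X.card - j * k + j ^ 2 - j) <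
      (k - 2 * j + 1) * (X.card - j))
    (hT : 0 ≤ (X.card : ℤ) - s * k + s ^ 2 - s) :
    ∀ j : ℕ, j ≤ s → ∃ A Y : Finset W, A ⊆ X ∧ Y ⊆ X ∧ A.card = j ∧
      (Y.card : ℤ) = X.card - j * k + j ^ 2 - j ∧
      ∀ y ∈ Y, y ∉ A ∧ ∀ a ∈ A, ¬ H.Adj a y := by
  intro j
  induction j with
  | zero =>
    intro _
    exact ⟨∅, X, by simp, Subset.refl _, by simp, by simp, by simp⟩
  | succ j ih =>
    intro hj
    obtain ⟨A, Y, hAX, hYX, hA, hY, hAY⟩ := ih (by omega)
    -- the number of remaining survivors is nonnegative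
    have hTj : 0 ≤ (X.card : ℤ) - (j + 1 : ℕ) * k + (j + 1 : ℕ) ^ 2 - (j + 1 : ℕ) := by
      have h1 : ((j + 1 : ℕ) : ℤ) ≤ s := by exact_mod_cast hj
      have h2 : (2 * s : ℤ) ≤ k := by exact_mod_cast h2s
      set a : ℤ := ((j + 1 : ℕ) : ℤ)
      have h3 : 0 ≤ (s - a) * (k + 1 - s - a) := by
        apply mul_nonneg <;> linarith
      nlinarith
    have hXA : (X \ A).card = X.card - j := by rw [card_sdiff_of_subset hAX, hA]
    have hjX : j ≤ X.card := by rw [← hA]; exact card_le_card hAX
    -- double counting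
    have hsum : ∑ v ∈ X \ A, (Y.filter fun y => y = v ∨ H.Adj v y).card ≤ k * Y.card := by
      have h1 : ∀ v, (Y.filter fun y => y = v ∨ H.Adj v y).card =
          ∑ y ∈ Y, if (y = v ∨ H.Adj v y) then 1 else 0 := fun v => card_filter _ _
      simp only [h1]
      rw [sum_comm]
      have h2 : ∀ y ∈ Y, ∑ v ∈ X \ A, (if (y = v ∨ H.Adj v y) then 1 else 0) ≤ k := by
        intro y hy
        rw [← card_filter]
        have h3 : (X \ A).filter (fun v => y = v ∨ H.Adj v y) ⊆
            insert y (X.filter (H.Adj y)) := by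
          intro v hv
          rw [mem_filter, mem_sdiff] at hv
          rw [mem_insert, mem_filter]
          rcases hv.2 with h | h
          · exact Or.inl h.symm
          · exact Or.inr ⟨hv.1.1, h.symm⟩
        exact (card_le_card h3).trans ((card_insert_le _ _).trans (hdeg y (hYX hy)))
      calc _ ≤ ∑ _y ∈ Y, k := sum_le_sum h2
        _ = k * Y.card := by rw [sum_const, smul_eq_mul, mul_comm]
    have hex : ∃ v ∈ X \ A, ((Y.filter fun y => y = v ∨ H.Adj v y).card : ℤ) ≤ k - 2 * j := by
      by_contra hcon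
      push Not at hcon
      have h1 : ∑ v ∈ X \ A, ((k : ℤ) - 2 * j + 1) ≤
          ∑ v ∈ X \ A, ((Y.filter fun y => y = v ∨ H.Adj v y).card : ℤ) :=
        sum_le_sum fun v hv => by have := hcon v hv; linarith
      rw [sum_const, hXA, nsmul_eq_mul, Nat.cast_sub hjX] at h1
      have h2 : (∑ v ∈ X \ A, ((Y.filter fun y => y = v ∨ H.Adj v y).card : ℤ)) ≤ k * Y.card := by
        exact_mod_cast hsum
      have h3 := hcond j (by omega)
      rw [hY] at h2
      linarith
    obtain ⟨v, hv, hvle⟩ := hex
    rw [mem_sdiff] at hv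
    set B := Y.filter fun y => y = v ∨ H.Adj v y with hB
    have hBY : B ⊆ Y := filter_subset _ _
    have hYB : ((Y \ B).card : ℤ) = Y.card - B.card := by
      rw [card_sdiff_of_subset hBY, Nat.cast_sub (card_le_card hBY)]
    -- exact size
    obtain ⟨n, hn⟩ := Int.eq_ofNat_of_zero_le hTj
    have hnle : n ≤ (Y \ B).card := by
      have : (n : ℤ) ≤ (Y \ B).card := by
        rw [← hn, hYB, hY]
        push_cast
        nlinarith
      exact_mod_cast this
    obtain ⟨Y', hY', hY'c⟩ := exists_subset_card_eq hnle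
    refine ⟨insert v A, Y', ?_, ?_, ?_, ?_, ?_⟩
    · exact insert_subset hv.1 hAX
    · exact (hY'.trans sdiff_subset).trans hYX
    · rw [card_insert_of_notMem hv.2, hA]
    · rw [hY'c, hn]
    · intro y hy
      have h1 := hY' hy
      rw [mem_sdiff, hB, mem_filter] at h1
      have h2 := hAY y h1.1
      refine ⟨?_, ?_⟩
      · rw [mem_insert]
        rintro (rfl | h)
        · exact h1.2 ⟨h1.1, Or.inl rfl⟩
        · exact h2.1 h
      · intro a ha
        rw [mem_insert] at ha
        rcases ha with rfl | ha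
        · exact fun h => h1.2 ⟨h1.1, Or.inr h⟩
        · exact h2.2 a ha

/-- The numerical condition of the greedy selection. -/
theorem numeric (k s j m : ℤ) (hj : 0 ≤ j) (hjs : j + 1 ≤ s) (hs : 2 * s ≤ k)
    (hm : 2 * m ≤ k ^ 2 - k * s) (hm0 : 0 ≤ m) :
    k * ((k + m) - j * k + j ^ 2 - j) < (k - 2 * j + 1) * ((k + m) - j) := by
  have hk : 0 < k := by linarith
  rcases eq_or_lt_of_le hj with h0 | h0
  · subst h0
    nlinarith
  · have hj1 : 1 ≤ j := h0
    obtain ⟨t, ht, rfl⟩ : ∃ t : ℤ, 0 ≤ t ∧ s = j + 1 + t := ⟨s - j - 1, by linarith, by ring⟩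
    -- it suffices to treat the largest m
    have h1 : 2 * (j * k ^ 2 - j ^ 2 * k + 2 * j ^ 2 - j - (2 * j - 1) * k) -
        (2 * j - 1) * (k ^ 2 - k * (j + 1 + t)) > 0 := by
      have h2 : 2 * (j * k ^ 2 - j ^ 2 * k + 2 * j ^ 2 - j - (2 * j - 1) * k) -
        (2 * j - 1) * (k ^ 2 - k * (j + 1 + t)) =
        k * (k - 3 * j + 1 + (2 * j - 1) * t) + (4 * j ^ 2 - 2 * j) := by ring
      rw [h2]
      have h3 : 0 ≤ k * ((2 * j - 1) * t) := by
        apply mul_nonneg hk.le
        apply mul_nonneg <;> linarith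
      have h4 : 0 < k * (k - 3 * j + 1) + (4 * j ^ 2 - 2 * j) := by
        have h5 : 4 * (k * (k - 3 * j + 1) + (4 * j ^ 2 - 2 * j)) =
          (2 * k - 3 * j + 1) ^ 2 + (7 * j ^ 2 - 2 * j - 1) := by ring
        have h6 : 0 < 7 * j ^ 2 - 2 * j - 1 := by nlinarith
        nlinarith [sq_nonneg (2 * k - 3 * j + 1)]
      linarith
    have h7 : (2 * j - 1) * (2 * m) ≤ (2 * j - 1) * (k ^ 2 - k * (j + 1 + t)) :=
      mul_le_mul_of_nonneg_left hm (by linarith)
    nlinarith

theorem main (G : SimpleGraph V) [DecidableRel G.Adj] (hG : G.IsCompleteMultipartite)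
    (H : SimpleGraph W) [DecidableRel H.Adj] (hH : H.CliqueFree 3) [Nonempty W] :
    ∀ (n : ℕ) (U : Finset V), U.card = n → ∀ m : ℕ, ∑ v ∈ U, (U.filter (G.Adj v)).card = 2 * m →
      ∀ X : Finset W, U.card + m ≤ X.card → ∃ f : V → W, Set.InjOn f U ∧ (∀ v ∈ U, f v ∈ X) ∧
        ∀ a ∈ U, ∀ b ∈ U, G.Adj a b → ¬ H.Adj (f a) (f b) := by
  intro n
  induction n using Nat.strong_induction_on with
  | _ n ih =>
    intro U hU m hm X hX
    -- reduce to the exact size
    wlog hXe : X.card = U.card + m generalizing X with hwlog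
    · obtain ⟨X', hX', hX'c⟩ := exists_subset_card_eq hX
      obtain ⟨f, h1, h2, h3⟩ := hwlog X' hX'c.ge hX'c
      exact ⟨f, h1, fun v hv => hX' (h2 v hv), h3⟩
    -- an injection into a set of size at least `U.card`
    have hinj : ∀ Z : Finset W, U.card ≤ Z.card → ∃ f : V → W, Set.InjOn f U ∧
        ∀ v ∈ U, f v ∈ Z := by
      intro Z hZ
      obtain ⟨Z', hZ', hZ'c⟩ := exists_subset_card_eq hZ
      let e := Finset.equivOfCardEq (s := U) (t := Z') hZ'c.symm
      refine ⟨fun v => if h : v ∈ U then (e ⟨v, h⟩ : W) else Classical.arbitrary W, ?_, ?_⟩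
      · intro a ha b hb hab
        have ha' : a ∈ U := ha
        have hb' : b ∈ U := hb
        simp only [dif_pos ha', dif_pos hb'] at hab
        have := e.injective (Subtype.ext hab)
        exact congrArg Subtype.val this
      · intro v hv
        simp only [dif_pos hv]
        exact hZ' (e ⟨v, hv⟩).2
    rcases U.eq_empty_or_nonempty with rfl | hUne
    · exact ⟨fun _ => Classical.arbitrary W, by simp, by simp, by simp⟩
    -- a vertex of large degree gives an independent set
    by_cases hbig : ∃ y ∈ X, U.card ≤ (X.filter (H.Adj y)).card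
    · obtain ⟨y, -, hy⟩ := hbig
      obtain ⟨f, hf1, hf2⟩ := hinj _ hy
      refine ⟨f, hf1, fun v hv => (mem_filter.1 (hf2 v hv)).1, fun a ha b hb hab hadj => ?_⟩
      have h1 := (mem_filter.1 (hf2 a ha)).2
      have h2 := (mem_filter.1 (hf2 b hb)).2
      exact hH {y, f a, f b} (SimpleGraph.is3Clique_triple_iff.2 ⟨h1, h2, hadj⟩)
    push Not at hbig
    -- the classes
    let cl : V → Finset V := fun v => U.filter fun u => ¬ G.Adj v u
    obtain ⟨v0, hv0, hmin⟩ := exists_min_image U (fun v => (cl v).card) hUne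
    set S := cl v0 with hS
    set s := S.card with hs
    have hself : ∀ v ∈ U, v ∈ cl v := fun v hv => mem_filter.2 ⟨hv, G.loopless.irrefl v⟩
    have hSU : S ⊆ U := filter_subset _ _
    have htrans : ∀ a b c : V, ¬ G.Adj a b → ¬ G.Adj b c → ¬ G.Adj a c := fun a b c h1 h2 =>
      hG.trans a b c h1 h2
    have hsymm : ∀ a b : V, ¬ G.Adj a b → ¬ G.Adj b a := fun a b h h' => h h'.symm
    have hs1 : 1 ≤ s := card_pos.2 ⟨v0, hself v0 hv0⟩
    have hcldeg : ∀ v, (U.filter (G.Adj v)).card + (cl v).card = U.card := fun v =>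
      card_filter_add_card_filter_not _
    -- sizes
    have hsumcl : 2 * m + ∑ v ∈ U, (cl v).card = U.card * U.card := by
      rw [← hm, ← sum_add_distrib, sum_congr rfl fun v _ => hcldeg v, sum_const, smul_eq_mul]
    have hsumcl2 : U.card * s ≤ ∑ v ∈ U, (cl v).card := by
      rw [← smul_eq_mul, ← sum_const]
      exact sum_le_sum fun v hv => hmin v hv
    by_cases hSall : S = U
    · -- one part only
      obtain ⟨f, hf1, hf2⟩ := hinj X (by omega)
      refine ⟨f, hf1, hf2, fun a ha b hb hab => ?_⟩
      exfalso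
      rw [← hSall, hS, mem_filter] at ha hb
      exact htrans a v0 b (hsymm _ _ ha.2) hb.2 hab
    · obtain ⟨u, hu, huS⟩ : ∃ u ∈ U, u ∉ S := by
        by_contra hcon
        push Not at hcon
        exact hSall (Subset.antisymm hSU hcon)
      have hdisj : Disjoint (cl u) S := by
        rw [disjoint_left]
        intro x hx1 hx2
        rw [mem_filter] at hx1
        rw [hS, mem_filter] at hx2
        exact huS (mem_filter.2 ⟨hu, htrans v0 x u hx2.2 (hsymm _ _ hx1.2)⟩)
      have h2s : 2 * s ≤ U.card := by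
        have h1 := hmin u hu
        have h2 := card_union_of_disjoint hdisj
        have h3 : (cl u ∪ S).card ≤ U.card := card_le_card (union_subset (filter_subset _ _) hSU)
        omega
      -- degrees of the remaining graph
      set U' := U \ S with hU'
      have hU'c : U'.card + s = U.card := by
        rw [hU', card_sdiff_of_subset hSU]
        have := card_le_card hSU
        omega
      have hSnadj : ∀ a ∈ S, ∀ b ∈ S, ¬ G.Adj a b := by
        intro a ha b hb
        rw [hS, mem_filter] at ha hb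
        exact htrans a v0 b (hsymm _ _ ha.2) hb.2
      have hSadj : ∀ a ∈ S, ∀ b ∈ U', G.Adj a b := by
        intro a ha b hb
        by_contra hcon
        rw [hU', mem_sdiff] at hb
        rw [hS, mem_filter] at ha
        exact hb.2 (mem_filter.2 ⟨hb.1, htrans v0 a b ha.2 hcon⟩)
      have hUsplit : U = S ∪ U' := by rw [hU', union_sdiff_of_subset hSU]
      have hdisj2 : Disjoint S U' := disjoint_sdiff
      have hdegS : ∀ a ∈ S, (U.filter (G.Adj a)).card = U'.card := by
        intro a ha
        congr 1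
        ext b
        rw [mem_filter]
        constructor
        · rintro ⟨h1, h2⟩
          rw [hU', mem_sdiff]
          exact ⟨h1, fun h3 => hSnadj a ha b h3 h2⟩
        · intro hb
          exact ⟨sdiff_subset hb, hSadj a ha b hb⟩
      have hdegU' : ∀ b ∈ U', (U.filter (G.Adj b)).card = (U'.filter (G.Adj b)).card + s := by
        intro b hb
        have h1 : U.filter (G.Adj b) = (U'.filter (G.Adj b)) ∪ S := by
          ext a
          rw [mem_filter, mem_union, mem_filter]
          constructor
          · rintro ⟨h1, h2⟩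
            by_cases haS : a ∈ S
            · exact Or.inr haS
            · left
              rw [hU', mem_sdiff]
              exact ⟨⟨h1, haS⟩, h2⟩
          · rintro (⟨h1, h2⟩ | h1)
            · exact ⟨sdiff_subset h1, h2⟩
            · exact ⟨hSU h1, (hSadj a h1 b hb).symm⟩
        rw [h1, card_union_of_disjoint]
        exact (hdisj2.symm).mono_left (filter_subset _ _)
      have hsumU : ∑ v ∈ U, (U.filter (G.Adj v)).card = s * U'.card +
          (∑ v ∈ U', (U'.filter (G.Adj v)).card + U'.card * s) := by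
        have h1 : ∑ v ∈ S ∪ U', (U.filter (G.Adj v)).card = ∑ v ∈ S, (U.filter (G.Adj v)).card +
            ∑ v ∈ U', (U.filter (G.Adj v)).card := sum_union hdisj2
        rw [← hUsplit] at h1
        rw [h1, sum_congr rfl hdegS, sum_congr rfl hdegU', sum_add_distrib, sum_const, sum_const,
          smul_eq_mul, smul_eq_mul]
      -- the new number of edges
      obtain ⟨m', hm'⟩ : ∃ m' : ℕ, m = m' + s * U'.card := by
        refine ⟨m - s * U'.card, ?_⟩
        have : 2 * m = 2 * (s * U'.card) + ∑ v ∈ U', (U'.filter (G.Adj v)).card := by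
          rw [← hm, hsumU]; ring
        omega
      have hm'2 : ∑ v ∈ U', (U'.filter (G.Adj v)).card = 2 * m' := by
        have h1 : 2 * m = 2 * (s * U'.card) + ∑ v ∈ U', (U'.filter (G.Adj v)).card := by
          rw [← hm, hsumU]; ring
        rw [hm'] at h1
        omega
      -- apply the greedy selection
      have hUs : ((U'.card : ℕ) : ℤ) = U.card - s := by
        have : ((U'.card + s : ℕ) : ℤ) = U.card := by exact_mod_cast hU'c
        push_cast at this
        linarith
      have hXz : (X.card : ℤ) = U.card + m := by exact_mod_cast hXe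
      have hmz : (m : ℤ) = m' + s * U'.card := by exact_mod_cast hm'
      have hfinal : (X.card : ℤ) - s * U.card + s ^ 2 - s = U'.card + m' := by
        rw [hXz, hmz, hUs]; ring
      obtain ⟨A, Y, hAX, hYX, hA, hY, hAY⟩ := greedy H X U.card s
        (fun y hy => hbig y hy) h2s (by
          intro j hj
          rw [hXz]
          apply numeric (U.card : ℤ) s j m (Int.natCast_nonneg _) (by exact_mod_cast hj)
            (by exact_mod_cast h2s) _ (Int.natCast_nonneg _)
          have h1 : 2 * m + U.card * s ≤ U.card * U.card := by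
            rw [← hsumcl]; omega
          have h2 : (2 * m + U.card * s : ℤ) ≤ U.card * U.card := by exact_mod_cast h1
          nlinarith) (by rw [hfinal]; exact add_nonneg (Int.natCast_nonneg _) (Int.natCast_nonneg _)) s le_rfl
      have hYc : Y.card = U'.card + m' := by
        have : (Y.card : ℤ) = U'.card + m' := by rw [hY, hfinal]
        exact_mod_cast this
      obtain ⟨g, hg1, hg2, hg3⟩ := ih U'.card (by omega) U' rfl m' hm'2 Y hYc.ge
      let e := Finset.equivOfCardEq (s := S) (t := A) (by rw [hA])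
      let f : V → W := fun v => if h : v ∈ S then (e ⟨v, h⟩ : W) else g v
      have hfS : ∀ v (h : v ∈ S), f v = (e ⟨v, h⟩ : W) := fun v h => dif_pos h
      have hfN : ∀ v, v ∉ S → f v = g v := fun v h => dif_neg h
      refine ⟨f, ?_, ?_, ?_⟩
      · intro a ha b hb hab
        have ha' : a ∈ U := ha
        have hb' : b ∈ U := hb
        by_cases haS : a ∈ S <;> by_cases hbS : b ∈ S
        · rw [hfS a haS, hfS b hbS] at hab
          exact congrArg Subtype.val (e.injective (Subtype.ext hab))
        · rw [hfS a haS, hfN b hbS] at hab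
          exfalso
          have hbY := hg2 b (mem_sdiff.2 ⟨hb', hbS⟩)
          rw [← hab] at hbY
          exact (hAY _ hbY).1 (e ⟨a, haS⟩).2
        · rw [hfN a haS, hfS b hbS] at hab
          exfalso
          have haY := hg2 a (mem_sdiff.2 ⟨ha', haS⟩)
          rw [hab] at haY
          exact (hAY _ haY).1 (e ⟨b, hbS⟩).2
        · rw [hfN a haS, hfN b hbS] at hab
          exact hg1 (mem_sdiff.2 ⟨ha', haS⟩) (mem_sdiff.2 ⟨hb', hbS⟩) hab
      · intro v hv
        by_cases hvS : v ∈ S
        · rw [hfS v hvS]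
          exact hAX (e ⟨v, hvS⟩).2
        · rw [hfN v hvS]
          exact hYX (hg2 v (mem_sdiff.2 ⟨hv, hvS⟩))
      · intro a ha b hb hab
        by_cases haS : a ∈ S <;> by_cases hbS : b ∈ S
        · exact absurd hab (hSnadj a haS b hbS)
        · rw [hfS a haS, hfN b hbS]
          have hbY := hg2 b (mem_sdiff.2 ⟨hb, hbS⟩)
          exact (hAY _ hbY).2 _ (e ⟨a, haS⟩).2
        · rw [hfN a haS, hfS b hbS]
          have haY := hg2 a (mem_sdiff.2 ⟨ha, haS⟩)
          exact fun h => (hAY _ haY).2 _ (e ⟨b, hbS⟩).2 h.symm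
        · rw [hfN a haS, hfN b hbS]
          exact hg3 a (mem_sdiff.2 ⟨ha, haS⟩) b (mem_sdiff.2 ⟨hb, hbS⟩) hab

end Pool.Agent.Q118.Multipartite
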