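import Mathlib

/-!
# The gap from `1` of the normalised Laplacian

Basic facts: eigenvalues of the normalised Laplacian of a regular graph, upper and lower bounds of the gap.
-/

namespace Pool.Agent.Q118.NormGap

open Finset

open Classical in
/-- The normalised Laplacian `I - D⁻¹ A`. -/
noncomputable def normLap {V : Type} [Fintype V] (G : SimpleGraph V) : Matrix V V ℝ :=
  1 - Matrix.diagonal (fun v => ((G.degree v : ℝ))⁻¹) * G.adjMatrix ℝ

open Classical in
/-- `gap(G) = min |t - 1|` over the eigenvalues `t` of the normalised Laplacian. -/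
noncomputable def gap {V : Type} [Fintype V] (G : SimpleGraph V) : ℝ :=
  sInf {x : ℝ | ∃ t ∈ spectrum ℝ (normLap G), x = |t - 1|}

open Classical in
/-- The sum of `x` over the neighbours of `v`. -/
noncomputable def nsum {V : Type} [Fintype V] (G : SimpleGraph V) (x : V → ℝ) (v : V) : ℝ :=
  ∑ u, if G.Adj v u then x u else 0

open Classical in
lemma normLap_mulVec {V : Type} [Fintype V] (G : SimpleGraph V) (x : V → ℝ) (v : V) :
    (Matrix.mulVec (normLap G) x) v = x v - ((G.degree v : ℝ))⁻¹ * nsum G x v := by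
  rw [normLap, Matrix.sub_mulVec, Matrix.one_mulVec, ← Matrix.mulVec_mulVec, Pi.sub_apply,
    Matrix.mulVec_diagonal]
  congr 2
  rw [Matrix.mulVec, dotProduct, nsum]
  refine sum_congr rfl fun u _ => ?_
  rw [SimpleGraph.adjMatrix_apply]
  split_ifs <;> simp

lemma mem_spectrum {V : Type} [Fintype V] [DecidableEq V] (M : Matrix V V ℝ) (t : ℝ) :
    t ∈ spectrum ℝ M ↔ ∃ x : V → ℝ, x ≠ 0 ∧ Matrix.mulVec M x = t • x := by
  rw [spectrum.mem_iff, Matrix.isUnit_iff_isUnit_det, isUnit_iff_ne_zero, not_not,
    ← Matrix.exists_mulVec_eq_zero_iff]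
  refine exists_congr fun x => and_congr_right fun _ => ?_
  rw [Matrix.sub_mulVec, sub_eq_zero, Matrix.algebraMap_eq_diagonal, eq_comm]
  have : Matrix.mulVec (Matrix.diagonal ((algebraMap ℝ (V → ℝ)) t)) x = t • x := by
    ext v
    rw [Matrix.mulVec_diagonal]
    simp
  rw [this]

open Classical in
/-- Upper bound of the gap by an eigenvector of the adjacency matrix of a regular graph. -/
lemma gap_le {V : Type} [Fintype V] {G : SimpleGraph V} {k : ℕ} (hk : 0 < k)
    (hreg : ∀ v, G.degree v = k) {m : ℝ} {x : V → ℝ} (hx : x ≠ 0)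
    (h : ∀ v, nsum G x v = m * x v) : gap G ≤ |m| / k := by
  refine csInf_le ⟨0, ?_⟩ ⟨1 - m / k, ?_, ?_⟩
  · rintro y ⟨t, -, rfl⟩
    exact abs_nonneg _
  · rw [mem_spectrum]
    refine ⟨x, hx, ?_⟩
    ext v
    rw [normLap_mulVec, h, hreg, Pi.smul_apply, smul_eq_mul]
    ring
  · have : (1 : ℝ) - m / k - 1 = - (m / k) := by ring
    rw [this, abs_neg, abs_div, abs_of_nonneg (by positivity : (0 : ℝ) ≤ k)]

open Classical in
/-- Lower bound of the gap of a regular graph. -/
lemma le_gap {V : Type} [Fintype V] [Nonempty V] {G : SimpleGraph V} {k : ℕ} (hk : 0 < k)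
    (hreg : ∀ v, G.degree v = k) {c : ℝ}
    (h : ∀ (m : ℝ) (x : V → ℝ), x ≠ 0 → (∀ v, nsum G x v = m * x v) → c ≤ |m|) :
    c / k ≤ gap G := by
  have hk' : (0 : ℝ) < k := by exact_mod_cast hk
  refine le_csInf ⟨|0 - 1|, 0, ?_, rfl⟩ ?_
  · rw [mem_spectrum]
    refine ⟨fun _ => 1, ?_, ?_⟩
    · intro h0
      have := congrFun h0 (Classical.arbitrary V)
      simp at this
    · ext v
      rw [normLap_mulVec, hreg]
      have : nsum G (fun _ => (1 : ℝ)) v = k := by
        rw [nsum, sum_boole, ← hreg v, ← SimpleGraph.card_neighborFinset_eq_degree]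
        congr 2
        ext u
        simp
      rw [this]
      simp [hk'.ne']
  · rintro y ⟨t, ht, rfl⟩
    rw [mem_spectrum] at ht
    obtain ⟨x, hx, hx2⟩ := ht
    have h3 : ∀ v, nsum G x v = (k * (1 - t)) * x v := by
      intro v
      have := congrFun hx2 v
      rw [normLap_mulVec, hreg, Pi.smul_apply, smul_eq_mul] at this
      field_simp at this
      linarith
    have h4 := h _ x hx h3
    rw [div_le_iff₀ hk']
    rw [abs_mul, abs_of_pos hk', abs_sub_comm] at h4
    linarith

open Classical in
/-- The gap is at most one when there are no isolated vertices. -/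
lemma gap_le_one {V : Type} [Fintype V] [Nonempty V] {G : SimpleGraph V}
    (hdeg : ∀ v, 0 < G.degree v) : gap G ≤ 1 := by
  refine csInf_le ⟨0, ?_⟩ ⟨0, ?_, by norm_num⟩
  · rintro y ⟨t, -, rfl⟩
    exact abs_nonneg _
  · rw [mem_spectrum]
    refine ⟨fun _ => 1, ?_, ?_⟩
    · intro h0
      have := congrFun h0 (Classical.arbitrary V)
      simp at this
    · ext v
      rw [normLap_mulVec]
      have : nsum G (fun _ => (1 : ℝ)) v = G.degree v := by
        rw [nsum, sum_boole, ← SimpleGraph.card_neighborFinset_eq_degree]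
        congr 2
        ext u
        simp
      rw [this]
      have h2 : (G.degree v : ℝ) ≠ 0 := by exact_mod_cast (hdeg v).ne'
      simp [h2]

/-- Transport of neighbour sums along an isomorphism. -/
lemma nsum_iso {V W : Type} [Fintype V] [Fintype W] {G : SimpleGraph V} {H : SimpleGraph W}
    (e : G ≃g H) (x : W → ℝ) (v : V) : nsum G (fun u => x (e u)) v = nsum H x (e v) := by
  classical
  rw [nsum, nsum]
  rw [← Equiv.sum_comp e.toEquiv]
  refine sum_congr rfl fun u _ => ?_
  have h : G.Adj v u ↔ H.Adj (e v) (e.toEquiv u) := (e.map_adj_iff (v := v) (w := u)).symm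
  by_cases h1 : G.Adj v u
  · rw [if_pos h1, if_pos (h.1 h1)]
    rfl
  · rw [if_neg h1, if_neg (fun h2 => h1 (h.2 h2))]

/-- The incidence graph of a family of blocks. -/
def incGraph {P L : Type} (R : P → L → Prop) : SimpleGraph (P ⊕ L) where
  Adj a b := match a, b with
    | Sum.inl p, Sum.inr l => R p l
    | Sum.inr l, Sum.inl p => R p l
    | _, _ => False
  symm := ⟨by
    rintro (p | l) (q | m) h
    · exact h
    · exact h
    · exact h
    · exact h⟩
  loopless := ⟨by
    rintro (p | l) h
    · exact h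
    · exact h⟩

section
variable {P L : Type} [Fintype P] [Fintype L] (R : P → L → Prop)

open Classical in
lemma nsum_inl (x : P ⊕ L → ℝ) (p : P) :
    nsum (incGraph R) x (Sum.inl p) = ∑ l, if R p l then x (Sum.inr l) else 0 := by
  rw [nsum, Fintype.sum_sum_type]
  have h1 : ∀ q : P, (if (incGraph R).Adj (Sum.inl p) (Sum.inl q) then x (Sum.inl q) else 0) = 0 :=
    fun q => if_neg (fun h => h)
  rw [sum_congr rfl fun q _ => h1 q, sum_const_zero, zero_add]
  rfl

open Classical in
lemma nsum_inr (x : P ⊕ L → ℝ) (l : L) :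
    nsum (incGraph R) x (Sum.inr l) = ∑ p, if R p l then x (Sum.inl p) else 0 := by
  rw [nsum, Fintype.sum_sum_type]
  have h1 : ∀ q : L, (if (incGraph R).Adj (Sum.inr l) (Sum.inr q) then x (Sum.inr q) else 0) = 0 :=
    fun q => if_neg (fun h => h)
  rw [sum_congr rfl fun q _ => h1 q, sum_const_zero, add_zero]
  rfl

open Classical in
lemma degree_inl (p : P) :
    (incGraph R).degree (Sum.inl p) = (univ.filter fun l => R p l).card := by
  have h1 : ((incGraph R).degree (Sum.inl p) : ℝ) = nsum (incGraph R) (fun _ => 1) (Sum.inl p) := by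
    rw [nsum, sum_boole, ← SimpleGraph.card_neighborFinset_eq_degree]
    congr 2
    ext u
    simp
  rw [nsum_inl, sum_boole] at h1
  exact_mod_cast h1

open Classical in
lemma degree_inr (l : L) :
    (incGraph R).degree (Sum.inr l) = (univ.filter fun p => R p l).card := by
  have h1 : ((incGraph R).degree (Sum.inr l) : ℝ) = nsum (incGraph R) (fun _ => 1) (Sum.inr l) := by
    rw [nsum, sum_boole, ← SimpleGraph.card_neighborFinset_eq_degree]
    congr 2
    ext u
    simp
  rw [nsum_inr, sum_boole] at h1
  exact_mod_cast h1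

open Classical in
/-- Double sum for a configuration with `k` lines through a point and `l` lines through two
points. -/
lemma double_sum {k c : ℕ} (h1 : ∀ p, (univ.filter fun l => R p l).card = k)
    (h2 : ∀ p q, p ≠ q → (univ.filter fun l => R p l ∧ R q l).card = c) (y : P → ℝ) (p : P) :
    (∑ l, if R p l then (∑ q, if R q l then y q else 0) else 0) =
      ((k : ℝ) - c) * y p + c * ∑ q, y q := by
  have e1 : (∑ l, if R p l then (∑ q, if R q l then y q else 0) else 0) =
      ∑ q, (∑ l, if R p l ∧ R q l then (1 : ℝ) else 0) * y q := by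
    have e2 : ∀ l, (if R p l then (∑ q, if R q l then y q else 0) else 0) =
        ∑ q, (if R p l ∧ R q l then (1 : ℝ) else 0) * y q := by
      intro l
      by_cases h : R p l
      · rw [if_pos h]
        refine sum_congr rfl fun q _ => ?_
        by_cases h' : R q l <;> simp [h, h']
      · rw [if_neg h]
        symm
        refine sum_eq_zero fun q _ => ?_
        simp [h]
    rw [sum_congr rfl fun l _ => e2 l, sum_comm]
    refine sum_congr rfl fun q _ => ?_
    rw [sum_mul]
  rw [e1, ← add_sum_erase _ _ (mem_univ p), ← add_sum_erase _ y (mem_univ p)]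
  have e3 : (∑ l, if R p l ∧ R p l then (1 : ℝ) else 0) = k := by
    rw [sum_boole]
    simp only [and_self]
    rw [h1]
  have e4 : ∑ q ∈ univ.erase p, (∑ l, if R p l ∧ R q l then (1 : ℝ) else 0) * y q =
      ∑ q ∈ univ.erase p, (c : ℝ) * y q := by
    refine sum_congr rfl fun q hq => ?_
    rw [sum_boole, h2 p q (ne_of_mem_erase hq).symm]
  rw [e3, e4, ← mul_sum]
  ring

open Classical in
/-- A configuration as above: the gap of the incidence graph is at most `√(k - c) / k`. -/
lemma gap_design_le {V : Type} [Fintype V] {G : SimpleGraph V} (e : Nonempty (G ≃g incGraph R))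
    {k c : ℕ} (hk : 0 < k) (hck : c < k)
    (h1 : ∀ p, (univ.filter fun l => R p l).card = k)
    (h1' : ∀ l, (univ.filter fun p => R p l).card = k)
    (h2 : ∀ p q, p ≠ q → (univ.filter fun l => R p l ∧ R q l).card = c)
    (hP : 2 ≤ Fintype.card P) : gap G ≤ Real.sqrt ((k : ℝ) - c) / k := by
  obtain ⟨e⟩ := e
  obtain ⟨a, b, hab⟩ := Fintype.one_lt_card_iff.1 (lt_of_lt_of_le one_lt_two hP)
  set s : ℝ := Real.sqrt ((k : ℝ) - c) with hs
  have hkc : (0 : ℝ) < (k : ℝ) - c := by
    have : (c : ℝ) < k := by exact_mod_cast hck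
    linarith
  have hs0 : 0 < s := Real.sqrt_pos.2 hkc
  have hss : s * s = (k : ℝ) - c := Real.mul_self_sqrt hkc.le
  set y : P → ℝ := fun p => if p = a then 1 else if p = b then -1 else 0 with hy
  have hsum : ∑ q, y q = 0 := by
    rw [← add_sum_erase _ _ (mem_univ a), ← add_sum_erase _ _
      (mem_erase.2 ⟨hab.symm, mem_univ b⟩)]
    rw [sum_eq_zero]
    · simp [hy, hab.symm]
    · intro q hq
      rw [mem_erase, mem_erase] at hq
      simp [hy, hq.1, hq.2.1]
  set x : P ⊕ L → ℝ := Sum.elim y (fun l => (∑ q, if R q l then y q else 0) / s) with hx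
  have hx0 : (fun u => x (e u)) ≠ 0 := by
    intro h0
    have := congrFun h0 (e.symm (Sum.inl a))
    simp [hx, hy] at this
  have hreg : ∀ v, G.degree v = k := by
    intro v
    have h3 : G.degree v = (incGraph R).degree (e v) := by
      rw [e.degree_eq]
    rw [h3]
    rcases e v with p | l
    · rw [degree_inl]
      exact h1 p
    · rw [degree_inr]
      exact h1' l
  have := gap_le (G := G) hk hreg (m := s) hx0 (fun v => ?_)
  · rwa [abs_of_pos hs0] at this
  · rw [nsum_iso e x v]
    rcases e v with p | l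
    · rw [nsum_inl]
      have h5 := double_sum R (k := k) (c := c) h1 h2 y p
      rw [hsum, mul_zero, add_zero] at h5
      have h6 : (∑ l, if R p l then x (Sum.inr l) else 0) =
          (∑ l, if R p l then (∑ q, if R q l then y q else 0) else 0) / s := by
        rw [sum_div]
        refine sum_congr rfl fun l _ => ?_
        by_cases h : R p l <;> simp [h, hx]
      rw [h6, h5, ← hss]
      have : x (Sum.inl p) = y p := rfl
      rw [this]
      field_simp
    · rw [nsum_inr]
      have : x (Sum.inr l) = (∑ q, if R q l then y q else 0) / s := rfl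
      rw [this]
      have h7 : ∀ p, x (Sum.inl p) = y p := fun p => rfl
      simp only [h7]
      field_simp

end

end Pool.Agent.Q118.NormGap
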