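import Pool.Agent.Q118.NormGap
import Pool.Agent.H177R2.SD.Brc

/-!
# The gap from `1` of the normalised Laplacian, second part: planes, designs, the Hoffman-Singleton graph
-/

namespace Pool.Agent.Q118.NormGap

open Finset

section
variable {P L : Type} [Fintype P] [Fintype L] (R : P → L → Prop)

open Classical in
lemma eig_aux {k c : ℕ} (h1 : ∀ p, (univ.filter fun l => R p l).card = k)
    (h2 : ∀ p q, p ≠ q → (univ.filter fun l => R p l ∧ R q l).card = c) (hck : c ≤ k)
    {m : ℝ} {y : P → ℝ} {z : L → ℝ} (hy : y ≠ 0)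
    (e1 : ∀ p, (∑ l, if R p l then z l else 0) = m * y p)
    (e2 : ∀ l, (∑ p, if R p l then y p else 0) = m * z l) :
    Real.sqrt ((k : ℝ) - c) ≤ |m| := by
  have key : ∀ p, m * m * y p = ((k : ℝ) - c) * y p + c * ∑ q, y q := by
    intro p
    rw [← double_sum R h1 h2 y p]
    have : ∀ l, (if R p l then (∑ q, if R q l then y q else 0) else 0) =
        m * (if R p l then z l else 0) := by
      intro l
      rw [e2]
      split_ifs <;> simp
    rw [sum_congr rfl fun l _ => this l, ← mul_sum, e1]
    ring
  have hk : (0 : ℝ) ≤ (k : ℝ) - c := by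
    have : (c : ℝ) ≤ k := by exact_mod_cast hck
    linarith
  have hmm : (k : ℝ) - c ≤ m * m := by
    by_cases hs : ∑ q, y q = 0
    · obtain ⟨p, hp⟩ := Function.ne_iff.1 hy
      have h3 := key p
      rw [hs, mul_zero, add_zero] at h3
      exact (mul_right_cancel₀ hp h3).ge
    · have h3 : m * m * ∑ q, y q = (((k : ℝ) - c) + c * Fintype.card P) * ∑ q, y q := by
        rw [mul_sum, sum_congr rfl fun p _ => key p, sum_add_distrib, ← mul_sum, sum_const,
          card_univ, nsmul_eq_mul]
        ring
      have h4 := mul_right_cancel₀ hs h3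
      have : (0 : ℝ) ≤ c * Fintype.card P := by positivity
      linarith
  rw [← abs_mul_abs_self m] at hmm
  calc Real.sqrt ((k : ℝ) - c) ≤ Real.sqrt (|m| * |m|) := Real.sqrt_le_sqrt hmm
    _ = |m| := Real.sqrt_mul_self (abs_nonneg m)

open Classical in
/-- The gap of the incidence graph of a symmetric configuration is at least `√(k - c) / k`. -/
lemma le_gap_design [Nonempty P] {k c : ℕ} (hk : 0 < k) (hck : c ≤ k)
    (h1 : ∀ p, (univ.filter fun l => R p l).card = k)
    (h1' : ∀ l, (univ.filter fun p => R p l).card = k)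
    (h2 : ∀ p q, p ≠ q → (univ.filter fun l => R p l ∧ R q l).card = c)
    (h2' : ∀ l m, l ≠ m → (univ.filter fun p => R p l ∧ R p m).card = c) :
    Real.sqrt ((k : ℝ) - c) / k ≤ gap (incGraph R) := by
  refine le_gap hk ?_ ?_
  · rintro (p | l)
    · rw [degree_inl]
      exact h1 p
    · rw [degree_inr]
      exact h1' l
  · intro m x hx hm
    have e1 : ∀ p, (∑ l, if R p l then x (Sum.inr l) else 0) = m * x (Sum.inl p) := fun p => by
      rw [← nsum_inl, hm]
    have e2 : ∀ l, (∑ p, if R p l then x (Sum.inl p) else 0) = m * x (Sum.inr l) := fun l => by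
      rw [← nsum_inr, hm]
    by_cases hy : (fun p => x (Sum.inl p)) = 0
    · have hz : (fun l => x (Sum.inr l)) ≠ 0 := by
        intro hz
        apply hx
        ext v
        rcases v with p | l
        · exact congrFun hy p
        · exact congrFun hz l
      exact eig_aux (fun l p => R p l) h1' h2' hck hz e2 e1
    · exact eig_aux R h1 h2 hck hy e1 e2

end

/-- `B` is a `(v, k, l)` design: `v` blocks with `k < v` elements in a set of `v` points such that
any two distinct points lie together in exactly `l ≥ 1` blocks. -/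
def IsDesign (v k l : ℕ) (B : Fin v → Finset (Fin v)) : Prop :=
  1 ≤ l ∧ k < v ∧ (∀ i, (B i).card = k) ∧
    ∀ x y, x ≠ y → (univ.filter fun i => x ∈ B i ∧ y ∈ B i).card = l

lemma design_rep {v k l : ℕ} {B : Fin v → Finset (Fin v)} (h : IsDesign v k l B) (hk : 2 ≤ k) :
    (∀ x, (univ.filter fun i => x ∈ B i).card = k) ∧ l * (v - 1) = k * (k - 1) := by
  obtain ⟨hl, hkv, hB, hxy⟩ := h
  have h1 : ∀ x, (univ.filter fun i => x ∈ B i).card * (k - 1) = (v - 1) * l := by
    intro x
    have e1 : ∑ y ∈ univ.erase x, (univ.filter fun i => x ∈ B i ∧ y ∈ B i).card = (v - 1) * l := by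
      rw [sum_congr rfl fun y hy => hxy x y (ne_of_mem_erase hy).symm, sum_const,
        card_erase_of_mem (mem_univ x), card_univ, Fintype.card_fin, smul_eq_mul]
    rw [← e1]
    have e2 : ∀ y, (univ.filter fun i => x ∈ B i ∧ y ∈ B i).card =
        ∑ i ∈ univ.filter (fun i => x ∈ B i), if y ∈ B i then 1 else 0 := by
      intro y
      rw [← filter_filter, card_filter]
    rw [sum_congr rfl fun y _ => e2 y, sum_comm]
    have e3 : ∀ i ∈ univ.filter (fun i => x ∈ B i),
        (∑ y ∈ univ.erase x, if y ∈ B i then 1 else 0) = k - 1 := by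
      intro i hi
      rw [← card_filter]
      have : (univ.erase x).filter (fun y => y ∈ B i) = (B i).erase x := by
        ext y
        simp [and_comm]
      rw [this, card_erase_of_mem (by simpa using hi), hB]
    rw [sum_congr rfl e3, sum_const, smul_eq_mul]
  have hv : 0 < v := by omega
  have h2 : ∑ x, (univ.filter fun i => x ∈ B i).card = v * k := by
    have : ∀ x, (univ.filter fun i => x ∈ B i).card = ∑ i, if x ∈ B i then 1 else 0 := by
      intro x
      rw [card_filter]
    rw [sum_congr rfl fun x _ => this x, sum_comm]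
    have : ∀ i, (∑ x, if x ∈ B i then 1 else 0) = k := by
      intro i
      rw [← card_filter, ← hB i]
      congr 1
      ext x
      simp
    rw [sum_congr rfl fun i _ => this i]
    simp
  set x₀ : Fin v := ⟨0, hv⟩
  have h3 : ∀ x, (univ.filter fun i => x ∈ B i).card = (univ.filter fun i => x₀ ∈ B i).card := by
    intro x
    have := (h1 x).trans (h1 x₀).symm
    exact Nat.eq_of_mul_eq_mul_right (by omega) this
  have h4 : (univ.filter fun i => x₀ ∈ B i).card = k := by
    rw [sum_congr rfl fun x _ => h3 x, sum_const, card_univ, Fintype.card_fin, smul_eq_mul] at h2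
    exact Nat.eq_of_mul_eq_mul_left hv h2
  refine ⟨fun x => (h3 x).trans h4, ?_⟩
  have := h1 x₀
  rw [h4] at this
  rw [mul_comm l]
  exact this.symm

lemma design_lt {v k l : ℕ} {B : Fin v → Finset (Fin v)} (h : IsDesign v k l B) (hk : 2 ≤ k) :
    l < k := by
  have h1 := (design_rep h hk).2
  by_contra hle
  have h2 : k * (v - 1) ≤ k * (k - 1) := by
    calc k * (v - 1) ≤ l * (v - 1) := Nat.mul_le_mul_right _ (not_lt.1 hle)
      _ = _ := h1
  have h3 := Nat.le_of_mul_le_mul_left h2 (by omega)
  have := h.2.1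
  omega

lemma isSymmetricDesign {v k l : ℕ} {B : Fin v → Finset (Fin v)} (h : IsDesign v k l B)
    (hk : 2 ≤ k) : H177R2.SD.IsSymmetricDesign v k l :=
  ⟨h.2.1, k, B, h.2.2.1, (design_rep h hk).1, h.2.2.2⟩

/-- Bruck-Ryser: no `(v, q, 1)` design for `q ≡ 7 (mod 36)`. -/
lemma no_plane_design {q v : ℕ} (hq : q % 36 = 7) {B : Fin v → Finset (Fin v)} :
    ¬ IsDesign v q 1 B := by
  intro h
  have h1 := (design_rep h (by omega)).2
  rw [one_mul] at h1
  have hv : q + 2 ≤ v := by
    have : q * 6 ≤ q * (q - 1) := Nat.mul_le_mul_left _ (by omega)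
    omega
  have h2 := H177R2.SD.brc_local (p := 3) (isSymmetricDesign h (by omega)) (by omega) hv
    Nat.prime_three (by norm_num) (by omega) (by omega) (by norm_num)
  obtain ⟨a, ha⟩ : ∃ a, q = 36 * a + 7 := ⟨q / 36, by omega⟩
  have h3 : (v - 1) / 2 = (36 * a + 7) * (18 * a + 3) := by
    rw [h1, ha]
    have : (36 * a + 7) * (36 * a + 7 - 1) = (36 * a + 7) * (18 * a + 3) * 2 := by
      have : 36 * a + 7 - 1 = (18 * a + 3) * 2 := by omega
      rw [this]
      ring
    rw [this]
    exact Nat.mul_div_cancel _ (by norm_num)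
  have h4 : Odd ((v - 1) / 2) := by
    rw [h3]
    refine Odd.mul ⟨18 * a + 3, by ring⟩ ⟨9 * a + 1, by ring⟩
  have h5 := h2.2
  rw [h4.neg_one_pow] at h5
  revert h5
  have : ¬ IsSquare (-1 : ZMod 3) := by decide
  intro h5
  apply this
  simpa using h5

lemma no_biplane_seven {v : ℕ} {B : Fin v → Finset (Fin v)} : ¬ IsDesign v 7 2 B := by
  intro h
  have h1 := (design_rep h (by omega)).2
  have hv : v = 22 := by omega
  subst hv
  have h2 := H177R2.SD.brc_local (p := 5) (isSymmetricDesign h (by omega)) (by omega) (by omega)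
    (by norm_num) (by norm_num) (by norm_num) (by norm_num) (by norm_num)
  omega

end Pool.Agent.Q118.NormGap
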