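import Pool.Agent.Q118.NormGap2

/-!
# The gap from `1` of the normalised Laplacian, third part: projective planes
-/

namespace Pool.Agent.Q118.NormGap

open Finset Configuration

open Classical in
/-- The incidence graph of a finite projective plane of order `n`: degrees, connectedness, gap. -/
lemma plane_graph (P L : Type) [Membership P L] [Fintype P] [Fintype L] [ProjectivePlane P L]
    {n : ℕ} (hn : ProjectivePlane.order P L = n) :
    3 ≤ Fintype.card (P ⊕ L) ∧ (incGraph (fun (p : P) (l : L) => p ∈ l)).Connected ∧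
      (∀ v, (incGraph (fun (p : P) (l : L) => p ∈ l)).degree v = n + 1) ∧
      Real.sqrt n / ((n + 1 : ℕ) : ℝ) ≤ gap (incGraph (fun (p : P) (l : L) => p ∈ l)) := by
  have h1 : ∀ p : P, (univ.filter fun l : L => p ∈ l).card = n + 1 := by
    intro p
    have := ProjectivePlane.lineCount_eq (P := P) (L := L) p
    rw [lineCount, Nat.card_eq_fintype_card, Fintype.card_subtype, hn] at this
    exact this
  have h1' : ∀ l : L, (univ.filter fun p : P => p ∈ l).card = n + 1 := by
    intro l
    have := ProjectivePlane.pointCount_eq (P := P) (L := L) l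
    rw [pointCount, Nat.card_eq_fintype_card, Fintype.card_subtype, hn] at this
    exact this
  have h2 : ∀ p q : P, p ≠ q → (univ.filter fun l : L => p ∈ l ∧ q ∈ l).card = 1 := by
    intro p q hpq
    obtain ⟨l, hl, hl'⟩ := HasLines.existsUnique_line P L p q hpq
    rw [card_eq_one]
    refine ⟨l, ?_⟩
    ext m
    simp only [mem_filter, mem_univ, true_and, mem_singleton]
    exact ⟨fun h => hl' m h, fun h => h ▸ hl⟩
  have h2' : ∀ l m : L, l ≠ m → (univ.filter fun p : P => p ∈ l ∧ p ∈ m).card = 1 := by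
    intro l m hlm
    obtain ⟨p, hp, hp'⟩ := HasPoints.existsUnique_point P L l m hlm
    rw [card_eq_one]
    refine ⟨p, ?_⟩
    ext q
    simp only [mem_filter, mem_univ, true_and, mem_singleton]
    exact ⟨fun h => hp' q h, fun h => h ▸ hp⟩
  have hn1 : 1 < n := hn ▸ ProjectivePlane.one_lt_order P L
  have hP : Fintype.card P = n ^ 2 + n + 1 := hn ▸ ProjectivePlane.card_points P L
  have hne : Nonempty P := by
    rw [← Fintype.card_pos_iff, hP]
    positivity
  refine ⟨?_, ?_, ?_, ?_⟩
  · rw [Fintype.card_sum, hP]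
    nlinarith
  · have hpp : ∀ p q : P, (incGraph (fun (p : P) (l : L) => p ∈ l)).Reachable
        (Sum.inl p) (Sum.inl q) := by
      intro p q
      by_cases hpq : p = q
      · rw [hpq]
      · obtain ⟨l, hl, -⟩ := HasLines.existsUnique_line P L p q hpq
        have a1 : (incGraph (fun (p : P) (l : L) => p ∈ l)).Adj (Sum.inl p) (Sum.inr l) := hl.1
        have a2 : (incGraph (fun (p : P) (l : L) => p ∈ l)).Adj (Sum.inr l) (Sum.inl q) := hl.2
        exact a1.reachable.trans a2.reachable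
    have hall : ∀ v, ∃ p : P, (incGraph (fun (p : P) (l : L) => p ∈ l)).Reachable
        v (Sum.inl p) := by
      rintro (p | l)
      · exact ⟨p, SimpleGraph.Reachable.refl _⟩
      · have : (univ.filter fun p : P => p ∈ l).Nonempty := by
          rw [← card_pos, h1']
          omega
        obtain ⟨p, hp⟩ := this
        rw [mem_filter] at hp
        have a1 : (incGraph (fun (p : P) (l : L) => p ∈ l)).Adj (Sum.inr l) (Sum.inl p) := hp.2
        exact ⟨p, a1.reachable⟩
    rw [SimpleGraph.connected_iff]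
    refine ⟨fun u v => ?_, ⟨Sum.inl (Classical.arbitrary P)⟩⟩
    obtain ⟨p, hp⟩ := hall u
    obtain ⟨q, hq⟩ := hall v
    exact hp.trans ((hpp p q).trans hq.symm)
  · rintro (p | l)
    · rw [degree_inl]
      exact h1 p
    · rw [degree_inr]
      exact h1' l
  · have := le_gap_design (fun (p : P) (l : L) => p ∈ l) (k := n + 1) (c := 1) (by omega)
      (by omega) h1 h1' h2 h2'
    have e : (((n + 1 : ℕ) : ℝ) - ((1 : ℕ) : ℝ)) = n := by
      push_cast
      ring
    rw [e] at this
    exact this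

open scoped LinearAlgebra.Projectivization in
/-- For every prime power `q` there is a projective plane of order `q`. -/
lemma exists_plane {q : ℕ} (hq : IsPrimePow q) : ∃ (P L : Type) (_ : Membership P L)
    (_ : Fintype P) (_ : Fintype L) (_ : ProjectivePlane P L), ProjectivePlane.order P L = q := by
  classical
  obtain ⟨p, n, hp, hn, rfl⟩ := hq
  have : Fact p.Prime := ⟨Nat.prime_iff.2 hp⟩
  have hfin : Finite (GaloisField p n) := by
    have h1 : Nat.card (GaloisField p n) = p ^ n := GaloisField.card p n hn.ne'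
    refine Nat.finite_of_card_ne_zero ?_
    rw [h1]
    exact pow_ne_zero _ hp.ne_zero
  have hF : Fintype (ℙ (GaloisField p n) (Fin 3 → GaloisField p n)) := Fintype.ofFinite _
  refine ⟨ℙ (GaloisField p n) (Fin 3 → GaloisField p n),
    ℙ (GaloisField p n) (Fin 3 → GaloisField p n), inferInstance, hF, hF, inferInstance, ?_⟩
  have h1 := ProjectivePlane.card_points (ℙ (GaloisField p n) (Fin 3 → GaloisField p n))
    (ℙ (GaloisField p n) (Fin 3 → GaloisField p n))
  have h2 : Nat.card (ℙ (GaloisField p n) (Fin 3 → GaloisField p n)) =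
      ∑ i ∈ range 3, Nat.card (GaloisField p n) ^ i :=
    Projectivization.card_of_finrank _ _ (by simp)
  rw [Nat.card_eq_fintype_card, GaloisField.card p n hn.ne'] at h2
  rw [h2] at h1
  simp only [sum_range_succ, sum_range_zero, pow_zero, pow_one, zero_add] at h1
  have h3 : ∀ a b : ℕ, 1 + a + a ^ 2 = b ^ 2 + b + 1 → a = b := by
    intro a b hab
    rcases lt_trichotomy a b with h | h | h
    · nlinarith
    · exact h
    · nlinarith
  exact (h3 _ _ h1).symm

/-- There is no finite projective plane of order `n`. -/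
def NoPlane (n : ℕ) : Prop :=
  ∀ (P L : Type) [Membership P L] [Fintype P] [Fintype L] [ProjectivePlane P L],
    ProjectivePlane.order P L ≠ n

open Classical in
/-- A projective plane of order `n` gives an `(n² + n + 1, n + 1, 1)` design. -/
lemma noPlane_of_noDesign {n : ℕ}
    (h : ∀ (v : ℕ) (B : Fin v → Finset (Fin v)), ¬ IsDesign v (n + 1) 1 B) : NoPlane n := by
  intro P L _ _ _ _ hn
  have hn1 : 1 < n := hn ▸ ProjectivePlane.one_lt_order P L
  have hP : Fintype.card P = n ^ 2 + n + 1 := hn ▸ ProjectivePlane.card_points P L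
  have hL : Fintype.card L = n ^ 2 + n + 1 := hn ▸ ProjectivePlane.card_lines P L
  have e : Fin (n ^ 2 + n + 1) ≃ P := (Fintype.equivFinOfCardEq hP).symm
  have f : Fin (n ^ 2 + n + 1) ≃ L := (Fintype.equivFinOfCardEq hL).symm
  refine h (n ^ 2 + n + 1) (fun i => univ.filter fun x => e x ∈ f i) ⟨le_rfl, ?_, ?_, ?_⟩
  · nlinarith
  · intro i
    have h1 := ProjectivePlane.pointCount_eq (P := P) (L := L) (f i)
    rw [pointCount, Nat.card_eq_fintype_card, Fintype.card_subtype, hn] at h1
    rw [← h1]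
    refine card_bij (fun x _ => e x) ?_ ?_ ?_
    · intro x hx
      simpa using hx
    · intro x _ y _ hxy
      exact e.injective hxy
    · intro p hp
      exact ⟨e.symm p, by simpa using hp, by simp⟩
  · intro x y hxy
    obtain ⟨l, hl, hl'⟩ := HasLines.existsUnique_line P L (e x) (e y) (e.injective.ne hxy)
    rw [card_eq_one]
    refine ⟨f.symm l, ?_⟩
    ext i
    simp only [mem_filter, mem_univ, true_and, mem_singleton]
    constructor
    · intro hi
      rw [Equiv.eq_symm_apply]
      exact hl' (f i) hi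
    · rintro rfl
      simpa using hl

/-- The blocks of a family. -/
structure Blk {v : ℕ} (B : Fin v → Finset (Fin v)) where
  /-- the index -/
  idx : Fin v

instance {v : ℕ} (B : Fin v → Finset (Fin v)) : Membership (Fin v) (Blk B) :=
  ⟨fun l p => p ∈ B l.idx⟩

/-- The blocks correspond to their indices. -/
def blkEquiv {v : ℕ} (B : Fin v → Finset (Fin v)) : Fin v ≃ Blk B where
  toFun i := ⟨i⟩
  invFun l := l.idx
  left_inv _ := rfl
  right_inv _ := rfl

instance {v : ℕ} (B : Fin v → Finset (Fin v)) : Fintype (Blk B) :=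
  Fintype.ofEquiv _ (blkEquiv B)

/-- A `(v, k, 1)` design with `k ≥ 3` is a projective plane of order `k - 1`. -/
lemma noDesign_of_noPlane {k : ℕ} (hk : 3 ≤ k) (h : NoPlane (k - 1)) (v : ℕ)
    (B : Fin v → Finset (Fin v)) : ¬ IsDesign v k 1 B := by
  classical
  intro hB
  obtain ⟨hrep, hvk⟩ := design_rep hB (by omega)
  obtain ⟨-, hkv, hcard, hpair⟩ := hB
  rw [one_mul] at hvk
  have huniq : ∀ (p q : Fin v) (l m : Blk B), p ∈ l → q ∈ l → p ∈ m → q ∈ m → p = q ∨ l = m := by
    intro p q l m h1 h2 h3 h4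
    by_cases hpq : p = q
    · exact Or.inl hpq
    · right
      have h5 := hpair p q hpq
      rw [card_eq_one] at h5
      obtain ⟨i, hi⟩ := h5
      have h6 : l.idx ∈ ({i} : Finset (Fin v)) := hi ▸ mem_filter.2 ⟨mem_univ _, h1, h2⟩
      have h7 : m.idx ∈ ({i} : Finset (Fin v)) := hi ▸ mem_filter.2 ⟨mem_univ _, h3, h4⟩
      rw [mem_singleton] at h6 h7
      cases l
      cases m
      simp only at h6 h7
      rw [h6, h7]
  have hline : ∀ p q : Fin v, p ≠ q → ∃ l : Blk B, p ∈ l ∧ q ∈ l := by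
    intro p q hpq
    have h5 := hpair p q hpq
    rw [card_eq_one] at h5
    obtain ⟨i, hi⟩ := h5
    have h6 : i ∈ (univ.filter fun i => p ∈ B i ∧ q ∈ B i) := by
      rw [hi]
      exact mem_singleton_self i
    rw [mem_filter] at h6
    exact ⟨⟨i⟩, h6.2.1, h6.2.2⟩
  have hpt : ∀ l : Blk B, ∃ p, p ∉ l := by
    intro l
    by_contra hcon
    push Not at hcon
    have h1 : (univ : Finset (Fin v)) ⊆ B l.idx := fun p _ => hcon p
    have h2 := card_le_card h1
    rw [card_univ, Fintype.card_fin, hcard] at h2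
    omega
  have hln : ∀ p : Fin v, ∃ l : Blk B, p ∉ l := by
    intro p
    by_contra hcon
    push Not at hcon
    have h1 : (univ : Finset (Fin v)) ⊆ univ.filter fun i => p ∈ B i := fun i _ =>
      mem_filter.2 ⟨mem_univ _, hcon ⟨i⟩⟩
    have h2 := card_le_card h1
    rw [card_univ, Fintype.card_fin, hrep] at h2
    omega
  let hL : HasLines (Fin v) (Blk B) :=
    { exists_point := hpt
      exists_line := hln
      eq_or_eq := fun {p q l m} h1 h2 h3 h4 => huniq p q l m h1 h2 h3 h4
      mkLine := fun {p q} hpq => (hline p q hpq).choose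
      mkLine_ax := fun {p q} hpq => (hline p q hpq).choose_spec }
  have hc : Fintype.card (Fin v) = Fintype.card (Blk B) := Fintype.card_congr (blkEquiv B)
  let hPt : HasPoints (Fin v) (Blk B) := @HasLines.hasPoints (Fin v) (Blk B) _ hL _ _ hc
  have hv : 0 < v := by omega
  -- a configuration in general position
  have hconf : ∃ (p₁ p₂ p₃ : Fin v) (l₁ l₂ l₃ : Blk B),
      p₁ ∉ l₂ ∧ p₁ ∉ l₃ ∧ p₂ ∉ l₁ ∧ p₂ ∈ l₂ ∧ p₂ ∈ l₃ ∧ p₃ ∉ l₁ ∧ p₃ ∈ l₂ ∧ p₃ ∉ l₃ := by
    set l₂ : Blk B := ⟨⟨0, hv⟩⟩
    obtain ⟨p₁, hp₁⟩ := hpt l₂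
    have h2 : 1 < (B l₂.idx).card := by
      rw [hcard]
      omega
    obtain ⟨p₂, hp₂, p₃, hp₃, h23⟩ := one_lt_card.1 h2
    have hp₂' : p₂ ∈ l₂ := hp₂
    have hp₃' : p₃ ∈ l₂ := hp₃
    have h12 : p₁ ≠ p₂ := fun h => hp₁ (h ▸ hp₂')
    have h13 : p₁ ≠ p₃ := fun h => hp₁ (h ▸ hp₃')
    obtain ⟨m, hm1, hm2⟩ := hline p₁ p₂ h12
    obtain ⟨m', hm1', hm3'⟩ := hline p₁ p₃ h13
    -- third line through p₂
    obtain ⟨i, hi, hi'⟩ : ∃ i ∈ univ.filter (fun i => p₂ ∈ B i), i ∉ ({m.idx, l₂.idx} : Finset _) := by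
      refine exists_mem_notMem_of_card_lt_card ?_
      rw [hrep]
      exact lt_of_le_of_lt card_le_two (by omega)
    obtain ⟨j, hj, hj'⟩ : ∃ j ∈ univ.filter (fun i => p₁ ∈ B i), j ∉ ({m.idx, m'.idx} : Finset _) := by
      refine exists_mem_notMem_of_card_lt_card ?_
      rw [hrep]
      exact lt_of_le_of_lt card_le_two (by omega)
    rw [mem_filter] at hi hj
    simp only [mem_insert, mem_singleton, not_or] at hi' hj'
    have hi2 : p₂ ∈ (⟨i⟩ : Blk B) := hi.2
    have hj2 : p₁ ∈ (⟨j⟩ : Blk B) := hj.2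
    refine ⟨p₁, p₂, p₃, ⟨j⟩, l₂, ⟨i⟩, hp₁, ?_, ?_, hp₂', hi2, ?_, hp₃', ?_⟩
    · intro hp
      rcases huniq p₁ p₂ ⟨i⟩ m hp hi2 hm1 hm2 with h | h
      · exact h12 h
      · exact hi'.1 (congrArg Blk.idx h)
    · intro hp
      rcases huniq p₁ p₂ ⟨j⟩ m hj2 hp hm1 hm2 with h | h
      · exact h12 h
      · exact hj'.1 (congrArg Blk.idx h)
    · intro hp
      rcases huniq p₁ p₃ ⟨j⟩ m' hj2 hp hm1' hm3' with h | h
      · exact h13 h
      · exact hj'.2 (congrArg Blk.idx h)
    · intro hp
      rcases huniq p₂ p₃ ⟨i⟩ l₂ hi2 hp hp₂' hp₃' with h | h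
      · exact h23 h
      · exact hi'.2 (congrArg Blk.idx h)
  let hPP : ProjectivePlane (Fin v) (Blk B) := { hPt, hL with exists_config := hconf }
  apply h (Fin v) (Blk B)
  have h1 := ProjectivePlane.card_points (Fin v) (Blk B)
  rw [Fintype.card_fin] at h1
  set n := ProjectivePlane.order (Fin v) (Blk B) with hn
  obtain ⟨k', rfl⟩ : ∃ k', k = k' + 1 := ⟨k - 1, by omega⟩
  rw [Nat.add_sub_cancel] at hvk ⊢
  have h2 : n ^ 2 + n = (k' + 1) * k' := by omega
  rcases lt_trichotomy n k' with h3 | h3 | h3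
  · nlinarith
  · exact h3
  · nlinarith

end Pool.Agent.Q118.NormGap
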