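import Mathlib
set_option autoImplicit false
open scoped Classical

/-!
The partite construction for edge colourings (Nešetřil and Rödl), with Hales and Jewett as the partite
lemma, for graphs whose vertices are distributed over the elements of a finite set `I`.
-/

namespace Pool.Agent.Q118.Partite

open Combinatorics

/-- An `I`-partite graph. -/
structure PG (I : Type) where
  V : Type
  fin : Finite V
  π : V → I
  G : SimpleGraph V
  part : ∀ u v, G.Adj u v → π u ≠ π v

/-- The graph has a clique lying over the set `F` of parts. -/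
def PG.HasClique {I : Type} (P : PG I) (F : Finset I) : Prop :=
  ∃ s : I → P.V, (∀ z ∈ F, P.π (s z) = z) ∧ ∀ z ∈ F, ∀ z' ∈ F, z ≠ z' → P.G.Adj (s z) (s z')

section Step

variable {I : Type} (P : PG I) (x y : I) (hxy : x ≠ y)

/-- The edges between the parts `x` and `y`. -/
abbrev Ed : Type := {p : P.V × P.V // P.G.Adj p.1 p.2 ∧ P.π p.1 = x ∧ P.π p.2 = y}

variable {ι : Type}

/-- The copy of a vertex of the two parts belonging to a line. -/
noncomputable def phi (L : Line (Ed P x y) ι) (v : P.V) : ι → P.V := fun c =>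
  match L.idxFun c with
  | none => v
  | some e => if P.π v = x then e.1.1 else e.1.2

/-- The copy of the graph belonging to a line. -/
noncomputable def psi (L : Line (Ed P x y) ι) (v : P.V) : Option (Line (Ed P x y) ι) × (ι → P.V) :=
  if P.π v = x ∨ P.π v = y then (none, phi P x y L v) else (some L, fun _ => v)

/-- The edges of the power graph. -/
def Pow (a b : Option (Line (Ed P x y) ι) × (ι → P.V)) : Prop :=
  a.1 = none ∧ b.1 = none ∧ ∀ c, P.G.Adj (a.2 c) (b.2 c) ∧ P.π (a.2 c) = x ∧ P.π (b.2 c) = y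

/-- The edges coming from the copies, not between the two parts. -/
def Img (a b : Option (Line (Ed P x y) ι) × (ι → P.V)) : Prop :=
  ∃ (L : Line (Ed P x y) ι) (u v : P.V), P.G.Adj u v ∧
    ¬ ((P.π u = x ∨ P.π u = y) ∧ (P.π v = x ∨ P.π v = y)) ∧ a = psi P x y L u ∧ b = psi P x y L v

theorem phi_part (L : Line (Ed P x y) ι) {v : P.V} (hv : P.π v = x ∨ P.π v = y) (c : ι) :
    P.π (phi P x y L v c) = P.π v := by
  unfold phi
  cases h : L.idxFun c with
  | none => rfl
  | some e =>
    simp only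
    by_cases hx : P.π v = x
    · rw [if_pos hx, hx, e.2.2.1]
    · rw [if_neg hx, e.2.2.2]
      rcases hv with h | h
      · exact absurd h hx
      · exact h.symm

theorem phi_moving (L : Line (Ed P x y) ι) (v : P.V) {c : ι} (hc : L.idxFun c = none) :
    phi P x y L v c = v := by
  unfold phi
  rw [hc]

theorem psi_part (L : Line (Ed P x y) ι) (v : P.V) (c : ι) :
    P.π ((psi P x y L v).2 c) = P.π v := by
  unfold psi
  split
  · rename_i h
    exact phi_part P x y L h c
  · rfl

theorem psi_none {L : Line (Ed P x y) ι} {v : P.V} (h : (psi P x y L v).1 = none) :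
    (P.π v = x ∨ P.π v = y) := by
  by_contra hcon
  unfold psi at h
  rw [if_neg hcon] at h
  exact absurd h (by simp)

theorem psi_moving (L : Line (Ed P x y) ι) (v : P.V) {c : ι} (hc : L.idxFun c = none) :
    (psi P x y L v).2 c = v := by
  unfold psi
  split
  · exact phi_moving P x y L v hc
  · rfl

theorem psi_inj (L : Line (Ed P x y) ι) : Function.Injective (psi P x y L) := by
  intro a b hab
  obtain ⟨c, hc⟩ := L.proper
  rw [← psi_moving P x y L a hc, hab, psi_moving P x y L b hc]

theorem psi_some {L L' : Line (Ed P x y) ι} {v w : P.V} (h : psi P x y L v = psi P x y L' w)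
    (hw : ¬ (P.π w = x ∨ P.π w = y)) : L = L' ∧ v = w := by
  have h1 : psi P x y L' w = (some L', fun _ => w) := by
    unfold psi
    rw [if_neg hw]
  have h2 : ¬ (P.π v = x ∨ P.π v = y) := by
    intro hv
    have h3 : psi P x y L v = (none, phi P x y L v) := by
      unfold psi
      rw [if_pos hv]
    rw [h1, h3] at h
    exact absurd (congrArg Prod.fst h) (by simp)
  have h3 : psi P x y L v = (some L, fun _ => v) := by
    unfold psi
    rw [if_neg h2]
  have h4 : L = L' := by
    rw [h1, h3] at h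
    exact Option.some.inj (congrArg Prod.fst h)
  subst h4
  exact ⟨rfl, psi_inj P x y L h⟩

include hxy in
theorem pow_of_adj (L : Line (Ed P x y) ι) {u v : P.V} (h : P.G.Adj u v) (hu : P.π u = x)
    (hv : P.π v = y) : Pow P x y (psi P x y L u) (psi P x y L v) := by
  have h1 : psi P x y L u = (none, phi P x y L u) := by
    unfold psi
    rw [if_pos (Or.inl hu)]
  have h2 : psi P x y L v = (none, phi P x y L v) := by
    unfold psi
    rw [if_pos (Or.inr hv)]
  refine ⟨by rw [h1], by rw [h2], fun c => ⟨?_, ?_, ?_⟩⟩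
  · rw [h1, h2]
    change P.G.Adj (phi P x y L u c) (phi P x y L v c)
    unfold phi
    cases hc : L.idxFun c with
    | none => exact h
    | some e =>
      simp only
      rw [if_pos hu, if_neg (by rw [hv]; exact hxy.symm)]
      exact e.2.1
  · rw [psi_part, hu]
  · rw [psi_part, hv]

theorem adj_of_pow {L : Line (Ed P x y) ι} {u v : P.V}
    (h : Pow P x y (psi P x y L u) (psi P x y L v)) : P.G.Adj u v := by
  obtain ⟨c, hc⟩ := L.proper
  have := (h.2.2 c).1
  rwa [psi_moving P x y L u hc, psi_moving P x y L v hc] at this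

theorem adj_of_img {L : Line (Ed P x y) ι} {u v : P.V}
    (h : Img P x y (psi P x y L u) (psi P x y L v)) : P.G.Adj u v := by
  obtain ⟨L', a, b, hab, hn, h1, h2⟩ := h
  by_cases ha : P.π a = x ∨ P.π a = y
  · have hb : ¬ (P.π b = x ∨ P.π b = y) := fun hb => hn ⟨ha, hb⟩
    obtain ⟨rfl, rfl⟩ := psi_some P x y h2 hb
    have := psi_inj P x y L h1
    rw [this]
    exact hab
  · obtain ⟨rfl, rfl⟩ := psi_some P x y h1 ha
    have := psi_inj P x y L h2
    rw [this]
    exact hab

instance [Finite ι] : Finite (Line (Ed P x y) ι) := by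
  have := P.fin
  refine Finite.of_injective (fun L : Line (Ed P x y) ι => L.idxFun) ?_
  intro L L' h
  cases L
  cases L'
  cases h
  rfl

/-- The next graph. -/
noncomputable def nxt [Finite ι] (c0 : ι) : PG I where
  V := Option (Line (Ed P x y) ι) × (ι → P.V)
  fin := by
    have := P.fin
    infer_instance
  π := fun a => P.π (a.2 c0)
  G :=
    { Adj := fun a b => Img P x y a b ∨ Pow P x y a b ∨ Pow P x y b a
      symm := ⟨fun a b h => by
        rcases h with ⟨L, u, v, h1, h2, h3, h4⟩ | h | h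
        · exact Or.inl ⟨L, v, u, h1.symm, fun h => h2 ⟨h.2, h.1⟩, h4, h3⟩
        · exact Or.inr (Or.inr h)
        · exact Or.inr (Or.inl h)⟩
      loopless := ⟨fun a h => by
        rcases h with ⟨L, u, v, h1, h2, h3, h4⟩ | h | h
        · rw [h3] at h4
          have := psi_inj P x y L h4
          exact h1.ne this
        · exact (h.2.2 c0).1.ne rfl
        · exact (h.2.2 c0).1.ne rfl⟩ }
  part := by
    rintro a b (⟨L, u, v, h1, h2, h3, h4⟩ | h | h)
    · rw [h3, h4, psi_part, psi_part]
      exact P.part u v h1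
    · exact P.part _ _ (h.2.2 c0).1
    · exact (P.part _ _ (h.2.2 c0).1).symm

include hxy in
theorem step (κ : Type) [Finite κ] [Nonempty κ] : ∃ P' : PG I,
    (∀ F : Finset I, 3 ≤ F.card → P'.HasClique F → P.HasClique F) ∧
    ∀ χ : Sym2 P'.V → κ, ∃ ψ : P.V → P'.V, (∀ v, P'.π (ψ v) = P.π v) ∧
      (∀ u v, P.G.Adj u v → P'.G.Adj (ψ u) (ψ v)) ∧
      ∃ d : κ, ∀ u v, P.G.Adj u v → P.π u = x → P.π v = y → χ s(ψ u, ψ v) = d := by
  have := P.fin
  by_cases hE : Nonempty (Ed P x y)
  swap
  · refine ⟨P, fun F _ h => h, fun χ => ⟨id, fun _ => rfl, fun _ _ h => h, Classical.arbitrary κ,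
      fun u v h1 h2 h3 => ?_⟩⟩
    exact absurd ⟨⟨(u, v), h1, h2, h3⟩⟩ hE
  obtain ⟨ι, hfin, hι⟩ := Line.exists_mono_in_high_dimension (Ed P x y) κ
  have hfin' : Finite ι := Finite.of_fintype ι
  obtain ⟨L0, -⟩ := hι fun _ => Classical.arbitrary κ
  obtain ⟨c0, -⟩ := L0.proper
  refine ⟨nxt P x y c0, ?_, ?_⟩
  · -- cliques
    rintro F hF ⟨s, hs1, hs2⟩
    obtain ⟨z0, hz0, hz0x, hz0y⟩ : ∃ z ∈ F, z ≠ x ∧ z ≠ y := by
      by_contra hcon
      push Not at hcon
      have hsub : F ⊆ {x, y} := by
        intro z hz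
        rw [Finset.mem_insert, Finset.mem_singleton]
        by_cases h : z = x
        · exact Or.inl h
        · exact Or.inr (hcon z hz h)
      have := (Finset.card_le_card hsub).trans Finset.card_le_two
      omega
    have hz0' : ¬ (P.π ((s z0).2 c0) = x ∨ P.π ((s z0).2 c0) = y) := by
      have : P.π ((s z0).2 c0) = z0 := hs1 z0 hz0
      rw [this]
      rintro (h | h)
      · exact hz0x h
      · exact hz0y h
    have himg : ∀ z ∈ F, z ≠ z0 → Img P x y (s z0) (s z) := by
      intro z hz hne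
      have h1 : Img P x y (s z0) (s z) ∨ Pow P x y (s z0) (s z) ∨ Pow P x y (s z) (s z0) :=
        hs2 z0 hz0 z hz hne.symm
      rcases h1 with h | h | h
      · exact h
      · exact absurd (Or.inl (h.2.2 c0).2.1) hz0'
      · exact absurd (Or.inr (h.2.2 c0).2.2) hz0'
    obtain ⟨z1, hz1, hz1ne⟩ : ∃ z ∈ F, z ≠ z0 := by
      have : 1 < F.card := by omega
      obtain ⟨z, hz, hne⟩ := Finset.exists_mem_ne this z0
      exact ⟨z, hz, hne⟩
    obtain ⟨L, u, v, -, -, hL, -⟩ := himg z1 hz1 hz1ne
    have hu : ¬ (P.π u = x ∨ P.π u = y) := by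
      rw [hL, psi_part] at hz0'
      exact hz0'
    have key : ∀ z ∈ F, ∃ w, s z = psi P x y L w := by
      intro z hz
      by_cases hne : z = z0
      · exact ⟨u, by rw [hne, hL]⟩
      · obtain ⟨L', u', v', -, -, h1, h2⟩ := himg z hz hne
        rw [hL] at h1
        obtain ⟨hLL, -⟩ := psi_some P x y h1.symm hu
        exact ⟨v', by rw [h2, hLL]⟩
    have : Nonempty P.V := ⟨u⟩
    choose! t ht using key
    refine ⟨t, ?_, ?_⟩
    · intro z hz
      have h1 : P.π ((s z).2 c0) = z := hs1 z hz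
      rw [ht z hz, psi_part] at h1
      exact h1
    · intro z hz z' hz' hne
      have h1 : Img P x y (s z) (s z') ∨ Pow P x y (s z) (s z') ∨ Pow P x y (s z') (s z) :=
        hs2 z hz z' hz' hne
      rw [ht z hz, ht z' hz'] at h1
      rcases h1 with h | h | h
      · exact adj_of_img P x y h
      · exact adj_of_pow P x y h
      · exact (adj_of_pow P x y h).symm
  · -- colourings
    intro χ
    obtain ⟨L, d, hd⟩ := hι fun h => χ s(((none : Option (Line (Ed P x y) ι)), fun c => (h c).1.1),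
      ((none : Option (Line (Ed P x y) ι)), fun c => (h c).1.2))
    refine ⟨psi P x y L, fun v => psi_part P x y L v c0, ?_, d, ?_⟩
    · intro u v h
      by_cases hn : (P.π u = x ∨ P.π u = y) ∧ (P.π v = x ∨ P.π v = y)
      · right
        obtain ⟨h1 | h1, h2 | h2⟩ := hn
        · exact absurd (h1.trans h2.symm) (P.part u v h)
        · exact Or.inl (pow_of_adj P x y hxy L h h1 h2)
        · exact Or.inr (pow_of_adj P x y hxy L h.symm h2 h1)
        · exact absurd (h1.trans h2.symm) (P.part u v h)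
      · exact Or.inl ⟨L, u, v, h, hn, rfl, rfl⟩
    · intro u v h hu hv
      have h1 := hd ⟨(u, v), h, hu, hv⟩
      rw [← h1]
      have e1 : psi P x y L u = ((none : Option (Line (Ed P x y) ι)),
          fun c => (L ⟨(u, v), h, hu, hv⟩ c).1.1) := by
        unfold psi
        rw [if_pos (Or.inl hu)]
        congr 1
        funext c
        unfold phi
        rw [Line.coe_apply]
        cases hc : L.idxFun c with
        | none => rfl
        | some e =>
          simp only [Option.getD_some]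
          rw [if_pos hu]
      have e2 : psi P x y L v = ((none : Option (Line (Ed P x y) ι)),
          fun c => (L ⟨(u, v), h, hu, hv⟩ c).1.2) := by
        unfold psi
        rw [if_pos (Or.inr hv)]
        congr 1
        funext c
        unfold phi
        rw [Line.coe_apply]
        cases hc : L.idxFun c with
        | none => rfl
        | some e =>
          simp only [Option.getD_some]
          rw [if_neg (by rw [hv]; exact hxy.symm)]
      rw [e1, e2]

end Step

theorem iterate {I : Type} (κ : Type) [Finite κ] [Nonempty κ] (P : PG I) (l : List (I × I))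
    (hl : ∀ p ∈ l, p.1 ≠ p.2) : ∃ P' : PG I,
    (∀ F : Finset I, 3 ≤ F.card → P'.HasClique F → P.HasClique F) ∧
    ∀ χ : Sym2 P'.V → κ, ∃ ψ : P.V → P'.V, (∀ v, P'.π (ψ v) = P.π v) ∧
      (∀ u v, P.G.Adj u v → P'.G.Adj (ψ u) (ψ v)) ∧
      ∀ p ∈ l, ∃ d : κ, ∀ u v, P.G.Adj u v → P.π u = p.1 → P.π v = p.2 →
        χ s(ψ u, ψ v) = d := by
  induction l with
  | nil => exact ⟨P, fun F _ h => h, fun χ => ⟨id, fun _ => rfl, fun _ _ h => h, by simp⟩⟩
  | cons p l ih =>
    obtain ⟨P1, h1, h2⟩ := ih fun q hq => hl q (List.mem_cons_of_mem _ hq)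
    obtain ⟨P2, h3, h4⟩ := step P1 p.1 p.2 (hl p List.mem_cons_self) κ
    refine ⟨P2, fun F hF h => h1 F hF (h3 F hF h), fun χ => ?_⟩
    obtain ⟨ψ2, a1, a2, d, a3⟩ := h4 χ
    obtain ⟨ψ1, b1, b2, b3⟩ := h2 fun e => χ (e.map ψ2)
    refine ⟨fun v => ψ2 (ψ1 v), fun v => by rw [a1, b1], fun u v h => a2 _ _ (b2 _ _ h), ?_⟩
    intro q hq
    rw [List.mem_cons] at hq
    rcases hq with rfl | hq
    · exact ⟨d, fun u v h hu hv => a3 _ _ (b2 _ _ h) (by rw [b1, hu]) (by rw [b1, hv])⟩
    · obtain ⟨d', hd'⟩ := b3 q hq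
      refine ⟨d', fun u v h hu hv => ?_⟩
      have := hd' u v h hu hv
      rwa [Sym2.map_mk] at this

/-- The partite construction: if the sets of the family `S` contain no member of the family `F` of
forbidden sets (of size at least three), then there is an `I`-partite graph without cliques over the
members of `F` such that every colouring of its edges contains, for some colouring of the pairs of
`I`, a correctly coloured clique over each member of `S`. -/
theorem construction {I : Type} [Finite I] (κ : Type) [Finite κ] [Nonempty κ]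
    (F S : Set (Finset I)) (hF : ∀ A ∈ F, 3 ≤ A.card) (hS : ∀ B ∈ S, ∀ A ∈ F, ¬ A ⊆ B) :
    ∃ P : PG I, (∀ A ∈ F, ¬ P.HasClique A) ∧
      ∀ χ : Sym2 P.V → κ, ∃ χ0 : Sym2 I → κ, ∀ B ∈ S, ∃ s : I → P.V,
        (∀ z ∈ B, P.π (s z) = z) ∧
        ∀ z ∈ B, ∀ z' ∈ B, z ≠ z' → P.G.Adj (s z) (s z') ∧ χ s(s z, s z') = χ0 s(z, z') := by
  have := Fintype.ofFinite I
  let P0 : PG I :=
    { V := Finset I × I
      fin := inferInstance
      π := fun a => a.2
      G :=
        { Adj := fun a b => a.1 = b.1 ∧ a.1 ∈ S ∧ a.2 ∈ a.1 ∧ b.2 ∈ a.1 ∧ a.2 ≠ b.2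
          symm := ⟨fun a b h => ⟨h.1.symm, h.1 ▸ h.2.1, h.1 ▸ h.2.2.2.1, h.1 ▸ h.2.2.1,
            h.2.2.2.2.symm⟩⟩
          loopless := ⟨fun a h => h.2.2.2.2 rfl⟩ }
      part := fun u v h => h.2.2.2.2 }
  obtain ⟨P, h1, h2⟩ := iterate κ P0
    ((Finset.univ : Finset (I × I)).filter fun p => p.1 ≠ p.2).toList (by simp)
  refine ⟨P, ?_, fun χ => ?_⟩
  · intro A hA hcl
    obtain ⟨s, hs1, hs2⟩ := h1 A (hF A hA) hcl
    have hA3 := hF A hA
    obtain ⟨z0, hz0⟩ : A.Nonempty := Finset.card_pos.1 (by omega)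
    obtain ⟨z1, hz1, hne⟩ := Finset.exists_mem_ne (show 1 < A.card by omega) z0
    have h01 := hs2 z0 hz0 z1 hz1 hne.symm
    refine hS (s z0).1 h01.2.1 A hA fun z hz => ?_
    have hz' : (s z).2 = z := hs1 z hz
    by_cases hzz : z = z0
    · rw [hzz]
      have := h01.2.2.1
      rwa [show (s z0).2 = z0 from hs1 z0 hz0] at this
    · have h3 := hs2 z0 hz0 z hz (Ne.symm hzz)
      have := h3.2.2.2.1
      rwa [hz'] at this
  · obtain ⟨ψ, a1, a2, a3⟩ := h2 χ
    have hd : ∀ p : I × I, ∃ d : κ, p.1 ≠ p.2 → ∀ u v, P0.G.Adj u v → P0.π u = p.1 →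
        P0.π v = p.2 → χ s(ψ u, ψ v) = d := by
      intro p
      by_cases hp : p.1 ≠ p.2
      · obtain ⟨d, hd⟩ := a3 p (by simp [hp])
        exact ⟨d, fun _ => hd⟩
      · exact ⟨Classical.arbitrary κ, fun h => absurd h hp⟩
    choose d hd using hd
    refine ⟨fun e => d e.out, fun B hB => ⟨fun z => ψ (B, z), fun z _ => a1 _, ?_⟩⟩
    intro z hz z' hz' hne
    have hadj : P0.G.Adj (B, z) (B, z') := ⟨rfl, hB, hz, hz', hne⟩
    refine ⟨a2 _ _ hadj, ?_⟩
    have hout : s((s(z, z')).out.1, (s(z, z')).out.2) = s(z, z') := Quot.out_eq _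
    rw [Sym2.eq_iff] at hout
    rcases hout with ⟨h3, h4⟩ | ⟨h3, h4⟩
    · have := hd (s(z, z')).out (by rw [h3, h4]; exact hne) (B, z) (B, z') hadj h3.symm h4.symm
      exact this
    · have := hd (s(z, z')).out (by rw [h3, h4]; exact hne.symm) (B, z') (B, z) hadj.symm h3.symm
        h4.symm
      rw [Sym2.eq_swap]
      exact this

end Pool.Agent.Q118.Partite
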