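import Mathlib
set_option autoImplicit false

/-!
Trees of diameter at most three: a tree of diameter at most three has a dominating edge, and a graph
contains such a tree on `n` vertices iff two adjacent vertices have together at least `n` neighbours.
-/

namespace Pool.Agent.Q118.ShallowTree

open SimpleGraph

variable {V : Type}

/-- In a tree, going past a vertex `y` away from `w` increases the distance. -/
theorem dist_past {T : SimpleGraph V} (hT : T.IsTree) {w x y z : V} (hxy : T.Adj x y)
    (hzy : T.Adj z y) (hxz : x ≠ z) (h : T.dist w y = T.dist w x + 1) :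
    T.dist w z = T.dist w y + 1 := by
  rcases hT.dist_eq_dist_add_one_of_adj w hzy with h1 | h1
  · exact h1
  · exfalso
    obtain ⟨p, hp⟩ := (hT.1.preconnected w x).exists_walk_length_eq_dist
    obtain ⟨q, hq⟩ := (hT.1.preconnected w z).exists_walk_length_eq_dist
    have hp' : (p.concat hxy).IsPath := by
      apply Walk.isPath_of_length_eq_dist
      rw [Walk.length_concat, hp, h]
    have hq' : (q.concat hzy).IsPath := by
      apply Walk.isPath_of_length_eq_dist
      rw [Walk.length_concat, hq, h1]
    have h2 := (hT.2.subsingleton_path w y).elim ⟨_, hp'⟩ ⟨_, hq'⟩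
    have h3 : p.concat hxy = q.concat hzy := congrArg Subtype.val h2
    have h4 := congrArg Walk.penultimate h3
    rw [Walk.penultimate_concat, Walk.penultimate_concat] at h4
    exact hxz h4

/-- A tree of diameter at most three with at least two vertices has a dominating edge. -/
theorem exists_dominating_edge [Finite V] [Nontrivial V] {T : SimpleGraph V} (hT : T.IsTree)
    (hd : T.diam ≤ 3) : ∃ x y, T.Adj x y ∧ ∀ w, T.Adj x w ∨ T.Adj y w := by
  have htop : T.ediam ≠ ⊤ := connected_iff_ediam_ne_top.1 hT.1
  obtain ⟨a, b, hab⟩ := exists_dist_eq_diam (G := T)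
  have hle : ∀ u v, T.dist u v ≤ T.dist a b := fun u v => by
    rw [hab]; exact dist_le_diam htop
  have hne : T.dist a b ≠ 0 := by
    rw [hab]
    exact connected_iff_diam_ne_zero.1 hT.1
  have hab3 : T.dist a b ≤ 3 := by rw [hab]; exact hd
  -- adjacent or equal from distance at most one
  have h01 : ∀ u v, T.dist u v ≤ 1 → u = v ∨ T.Adj u v := by
    intro u v h
    rcases Nat.lt_or_ge (T.dist u v) 1 with h1 | h1
    · left
      exact (hT.1.dist_eq_zero_iff).1 (by omega)
    · right
      exact dist_eq_one_iff_adj.1 (by omega)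
  obtain ⟨p, hp⟩ := (hT.1.preconnected a b).exists_walk_length_eq_dist
  have key : ∀ x y z, T.Adj x y → T.Adj z y → x ≠ z → ∀ w, T.dist w y = T.dist w x + 1 →
      T.dist w x ≤ T.dist a b - 2 := by
    intro x y z hxy hzy hxz w hw
    have h1 := dist_past hT hxy hzy hxz hw
    have h2 := hle w z
    omega
  match p, hp with
  | .nil, hp => simp only [Walk.length_nil] at hp; omega
  | .cons (v := c) hac q, hp =>
    rw [Walk.length_cons] at hp
    match q, hp with
    | .nil, hp =>
      -- distance one
      simp only [Walk.length_nil] at hp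
      refine ⟨a, c, hac, fun w => ?_⟩
      rcases h01 c w (by have := hle c w; omega) with h | h
      · left; rw [← h]; exact hac
      · right; exact h
    | .cons (v := d) hcd q', hp =>
      rw [Walk.length_cons] at hp
      have hadne : a ≠ d := by
        rintro rfl
        have := SimpleGraph.dist_le q'
        omega
      refine ⟨c, d, hcd, fun w => ?_⟩
      rcases hT.dist_eq_dist_add_one_of_adj w hcd with h | h
      · -- `c` farther than `d`
        have h1 := key d c a hcd.symm hac hadne.symm w h
        rcases h01 d w (by rw [SimpleGraph.dist_comm]; omega) with h3 | h3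
        · left; rw [← h3]; exact hcd
        · right; exact h3
      · -- `d` farther than `c`
        match q', hp with
        | .nil, hp =>
          simp only [Walk.length_nil] at hp
          have h2 := hle w d
          rcases h01 c w (by rw [SimpleGraph.dist_comm]; omega) with h3 | h3
          · right; rw [← h3]; exact hcd.symm
          · left; exact h3
        | .cons (v := e) hde q'', hp =>
          rw [Walk.length_cons] at hp
          have hcene : c ≠ e := by
            rintro rfl
            have := SimpleGraph.dist_le (Walk.cons hac q'')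
            rw [Walk.length_cons] at this
            omega
          have h1 := key c d e hcd hde.symm hcene w h
          rcases h01 c w (by rw [SimpleGraph.dist_comm]; omega) with h3 | h3
          · right; rw [← h3]; exact hcd.symm
          · left; exact h3

/-- The graph given by a parent function. -/
def parentGraph (r : V) (p : V → V) : SimpleGraph V where
  Adj a b := a ≠ b ∧ ((a ≠ r ∧ b = p a) ∨ (b ≠ r ∧ a = p b))
  symm := ⟨fun _ _ h => ⟨h.1.symm, h.2.symm⟩⟩
  loopless := ⟨fun _ h => h.1 rfl⟩

theorem parentGraph_isTree [Finite V] (r : V) (p : V → V) (ρ : V → ℕ)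
    (h : ∀ v, v ≠ r → ρ (p v) < ρ v) : (parentGraph r p).IsTree := by
  have hadj : ∀ v, v ≠ r → (parentGraph r p).Adj v (p v) := by
    intro v hv
    have h1 : v ≠ p v := fun h1 => by
      have := h v hv
      rw [← h1] at this
      omega
    exact ⟨h1, Or.inl ⟨hv, rfl⟩⟩
  have hreach : ∀ n v, ρ v = n → (parentGraph r p).Reachable v r := by
    intro n
    induction n using Nat.strong_induction_on with
    | _ n ih =>
      intro v hv
      by_cases hvr : v = r
      · rw [hvr]
      · exact (hadj v hvr).reachable.trans (ih _ (by rw [← hv]; exact h v hvr) _ rfl)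
  have hconn : (parentGraph r p).Connected := by
    have : Nonempty V := ⟨r⟩
    refine ⟨fun u v => (hreach _ u rfl).trans (hreach _ v rfl).symm⟩
  rw [isTree_iff_connected_and_card]
  refine ⟨hconn, le_antisymm ?_ hconn.card_vert_le_card_edgeSet_add_one⟩
  have h1 : (parentGraph r p).edgeSet ⊆ (fun v => s(v, p v)) '' ({r}ᶜ : Set V) := by
    intro e he
    induction e using Sym2.ind with
    | _ a b =>
      have he' : a ≠ b ∧ ((a ≠ r ∧ b = p a) ∨ (b ≠ r ∧ a = p b)) := he
      rcases he'.2 with ⟨ha, hb⟩ | ⟨hb, ha⟩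
      · exact ⟨a, ha, by rw [hb]⟩
      · exact ⟨b, hb, by rw [ha, Sym2.eq_swap]⟩
  have h2 : (parentGraph r p).edgeSet.ncard ≤ ({r}ᶜ : Set V).ncard :=
    (Set.ncard_le_ncard h1 (Set.toFinite _)).trans (Set.ncard_image_le (Set.toFinite _))
  have h3 := Set.ncard_add_ncard_compl ({r} : Set V)
  rw [Set.ncard_singleton] at h3
  rw [Nat.card_coe_set_eq]
  omega

theorem parentGraph_diam_le {u v : V} (p : V → V) (huv : u ≠ v)
    (hpv : p v = u) (hp : ∀ w, w ≠ u → p w = u ∨ p w = v)
    (hne : ∀ w, w ≠ u → p w ≠ w) : (parentGraph u p).diam ≤ 3 := by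
  set T := parentGraph u p with hT
  have hadj : ∀ w, w ≠ u → T.Adj w (p w) := fun w hw => ⟨(hne w hw).symm, Or.inl ⟨hw, rfl⟩⟩
  have huvadj : T.Adj v u := by
    have := hadj v huv.symm
    rwa [hpv] at this
  have h1 : ∀ w, ∃ c, (c = u ∨ c = v) ∧ T.edist w c ≤ 1 := by
    intro w
    by_cases hw : w = u
    · exact ⟨u, Or.inl rfl, by rw [hw]; simp⟩
    · exact ⟨p w, hp w hw, by
        rw [(edist_eq_one_iff_adj).2 (hadj w hw)]⟩
  have h2 : ∀ c d, (c = u ∨ c = v) → (d = u ∨ d = v) → T.edist c d ≤ 1 := by
    rintro c d (rfl | rfl) (rfl | rfl)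
    · simp
    · rw [(edist_eq_one_iff_adj).2 huvadj.symm]
    · rw [(edist_eq_one_iff_adj).2 huvadj]
    · simp
  have h3 : T.ediam ≤ 3 := by
    refine ediam_le_of_edist_le fun a b => ?_
    obtain ⟨c, hc, hac⟩ := h1 a
    obtain ⟨d, hd, hbd⟩ := h1 b
    have h4 : T.edist a b ≤ T.edist a c + T.edist c d + T.edist d b :=
      T.edist_triangle.trans (add_le_add_left T.edist_triangle _)
    rw [T.edist_comm (u := d)] at h4
    refine h4.trans ?_
    calc T.edist a c + T.edist c d + T.edist b d ≤ 1 + 1 + 1 :=
          add_le_add (add_le_add hac (h2 c d hc hd)) hbd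
      _ = 3 := by norm_num
  have h5 : T.diam = T.ediam.toNat := rfl
  rw [h5]
  exact ENat.toNat_le_of_le_natCast (by exact_mod_cast h3)

/-- The vertices adjacent to `u` or to `v`. -/
def nbrs (G : SimpleGraph V) (u v : V) : Set V := {w | G.Adj u w ∨ G.Adj v w}

theorem contains_iff [Finite V] (G : SimpleGraph V) {n : ℕ} (hn : 2 ≤ n) :
    (∃ T : SimpleGraph (Fin n), T.IsTree ∧ T.diam ≤ 3 ∧ T.IsContained G) ↔
      ∃ u v, G.Adj u v ∧ n ≤ (nbrs G u v).ncard := by
  constructor
  · rintro ⟨T, hT, hd, ⟨f⟩⟩
    have : Nontrivial (Fin n) := Fin.nontrivial_iff_two_le.2 hn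
    obtain ⟨x, y, hxy, hdom⟩ := exists_dominating_edge hT hd
    refine ⟨f x, f y, f.toHom.map_adj hxy, ?_⟩
    have h1 : f '' (Set.univ : Set (Fin n)) ⊆ nbrs G (f x) (f y) := by
      rintro _ ⟨w, -, rfl⟩
      rcases hdom w with h | h
      · exact Or.inl (f.toHom.map_adj h)
      · exact Or.inr (f.toHom.map_adj h)
    have h2 := Set.ncard_le_ncard h1 (Set.toFinite _)
    have h3 : (f '' (Set.univ : Set (Fin n))).ncard = (Set.univ : Set (Fin n)).ncard :=
      Set.ncard_image_of_injective _ f.injective
    rw [h3, Set.ncard_univ, Nat.card_eq_fintype_card, Fintype.card_fin] at h2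
    exact h2
  · rintro ⟨u, v, huv, hcard⟩
    classical
    have huS : ({u, v} : Set V) ⊆ nbrs G u v := by
      rintro x (rfl | rfl)
      · exact Or.inr huv.symm
      · exact Or.inl huv
    have h2 : ({u, v} : Set V).ncard = 2 := Set.ncard_pair huv.ne
    obtain ⟨W, hW1, hW2, hW3⟩ := Set.exists_subsuperset_card_eq huS (by rw [h2]; exact hn) hcard
    have hcardW : Nat.card W = n := by rw [Nat.card_coe_set_eq]; exact hW3
    have : Finite W := Set.toFinite W
    let e : W ≃ Fin n := Finite.equivFinOfCardEq hcardW
    have huW : u ∈ W := hW1 (by simp)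
    have hvW : v ∈ W := hW1 (by simp)
    let g : Fin n → V := fun i => (e.symm i : V)
    let i0 : Fin n := e ⟨u, huW⟩
    let i1 : Fin n := e ⟨v, hvW⟩
    have hg : Function.Injective g := fun a b hab => e.symm.injective (Subtype.ext hab)
    have hg0 : g i0 = u := by simp [g, i0]
    have hg1 : g i1 = v := by simp [g, i1]
    let p : Fin n → Fin n := fun i => if g i = v ∨ G.Adj u (g i) then i0 else i1
    have h01 : i0 ≠ i1 := fun h => huv.ne (by rw [← hg0, ← hg1, h])
    have hp0 : ∀ i, (g i = v ∨ G.Adj u (g i)) → p i = i0 := by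
      intro i h; simp only [p]; rw [if_pos h]
    have hp1 : ∀ i, ¬ (g i = v ∨ G.Adj u (g i)) → p i = i1 := by
      intro i h; simp only [p]; rw [if_neg h]
    have hpv : p i1 = i0 := hp0 _ (Or.inl hg1)
    have hp : ∀ i, i ≠ i0 → p i = i0 ∨ p i = i1 := by
      intro i _
      by_cases h : g i = v ∨ G.Adj u (g i)
      · exact Or.inl (hp0 i h)
      · exact Or.inr (hp1 i h)
    have hadj : ∀ i, i ≠ i0 → G.Adj (g i) (g (p i)) := by
      intro i hi
      by_cases h : g i = v ∨ G.Adj u (g i)
      · rw [hp0 i h, hg0]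
        rcases h with h | h
        · rw [h]; exact huv.symm
        · exact h.symm
      · rw [hp1 i h, hg1]
        rw [not_or] at h
        have := hW2 (e.symm i).2
        rcases this with h1 | h1
        · exact absurd h1 h.2
        · exact h1.symm
    have hne : ∀ i, i ≠ i0 → p i ≠ i := by
      intro i hi h
      have := hadj i hi
      rw [h] at this
      exact this.ne rfl
    let ρ : Fin n → ℕ := fun i => if i = i0 then 0 else if i = i1 then 1 else 2
    have hρ : ∀ i, i ≠ i0 → ρ (p i) < ρ i := by
      intro i hi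
      by_cases h : g i = v ∨ G.Adj u (g i)
      · rw [hp0 i h]
        simp only [ρ, if_true, if_neg hi]
        split <;> omega
      · rw [hp1 i h]
        rw [not_or] at h
        have hi1 : i ≠ i1 := fun h2 => h.1 (by rw [h2, hg1])
        simp only [ρ, if_neg hi, if_neg hi1, if_neg h01.symm, if_true]
        omega
    refine ⟨parentGraph i0 p, parentGraph_isTree i0 p ρ hρ,
      parentGraph_diam_le p h01 hpv hp hne, ⟨⟨⟨g, ?_⟩, hg⟩⟩⟩
    intro a b hab
    have hab' : a ≠ b ∧ ((a ≠ i0 ∧ b = p a) ∨ (b ≠ i0 ∧ a = p b)) := hab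
    rcases hab'.2 with ⟨h1, h2⟩ | ⟨h1, h2⟩
    · rw [h2]; exact hadj _ h1
    · rw [h2]; exact (hadj _ h1).symm

end Pool.Agent.Q118.ShallowTree
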