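import Mathlib
set_option autoImplicit false
open Finset
open scoped Classical

/-!
Degree spread of two-coloured complete graphs: definitions and basic facts.
-/

namespace Pool.Agent.Q118.Spread

/-- Every red/blue colouring of the edges of the complete graph on `n` vertices (red graph `R`, blue
graph its complement) contains a red copy of `G` or a blue copy of `H`. -/
def Arrows {α β : Type} (n : ℕ) (G : SimpleGraph α) (H : SimpleGraph β) : Prop :=
  ∀ R : SimpleGraph (Fin n), G.IsContained R ∨ H.IsContained Rᶜ

/-- The Ramsey number `r(G,H)`. -/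
noncomputable def ramseyNumber {α β : Type} (G : SimpleGraph α) (H : SimpleGraph β) : ℕ :=
  sInf {n | Arrows n G H}

/-- The graph has at least one edge and no isolated vertex. -/
def Proper {α : Type} (G : SimpleGraph α) : Prop :=
  (∃ v w, G.Adj v w) ∧ ∀ v, ∃ w, G.Adj v w

/-- `X` is the vertex set of a red copy of `G` or of a blue copy of `H`. -/
def Admissible {α β : Type} {n : ℕ} (G : SimpleGraph α) (H : SimpleGraph β)
    (R : SimpleGraph (Fin n)) (X : Finset (Fin n)) : Prop :=
  (∃ f : G.Copy R, Set.range f = X) ∨ (∃ f : H.Copy Rᶜ, Set.range f = X)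

/-- The red degree of a vertex. -/
noncomputable def redDegree {n : ℕ} (R : SimpleGraph (Fin n)) (v : Fin n) : ℕ :=
  (R.neighborSet v).ncard

/-- The degree spread of a vertex set: the largest difference of the red degrees of two of its
vertices. -/
noncomputable def spread {n : ℕ} (R : SimpleGraph (Fin n)) (X : Finset (Fin n)) : ℕ :=
  X.sup (fun u => X.sup (fun v => redDegree R u - redDegree R v))

/-- The degree spread of a colouring: the least degree spread of an admissible set. -/
noncomputable def colouringSpread {α β : Type} {n : ℕ} (G : SimpleGraph α) (H : SimpleGraph β)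
    (R : SimpleGraph (Fin n)) : ℕ :=
  sInf {s | ∃ X : Finset (Fin n), Admissible G H R X ∧ spread R X = s}

/-- `Φ_n(G,H)`: the largest degree spread of a colouring of the complete graph on `n` vertices. -/
noncomputable def Phi {α β : Type} (n : ℕ) (G : SimpleGraph α) (H : SimpleGraph β) : ℕ :=
  sSup {s | ∃ R : SimpleGraph (Fin n), colouringSpread G H R = s}

theorem ramsey_finset (s : ℕ) : ∀ t : ℕ, ∃ N : ℕ, ∀ (V : Type) (H : SimpleGraph V) (A : Finset V),
    N ≤ A.card → (∃ S ⊆ A, H.IsNClique s S) ∨ (∃ S ⊆ A, Hᶜ.IsNClique t S) := by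
  induction s with
  | zero =>
    intro t
    exact ⟨0, fun V H A _ => Or.inl ⟨∅, empty_subset _, by simp [SimpleGraph.isNClique_iff]⟩⟩
  | succ s ihs =>
    intro t
    induction t with
    | zero =>
      exact ⟨0, fun V H A _ => Or.inr ⟨∅, empty_subset _, by simp [SimpleGraph.isNClique_iff]⟩⟩
    | succ t iht =>
      obtain ⟨N1, h1⟩ := ihs (t + 1)
      obtain ⟨N2, h2⟩ := iht
      refine ⟨N1 + N2 + 1, fun V H A hA => ?_⟩
      obtain ⟨x, hx⟩ : A.Nonempty := by
        rw [← card_pos]; omega
      have hc := card_filter_add_card_filter_not (s := A.erase x) (fun y => H.Adj x y)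
      rw [card_erase_of_mem hx] at hc
      by_cases hN : N1 ≤ ((A.erase x).filter (fun y => H.Adj x y)).card
      · rcases h1 V H _ hN with ⟨S, hS, hcl⟩ | ⟨S, hS, hcl⟩
        · left
          refine ⟨insert x S, ?_, ?_⟩
          · intro y hy
            rw [mem_insert] at hy
            rcases hy with rfl | hy
            · exact hx
            · exact mem_of_mem_erase (mem_filter.1 (hS hy)).1
          · exact hcl.insert (fun b hb => (mem_filter.1 (hS hb)).2)
        · right
          exact ⟨S, fun y hy => mem_of_mem_erase (mem_filter.1 (hS hy)).1, hcl⟩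
      · have hN' : N2 ≤ ((A.erase x).filter (fun y => ¬ H.Adj x y)).card := by omega
        rcases h2 V H _ hN' with ⟨S, hS, hcl⟩ | ⟨S, hS, hcl⟩
        · left
          exact ⟨S, fun y hy => mem_of_mem_erase (mem_filter.1 (hS hy)).1, hcl⟩
        · right
          refine ⟨insert x S, ?_, ?_⟩
          · intro y hy
            rw [mem_insert] at hy
            rcases hy with rfl | hy
            · exact hx
            · exact mem_of_mem_erase (mem_filter.1 (hS hy)).1
          · refine hcl.insert (fun b hb => ?_)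
            have := mem_filter.1 (hS hb)
            rw [SimpleGraph.compl_adj]
            exact ⟨fun h => (ne_of_mem_erase this.1) h.symm, this.2⟩

/-- Ramsey's theorem for a pair of finite graphs. -/
theorem exists_arrows {α β : Type} [Finite α] [Finite β] (G : SimpleGraph α) (H : SimpleGraph β) :
    ∃ n, Arrows n G H := by
  have := Fintype.ofFinite α
  have := Fintype.ofFinite β
  obtain ⟨N, hN⟩ := ramsey_finset (Fintype.card α) (Fintype.card β)
  refine ⟨N, fun R => ?_⟩
  rcases hN (Fin N) R univ (by simp) with ⟨S, -, hS⟩ | ⟨S, -, hS⟩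
  · left
    have h1 := (SimpleGraph.not_cliqueFree_iff_top_isContained (Fintype.card α)).1 (fun h => h S hS)
    have h2 : G.IsContained (SimpleGraph.completeGraph (Fin (Fintype.card α))) := by
      refine ⟨⟨⟨Fintype.equivFin α, ?_⟩, ?_⟩⟩
      · intro a b hab
        simp only [SimpleGraph.top_adj, ne_eq, EmbeddingLike.apply_eq_iff_eq]
        exact hab.ne
      · exact (Fintype.equivFin α).injective
    exact h2.trans h1
  · right
    have h1 := (SimpleGraph.not_cliqueFree_iff_top_isContained (Fintype.card β)).1 (fun h => h S hS)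
    have h2 : H.IsContained (SimpleGraph.completeGraph (Fin (Fintype.card β))) := by
      refine ⟨⟨⟨Fintype.equivFin β, ?_⟩, ?_⟩⟩
      · intro a b hab
        simp only [SimpleGraph.top_adj, ne_eq, EmbeddingLike.apply_eq_iff_eq]
        exact hab.ne
      · exact (Fintype.equivFin β).injective
    exact h2.trans h1

theorem arrows_ramseyNumber {α β : Type} [Finite α] [Finite β] (G : SimpleGraph α)
    (H : SimpleGraph β) : Arrows (ramseyNumber G H) G H :=
  Nat.sInf_mem (s := {n | Arrows n G H}) (exists_arrows G H)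

/-- Any injection of the `r` vertices into the colouring gives an admissible set in its range. -/
theorem exists_admissible {α β : Type} [Finite α] [Finite β] {r n : ℕ} (G : SimpleGraph α)
    (H : SimpleGraph β) (h : Arrows r G H) (R : SimpleGraph (Fin n)) (e : Fin r ↪ Fin n) :
    ∃ X : Finset (Fin n), Admissible G H R X ∧ ∀ v ∈ X, v ∈ Set.range e := by
  have := Fintype.ofFinite α
  have := Fintype.ofFinite β
  rcases h (R.comap e) with ⟨⟨f⟩⟩ | ⟨⟨f⟩⟩
  · let g : G.Copy R := (SimpleGraph.Embedding.comap e R).toCopy.comp f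
    refine ⟨Set.toFinset (Set.range g), Or.inl ⟨g, by simp⟩, ?_⟩
    intro v hv
    rw [Set.mem_toFinset] at hv
    obtain ⟨a, rfl⟩ := hv
    exact ⟨f a, rfl⟩
  · have hc : (R.comap e)ᶜ ≤ (Rᶜ).comap e := by
      intro a b hab
      rw [SimpleGraph.compl_adj] at hab
      rw [SimpleGraph.comap_adj, SimpleGraph.compl_adj]
      exact ⟨fun h => hab.1 (e.injective h), hab.2⟩
    let g : H.Copy Rᶜ := (SimpleGraph.Embedding.comap e Rᶜ).toCopy.comp
      ((SimpleGraph.Copy.ofLE _ _ hc).comp f)
    refine ⟨Set.toFinset (Set.range g), Or.inr ⟨g, by simp⟩, ?_⟩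
    intro v hv
    rw [Set.mem_toFinset] at hv
    obtain ⟨a, rfl⟩ := hv
    exact ⟨f a, rfl⟩

theorem redDegree_le {n : ℕ} (R : SimpleGraph (Fin n)) (v : Fin n) : redDegree R v + 1 ≤ n := by
  have h1 : R.neighborSet v ⊆ ({v}ᶜ : Set (Fin n)) := by
    intro w hw
    have : R.Adj v w := hw
    simp only [Set.mem_compl_iff, Set.mem_singleton_iff]
    exact this.ne'
  have h2 := Set.ncard_le_ncard h1
  have h3 : ({v}ᶜ : Set (Fin n)).ncard + 1 = n := by
    have := Set.ncard_add_ncard_compl ({v} : Set (Fin n))
    rw [Set.ncard_singleton, Nat.card_eq_fintype_card, Fintype.card_fin] at this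
    omega
  unfold redDegree
  omega

theorem redDegree_add_compl {n : ℕ} (R : SimpleGraph (Fin n)) (v : Fin n) :
    redDegree R v + redDegree Rᶜ v + 1 = n := by
  have h1 : Rᶜ.neighborSet v = (insert v (R.neighborSet v))ᶜ := by
    ext w
    simp only [SimpleGraph.mem_neighborSet, SimpleGraph.compl_adj, Set.mem_compl_iff,
      Set.mem_insert_iff, not_or]
    constructor
    · rintro ⟨h1, h2⟩; exact ⟨fun h => h1 h.symm, h2⟩
    · rintro ⟨h1, h2⟩; exact ⟨fun h => h1 h.symm, h2⟩
  have h2 := Set.ncard_add_ncard_compl (insert v (R.neighborSet v))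
  rw [← h1, Set.ncard_insert_of_notMem (by simp), Nat.card_eq_fintype_card, Fintype.card_fin] at h2
  unfold redDegree
  omega

theorem le_redDegree_of_copy {α : Type} {n : ℕ} {G : SimpleGraph α} {R : SimpleGraph (Fin n)}
    (f : G.Copy R) (a : α) : (G.neighborSet a).ncard ≤ redDegree R (f a) := by
  have h1 : f '' (G.neighborSet a) ⊆ R.neighborSet (f a) := by
    rintro _ ⟨b, hb, rfl⟩
    exact f.toHom.map_adj hb
  have h2 := Set.ncard_le_ncard h1
  have h3 : (f '' (G.neighborSet a)).ncard = (G.neighborSet a).ncard :=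
    Set.ncard_image_of_injective _ f.injective
  rw [h3] at h2
  exact h2

/-- The degree spread of an admissible set is at most `n - 1 - δ`. -/
theorem spread_le_of_admissible {α β : Type} {n δ : ℕ} {G : SimpleGraph α} {H : SimpleGraph β}
    (hne : Nonempty α) (hne' : Nonempty β)
    (hG : ∀ v, δ ≤ (G.neighborSet v).ncard) (hH : ∀ v, δ ≤ (H.neighborSet v).ncard)
    {R : SimpleGraph (Fin n)} {X : Finset (Fin n)} (hX : Admissible G H R X) :
    spread R X + δ + 1 ≤ n := by
  have key : ∀ u ∈ X, ∀ v ∈ X, redDegree R u - redDegree R v + δ + 1 ≤ n := by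
    intro u hu v hv
    rcases hX with ⟨f, hf⟩ | ⟨f, hf⟩
    · have hv' : v ∈ Set.range f := by rw [hf]; exact hv
      obtain ⟨a, rfl⟩ := hv'
      have h1 := le_redDegree_of_copy f a
      have h2 := hG a
      have h3 := redDegree_le R u
      have h4 := redDegree_le R (f a)
      omega
    · have hu' : u ∈ Set.range f := by rw [hf]; exact hu
      obtain ⟨a, rfl⟩ := hu'
      have h1 := le_redDegree_of_copy f a
      have h2 := hH a
      have h3 := redDegree_add_compl R (f a)
      omega
  have hXne : X.Nonempty := by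
    rcases hX with ⟨f, hf⟩ | ⟨f, hf⟩
    · exact ⟨f (Classical.choice hne), by
        have : f (Classical.choice hne) ∈ Set.range f := ⟨_, rfl⟩
        rw [hf] at this
        exact this⟩
    · exact ⟨f (Classical.choice hne'), by
        have : f (Classical.choice hne') ∈ Set.range f := ⟨_, rfl⟩
        rw [hf] at this
        exact this⟩
  obtain ⟨x, hx⟩ := hXne
  have hδ := key x hx x hx
  have : spread R X ≤ n - 1 - δ := by
    unfold spread
    refine Finset.sup_le fun u hu => Finset.sup_le fun v hv => ?_
    have := key u hu v hv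
    omega
  omega

theorem colouringSpread_le {α β : Type} {n : ℕ} {G : SimpleGraph α} {H : SimpleGraph β}
    {R : SimpleGraph (Fin n)} {X : Finset (Fin n)} (hX : Admissible G H R X) :
    colouringSpread G H R ≤ spread R X :=
  Nat.sInf_le ⟨X, hX, rfl⟩

theorem spread_lt {n : ℕ} (R : SimpleGraph (Fin n)) (X : Finset (Fin n)) : spread R X ≤ n := by
  unfold spread
  refine Finset.sup_le fun u hu => Finset.sup_le fun v hv => ?_
  have := redDegree_le R u
  omega

theorem colouringSpread_le_order {α β : Type} {n : ℕ} (G : SimpleGraph α) (H : SimpleGraph β)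
    (R : SimpleGraph (Fin n)) : colouringSpread G H R ≤ n := by
  rcases Set.eq_empty_or_nonempty
    {s | ∃ X : Finset (Fin n), Admissible G H R X ∧ spread R X = s} with h | ⟨s, hs⟩
  · unfold colouringSpread
    rw [h]; simp
  · obtain ⟨X, hX, rfl⟩ := hs
    exact (colouringSpread_le hX).trans (spread_lt R X)

/-- `Φ_n(G,H) ≤ s` as soon as every colouring has an admissible set of spread at most `s`. -/
theorem Phi_le {α β : Type} {n s : ℕ} {G : SimpleGraph α} {H : SimpleGraph β}
    (h : ∀ R : SimpleGraph (Fin n), ∃ X : Finset (Fin n), Admissible G H R X ∧ spread R X ≤ s) :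
    Phi n G H ≤ s := by
  unfold Phi
  have hne : {s | ∃ R : SimpleGraph (Fin n), colouringSpread G H R = s}.Nonempty :=
    ⟨colouringSpread G H (⊥ : SimpleGraph (Fin n)), ⊥, rfl⟩
  refine csSup_le hne ?_
  rintro _ ⟨R, rfl⟩
  obtain ⟨X, hX, hs⟩ := h R
  exact (colouringSpread_le hX).trans hs

theorem Phi_add_le {α β : Type} [Finite α] [Finite β] {n δ : ℕ} {G : SimpleGraph α}
    {H : SimpleGraph β} (hne : Nonempty α) (hne' : Nonempty β)
    (hG : ∀ v, δ ≤ (G.neighborSet v).ncard) (hH : ∀ v, δ ≤ (H.neighborSet v).ncard)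
    (hn : ramseyNumber G H ≤ n) : Phi n G H + δ + 1 ≤ n := by
  have h1 : ∀ R : SimpleGraph (Fin n), ∃ X : Finset (Fin n), Admissible G H R X ∧
      spread R X + δ + 1 ≤ n := by
    intro R
    obtain ⟨X, hX, -⟩ := exists_admissible G H (arrows_ramseyNumber G H) R (Fin.castLEEmb hn)
    exact ⟨X, hX, spread_le_of_admissible hne hne' hG hH hX⟩
  obtain ⟨X0, -, h0⟩ := h1 ⊥
  have : Phi n G H ≤ n - 1 - δ := by
    refine Phi_le fun R => ?_
    obtain ⟨X, hX, h2⟩ := h1 R
    exact ⟨X, hX, by omega⟩
  omega

end Pool.Agent.Q118.Spread
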