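import Mathlib

namespace Pool.Agent.Q118.SteinerSum

open Finset

universe u

section basics
variable {G : Type u} [AddCommGroup G] [Fintype G] [DecidableEq G]

theorem pair_count (C X : Finset G) (a : G) (hX : ∀ x ∈ X, x ∉ C ∧ a - x ∉ C) :
    2 * C.card + X.card ≤ (C.filter (fun u => a - u ∈ C)).card + Fintype.card G := by
  classical
  set C' : Finset G := C.image (fun u => a - u) with hC'
  have hcard : C'.card = C.card := by
    apply Finset.card_image_of_injective
    intro u v h
    simpa using h
  have hinter : C ∩ C' = C.filter (fun u => a - u ∈ C) := by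
    ext u
    simp only [hC', mem_inter, mem_image, mem_filter]
    constructor
    · rintro ⟨h1, v, hv, rfl⟩
      refine ⟨h1, ?_⟩
      simpa using hv
    · rintro ⟨h1, h2⟩
      exact ⟨h1, a - u, h2, by abel⟩
  have hdisj : Disjoint (C ∪ C') X := by
    rw [Finset.disjoint_left]
    intro x hx hxX
    obtain ⟨h1, h2⟩ := hX x hxX
    rw [mem_union] at hx
    rcases hx with hx | hx
    · exact h1 hx
    · rw [hC', mem_image] at hx
      obtain ⟨v, hv, rfl⟩ := hx
      apply h2
      simpa using hv
  have h1 := Finset.card_union_add_card_inter C C'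
  have h2 : (C ∪ C').card + X.card ≤ Fintype.card G := by
    rw [← Finset.card_union_of_disjoint hdisj]
    exact Finset.card_le_univ _
  rw [hinter] at h1
  omega

/-- the set of doubles -/
def dbl (G : Type u) [AddCommGroup G] [Fintype G] [DecidableEq G] : Finset G :=
  univ.image (fun x : G => x + x)

theorem mem_dbl {x : G} : x ∈ dbl G ↔ ∃ y, y + y = x := by
  simp [dbl]

theorem fiber_card (A : Finset G) (σ : G) (hA : ∀ u ∈ A, u + u = σ) :
    A.card * (dbl G).card ≤ Fintype.card G := by
  classical
  rcases A.eq_empty_or_nonempty with rfl | ⟨u0, hu0⟩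
  · simp
  · have hsec : ∀ d : G, ∃ y : G, d ∈ dbl G → y + y = d := by
      intro d
      by_cases h : d ∈ dbl G
      · obtain ⟨y, hy⟩ := mem_dbl.1 h
        exact ⟨y, fun _ => hy⟩
      · exact ⟨0, fun h' => absurd h' h⟩
    choose sec hsec using hsec
    rw [← Finset.card_product, ← Finset.card_univ]
    apply Finset.card_le_card_of_injOn (fun p : G × G => (p.1 - u0) + sec p.2)
    · intro p _; exact Finset.mem_coe.2 (Finset.mem_univ _)
    · rintro ⟨u, d⟩ hp ⟨u', d'⟩ hp' h
      rw [Finset.mem_coe, Finset.mem_product] at hp hp'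
      obtain ⟨hu, hd⟩ := hp
      obtain ⟨hu', hd'⟩ := hp'
      simp only at hu hd hu' hd' h
      have e1 : ((u - u0) + sec d) + ((u - u0) + sec d) = d := by
        have := hA u hu
        have h0 := hA u0 hu0
        calc ((u - u0) + sec d) + ((u - u0) + sec d)
            = (u + u) - (u0 + u0) + (sec d + sec d) := by abel
          _ = d := by rw [this, h0, hsec d hd]; abel
      have e2 : ((u' - u0) + sec d') + ((u' - u0) + sec d') = d' := by
        have := hA u' hu'
        have h0 := hA u0 hu0
        calc ((u' - u0) + sec d') + ((u' - u0) + sec d')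
            = (u' + u') - (u0 + u0) + (sec d' + sec d') := by abel
          _ = d' := by rw [this, h0, hsec d' hd']; abel
      have e3 : d = d' := by rw [← e1, ← e2, h]
      subst e3
      have : u = u' := by
        have := add_right_cancel h
        simpa using this
      rw [this]

theorem dbl_half (h2 : ¬ ∀ x : G, x + x = 0 → x = 0) : 2 * (dbl G).card ≤ Fintype.card G := by
  push Not at h2
  obtain ⟨e, he, he0⟩ := h2
  have := fiber_card ({0, e} : Finset G) 0 (by
    intro u hu
    rw [mem_insert, mem_singleton] at hu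
    rcases hu with rfl | rfl
    · simp
    · exact he)
  rwa [Finset.card_pair (Ne.symm he0)] at this

theorem dbl_add {x y : G} (hx : x ∈ dbl G) (hy : y ∈ dbl G) : x + y ∈ dbl G := by
  obtain ⟨a, rfl⟩ := mem_dbl.1 hx
  obtain ⟨b, rfl⟩ := mem_dbl.1 hy
  exact mem_dbl.2 ⟨a + b, by abel⟩

theorem dbl_neg {x : G} (hx : x ∈ dbl G) : -x ∈ dbl G := by
  obtain ⟨a, rfl⟩ := mem_dbl.1 hx
  exact mem_dbl.2 ⟨-a, by abel⟩

/-- Sums of `r` distinct elements of a dense set represent everything. -/
theorem exists_sum (r : ℕ) (hr : 2 ≤ r) : ∀ (U : Finset G) (σ : G),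
    Fintype.card G + 2 * (r - 1) ≤ 2 * U.card →
    ((∀ x : G, x + x = 0 → x = 0) ∨ 3 ≤ r ∨ σ ∉ dbl G) →
    ∃ R ⊆ U, R.card = r ∧ ∑ x ∈ R, x = σ := by
  classical
  induction r, hr using Nat.le_induction with
  | base =>
    intro U σ hU h
    have hp := pair_count U ∅ σ (by simp)
    have hp2 : 2 ≤ (U.filter (fun u => σ - u ∈ U)).card := by
      simp only [card_empty] at hp
      omega
    have hex : ∃ u ∈ U.filter (fun u => σ - u ∈ U), u + u ≠ σ := by
      rcases h with h | h | h
      · obtain ⟨a, ha, b, hb, hab⟩ := Finset.one_lt_card.1 (by omega :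
          1 < (U.filter (fun u => σ - u ∈ U)).card)
        by_contra hcon
        push Not at hcon
        have e1 := hcon a ha
        have e2 := hcon b hb
        apply hab
        have : (a - b) + (a - b) = 0 := by
          calc (a - b) + (a - b) = (a + a) - (b + b) := by abel
            _ = 0 := by rw [e1, e2]; abel
        exact sub_eq_zero.1 (h _ this)
      · omega
      · obtain ⟨a, ha⟩ := Finset.card_pos.1 (by omega :
          0 < (U.filter (fun u => σ - u ∈ U)).card)
        exact ⟨a, ha, fun e => h (mem_dbl.2 ⟨a, e⟩)⟩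
    obtain ⟨u, hu, hne⟩ := hex
    rw [mem_filter] at hu
    have hne' : u ≠ σ - u := by
      intro e
      apply hne
      exact eq_sub_iff_add_eq.1 e
    refine ⟨{u, σ - u}, ?_, Finset.card_pair hne', ?_⟩
    · intro x hx
      rw [mem_insert, mem_singleton] at hx
      rcases hx with rfl | rfl
      · exact hu.1
      · exact hu.2
    · rw [Finset.sum_pair hne']; abel
  | succ r hr ih =>
    intro U σ hU h
    have hex : ∃ x ∈ U, ((∀ x : G, x + x = 0 → x = 0) ∨ 3 ≤ r ∨ σ - x ∉ dbl G) := by
      by_cases h2 : ∀ x : G, x + x = 0 → x = 0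
      · obtain ⟨x, hx⟩ := Finset.card_pos.1 (by omega : 0 < U.card)
        exact ⟨x, hx, Or.inl h2⟩
      · by_contra hcon
        push Not at hcon
        have hd := dbl_half h2
        have hle : U.card ≤ (dbl G).card := by
          apply Finset.card_le_card_of_injOn (fun x => σ - x)
          · intro x hx
            exact Finset.mem_coe.2 (hcon x (Finset.mem_coe.1 hx)).2.2
          · intro x _ y _ hxy
            simpa using hxy
        omega
    obtain ⟨x, hx, hx2⟩ := hex
    obtain ⟨R, hRU, hRc, hRs⟩ := ih (U.erase x) (σ - x) (by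
      rw [Finset.card_erase_of_mem hx]; omega) hx2
    have hxR : x ∉ R := fun h' => (Finset.mem_erase.1 (hRU h')).1 rfl
    refine ⟨insert x R, ?_, ?_, ?_⟩
    · intro y hy
      rw [mem_insert] at hy
      rcases hy with rfl | hy
      · exact hx
      · exact (Finset.mem_erase.1 (hRU hy)).2
    · rw [Finset.card_insert_of_notMem hxR, hRc]
    · rw [Finset.sum_insert hxR, hRs]; abel

end basics

end Pool.Agent.Q118.SteinerSum
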