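import Pool.Agent.Q118.SteinerSum

namespace Pool.Agent.Q118.SteinerSum

open Finset

universe u

section core
variable {G : Type u} [AddCommGroup G] [Fintype G] [DecidableEq G]

/-- `B` is a `q`-subset of `V` whose sum lies in `S`. -/
def Blk (V S : Finset G) (q : ℕ) (B : Finset G) : Prop :=
  B ⊆ V ∧ B.card = q ∧ ∑ x ∈ B, x ∈ S

/-- The sum blocks form a Steiner system on `V`. -/
def StV (V S : Finset G) (q r : ℕ) : Prop :=
  ∀ R : Finset G, R ⊆ V → R.card = r → ∃! B, Blk V S q B ∧ R ⊆ B

/-- completions -/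
def Comp (V S : Finset G) (r : ℕ) : Prop :=
  ∀ R : Finset G, R ⊆ V → R.card = r → ∃! z, z ∈ V ∧ z ∉ R ∧ z + ∑ x ∈ R, x ∈ S

theorem comp_of_stV {V S : Finset G} {r : ℕ} (h : StV V S (r + 1) r) : Comp V S r := by
  intro R hR hRc
  obtain ⟨B, ⟨⟨hBV, hBc, hBs⟩, hRB⟩, huniq⟩ := h R hR hRc
  have h1 : ∃ a ∉ R, insert a R = B := Finset.exists_eq_insert_iff.2 ⟨hRB, by omega⟩
  obtain ⟨z, hz, rfl⟩ := h1
  rw [Finset.sum_insert hz] at hBs
  refine ⟨z, ⟨hBV (mem_insert_self _ _), hz, hBs⟩, ?_⟩
  rintro z' ⟨hz'V, hz'R, hz's⟩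
  have h2 := huniq (insert z' R) ⟨⟨?_, ?_, ?_⟩, ?_⟩
  · have : z' ∈ insert z R := by
      rw [← h2]; exact mem_insert_self _ _
    rw [mem_insert] at this
    rcases this with h3 | h3
    · exact h3
    · exact absurd h3 hz'R
  · intro y hy
    rw [mem_insert] at hy
    rcases hy with rfl | hy
    · exact hz'V
    · exact hR hy
  · rw [Finset.card_insert_of_notMem hz'R, hRc]
  · rw [Finset.sum_insert hz'R]; exact hz's
  · exact Finset.subset_insert _ _

theorem stV_of_comp {V S : Finset G} {r : ℕ} (h : Comp V S r) : StV V S (r + 1) r := by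
  intro R hR hRc
  obtain ⟨z, ⟨hzV, hzR, hzs⟩, huniq⟩ := h R hR hRc
  refine ⟨insert z R, ⟨⟨?_, ?_, ?_⟩, Finset.subset_insert _ _⟩, ?_⟩
  · intro y hy
    rw [mem_insert] at hy
    rcases hy with rfl | hy
    · exact hzV
    · exact hR hy
  · rw [Finset.card_insert_of_notMem hzR, hRc]
  · rw [Finset.sum_insert hzR]; exact hzs
  · rintro B ⟨⟨hBV, hBc, hBs⟩, hRB⟩
    have h1 : ∃ a ∉ R, insert a R = B := Finset.exists_eq_insert_iff.2 ⟨hRB, by omega⟩
    obtain ⟨z', hz', rfl⟩ := h1
    rw [Finset.sum_insert hz'] at hBs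
    rw [huniq z' ⟨hBV (mem_insert_self _ _), hz', hBs⟩]

/-- `q ≥ r + 2` is impossible. -/
theorem no_large {V S : Finset G} {q r : ℕ} (hr : 2 ≤ r) (hq : r + 2 ≤ q) (hqV : q < V.card)
    (hV : Fintype.card G + 2 * q ≤ 2 * V.card) (h : StV V S q r) : False := by
  classical
  have key : ∀ x ∈ V, ∀ y ∈ V, x ≠ y →
      ¬ (∀ x : G, x + x = 0 → x = 0) ∧ x + y ∈ dbl G := by
    intro x hx y hy hxy
    obtain ⟨R, hxyR, hRV, hRc⟩ := Finset.exists_subsuperset_card_eq
      (s := {x, y}) (t := V) (n := r) (by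
        intro w hw
        rw [mem_insert, mem_singleton] at hw
        rcases hw with rfl | rfl
        · exact hx
        · exact hy) (by rw [Finset.card_pair hxy]; exact hr) (by omega)
    obtain ⟨B, ⟨⟨hBV, hBc, hBs⟩, hRB⟩, -⟩ := h R hRV hRc
    have hxB : x ∈ B := hRB (hxyR (by simp))
    have hyB : y ∈ B := hRB (hxyR (by simp))
    have hp := pair_count (V \ B) {x, y} (x + y) (by
      intro w hw
      rw [mem_insert, mem_singleton] at hw
      rcases hw with rfl | rfl
      · refine ⟨fun h' => (mem_sdiff.1 h').2 hxB, fun h' => ?_⟩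
        rw [add_sub_cancel_left] at h'
        exact (mem_sdiff.1 h').2 hyB
      · refine ⟨fun h' => (mem_sdiff.1 h').2 hyB, fun h' => ?_⟩
        rw [add_sub_cancel_right] at h'
        exact (mem_sdiff.1 h').2 hxB)
    rw [Finset.card_pair hxy, Finset.card_sdiff_of_subset hBV, hBc] at hp
    set A := (V \ B).filter (fun u => x + y - u ∈ V \ B) with hA
    have hA2 : 2 ≤ A.card := by omega
    have hdbl : ∀ u ∈ A, u + u = x + y := by
      intro u hu
      rw [hA, mem_filter, mem_sdiff, mem_sdiff] at hu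
      obtain ⟨⟨huV, huB⟩, ⟨hvV, hvB⟩⟩ := hu
      by_contra hne
      have huv : u ≠ x + y - u := fun e => hne (eq_sub_iff_add_eq.1 e)
      have hsub : ({x, y} : Finset G) ⊆ B := by
        intro w hw
        rw [mem_insert, mem_singleton] at hw
        rcases hw with rfl | rfl
        · exact hxB
        · exact hyB
      have hcard : (B \ {x, y}).card = q - 2 := by
        rw [Finset.card_sdiff_of_subset hsub, hBc, Finset.card_pair hxy]
      have hdisj : Disjoint (B \ {x, y}) {u, x + y - u} := by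
        rw [Finset.disjoint_right]
        intro w hw hw'
        rw [mem_insert, mem_singleton] at hw
        rcases hw with rfl | rfl
        · exact huB (mem_sdiff.1 hw').1
        · exact hvB (mem_sdiff.1 hw').1
      obtain ⟨R', hR'B, hR'c⟩ := Finset.exists_subset_card_eq
        (s := B \ {x, y}) (n := r) (by omega)
      obtain ⟨B0, -, hB0⟩ := h R' (hR'B.trans (Finset.sdiff_subset.trans hBV)) hR'c
      have e1 := hB0 B ⟨⟨hBV, hBc, hBs⟩, hR'B.trans Finset.sdiff_subset⟩
      have e2 := hB0 ((B \ {x, y}) ∪ {u, x + y - u}) ⟨⟨?_, ?_, ?_⟩, ?_⟩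
      · have : x ∈ (B \ {x, y}) ∪ {u, x + y - u} := by
          rw [e2, ← e1]; exact hxB
        rw [mem_union, mem_sdiff, mem_insert, mem_singleton] at this
        rcases this with h3 | h3
        · exact h3.2 (by simp)
        · rw [mem_insert, mem_singleton] at h3
          rcases h3 with h3 | h3
          · exact huB (h3 ▸ hxB)
          · exact hvB (h3 ▸ hxB)
      · intro w hw
        rw [mem_union] at hw
        rcases hw with hw | hw
        · exact hBV (mem_sdiff.1 hw).1
        · rw [mem_insert, mem_singleton] at hw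
          rcases hw with rfl | rfl
          · exact huV
          · exact hvV
      · rw [Finset.card_union_of_disjoint hdisj, hcard, Finset.card_pair huv]
        omega
      · rw [Finset.sum_union hdisj, Finset.sum_pair huv]
        have e3 := Finset.sum_sdiff (f := fun w : G => w) hsub
        rw [Finset.sum_pair hxy] at e3
        have e4 : u + (x + y - u) = x + y := by abel
        rw [e4, e3]; exact hBs
      · exact hR'B.trans Finset.subset_union_left
    obtain ⟨a, ha, b, hb, hab⟩ := Finset.one_lt_card.1 (by omega : 1 < A.card)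
    refine ⟨fun h2 => hab ?_, mem_dbl.2 ⟨a, hdbl a ha⟩⟩
    have e1 := hdbl a ha
    have e2 := hdbl b hb
    have : (a - b) + (a - b) = 0 := by
      calc (a - b) + (a - b) = (a + a) - (b + b) := by abel
        _ = 0 := by rw [e1, e2]; abel
    exact sub_eq_zero.1 (h2 _ this)
  obtain ⟨x, hx, y, hy, hxy⟩ := Finset.one_lt_card.1 (by omega : 1 < V.card)
  have hd := dbl_half (key x hx y hy hxy).1
  have hle : (V.erase x).card ≤ (dbl G).card := by
    apply Finset.card_le_card_of_injOn (fun w => x + w)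
    · intro w hw
      rw [Finset.mem_coe, mem_erase] at hw
      exact Finset.mem_coe.2 (key x hx w hw.2 (Ne.symm hw.1)).2
    · intro a _ b _ hab
      simpa using hab
  rw [Finset.card_erase_of_mem hx] at hle
  omega

/-- unique completion for representable sums -/
theorem uniq_z {V S : Finset G} {r : ℕ} (hr : 2 ≤ r)
    (hV : Fintype.card G + 2 * (r + 1) ≤ 2 * V.card) (h : Comp V S r) (σ : G)
    (hσ : (∀ x : G, x + x = 0 → x = 0) ∨ 3 ≤ r ∨ σ ∉ dbl G) :
    ∃! z, z ∈ V ∧ z + σ ∈ S := by
  classical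
  obtain ⟨R, hRV, hRc, hRs⟩ := exists_sum r hr V σ (by omega) hσ
  obtain ⟨z, ⟨hzV, hzR, hzs⟩, -⟩ := h R hRV hRc
  rw [hRs] at hzs
  refine ⟨z, ⟨hzV, hzs⟩, ?_⟩
  rintro z' ⟨hz'V, hz's⟩
  by_contra hne
  have hc : (V \ {z, z'}).card + 2 = V.card := by
    rw [Finset.card_sdiff_of_subset, Finset.card_pair (Ne.symm hne)]
    · have : ({z, z'} : Finset G).card ≤ V.card := Finset.card_le_card (by
        intro w hw
        rw [mem_insert, mem_singleton] at hw
        rcases hw with rfl | rfl
        · exact hzV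
        · exact hz'V)
      rw [Finset.card_pair (Ne.symm hne)] at this
      omega
    · intro w hw
      rw [mem_insert, mem_singleton] at hw
      rcases hw with rfl | rfl
      · exact hzV
      · exact hz'V
  obtain ⟨R', hR'V, hR'c, hR's⟩ := exists_sum r hr (V \ {z, z'}) σ (by omega) hσ
  have hz1 : z ∉ R' := fun h' => (mem_sdiff.1 (hR'V h')).2 (by simp)
  have hz2 : z' ∉ R' := fun h' => (mem_sdiff.1 (hR'V h')).2 (by simp)
  obtain ⟨w, -, hw⟩ := h R' (hR'V.trans Finset.sdiff_subset) hR'c
  apply hne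
  rw [hw z ⟨hzV, hz1, by rw [hR's]; exact hzs⟩, hw z' ⟨hz'V, hz2, by rw [hR's]; exact hz's⟩]

theorem S_nonempty {V S : Finset G} {r : ℕ} (hV : r < V.card) (h : Comp V S r) :
    S.Nonempty := by
  obtain ⟨R, hRV, hRc⟩ := Finset.exists_subset_card_eq (s := V) (n := r) (by omega)
  obtain ⟨z, ⟨-, -, hzs⟩, -⟩ := h R hRV hRc
  exact ⟨_, hzs⟩

theorem card_one_easy {V S : Finset G} {r : ℕ} (hr : 2 ≤ r)
    (hV : Fintype.card G + 2 * (r + 1) ≤ 2 * V.card) (h : Comp V S r)
    (hσ : (∀ x : G, x + x = 0 → x = 0) ∨ 3 ≤ r) :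
    ∃ s, S = {s} ∧ V = univ := by
  classical
  have hu : ∀ σ : G, ∃! z, z ∈ V ∧ z + σ ∈ S := fun σ =>
    uniq_z hr hV h σ (hσ.elim Or.inl (fun h => Or.inr (Or.inl h)))
  have hcard : S.card * V.card ≤ Fintype.card G := by
    rw [← Finset.card_product, ← Finset.card_univ]
    apply Finset.card_le_card_of_injOn (fun p : G × G => p.1 - p.2)
    · intro p _; exact Finset.mem_coe.2 (Finset.mem_univ _)
    · rintro ⟨s, z⟩ hp ⟨s', z'⟩ hp' he
      rw [Finset.mem_coe, Finset.mem_product] at hp hp'
      simp only at hp hp' he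
      obtain ⟨w, -, hw⟩ := hu (s - z)
      have e1 := hw z ⟨hp.2, by rw [add_sub_cancel]; exact hp.1⟩
      have e2 := hw z' ⟨hp'.2, by rw [he, add_sub_cancel]; exact hp'.1⟩
      have e3 : z = z' := by rw [e1, e2]
      subst e3
      have e4 : s = s' := by simpa using he
      rw [e4]
  have hne := S_nonempty (by omega) h
  have hS1 : S.card = 1 := by
    have h1 : 1 ≤ S.card := Finset.card_pos.2 hne
    by_contra hcon
    have h2 : 2 ≤ S.card := by omega
    have h3 : 2 * V.card ≤ S.card * V.card := Nat.mul_le_mul_right _ h2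
    omega
  obtain ⟨s, rfl⟩ := Finset.card_eq_one.1 hS1
  refine ⟨s, rfl, ?_⟩
  apply Finset.eq_univ_of_forall
  intro v
  obtain ⟨z, ⟨hzV, hzs⟩, -⟩ := hu (s - v)
  rw [mem_singleton] at hzs
  have : z = v := by
    calc z = (z + (s - v)) - (s - v) := by abel
      _ = s - (s - v) := by rw [hzs]
      _ = v := by abel
  rwa [← this]

/-- `V = univ`, `S = {s}`: sums of `r`-sets avoid the complement element. -/
theorem avoid {s : G} {r : ℕ} (h : Comp univ {s} r) (R : Finset G) (hR : R.card = r) :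
    s - ∑ x ∈ R, x ∉ R := by
  obtain ⟨z, ⟨-, hzR, hzs⟩, -⟩ := h R (Finset.subset_univ _) hR
  rw [mem_singleton] at hzs
  have : s - ∑ x ∈ R, x = z := by rw [← hzs]; abel
  rwa [this]

theorem case_r4 {s : G} {r : ℕ} (hr : 4 ≤ r) (hg : 2 * (r + 1) ≤ Fintype.card G)
    (h : Comp univ {s} r) : False := by
  classical
  obtain ⟨R', hR'V, hR'c, hR's⟩ := exists_sum (r - 1) (by omega) ((univ : Finset G).erase 0) s
    (by rw [Finset.card_erase_of_mem (Finset.mem_univ _), Finset.card_univ]; omega)
    (Or.inr (Or.inl (by omega)))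
  have h0 : (0 : G) ∉ R' := fun h' => (mem_erase.1 (hR'V h')).1 rfl
  have := avoid h (insert 0 R') (by rw [Finset.card_insert_of_notMem h0, hR'c]; omega)
  rw [Finset.sum_insert h0, hR's] at this
  apply this
  simp

theorem case_r3 {s : G} (hg : 8 ≤ Fintype.card G)
    (h : Comp univ {s} 3) : (∀ x : G, x + x = 0) ∧ s = 0 := by
  classical
  have key : ∀ y : G, y ≠ 0 → y ≠ s → y + y = s := by
    intro y hy0 hys
    by_contra hne
    have h1 : y ≠ s - y := fun e => hne (eq_sub_iff_add_eq.1 e)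
    have h2 : (0 : G) ≠ s - y := fun e => hys (sub_eq_zero.1 e.symm).symm
    have hnot : (0 : G) ∉ ({y, s - y} : Finset G) := by
      rw [mem_insert, mem_singleton]
      rintro (h3 | h3)
      · exact hy0 h3.symm
      · exact h2 h3
    have := avoid h (insert 0 {y, s - y}) (by
      rw [Finset.card_insert_of_notMem hnot, Finset.card_pair h1])
    rw [Finset.sum_insert hnot, Finset.sum_pair h1] at this
    apply this
    have e : s - (0 + (y + (s - y))) = 0 := by abel
    rw [e]
    exact mem_insert_self _ _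
  have hc : Fintype.card G ≤ (univ \ ({0, s} : Finset G)).card + 2 := by
    have h1 := Finset.card_le_card_sdiff_add_card (s := (univ : Finset G)) (t := ({0, s} : Finset G))
    have h2 : ({0, s} : Finset G).card ≤ 2 := Finset.card_le_two
    rw [Finset.card_univ] at h1
    omega
  have hf := fiber_card (univ \ ({0, s} : Finset G)) s (by
    intro u hu
    rw [mem_sdiff, mem_insert, mem_singleton] at hu
    push Not at hu
    exact key u hu.2.1 hu.2.2)
  have hd : (dbl G).card ≤ 1 := by
    by_contra hcon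
    have h2 : 2 ≤ (dbl G).card := by omega
    have h3 := Nat.mul_le_mul_left (univ \ ({0, s} : Finset G)).card h2
    omega
  have h0 : (0 : G) ∈ dbl G := mem_dbl.2 ⟨0, by simp⟩
  have hdz : ∀ x : G, x + x = 0 := by
    intro x
    exact Finset.card_le_one.1 hd _ (mem_dbl.2 ⟨x, rfl⟩) _ h0
  refine ⟨hdz, ?_⟩
  obtain ⟨u, hu⟩ := Finset.card_pos.1 (by omega : 0 < (univ \ ({0, s} : Finset G)).card)
  rw [mem_sdiff, mem_insert, mem_singleton] at hu
  push Not at hu
  rw [← key u hu.2.1 hu.2.2]
  exact hdz u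

theorem case_r2 {s : G} (h : Comp univ {s} 2) : (∀ x : G, x + x + x = 0) ∧ s = 0 := by
  classical
  have key : ∀ x : G, x + x + x = s := by
    intro x
    by_contra hne
    have h1 : x ≠ s - (x + x) := fun e => hne (by rw [add_assoc]; exact eq_sub_iff_add_eq.1 e)
    have := avoid h {x, s - (x + x)} (Finset.card_pair h1)
    rw [Finset.sum_pair h1] at this
    apply this
    have e : s - (x + (s - (x + x))) = x := by abel
    rw [e]
    exact mem_insert_self _ _
  have h0 := key 0
  simp at h0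
  subst h0
  exact ⟨key, rfl⟩

end core

end Pool.Agent.Q118.SteinerSum
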