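import Pool.Agent.Q118.SteinerSum2

namespace Pool.Agent.Q118.SteinerSum

open Finset

universe u

section two
variable {G : Type u} [AddCommGroup G] [Fintype G] [DecidableEq G]

/-- An index two subgroup containing the doubles. -/
theorem exists_index_two (h2 : ¬ ∀ x : G, x + x = 0 → x = 0) :
    ∃ K : AddSubgroup G, (∀ x : G, x + x ∈ K) ∧ (∃ x, x ∉ K) ∧
      (∀ x y, x ∉ K → y ∉ K → x + y ∈ K) := by
  classical
  let D : AddSubgroup G :=
    { carrier := {x | x ∈ dbl G}
      add_mem' := fun ha hb => dbl_add ha hb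
      zero_mem' := mem_dbl.2 ⟨0, by simp⟩
      neg_mem' := fun ha => dbl_neg ha }
  have hD : D ≠ ⊤ := by
    intro hcon
    have h1 : ∀ x : G, x ∈ dbl G := by
      intro x
      have : x ∈ D := by rw [hcon]; trivial
      exact this
    have h3 : dbl G = univ := Finset.eq_univ_of_forall h1
    have h4 := dbl_half h2
    rw [h3, Finset.card_univ] at h4
    have h5 : 0 < Fintype.card G := Fintype.card_pos
    omega
  obtain h | ⟨K, hK, hDK⟩ := eq_top_or_exists_le_coatom D
  · exact absurd h hD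
  · have hdK : ∀ x : G, x + x ∈ K := fun x => hDK (mem_dbl.2 ⟨x, rfl⟩ : x + x ∈ D)
    refine ⟨K, hdK, ?_, ?_⟩
    · by_contra hcon
      push Not at hcon
      exact hK.1 (eq_top_iff.2 (fun x _ => hcon x))
    · intro x y hx hy
      have hsup : K ⊔ AddSubgroup.zmultiples x = ⊤ := by
        apply hK.2
        refine lt_of_le_of_ne le_sup_left ?_
        intro e
        apply hx
        rw [e]
        exact AddSubgroup.mem_sup_right (AddSubgroup.mem_zmultiples x)
      have hy' : y ∈ K ⊔ AddSubgroup.zmultiples x := by rw [hsup]; trivial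
      obtain ⟨k, hk, z, hz, rfl⟩ := AddSubgroup.mem_sup.1 hy'
      obtain ⟨m, rfl⟩ := AddSubgroup.mem_zmultiples_iff.1 hz
      rcases Int.even_or_odd' m with ⟨j, rfl | rfl⟩
      · exfalso
        apply hy
        apply K.add_mem hk
        have : (2 * j) • x = j • (x + x) := by
          rw [← two_zsmul, ← mul_zsmul, mul_comm]
        rw [this]
        exact K.zsmul_mem (hdK x) j
      · have e : (j + 1) • (x + x) = x + (2 * j + 1) • x := by
          rw [← two_zsmul, ← mul_zsmul, show (j + 1) * 2 = 1 + (2 * j + 1) by ring,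
            add_zsmul, one_zsmul]
        have : x + (k + (2 * j + 1) • x) = k + (j + 1) • (x + x) := by
          rw [e]; abel
        rw [this]
        exact K.add_mem hk (K.zsmul_mem (hdK x) _)

/-- the property for triples -/
def Tri (V S : Finset G) : Prop :=
  ∀ x ∈ V, ∀ y ∈ V, x ≠ y → ∃! z, z ∈ V ∧ z ≠ x ∧ z ≠ y ∧ z + (x + y) ∈ S

theorem tri_of_comp {V S : Finset G} (h : Comp V S 2) : Tri V S := by
  intro x hx y hy hxy
  obtain ⟨z, ⟨h1, h2, h3⟩, hu⟩ := h {x, y} (by
    intro w hw
    rw [mem_insert, mem_singleton] at hw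
    rcases hw with rfl | rfl
    · exact hx
    · exact hy) (Finset.card_pair hxy)
  rw [mem_insert, mem_singleton] at h2
  push Not at h2
  rw [Finset.sum_pair hxy] at h3
  refine ⟨z, ⟨h1, h2.1, h2.2, h3⟩, ?_⟩
  rintro z' ⟨g1, g2, g3, g4⟩
  apply hu z'
  refine ⟨g1, ?_, ?_⟩
  · rw [mem_insert, mem_singleton]
    push Not
    exact ⟨g2, g3⟩
  · rw [Finset.sum_pair hxy]; exact g4

theorem comp_of_tri {V S : Finset G} (h : Tri V S) : Comp V S 2 := by
  intro R hR hRc
  obtain ⟨x, y, hxy, rfl⟩ := Finset.card_eq_two.1 hRc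
  obtain ⟨z, ⟨h1, h2, h3, h4⟩, hu⟩ := h x (hR (by simp)) y (hR (by simp)) hxy
  refine ⟨z, ⟨h1, ?_, ?_⟩, ?_⟩
  · rw [mem_insert, mem_singleton]
    push Not
    exact ⟨h2, h3⟩
  · rw [Finset.sum_pair hxy]; exact h4
  · rintro z' ⟨g1, g2, g3⟩
    rw [mem_insert, mem_singleton] at g2
    push Not at g2
    rw [Finset.sum_pair hxy] at g3
    exact hu z' ⟨g1, g2.1, g2.2, g3⟩

/-- counting with an index two subgroup -/
theorem count_index_two (K : AddSubgroup G) (hK1 : ∀ x : G, x + x ∈ K) (hK2 : ∃ x, x ∉ K)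
    (hK3 : ∀ x y, x ∉ K → y ∉ K → x + y ∈ K) [DecidablePred (· ∈ K)]
    {V S : Finset G} (hV : Fintype.card G + 6 ≤ 2 * V.card) (h : Tri V S) :
    2 * ((univ : Finset G).filter (· ∈ K)).card = Fintype.card G ∧
    (S.filter (· ∈ K)).card * (V.filter (· ∉ K)).card +
      (S.filter (· ∉ K)).card * (V.filter (· ∈ K)).card ≤
        ((univ : Finset G).filter (· ∉ K)).card ∧
    ((univ : Finset G).filter (· ∉ K)).card = ((univ : Finset G).filter (· ∈ K)).card := by
  classical
  obtain ⟨t, ht⟩ := hK2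
  have hle1 : ((univ : Finset G).filter (· ∉ K)).card ≤ ((univ : Finset G).filter (· ∈ K)).card := by
    apply Finset.card_le_card_of_injOn (fun x => x + t)
    · intro x hx
      rw [Finset.mem_coe, mem_filter] at hx
      rw [Finset.mem_coe, mem_filter]
      exact ⟨mem_univ _, hK3 _ _ hx.2 ht⟩
    · intro a _ b _ hab
      simpa using hab
  have hle2 : ((univ : Finset G).filter (· ∈ K)).card ≤ ((univ : Finset G).filter (· ∉ K)).card := by
    apply Finset.card_le_card_of_injOn (fun x => x + t)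
    · intro x hx
      rw [Finset.mem_coe, mem_filter] at hx
      rw [Finset.mem_coe, mem_filter]
      exact ⟨mem_univ _, fun h' => ht ((K.add_mem_cancel_left hx.2).1 h')⟩
    · intro a _ b _ hab
      simpa using hab
  have hsum : ((univ : Finset G).filter (· ∈ K)).card + ((univ : Finset G).filter (· ∉ K)).card
      = Fintype.card G := by
    rw [Finset.card_filter_add_card_filter_not, Finset.card_univ]
  refine ⟨by omega, ?_, by omega⟩
  have hu : ∀ σ : G, σ ∉ K → ∃! z, z ∈ V ∧ z + σ ∈ S := by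
    intro σ hσ
    apply uniq_z (r := 2) (le_refl _) (by omega) (comp_of_tri h) σ
    refine Or.inr (Or.inr ?_)
    intro hd
    obtain ⟨y, rfl⟩ := mem_dbl.1 hd
    exact hσ (hK1 y)
  rw [← Finset.card_product, ← Finset.card_product]
  rw [← Finset.card_union_of_disjoint (by
    rw [Finset.disjoint_left]
    rintro ⟨a, b⟩ h1 h2
    rw [Finset.mem_product, mem_filter, mem_filter] at h1 h2
    exact h2.1.2 h1.1.2)]
  apply Finset.card_le_card_of_injOn (fun p : G × G => p.1 - p.2)
  · rintro ⟨a, b⟩ hp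
    rw [Finset.mem_coe, mem_union, mem_product, mem_product, mem_filter, mem_filter,
      mem_filter, mem_filter] at hp
    rw [Finset.mem_coe, mem_filter]
    refine ⟨mem_univ _, fun hc => ?_⟩
    simp only at hp hc
    rcases hp with hp | hp
    · apply hp.2.2
      have := K.sub_mem hp.1.2 hc
      rwa [sub_sub_cancel] at this
    · apply hp.1.2
      have := K.add_mem hc hp.2.2
      rwa [sub_add_cancel] at this
  · have hmem : ∀ p : G × G, p ∈ (((S.filter (· ∈ K)) ×ˢ (V.filter (· ∉ K))) ∪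
        ((S.filter (· ∉ K)) ×ˢ (V.filter (· ∈ K)))) → p.1 ∈ S ∧ p.2 ∈ V ∧ p.1 - p.2 ∉ K := by
      rintro ⟨a, b⟩ hp
      rw [mem_union, mem_product, mem_product, mem_filter, mem_filter,
        mem_filter, mem_filter] at hp
      simp only at hp ⊢
      rcases hp with hp | hp
      · refine ⟨hp.1.1, hp.2.1, fun hc => hp.2.2 ?_⟩
        have := K.sub_mem hp.1.2 hc
        rwa [sub_sub_cancel] at this
      · refine ⟨hp.1.1, hp.2.1, fun hc => hp.1.2 ?_⟩
        have := K.add_mem hc hp.2.2
        rwa [sub_add_cancel] at this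
    rintro ⟨s, z⟩ hp ⟨s', z'⟩ hp' he
    obtain ⟨a1, a2, a3⟩ := hmem _ (Finset.mem_coe.1 hp)
    obtain ⟨b1, b2, b3⟩ := hmem _ (Finset.mem_coe.1 hp')
    simp only at a1 a2 a3 b1 b2 b3 he
    obtain ⟨w, -, hw⟩ := hu (s - z) a3
    have e1 := hw z ⟨a2, by rw [add_sub_cancel]; exact a1⟩
    have e2 := hw z' ⟨b2, by rw [he, add_sub_cancel]; exact b1⟩
    have e3 : z = z' := by rw [e1, e2]
    subst e3
    have e4 : s = s' := by simpa using he
    rw [e4]

end two

end Pool.Agent.Q118.SteinerSum
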