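import Pool.Agent.Q118.SteinerSum3

namespace Pool.Agent.Q118.SteinerSum

open Finset

universe u

section three

theorem tri_translate {G : Type u} [AddCommGroup G] [DecidableEq G] {V S : Finset G}
    (h : Tri V S) (t : G) :
    Tri (V.image (fun x => x + t)) (S.image (fun x => x + (t + t + t))) := by
  intro x' hx' y' hy' hxy'
  obtain ⟨x, hx, rfl⟩ := Finset.mem_image.1 hx'
  obtain ⟨y, hy, rfl⟩ := Finset.mem_image.1 hy'
  have hxy : x ≠ y := fun e => hxy' (by rw [e])
  obtain ⟨z, ⟨h1, h2, h3, h4⟩, hu⟩ := h x hx y hy hxy
  refine ⟨z + t, ⟨Finset.mem_image.2 ⟨z, h1, rfl⟩, fun e => h2 (add_right_cancel e),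
    fun e => h3 (add_right_cancel e), Finset.mem_image.2 ⟨_, h4, by abel⟩⟩, ?_⟩
  rintro w' ⟨g1, g2, g3, g4⟩
  obtain ⟨w, hw, rfl⟩ := Finset.mem_image.1 g1
  obtain ⟨s, hs, hse⟩ := Finset.mem_image.1 g4
  have e : w + (x + y) = s := by
    have : (w + (x + y)) + (t + t + t) = s + (t + t + t) := by rw [hse]; abel
    exact add_right_cancel this
  rw [hu w ⟨hw, fun e => g2 (by rw [e]), fun e => g3 (by rw [e]), by rw [e]; exact hs⟩]

theorem tri_card_one : ∀ (N : ℕ) (G : Type u) [AddCommGroup G] [Fintype G] [DecidableEq G]
    (V S : Finset G), Fintype.card G ≤ N → Fintype.card G + 6 ≤ 2 * V.card → Tri V S →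
    S.card = 1 := by
  classical
  intro N
  induction N with
  | zero =>
    intro G _ _ _ V S hN _ _
    have : 0 < Fintype.card G := Fintype.card_pos
    omega
  | succ N ih =>
    intro G _ _ _ V S hN hV hT
    by_cases h2 : ∀ x : G, x + x = 0 → x = 0
    · obtain ⟨s, rfl, -⟩ := card_one_easy (r := 2) (le_refl _) (by omega) (comp_of_tri hT)
        (Or.inl h2)
      exact Finset.card_singleton s
    · obtain ⟨K, hK1, hK2, hK3⟩ := exists_index_two h2
      have key : ∀ V S : Finset G, Fintype.card G + 6 ≤ 2 * V.card → Tri V S →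
          (∀ s ∈ S, s ∈ K) → S.card = 1 := by
        intro V S hV hT hSK
        obtain ⟨c1, c2, c3⟩ := count_index_two K hK1 hK2 hK3 hV hT
        have e1 : S.filter (· ∈ K) = S := Finset.filter_true_of_mem hSK
        have e2 : S.filter (· ∉ K) = ∅ := Finset.filter_false_of_mem (fun s hs h => h (hSK s hs))
        rw [e1, e2, Finset.card_empty, zero_mul, add_zero, c3] at c2
        have hne : 1 ≤ S.card := Finset.card_pos.2 (S_nonempty (r := 2) (by omega) (comp_of_tri hT))
        by_contra hcon
        have hS2 : 2 ≤ S.card := by omega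
        have hle := Nat.mul_le_mul_right (V.filter (· ∉ K)).card hS2
        have hsum : (V.filter (· ∈ K)).card + (V.filter (· ∉ K)).card = V.card :=
          Finset.card_filter_add_card_filter_not _
        have cK : Fintype.card K = ((univ : Finset G).filter (· ∈ K)).card :=
          Fintype.card_subtype (fun x => x ∈ K)
        have cV : (V.subtype (· ∈ K)).card = (V.filter (· ∈ K)).card := Finset.card_subtype _ _
        have cS : (S.subtype (· ∈ K)).card = (S.filter (· ∈ K)).card := Finset.card_subtype _ _
        rw [e1] at cS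
        apply hcon
        rw [← cS]
        have hpos : 0 < Fintype.card K := Fintype.card_pos
        refine ih K (V.subtype (· ∈ K)) (S.subtype (· ∈ K)) (by omega) (by omega) ?_
        rintro ⟨x, hxK⟩ hx ⟨y, hyK⟩ hy hxy
        rw [Finset.mem_subtype] at hx hy
        have hxy' : x ≠ y := fun e => hxy (Subtype.ext e)
        obtain ⟨z, ⟨h1, h2, h3, h4⟩, hu⟩ := hT x hx y hy hxy'
        have hzK : z ∈ K := by
          have := K.sub_mem (hSK _ h4) (K.add_mem hxK hyK)
          rwa [add_sub_cancel_right] at this
        refine ⟨⟨z, hzK⟩, ⟨Finset.mem_subtype.2 h1, fun e => h2 (congrArg Subtype.val e),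
          fun e => h3 (congrArg Subtype.val e), Finset.mem_subtype.2 h4⟩, ?_⟩
        rintro ⟨w, hwK⟩ ⟨g1, g2, g3, g4⟩
        apply Subtype.ext
        exact hu w ⟨Finset.mem_subtype.1 g1, fun e => g2 (Subtype.ext e),
          fun e => g3 (Subtype.ext e), Finset.mem_subtype.1 g4⟩
      by_cases hA : ∀ s ∈ S, s ∈ K
      · exact key V S hV hT hA
      · by_cases hB : ∀ s ∈ S, s ∉ K
        · obtain ⟨t, ht⟩ := hK2
          have e1 : (V.image (fun x => x + t)).card = V.card :=
            Finset.card_image_of_injective _ (add_left_injective t)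
          have e2 : (S.image (fun x => x + (t + t + t))).card = S.card :=
            Finset.card_image_of_injective _ (add_left_injective _)
          have httt : t + t + t ∉ K := fun h' => ht ((K.add_mem_cancel_left (hK1 t)).1 h')
          rw [← e2]
          apply key (V.image (fun x => x + t)) _ (by omega) (tri_translate hT t)
          intro s hs
          obtain ⟨s', hs', rfl⟩ := Finset.mem_image.1 hs
          exact hK3 _ _ (hB s' hs') httt
        · exfalso
          push Not at hA hB
          obtain ⟨s1, hs1, hs1K⟩ := hA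
          obtain ⟨s0, hs0, hs0K⟩ := hB
          obtain ⟨c1, c2, c3⟩ := count_index_two K hK1 hK2 hK3 hV hT
          have d1 : 1 ≤ (S.filter (· ∈ K)).card :=
            Finset.card_pos.2 ⟨s0, Finset.mem_filter.2 ⟨hs0, hs0K⟩⟩
          have d2 : 1 ≤ (S.filter (· ∉ K)).card :=
            Finset.card_pos.2 ⟨s1, Finset.mem_filter.2 ⟨hs1, hs1K⟩⟩
          have l1 := Nat.mul_le_mul_right (V.filter (· ∉ K)).card d1
          have l2 := Nat.mul_le_mul_right (V.filter (· ∈ K)).card d2
          have hsum : (V.filter (· ∈ K)).card + (V.filter (· ∉ K)).card = V.card :=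
            Finset.card_filter_add_card_filter_not _
          omega

variable {G : Type u} [AddCommGroup G] [Fintype G] [DecidableEq G]

/-- the classification for `q = 3`, `r = 2` -/
theorem tri_class {V S : Finset G} (hV : Fintype.card G + 6 ≤ 2 * V.card) (hT : Tri V S) :
    (V = univ ∧ (∀ x : G, x + x + x = 0) ∧ S = {0}) ∨
    (∃ s, S = {s} ∧ (∀ x : G, x + x = 0) ∧ V = univ.erase s) := by
  classical
  have hS := tri_card_one (Fintype.card G) G V S (le_refl _) hV hT
  obtain ⟨s, rfl⟩ := Finset.card_eq_one.1 hS
  have hc : ∀ x ∈ V, ∀ y ∈ V, x ≠ y → s - (x + y) ∈ V ∧ s - (x + y) ≠ x ∧ s - (x + y) ≠ y := by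
    intro x hx y hy hxy
    obtain ⟨z, ⟨h1, h2, h3, h4⟩, -⟩ := hT x hx y hy hxy
    rw [mem_singleton] at h4
    have : s - (x + y) = z := by rw [← h4]; abel
    rw [this]
    exact ⟨h1, h2, h3⟩
  by_cases hVu : V = univ
  · subst hVu
    obtain ⟨h1, rfl⟩ := case_r2 (comp_of_tri hT)
    exact Or.inl ⟨rfl, h1, rfl⟩
  · have hv : ∃ v, v ∉ V := by
      by_contra hcon
      push Not at hcon
      exact hVu (Finset.eq_univ_of_forall hcon)
    -- pairs with a missing third point
    have hfib : ∀ v, v ∉ V → ∀ u ∈ V, s - v - u ∈ V → u + u = s - v := by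
      intro v hv u hu hw
      by_contra hne
      have h1 : u ≠ s - v - u := fun e => hne (eq_sub_iff_add_eq.1 e)
      have := (hc u hu (s - v - u) hw h1).1
      apply hv
      have e : s - (u + (s - v - u)) = v := by abel
      rwa [e] at this
    obtain ⟨v, hv⟩ := hv
    have hcard : ∀ v, v ∉ V → 6 ≤ (V.filter (fun u => s - v - u ∈ V)).card := by
      intro v hv
      have := pair_count V ∅ (s - v) (by simp)
      simp only [card_empty] at this
      omega
    have hd6 : 6 * (dbl G).card ≤ Fintype.card G := by
      have h1 := fiber_card (V.filter (fun u => s - v - u ∈ V)) (s - v) (by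
        intro u hu
        rw [mem_filter] at hu
        exact hfib v hv u hu.1 hu.2)
      have h2 := Nat.mul_le_mul_right (dbl G).card (hcard v hv)
      omega
    have hmemV : ∀ x, s - x ∉ dbl G → x ∈ V := by
      intro x hx
      by_contra hxV
      obtain ⟨u, hu⟩ := Finset.card_pos.1 (by have := hcard x hxV; omega :
        0 < (V.filter (fun u => s - x - u ∈ V)).card)
      rw [mem_filter] at hu
      exact hx (mem_dbl.2 ⟨u, hfib x hxV u hu.1 hu.2⟩)
    have hnotV : ∀ x, s - x ∉ dbl G → s - (x + x) ∉ V := by
      intro x hx hV'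
      have hxV := hmemV x hx
      have hne : x ≠ s - (x + x) := by
        intro e
        apply hx
        have : x + (x + x) = s := eq_sub_iff_add_eq.1 e
        exact mem_dbl.2 ⟨x, by rw [← this]; abel⟩
      have := (hc x hxV _ hV' hne).2.1
      apply this
      abel
    have hconst : ∀ x y, s - x ∉ dbl G → s - y ∉ dbl G → y + y = x + x := by
      intro x y hx hy
      have h1 := hfib (s - (x + x)) (hnotV x hx) y (hmemV y hy) (by
        apply hmemV
        intro hd
        apply hy
        have e : s - y = (s - (s - (s - (x + x)) - y)) + ((x - y) + (x - y)) := by abel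
        rw [e]
        exact dbl_add hd (mem_dbl.2 ⟨x - y, rfl⟩))
      rw [h1]; abel
    have hdz : ∀ e : G, e + e = 0 := by
      intro e
      by_contra hne
      set Q : Finset G := univ.filter (fun x => s - x ∉ dbl G) with hQ
      have hQc : Q.card + (dbl G).card = Fintype.card G := by
        have h1 : (univ.filter (fun x => s - x ∈ dbl G)).card = (dbl G).card := by
          apply Finset.card_bij (fun x _ => s - x)
          · intro x hx
            exact (mem_filter.1 hx).2
          · intro a _ b _ hab
            simpa using hab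
          · intro d hd
            exact ⟨s - d, mem_filter.2 ⟨mem_univ _, by rwa [sub_sub_cancel]⟩, by abel⟩
        have h2 := Finset.card_filter_add_card_filter_not (s := (univ : Finset G))
          (fun x => s - x ∈ dbl G)
        rw [Finset.card_univ] at h2
        rw [hQ]
        omega
      have hdisj : Disjoint Q (Q.image (fun x => x + e)) := by
        rw [Finset.disjoint_left]
        intro x hx hx'
        obtain ⟨y, hy, rfl⟩ := mem_image.1 hx'
        rw [hQ, mem_filter] at hx hy
        have h1 := hconst y (y + e) hy.2 hx.2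
        apply hne
        have h2 : (y + y) + (e + e) = (y + y) + 0 := by
          calc (y + y) + (e + e) = (y + e) + (y + e) := by abel
            _ = y + y := h1
            _ = (y + y) + 0 := (add_zero _).symm
        exact add_left_cancel h2
      have hci : (Q.image (fun x => x + e)).card = Q.card :=
        Finset.card_image_of_injective _ (add_left_injective e)
      have h3 : (Q ∪ Q.image (fun x => x + e)).card ≤ Fintype.card G := Finset.card_le_univ _
      rw [Finset.card_union_of_disjoint hdisj, hci] at h3
      have h5 : 0 < Fintype.card G := Fintype.card_pos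
      omega
    refine Or.inr ⟨s, rfl, hdz, ?_⟩
    have hdbl0 : ∀ d ∈ dbl G, d = 0 := by
      intro d hd
      obtain ⟨y, rfl⟩ := mem_dbl.1 hd
      exact hdz y
    have hsub : ∀ x, x ≠ s → x ∈ V := by
      intro x hx
      apply hmemV
      intro hd
      exact hx (sub_eq_zero.1 (hdbl0 _ hd)).symm
    have hvs : v = s := by
      by_contra hne
      exact hv (hsub v hne)
    subst hvs
    ext x
    rw [mem_erase]
    constructor
    · intro hx
      exact ⟨fun e => hv (e ▸ hx), mem_univ _⟩
    · rintro ⟨hx, -⟩
      exact hsub x hx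

end three

end Pool.Agent.Q118.SteinerSum
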