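import Pool.Agent.Q118.SteinerSum4

namespace Pool.Agent.Q118.SteinerSum

open Finset

universe u

section general
variable {X : Type*} [Fintype X] [DecidableEq X]

/-- `F` is a Steiner system `S(|X|, q, r)` on the point set `X`. -/
def IsSteiner (q r : ℕ) (F : Finset (Finset X)) : Prop :=
  (∀ B ∈ F, B.card = q) ∧ ∀ R : Finset X, R.card = r → ∃! B, B ∈ F ∧ R ⊆ B

omit [Fintype X] [DecidableEq X] in
theorem eq_of_common {q r : ℕ} {F : Finset (Finset X)} (h : IsSteiner q r F) {B B' R : Finset X}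
    (hB : B ∈ F) (hB' : B' ∈ F) (h1 : R ⊆ B) (h2 : R ⊆ B') (hR : R.card = r) : B = B' := by
  obtain ⟨C, -, hC⟩ := h.2 R hR
  rw [hC B ⟨hB, h1⟩, hC B' ⟨hB', h2⟩]

/-- Tits' inequality. -/
theorem tits {q r : ℕ} {F : Finset (Finset X)} (hrq : r < q)
    (hq : q < Fintype.card X) (h : IsSteiner q r F) :
    (r + 1) + (r + 1) * (q - r) ≤ Fintype.card X := by
  classical
  obtain ⟨R0, -, hR0⟩ := Finset.exists_subset_card_eq (s := (univ : Finset X)) (n := r)
    (by rw [Finset.card_univ]; omega)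
  obtain ⟨B0, ⟨hB0, hRB0⟩, -⟩ := h.2 R0 hR0
  have hw : ∃ w, w ∉ B0 := by
    by_contra hcon
    push Not at hcon
    have := Finset.eq_univ_of_forall hcon
    have h2 := h.1 B0 hB0
    rw [this, Finset.card_univ] at h2
    omega
  obtain ⟨w, hw⟩ := hw
  have hwR : w ∉ R0 := fun h' => hw (hRB0 h')
  set T : Finset X := insert w R0 with hT
  have hTc : T.card = r + 1 := by rw [hT, Finset.card_insert_of_notMem hwR, hR0]
  have hTB : ∀ B ∈ F, ¬ T ⊆ B := by
    intro B hB hTB
    have e := eq_of_common h hB hB0 ((Finset.subset_insert _ _).trans hTB) hRB0 hR0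
    subst e
    exact hw (hTB (mem_insert_self _ _))
  have hch : ∀ t : X, ∃ B : Finset X, t ∈ T → B ∈ F ∧ T.erase t ⊆ B := by
    intro t
    by_cases ht : t ∈ T
    · obtain ⟨B, hB, -⟩ := h.2 (T.erase t) (by rw [Finset.card_erase_of_mem ht]; omega)
      exact ⟨B, fun _ => hB⟩
    · exact ⟨∅, fun h' => absurd h' ht⟩
  choose f hf using hch
  have htf : ∀ t ∈ T, t ∉ f t := by
    intro t ht htf
    apply hTB _ (hf t ht).1
    intro y hy
    by_cases hyt : y = t
    · rw [hyt]; exact htf
    · exact (hf t ht).2 (mem_erase.2 ⟨hyt, hy⟩)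
  have hint : ∀ t ∈ T, (f t \ T).card = q - r := by
    intro t ht
    have e : f t \ T = f t \ (T.erase t) := by
      ext y
      rw [mem_sdiff, mem_sdiff, mem_erase]
      constructor
      · rintro ⟨h1, h2⟩
        exact ⟨h1, fun h3 => h2 h3.2⟩
      · rintro ⟨h1, h2⟩
        refine ⟨h1, fun h3 => h2 ⟨?_, h3⟩⟩
        rintro rfl
        exact htf y h3 h1
    rw [e, Finset.card_sdiff_of_subset (hf t ht).2, h.1 _ (hf t ht).1,
      Finset.card_erase_of_mem ht]
    omega
  have hpd : ∀ t ∈ T, ∀ t' ∈ T, t ≠ t' → Disjoint (f t \ T) (f t' \ T) := by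
    intro t ht t' ht' hne
    rw [Finset.disjoint_left]
    intro p hp hp'
    rw [mem_sdiff] at hp hp'
    have hpe : p ∉ (T.erase t).erase t' := fun h' =>
      hp.2 (mem_erase.1 (mem_erase.1 h').2).2
    have e := eq_of_common h (hf t ht).1 (hf t' ht').1 (R := insert p ((T.erase t).erase t'))
      (by
        intro y hy
        rw [mem_insert] at hy
        rcases hy with rfl | hy
        · exact hp.1
        · exact (hf t ht).2 (mem_erase.1 hy).2)
      (by
        intro y hy
        rw [mem_insert] at hy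
        rcases hy with rfl | hy
        · exact hp'.1
        · exact (hf t' ht').2 (mem_erase.2 ⟨(mem_erase.1 hy).1,
            (mem_erase.1 (mem_erase.1 hy).2).2⟩))
      (by
        rw [Finset.card_insert_of_notMem hpe, Finset.card_erase_of_mem
          (mem_erase.2 ⟨Ne.symm hne, ht'⟩), Finset.card_erase_of_mem ht]
        have : 2 ≤ T.card := Finset.one_lt_card.2 ⟨t, ht, t', ht', hne⟩
        omega)
    apply htf t' ht'
    rw [← e]
    exact (hf t ht).2 (mem_erase.2 ⟨Ne.symm hne, ht'⟩)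
  have hU : (T.biUnion (fun t => f t \ T)).card = (r + 1) * (q - r) := by
    rw [Finset.card_biUnion (fun t ht t' ht' hne => hpd t ht t' ht' hne),
      Finset.sum_congr rfl hint, Finset.sum_const, hTc, smul_eq_mul]
  have hdis : Disjoint T (T.biUnion (fun t => f t \ T)) := by
    rw [Finset.disjoint_left]
    intro y hy hy'
    rw [mem_biUnion] at hy'
    obtain ⟨t, -, hyt⟩ := hy'
    exact (mem_sdiff.1 hyt).2 hy
  have := Finset.card_le_univ (T ∪ T.biUnion (fun t => f t \ T))
  rw [Finset.card_union_of_disjoint hdis, hU, hTc] at this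
  exact this

theorem two_q_le {q r : ℕ} {F : Finset (Finset X)} (hr : 2 ≤ r) (hrq : r < q)
    (hq : q < Fintype.card X) (h : IsSteiner q r F) : 2 * q ≤ Fintype.card X := by
  have h1 := tits hrq hq h
  obtain ⟨k, rfl⟩ : ∃ k, q = r + 1 + k := ⟨q - (r + 1), by omega⟩
  have e : r + 1 + k - r = k + 1 := by omega
  rw [e] at h1
  have h3 : 2 * k ≤ r * k := Nat.mul_le_mul_right _ hr
  nlinarith

/-- Blocks given by a labelling. -/
def labelBlocks {M : Type*} [AddCommMonoid M] [DecidableEq M] (f : X → M) (q : ℕ)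
    (S : Finset M) : Finset (Finset X) :=
  ((univ : Finset X).powersetCard q).filter (fun B => ∑ x ∈ B, f x ∈ S)

theorem mem_labelBlocks {M : Type*} [AddCommMonoid M] [DecidableEq M] {f : X → M} {q : ℕ}
    {S : Finset M} {B : Finset X} : B ∈ labelBlocks f q S ↔ B.card = q ∧ ∑ x ∈ B, f x ∈ S := by
  rw [labelBlocks, mem_filter, mem_powersetCard]
  constructor
  · rintro ⟨⟨-, h1⟩, h2⟩; exact ⟨h1, h2⟩
  · rintro ⟨h1, h2⟩; exact ⟨⟨subset_univ _, h1⟩, h2⟩

/-- The labels are distinct. -/
theorem label_injective {M : Type*} [AddCommMonoid M] [DecidableEq M] {f : X → M} {q r : ℕ}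
    {S : Finset M} (hr : 2 ≤ r) (hrq : r < q) (hq : q < Fintype.card X)
    (h : IsSteiner q r (labelBlocks f q S)) : Function.Injective f := by
  classical
  intro x y hxy
  by_contra hne
  obtain ⟨R0, hxyR0, -, hR0⟩ := Finset.exists_subsuperset_card_eq
    (s := {x, y}) (t := (univ : Finset X)) (n := r) (subset_univ _)
    (by rw [Finset.card_pair hne]; exact hr) (by rw [Finset.card_univ]; omega)
  obtain ⟨B0, ⟨hB0, hRB0⟩, -⟩ := h.2 R0 hR0
  have hx0 : x ∈ B0 := hRB0 (hxyR0 (by simp))
  have hy0 : y ∈ B0 := hRB0 (hxyR0 (by simp))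
  have hw : ∃ w, w ∉ B0 := by
    by_contra hcon
    push Not at hcon
    have := Finset.eq_univ_of_forall hcon
    have h2 := h.1 B0 hB0
    rw [this, Finset.card_univ] at h2
    omega
  obtain ⟨w, hw⟩ := hw
  have hxR : x ∈ R0 := hxyR0 (by simp)
  have hyR : y ∈ R0 := hxyR0 (by simp)
  -- R1 = R0 with y replaced by w
  have hwR : w ∉ R0.erase y := fun h' => hw (hRB0 (mem_erase.1 h').2)
  obtain ⟨B, ⟨hB, hRB⟩, -⟩ := h.2 (insert w (R0.erase y)) (by
    rw [Finset.card_insert_of_notMem hwR, Finset.card_erase_of_mem hyR]; omega)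
  have hxB : x ∈ B := hRB (mem_insert_of_mem (mem_erase.2 ⟨hne, hxR⟩))
  have hyB : y ∉ B := by
    intro hyB
    have e := eq_of_common h hB hB0 (R := R0) (by
      intro z hz
      by_cases hzy : z = y
      · rw [hzy]; exact hyB
      · exact hRB (mem_insert_of_mem (mem_erase.2 ⟨hzy, hz⟩))) hRB0 hR0
    apply hw
    rw [← e]
    exact hRB (mem_insert_self _ _)
  have hyBx : y ∉ B.erase x := fun h' => hyB (mem_erase.1 h').2
  have hBm := mem_labelBlocks.1 hB
  have hB' : insert y (B.erase x) ∈ labelBlocks f q S := by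
    rw [mem_labelBlocks]
    constructor
    · rw [Finset.card_insert_of_notMem hyBx, Finset.card_erase_of_mem hxB, hBm.1]; omega
    · rw [Finset.sum_insert hyBx, ← hxy, Finset.add_sum_erase _ _ hxB]
      exact hBm.2
  obtain ⟨R', hR'B, hR'c⟩ := Finset.exists_subset_card_eq (s := B.erase x) (n := r)
    (by rw [Finset.card_erase_of_mem hxB, hBm.1]; omega)
  have e := eq_of_common h hB hB' (hR'B.trans (Finset.erase_subset _ _))
    (hR'B.trans (Finset.subset_insert _ _)) hR'c
  apply hyB
  rw [e]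
  exact mem_insert_self _ _

/-- Transfer to subsets of the group. -/
theorem stV_iff {G : Type*} [AddCommGroup G] [Fintype G] [DecidableEq G] {f : X → G}
    (hf : Function.Injective f) {q r : ℕ} {S : Finset G} :
    IsSteiner q r (labelBlocks f q S) ↔ StV (univ.image f) S q r := by
  classical
  have hblk : ∀ B : Finset X, B ∈ labelBlocks f q S ↔ Blk (univ.image f) S q (B.image f) := by
    intro B
    rw [mem_labelBlocks, Blk, Finset.card_image_of_injective _ hf,
      Finset.sum_image (fun a _ b _ hab => hf hab)]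
    exact ⟨fun h => ⟨Finset.image_subset_image (subset_univ _), h⟩, fun h => h.2⟩
  have hpre : ∀ B' : Finset G, B' ⊆ univ.image f → ∃ B : Finset X, B.image f = B' := by
    intro B' hB'
    obtain ⟨B, -, hB⟩ := Finset.subset_image_iff.1 hB'
    exact ⟨B, hB⟩
  constructor
  · rintro ⟨-, h⟩ R' hR' hR'c
    obtain ⟨R, rfl⟩ := hpre R' hR'
    rw [Finset.card_image_of_injective _ hf] at hR'c
    obtain ⟨B, ⟨hB, hRB⟩, hu⟩ := h R hR'c
    refine ⟨B.image f, ⟨(hblk B).1 hB, Finset.image_subset_image hRB⟩, ?_⟩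
    rintro C' ⟨hC', hRC'⟩
    obtain ⟨C, rfl⟩ := hpre C' hC'.1
    rw [hu C ⟨(hblk C).2 hC', (Finset.image_subset_image_iff hf).1 hRC'⟩]
  · intro h
    refine ⟨fun B hB => (mem_labelBlocks.1 hB).1, ?_⟩
    intro R hR
    obtain ⟨B', ⟨hB', hRB'⟩, hu⟩ := h (R.image f) (Finset.image_subset_image (subset_univ _))
      (by rw [Finset.card_image_of_injective _ hf, hR])
    obtain ⟨B, rfl⟩ := hpre B' hB'.1
    refine ⟨B, ⟨(hblk B).2 hB', (Finset.image_subset_image_iff hf).1 hRB'⟩, ?_⟩
    rintro C ⟨hC, hRC⟩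
    exact Finset.image_injective hf (hu (C.image f) ⟨(hblk C).1 hC, Finset.image_subset_image hRC⟩)

end general

section converse
variable {G : Type*} [AddCommGroup G] [Fintype G] [DecidableEq G]

theorem conv_a (h3 : ∀ x : G, x + x + x = 0) : StV (univ : Finset G) {0} 3 2 := by
  apply stV_of_comp
  apply comp_of_tri
  intro x _ y _ hxy
  refine ⟨-(x + y), ⟨mem_univ _, ?_, ?_, ?_⟩, ?_⟩
  · intro e
    apply hxy
    have h1 : x + x + y = 0 := by
      calc x + x + y = x - (-(x + y)) := by abel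
        _ = 0 := by rw [e]; abel
    have h2 : x + x + y = x + x + x := by rw [h1, h3]
    exact (add_left_cancel h2).symm
  · intro e
    apply hxy
    have h1 : y + y + x = 0 := by
      calc y + y + x = y - (-(x + y)) := by abel
        _ = 0 := by rw [e]; abel
    have h2 : y + y + x = y + y + y := by rw [h1, h3]
    exact add_left_cancel h2
  · rw [mem_singleton]; abel
  · rintro z ⟨-, -, -, hz⟩
    rw [mem_singleton] at hz
    exact eq_neg_of_add_eq_zero_left hz

theorem conv_b (h2 : ∀ x : G, x + x = 0) (s : G) : StV ((univ : Finset G).erase s) {s} 3 2 := by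
  apply stV_of_comp
  apply comp_of_tri
  intro x hx y hy hxy
  have hx' := (mem_erase.1 hx).1
  have hy' := (mem_erase.1 hy).1
  refine ⟨s - (x + y), ⟨?_, ?_, ?_, ?_⟩, ?_⟩
  · rw [mem_erase]
    refine ⟨fun e => hxy ?_, mem_univ _⟩
    have h1 : x + y = 0 := by
      calc x + y = s - (s - (x + y)) := by abel
        _ = 0 := by rw [e]; abel
    have h3 : x + y = y + y := by rw [h1, h2]
    exact add_right_cancel h3
  · intro e
    apply hy'
    calc y = s - (x + x) - ((s - (x + y)) - x) := by abel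
      _ = s := by rw [e, h2]; abel
  · intro e
    apply hx'
    calc x = s - (y + y) - ((s - (x + y)) - y) := by abel
      _ = s := by rw [e, h2]; abel
  · rw [mem_singleton]; abel
  · rintro z ⟨-, -, -, hz⟩
    rw [mem_singleton] at hz
    rw [← hz]; abel

theorem conv_c (h2 : ∀ x : G, x + x = 0) : StV (univ : Finset G) {0} 4 3 := by
  classical
  apply stV_of_comp
  intro R _ hR
  obtain ⟨x, y, w, hxy, hxw, hyw, rfl⟩ := Finset.card_eq_three.1 hR
  have hsum : ∑ v ∈ ({x, y, w} : Finset G), v = x + (y + w) := by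
    rw [Finset.sum_insert, Finset.sum_pair hyw]
    rw [mem_insert, mem_singleton]
    push Not
    exact ⟨hxy, hxw⟩
  have hne : ∀ a b : G, a ≠ b → a + b ≠ 0 := by
    intro a b hab e
    apply hab
    have h3 : a + b = b + b := by rw [e, h2]
    exact add_right_cancel h3
  rw [hsum]
  refine ⟨x + (y + w), ⟨mem_univ _, ?_, ?_⟩, ?_⟩
  · rw [mem_insert, mem_insert, mem_singleton]
    push Not
    refine ⟨fun e => hne y w hyw ?_, fun e => hne x w hxw ?_, fun e => hne x y hxy ?_⟩
    · have h3 : x + (y + w) = x + 0 := by rw [e, add_zero]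
      exact add_left_cancel h3
    · calc x + w = (x + (y + w)) - y := by abel
        _ = 0 := by rw [e]; abel
    · calc x + y = (x + (y + w)) - w := by abel
        _ = 0 := by rw [e]; abel
  · rw [mem_singleton]; exact h2 _
  · rintro z ⟨-, -, hz⟩
    rw [mem_singleton] at hz
    have h3 : z + (x + (y + w)) = (x + (y + w)) + (x + (y + w)) := by rw [hz, h2]
    exact add_right_cancel h3

end converse

section final

/-- The core classification, on subsets of the group. -/
theorem stV_class {G : Type u} [AddCommGroup G] [Fintype G] [DecidableEq G] {V S : Finset G}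
    {q r : ℕ} (hr : 2 ≤ r) (hrq : r < q) (hq : q < V.card)
    (hV : Fintype.card G + 2 * q ≤ 2 * V.card) (h : StV V S q r) :
    (q = 3 ∧ r = 2 ∧ V = univ ∧ (∀ x : G, x + x + x = 0) ∧ S = {0}) ∨
    (q = 3 ∧ r = 2 ∧ (∀ x : G, x + x = 0) ∧ ∃ s, S = {s} ∧ V = univ.erase s) ∨
    (q = 4 ∧ r = 3 ∧ V = univ ∧ (∀ x : G, x + x = 0) ∧ S = {0}) := by
  classical
  have hqr : q = r + 1 := by
    by_contra hne
    exact no_large hr (by omega) hq hV h
  subst hqr
  have hC := comp_of_stV h
  rcases Nat.lt_or_ge r 3 with h3 | h3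
  · have : r = 2 := by omega
    subst this
    rcases tri_class (by omega) (tri_of_comp hC) with ⟨h1, h2, h3⟩ | ⟨s, h1, h2, h3⟩
    · exact Or.inl ⟨rfl, rfl, h1, h2, h3⟩
    · exact Or.inr (Or.inl ⟨rfl, rfl, h2, s, h1, h3⟩)
  · obtain ⟨s, rfl, rfl⟩ := card_one_easy hr hV hC (Or.inr h3)
    rw [Finset.card_univ] at hq hV
    rcases Nat.lt_or_ge r 4 with h4 | h4
    · have : r = 3 := by omega
      subst this
      obtain ⟨h5, rfl⟩ := case_r3 (by omega) hC
      exact Or.inr (Or.inr ⟨rfl, rfl, rfl, h5, rfl⟩)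
    · exact (case_r4 h4 (by omega) hC).elim

end final

end Pool.Agent.Q118.SteinerSum
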