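import Pool.Agent.Q118.SumSys

/-!
# Triples given by sums in groups without elements of order 9, and cap sets
-/

set_option autoImplicit false

namespace Pool.Agent.Q118.SumCap

open Finset Pool.Agent.Q118.SumSys

/-- A cap set in `F_3^d`: no three distinct elements add up to zero. -/
def IsCap {d : ℕ} (A : Finset (Fin d → ZMod 3)) : Prop :=
  ∀ x ∈ A, ∀ y ∈ A, ∀ z ∈ A, x + y + z = 0 → x = y

/-- The 3-graph on `G × Fin N` whose edges are the triples with label sum in `T`. -/
def sumGraph {G : Type*} [AddCommMonoid G] [Fintype G] [DecidableEq G] (N : ℕ) (T : Finset G) :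
    Finset (Finset (G × Fin N)) :=
  (powersetCard 3 univ).filter fun e => ∑ v ∈ e, v.1 ∈ T

/-- `E` contains no complete 3-graph on `m` vertices. -/
def CliqueFree {X : Type*} (m : ℕ) (E : Finset (Finset X)) : Prop :=
  ∀ K : Finset X, K.card = m → ∃ e ⊆ K, e.card = 3 ∧ e ∉ E

variable {G : Type*} [AddCommGroup G] [Fintype G] [DecidableEq G]

theorem cliqueFree_iff (N m : ℕ) (T : Finset G) :
    CliqueFree m (sumGraph N T) ↔ Covering m (sumFamily N 3 (univ \ T)) := by
  unfold CliqueFree Covering sumGraph sumFamily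
  refine forall_congr' fun K => forall_congr' fun _ => ?_
  simp only [mem_filter, mem_powersetCard, subset_univ, true_and, mem_sdiff, mem_univ, not_and]
  constructor
  · rintro ⟨e, h1, h2, h3⟩
    exact ⟨e, ⟨h2, h3 h2⟩, h1⟩
  · rintro ⟨e, ⟨h1, h2⟩, h3⟩
    exact ⟨e, h3, h1, fun _ => h2⟩

/-- Multiplication of `ZMod 3` on an element of order dividing three. -/
theorem val_smul_add {H : Type*} [AddCommGroup H] (h : H) (h3 : 3 • h = 0) (a b : ZMod 3) :
    (a + b).val • h = a.val • h + b.val • h := by
  rw [ZMod.val_add, ← add_smul]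
  have key : ∀ n : ℕ, (n % 3) • h = n • h := by
    intro n
    conv_rhs => rw [← Nat.mod_add_div n 3]
    rw [add_smul, mul_comm 3, mul_smul, h3, smul_zero, add_zero]
  rw [key]

/-- The homomorphism `F_3^d × G → G`-style evaluation: `(g, h) ↦ 3 g + ∑ x_i h_i`. -/
def evalHom {H : Type*} [AddCommGroup H] {d : ℕ} (x : Fin d → ZMod 3) : (Fin d → H) →+ H where
  toFun h := ∑ i, (x i).val • h i
  map_zero' := by simp
  map_add' a b := by simp only [Pi.add_apply, smul_add, sum_add_distrib]

theorem evalHom_surjective {H : Type*} [AddCommGroup H] (h3 : ∀ h : H, 3 • h = 0) {d : ℕ}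
    (x : Fin d → ZMod 3) (hx : x ≠ 0) : Function.Surjective (evalHom (H := H) x) := by
  classical
  obtain ⟨i, hi⟩ : ∃ i, x i ≠ 0 := by
    by_contra hno
    push Not at hno
    exact hx (funext hno)
  intro y
  refine ⟨Pi.single i ((x i).val • y), ?_⟩
  change ∑ l, (x l).val • (Pi.single i ((x i).val • y) : Fin d → H) l = y
  rw [Finset.sum_eq_single i (fun b _ hb => by simp [Pi.single_eq_of_ne hb]) (by simp)]
  rw [Pi.single_eq_same, smul_smul]
  have h1 : (x i).val * (x i).val = 1 ∨ (x i).val * (x i).val = 4 := by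
    revert hi
    generalize x i = a
    revert a
    decide
  rcases h1 with h1 | h1
  · rw [h1, one_smul]
  · rw [h1, show (4 : ℕ) = 3 + 1 by norm_num, add_smul, h3, zero_add, one_smul]

omit [DecidableEq G] in
/-- In a group without elements of order nine, `G = 3 G + G[3]`. -/
theorem split_three (h9 : ∀ g : G, 9 • g = 0 → 3 • g = 0) (x : G) :
    ∃ g h : G, 3 • h = 0 ∧ 3 • g + h = x := by
  obtain ⟨a, b, hb, hab⟩ := Nat.exists_eq_pow_mul_and_not_dvd
    (Fintype.card_ne_zero (α := G)) 3 (by norm_num)
  have hpow : ∀ a : ℕ, ∀ y : G, 3 ^ a • y = 0 → 3 • y = 0 := by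
    intro a
    induction a with
    | zero => intro y hy; rw [pow_zero, one_smul] at hy; rw [hy, smul_zero]
    | succ a ih =>
      intro y hy
      rcases a with _ | a
      · simpa using hy
      · apply ih
        have h1 : 9 • (3 ^ a • y) = 0 := by
          rw [smul_smul, show 9 * 3 ^ a = 3 ^ (a + 1 + 1) by ring]
          exact hy
        have h2 := h9 _ h1
        rw [smul_smul] at h2
        rw [show (3 : ℕ) ^ (a + 1) = 3 * 3 ^ a by ring]
        exact h2
  have hc : Nat.Coprime 3 b := (Nat.Prime.coprime_iff_not_dvd Nat.prime_three).2 hb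
  obtain ⟨u, v, huv⟩ := (Nat.isCoprime_iff_coprime (m := 3) (n := b)).2 hc
  refine ⟨u • x, b • (v • x), ?_, ?_⟩
  · apply hpow a
    rw [smul_smul, ← hab]
    exact card_nsmul_eq_zero
  · rw [← natCast_zsmul (u • x) 3, ← natCast_zsmul (v • x) b, smul_smul, smul_smul, ← add_smul,
      mul_comm ((3 : ℕ) : ℤ) u, mul_comm (b : ℤ) v, huv, one_smul]

/-- **Cap bound.** -/
theorem cap_bound (h9 : ∀ g : G, 9 • g = 0 → 3 • g = 0) {N k d : ℕ} (hN : k ≤ N)
    (A : Finset (Fin d → ZMod 3)) (hA : IsCap A) (hk : k ≤ 2 * A.card) {S : Finset G}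
    (h : Covering k (sumFamily N 3 S)) :
    Fintype.card G ≤ S.card * (3 ^ d - 1) := by
  classical
  by_contra hcon
  push Not at hcon
  let H : AddSubgroup G := (nsmulAddMonoidHom 3 : G →+ G).ker
  have hH3 : ∀ y : H, 3 • y = 0 := by
    intro y
    apply Subtype.ext
    have := y.2
    rw [AddMonoidHom.mem_ker] at this
    rw [AddSubgroup.coe_nsmul, AddSubgroup.coe_zero]
    exact this
  let φ : (G × H) →+ G :=
    { toFun := fun z => 3 • z.1 + (z.2 : G)
      map_zero' := by simp
      map_add' := by
        intro z w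
        simp only [Prod.fst_add, Prod.snd_add, smul_add, AddSubgroup.coe_add]
        abel }
  have hφ : Function.Surjective φ := by
    intro x
    obtain ⟨g, y, hy, hgy⟩ := split_three h9 x
    exact ⟨(g, ⟨y, by rw [AddMonoidHom.mem_ker]; exact hy⟩), hgy⟩
  have hpre := preimage_card φ hφ S
  have hfib : (univ.filter fun z : G × H => φ z ∈ S).card =
      ∑ g : G, (univ.filter fun y : H => 3 • g + (y : G) ∈ S).card := by
    rw [card_eq_sum_card_fiberwise (f := Prod.fst) (t := univ) (fun _ _ => by simp)]
    refine sum_congr rfl fun g _ => ?_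
    refine card_nbij' (fun z => z.2) (fun y => (g, y)) ?_ ?_ ?_ ?_
    · intro z hz
      simp only [coe_filter, mem_filter, mem_univ, true_and, Set.mem_ofPred_eq] at hz ⊢
      rw [← hz.2]; exact hz.1
    · intro y hy
      simp only [coe_filter, mem_filter, mem_univ, true_and, Set.mem_ofPred_eq] at hy ⊢
      exact ⟨hy, trivial⟩
    · intro z hz
      simp only [coe_filter, mem_filter, mem_univ, true_and, Set.mem_ofPred_eq] at hz
      exact Prod.ext hz.2.symm rfl
    · intro y _
      rfl
  obtain ⟨g, hg⟩ : ∃ g : G, (univ.filter fun y : H => 3 • g + (y : G) ∈ S).card * Fintype.card G ≤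
      S.card * Fintype.card H := by
    by_contra hno
    push Not at hno
    have h1 : ∑ g : G, S.card * Fintype.card H <
        ∑ g : G, (univ.filter fun y : H => 3 • g + (y : G) ∈ S).card * Fintype.card G :=
      sum_lt_sum_of_nonempty univ_nonempty fun g _ => hno g
    rw [← Finset.sum_mul univ (fun g : G => (univ.filter fun y : H => 3 • g + (y : G) ∈ S).card),
      ← hfib, hpre, sum_const, card_univ, smul_eq_mul, Fintype.card_prod] at h1
    have : Fintype.card G * (S.card * Fintype.card H) = S.card * (Fintype.card G * Fintype.card H) :=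
      by ring
    omega
  set S' : Finset H := univ.filter fun y : H => 3 • g + (y : G) ∈ S with hS'
  have hsmall : S'.card * (3 ^ d - 1) < Fintype.card H := by
    have hHpos : 0 < Fintype.card H := Fintype.card_pos
    have h1 : (S'.card * (3 ^ d - 1)) * Fintype.card G < Fintype.card H * Fintype.card G := by
      calc (S'.card * (3 ^ d - 1)) * Fintype.card G
          = (S'.card * Fintype.card G) * (3 ^ d - 1) := by ring
        _ ≤ (S.card * Fintype.card H) * (3 ^ d - 1) := Nat.mul_le_mul_right _ hg
        _ = (S.card * (3 ^ d - 1)) * Fintype.card H := by ring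
        _ < Fintype.card G * Fintype.card H := Nat.mul_lt_mul_of_pos_right hcon hHpos
        _ = Fintype.card H * Fintype.card G := by ring
    exact lt_of_mul_lt_mul_right h1 (Nat.zero_le _)
  obtain ⟨y, hy⟩ := exists_avoid (A := Fin d → H) (B := H)
    (univ.erase (0 : Fin d → ZMod 3)) (fun x => evalHom x)
    (fun x hx => evalHom_surjective hH3 x (by simpa using hx)) S'
    (by
      rw [card_erase_of_mem (mem_univ _), card_univ, Fintype.card_fun, ZMod.card, Fintype.card_fin]
      exact hsmall)
  -- the labels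
  have hcard : Fintype.card (Fin k) ≤ Fintype.card (A × Fin 2) := by
    simp only [Fintype.card_fin, Fintype.card_prod, Fintype.card_coe]
    omega
  obtain ⟨e⟩ := Function.Embedding.nonempty_of_card_le hcard
  obtain ⟨Q, hQ, hQS⟩ := seq_of_covering hN h
    (fun q => g + ((evalHom ((e q).1 : Fin d → ZMod 3) y : H) : G))
  obtain ⟨q1, q2, q3, h12, h13, h23, rfl⟩ := card_eq_three.1 hQ
  have hlin : ∀ a b : Fin d → ZMod 3, evalHom (a + b) y = evalHom a y + evalHom b y := by
    intro a b
    change ∑ i, (a i + b i).val • y i = ∑ i, (a i).val • y i + ∑ i, (b i).val • y i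
    rw [← sum_add_distrib]
    exact sum_congr rfl fun i _ => val_smul_add _ (hH3 _) _ _
  set a1 : Fin d → ZMod 3 := ((e q1).1 : Fin d → ZMod 3) with ha1
  set a2 : Fin d → ZMod 3 := ((e q2).1 : Fin d → ZMod 3) with ha2
  set a3 : Fin d → ZMod 3 := ((e q3).1 : Fin d → ZMod 3) with ha3
  by_cases hz : a1 + a2 + a3 = 0
  · have h1 : a1 = a2 := hA a1 (e q1).1.2 a2 (e q2).1.2 a3 (e q3).1.2 hz
    have h2 : a1 = a3 := hA a1 (e q1).1.2 a3 (e q3).1.2 a2 (e q2).1.2 (by rw [← hz]; abel)
    -- three different elements with the same first coordinate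
    have f12 : (e q1).2 ≠ (e q2).2 := fun hh =>
      h12 (e.injective (Prod.ext (Subtype.ext h1) hh))
    have f13 : (e q1).2 ≠ (e q3).2 := fun hh =>
      h13 (e.injective (Prod.ext (Subtype.ext h2) hh))
    have f23 : (e q2).2 ≠ (e q3).2 := fun hh =>
      h23 (e.injective (Prod.ext (Subtype.ext (h1.symm.trans h2)) hh))
    omega
  · refine hy (a1 + a2 + a3) (mem_erase.2 ⟨hz, mem_univ _⟩) ?_
    rw [hS', mem_filter]
    refine ⟨mem_univ _, ?_⟩
    rw [sum_insert (by simp [h12, h13]), sum_pair h23] at hQS
    change 3 • g + ((evalHom (a1 + a2 + a3) y : H) : G) ∈ S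
    rw [hlin, hlin, AddSubgroup.coe_add, AddSubgroup.coe_add]
    have : g + ((evalHom a1 y : H) : G) + (g + ((evalHom a2 y : H) : G) +
        (g + ((evalHom a3 y : H) : G))) = 3 • g + (((evalHom a1 y : H) : G) +
        ((evalHom a2 y : H) : G) + ((evalHom a3 y : H) : G)) := by
      rw [show (3 : ℕ) = 1 + 1 + 1 by norm_num, add_smul, add_smul, one_smul]
      abel
    rw [← this]
    exact hQS

/-- If all cap sets in `F_3^d` have fewer than `k / 2` elements, then the triples with sum zero in
`F_3^d` are `k`-covering. -/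
theorem cap_covering {N k d : ℕ} (hcap : ∀ A : Finset (Fin d → ZMod 3), IsCap A → 2 * A.card < k) :
    Covering k (sumFamily N 3 ({0} : Finset (Fin d → ZMod 3))) := by
  classical
  intro K hK
  by_contra hno
  push Not at hno
  have hthree : ∀ u ∈ K, ∀ v ∈ K, ∀ w ∈ K, u ≠ v → u ≠ w → v ≠ w → u.1 + v.1 + w.1 ≠ 0 := by
    intro u hu v hv w hw huv huw hvw hz
    refine hno {u, v, w} ?_ ?_
    · rw [sumFamily, mem_filter, mem_powersetCard]
      refine ⟨⟨subset_univ _, card_eq_three.2 ⟨u, v, w, huv, huw, hvw, rfl⟩⟩, ?_⟩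
      rw [sum_insert (by simp [huv, huw]), sum_pair hvw, mem_singleton, ← hz]
      abel
    · intro x hx
      simp only [mem_insert, mem_singleton] at hx
      rcases hx with rfl | rfl | rfl <;> assumption
  have h3 : ∀ x : Fin d → ZMod 3, x + x + x = 0 := by
    intro x
    funext i
    change x i + x i + x i = 0
    generalize x i = a
    revert a
    decide
  -- the set of labels is a cap set
  have hA : IsCap (K.image Prod.fst) := by
    intro x hx y hy z hz hxyz
    by_contra hne
    rw [mem_image] at hx hy hz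
    obtain ⟨u, hu, rfl⟩ := hx
    obtain ⟨v, hv, rfl⟩ := hy
    obtain ⟨w, hw, rfl⟩ := hz
    have h1 : u ≠ v := fun h => hne (h ▸ rfl)
    have key : ∀ a b : ZMod 3, a + b + a = 0 → a = b := by decide
    have h2 : u.1 ≠ w.1 := by
      intro h
      apply hne
      funext i
      apply key
      have := congrFun hxyz i
      rw [← h] at this
      exact this
    have key2 : ∀ a b : ZMod 3, a + b + b = 0 → a = b := by decide
    have h4 : v.1 ≠ w.1 := by
      intro h
      apply hne
      funext i
      apply key2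
      have := congrFun hxyz i
      rw [← h] at this
      exact this
    exact hthree u hu v hv w hw h1 (fun h => h2 (h ▸ rfl)) (fun h => h4 (h ▸ rfl)) hxyz
  -- every label is used at most twice
  have hfib : ∀ a ∈ K.image Prod.fst, (K.filter fun v => v.1 = a).card ≤ 2 := by
    intro a _
    by_contra hc
    push Not at hc
    obtain ⟨u, hu, v, hv, w, hw, huv, huw, hvw⟩ := two_lt_card.1 hc
    rw [mem_filter] at hu hv hw
    refine hthree u hu.1 v hv.1 w hw.1 huv huw hvw ?_
    rw [hu.2, hv.2, hw.2, h3]
  have h1 := card_le_mul_card_image K 2 hfib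
  have h2 := hcap _ hA
  omega

end Pool.Agent.Q118.SumCap
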