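import Pool.Agent.Q118.SumSys

/-!
# Sum families: the bound from cubes
-/

set_option autoImplicit false

namespace Pool.Agent.Q118.SumSys

open Finset

variable {G : Type*} [AddCommGroup G] [Fintype G] [DecidableEq G]

/-- The homomorphism `(g, h) ↦ p g + ∑ y_i h_i`. -/
def cubeHom (p j : ℕ) (y : Fin j → Fin (p + 1)) : (G × (Fin j → G)) →+ G where
  toFun a := p • a.1 + ∑ i, (y i : ℕ) • a.2 i
  map_zero' := by simp
  map_add' a b := by
    simp only [Prod.fst_add, Prod.snd_add, Pi.add_apply, smul_add, sum_add_distrib]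
    abel

omit [Fintype G] [DecidableEq G] in
theorem cubeHom_surjective {p j : ℕ} (hp : p.Prime) (y : Fin j → Fin (p + 1))
    (hy : ∃ i, (y i : ℕ) ≠ 0 ∧ (y i : ℕ) ≠ p) :
    Function.Surjective (cubeHom (G := G) p j y) := by
  classical
  obtain ⟨i, h0, h1⟩ := hy
  have hlt : (y i : ℕ) < p := by
    have := (y i).is_lt
    omega
  have hc : Nat.Coprime p (y i) := Nat.coprime_of_lt_prime h0 hlt hp
  obtain ⟨u, v, huv⟩ := (Nat.isCoprime_iff_coprime (m := p) (n := (y i : ℕ))).2 hc
  intro x
  refine ⟨(u • x, Pi.single i (v • x)), ?_⟩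
  change p • (u • x) + ∑ l, (y l : ℕ) • (Pi.single i (v • x) : Fin j → G) l = x
  rw [Finset.sum_eq_single i (fun b _ hb => by simp [Pi.single_eq_of_ne hb]) (by simp)]
  rw [Pi.single_eq_same, ← natCast_zsmul (u • x) p, ← natCast_zsmul (v • x) (y i : ℕ), smul_smul,
    smul_smul, ← add_smul, mul_comm (p : ℤ) u, mul_comm ((y i : ℕ) : ℤ) v, huv, one_smul]

/-- The exponent vectors which are not constant `0` or `p` in every coordinate. -/
def proper (p j : ℕ) : Finset (Fin j → Fin (p + 1)) :=
  univ.filter fun y => ∃ i, (y i : ℕ) ≠ 0 ∧ (y i : ℕ) ≠ p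

theorem proper_card {p : ℕ} (hp : 0 < p) (j : ℕ) : (proper p j).card = (p + 1) ^ j - 2 ^ j := by
  classical
  have h1 : (univ.filter fun y : Fin j → Fin (p + 1) => ¬ ∃ i, (y i : ℕ) ≠ 0 ∧ (y i : ℕ) ≠ p) =
      Fintype.piFinset fun _ => ({0, Fin.last p} : Finset (Fin (p + 1))) := by
    ext y
    simp only [mem_filter, mem_univ, true_and, Fintype.mem_piFinset, mem_insert, mem_singleton,
      not_exists, not_and, not_not, Fin.ext_iff, Fin.val_zero, Fin.val_last]
    refine forall_congr' fun i => ?_
    tauto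
  have h2 : (univ.filter fun y : Fin j → Fin (p + 1) =>
      ¬ ∃ i, (y i : ℕ) ≠ 0 ∧ (y i : ℕ) ≠ p).card = 2 ^ j := by
    rw [h1, Fintype.card_piFinset]
    have : ({0, Fin.last p} : Finset (Fin (p + 1))).card = 2 := by
      rw [card_pair]
      intro h
      have := congrArg Fin.val h
      simp at this
      omega
    simp [this]
  have h3 := card_filter_add_card_filter_not (s := (univ : Finset (Fin j → Fin (p + 1))))
    (fun y => ∃ i, (y i : ℕ) ≠ 0 ∧ (y i : ℕ) ≠ p)
  rw [h2, card_univ, Fintype.card_fun, Fintype.card_fin, Fintype.card_fin] at h3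
  unfold proper
  omega

/-- **Cube bound.** -/
theorem cube_bound {p : ℕ} (hp : p.Prime) {N k j : ℕ} (hN : k ≤ N) (hk : k ≤ (p - 1) * 2 ^ j)
    {S : Finset G} (h : Covering k (sumFamily N p S)) :
    Fintype.card G ≤ S.card * ((p + 1) ^ j - 2 ^ j) := by
  classical
  by_contra hcon
  push Not at hcon
  obtain ⟨a, ha⟩ := exists_avoid (A := G × (Fin j → G)) (proper p j) (cubeHom (G := G) p j)
    (fun y hy => cubeHom_surjective hp y (by simpa [proper] using hy)) S
    (by rw [proper_card hp.pos]; exact hcon)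
  have hcard : Fintype.card (Fin k) ≤ Fintype.card ((Fin j → Bool) × Fin (p - 1)) := by
    simp only [Fintype.card_fin, Fintype.card_prod, Fintype.card_fun, Fintype.card_bool]
    rw [mul_comm]; exact hk
  obtain ⟨e⟩ := Function.Embedding.nonempty_of_card_le hcard
  obtain ⟨Q, hQ, hS⟩ := seq_of_covering hN h
    (fun q => a.1 + ∑ i, if (e q).1 i then a.2 i else 0)
  -- the exponent vector of `Q`
  have hle : ∀ i, (Q.filter fun q => (e q).1 i = true).card < p + 1 := fun i =>
    Nat.lt_succ_of_le ((card_filter_le _ _).trans hQ.le)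
  let y : Fin j → Fin (p + 1) := fun i => ⟨(Q.filter fun q => (e q).1 i = true).card, hle i⟩
  have hsum : ∑ q ∈ Q, (a.1 + ∑ i, if (e q).1 i then a.2 i else 0) = cubeHom p j y a := by
    change _ = p • a.1 + ∑ i, (Q.filter fun q => (e q).1 i = true).card • a.2 i
    rw [sum_add_distrib, sum_const, hQ, sum_comm]
    congr 1
    refine sum_congr rfl fun i _ => ?_
    rw [← sum_filter, sum_const]
  rw [hsum] at hS
  refine ha y ?_ hS
  rw [proper, mem_filter]
  refine ⟨mem_univ _, ?_⟩
  by_contra hno
  push Not at hno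
  have hQne : Q.Nonempty := by
    rw [← card_pos, hQ]; exact hp.pos
  obtain ⟨q0, hq0⟩ := hQne
  have hsame : ∀ q ∈ Q, (e q).1 = (e q0).1 := by
    intro q hq
    funext i
    by_cases hi : (y i : ℕ) = 0
    · have hem : (Q.filter fun q => (e q).1 i = true) = ∅ := card_eq_zero.1 hi
      have h1 : ∀ q ∈ Q, (e q).1 i = false := by
        intro q hq
        by_contra hc
        have : q ∈ (Q.filter fun q => (e q).1 i = true) := mem_filter.2 ⟨hq, by simpa using hc⟩
        rw [hem] at this
        simp at this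
      rw [h1 q hq, h1 q0 hq0]
    · have hfull : (Q.filter fun q => (e q).1 i = true) = Q :=
        eq_of_subset_of_card_le (filter_subset _ _) (by
          rw [hQ]; exact (hno i hi).ge)
      have h1 : ∀ q ∈ Q, (e q).1 i = true := by
        intro q hq
        rw [← hfull, mem_filter] at hq
        exact hq.2
      rw [h1 q hq, h1 q0 hq0]
  have hinj : Set.InjOn (fun q => (e q).2) (Q : Set (Fin k)) := by
    intro q1 h1 q2 h2 h12
    apply e.injective
    exact Prod.ext ((hsame q1 h1).trans (hsame q2 h2).symm) h12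
  have := card_le_card_of_injOn (t := univ) (fun q => (e q).2) (fun q _ => mem_univ _) hinj
  rw [hQ, card_univ, Fintype.card_fin] at this
  have := hp.pos
  omega

end Pool.Agent.Q118.SumSys
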