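import Pool.Agent.Q118.SumReduce
import Pool.Agent.Q118.SumCube

/-!
# Sum families: number of members and corollaries
-/

set_option autoImplicit false

namespace Pool.Agent.Q118.SumSys

open Finset

variable {G : Type*} [AddCommGroup G] [Fintype G] [DecidableEq G]

/-- The number of members of a sum family. -/
theorem members (N t : ℕ) (ht : 1 ≤ t) (S : Finset G) :
    (N * Fintype.card G).choose (t - 1) * (S.card * N - (t - 1)) ≤
      t * (sumFamily N t S).card := by
  classical
  have h1 := sum_card_bipartiteAbove_eq_sum_card_bipartiteBelow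
    (s := powersetCard (t - 1) (univ : Finset (G × Fin N))) (t := sumFamily N t S)
    (fun A T => A ⊆ T)
  have hlow : ∀ A ∈ powersetCard (t - 1) (univ : Finset (G × Fin N)),
      S.card * N - (t - 1) ≤ ((sumFamily N t S).bipartiteAbove (fun A T => A ⊆ T) A).card := by
    intro A hA
    rw [mem_powersetCard] at hA
    set σ := ∑ v ∈ A, v.1 with hσ
    set B : Finset (G × Fin N) := univ.filter fun v => v.1 + σ ∈ S with hB
    have hBcard : B.card = S.card * N := by
      have : B = (univ.filter fun g : G => g + σ ∈ S) ×ˢ (univ : Finset (Fin N)) := by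
        ext v
        simp [hB, mem_product]
      rw [this, card_product, card_univ, Fintype.card_fin]
      congr 1
      refine card_nbij' (fun g => g + σ) (fun s => s - σ) ?_ ?_ ?_ ?_
      · intro g hg; simpa using hg
      · intro s hs; simpa using hs
      · intro g _; simp
      · intro s _; simp
    calc S.card * N - (t - 1) = B.card - A.card := by rw [hBcard, hA.2]
      _ ≤ (B \ A).card := le_card_sdiff _ _
      _ ≤ _ := by
        refine card_le_card_of_injOn (fun v => insert v A) ?_ ?_
        · intro v hv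
          rw [mem_coe, mem_sdiff] at hv
          have hvB := hv.1
          rw [hB, mem_filter] at hvB
          rw [mem_coe, mem_bipartiteAbove]
          refine ⟨?_, subset_insert _ _⟩
          rw [sumFamily, mem_filter, mem_powersetCard]
          refine ⟨⟨subset_univ _, ?_⟩, ?_⟩
          · rw [card_insert_of_notMem hv.2, hA.2]; omega
          · rw [sum_insert hv.2]; exact hvB.2
        · intro v hv w hw hvw
          rw [mem_coe, mem_sdiff] at hv hw
          have h2 : v ∈ insert w A := by
            have h3 : v ∈ insert v A := mem_insert_self _ _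
            have h4 : insert v A = insert w A := hvw
            rwa [h4] at h3
          rcases mem_insert.1 h2 with h | h
          · exact h
          · exact absurd h hv.2
  have hup : ∀ T ∈ sumFamily N t S, ((powersetCard (t - 1)
      (univ : Finset (G × Fin N))).bipartiteBelow (fun A T => A ⊆ T) T).card = t := by
    intro T hT
    rw [sumFamily, mem_filter, mem_powersetCard] at hT
    have : (powersetCard (t - 1) (univ : Finset (G × Fin N))).bipartiteBelow
        (fun A T => A ⊆ T) T = powersetCard (t - 1) T := by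
      ext A
      simp only [mem_bipartiteBelow, mem_powersetCard, subset_univ, true_and]
      tauto
    rw [this, card_powersetCard, hT.1.2]
    obtain ⟨s, rfl⟩ : ∃ s, t = s + 1 := ⟨t - 1, by omega⟩
    simp
  rw [sum_congr rfl hup, sum_const, smul_eq_mul] at h1
  calc (N * Fintype.card G).choose (t - 1) * (S.card * N - (t - 1))
      = ∑ _A ∈ powersetCard (t - 1) (univ : Finset (G × Fin N)), (S.card * N - (t - 1)) := by
        rw [sum_const, card_powersetCard, card_univ, Fintype.card_prod, Fintype.card_fin,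
          smul_eq_mul, mul_comm N]
    _ ≤ _ := sum_le_sum hlow
    _ = (sumFamily N t S).card * t := h1
    _ = t * (sumFamily N t S).card := mul_comm _ _

/-- The cube bound for every `k`, with real exponents. -/
theorem cube_bound_real {p : ℕ} (hp : p.Prime) {N k : ℕ} (hN : k ≤ N)
    {S : Finset G} (h : Covering k (sumFamily N p S)) :
    (Fintype.card G : ℝ) ≤
      S.card * ((p + 1) * ((k : ℝ) / (p - 1)) ^ Real.logb 2 (p + 1)) := by
  classical
  have hp2 := hp.two_le
  have hGpos : 0 < Fintype.card G := Fintype.card_pos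
  have hex : ∃ j, k ≤ (p - 1) * 2 ^ j := by
    refine ⟨k, ?_⟩
    calc k ≤ 2 ^ k := Nat.lt_two_pow_self.le
      _ ≤ (p - 1) * 2 ^ k := Nat.le_mul_of_pos_left _ (by omega)
  obtain ⟨j, hj, hmin⟩ : ∃ j, k ≤ (p - 1) * 2 ^ j ∧ ∀ l < j, ¬ k ≤ (p - 1) * 2 ^ l :=
    ⟨Nat.find hex, Nat.find_spec hex, fun l hl => Nat.find_min hex hl⟩
  have hb := cube_bound hp hN hj h
  rcases j with _ | j
  · simp at hb
  have hlt : (p - 1) * 2 ^ j < k := not_le.1 (hmin j (by omega))
  have hp1 : (0 : ℝ) < (p : ℝ) - 1 := by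
    have : (2 : ℝ) ≤ p := by exact_mod_cast hp2
    linarith
  have hcast : ((p - 1 : ℕ) : ℝ) = (p : ℝ) - 1 := by
    rw [Nat.cast_sub (by omega)]; simp
  have hltR : (2 : ℝ) ^ j ≤ (k : ℝ) / (p - 1) := by
    rw [le_div_iff₀ hp1, mul_comm, ← hcast]
    exact_mod_cast hlt.le
  have hlog : (0 : ℝ) ≤ Real.logb 2 (p + 1) := by
    apply Real.logb_nonneg (by norm_num)
    have : (0 : ℝ) ≤ p := Nat.cast_nonneg _
    linarith
  have hpow : ((p : ℝ) + 1) ^ j ≤ ((k : ℝ) / (p - 1)) ^ Real.logb 2 (p + 1) := by
    calc ((p : ℝ) + 1) ^ j = ((2 : ℝ) ^ j) ^ Real.logb 2 (p + 1) := by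
          have hpp : (0 : ℝ) < (p : ℝ) + 1 := by positivity
          rw [← Real.rpow_natCast 2 j, ← Real.rpow_mul (by norm_num), mul_comm,
            Real.rpow_mul (by norm_num), Real.rpow_logb (by norm_num) (by norm_num) hpp,
            Real.rpow_natCast]
      _ ≤ _ := Real.rpow_le_rpow (by positivity) hltR hlog
  have hbR : (Fintype.card G : ℝ) ≤ S.card * ((p : ℝ) + 1) ^ (j + 1) := by
    have h1 : Fintype.card G ≤ S.card * (p + 1) ^ (j + 1) :=
      hb.trans (Nat.mul_le_mul_left _ (Nat.sub_le _ _))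
    exact_mod_cast h1
  refine hbR.trans ?_
  rw [pow_succ]
  have h2 : ((p : ℝ) + 1) ^ j * (p + 1) ≤
      ((p : ℝ) + 1) * ((k : ℝ) / (p - 1)) ^ Real.logb 2 (p + 1) := by
    rw [mul_comm]
    exact mul_le_mul_of_nonneg_left hpow (by positivity)
  exact mul_le_mul_of_nonneg_left h2 (Nat.cast_nonneg _)

/-- Three-element sets. -/
theorem three_bound {N k : ℕ} (hN : k ≤ N) (hk : 4 ≤ k) {S : Finset G}
    (h : Covering k (sumFamily N 3 S)) :
    8 * Fintype.card G ≤ S.card * ((k - 2) * (k + 4)) ∧
      4 * Fintype.card G < S.card * (k - 1) ^ 2 := by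
  have hGpos : 0 < Fintype.card G := Fintype.card_pos
  obtain ⟨m, i, hi1, hi3, hkm⟩ : ∃ m i, 1 ≤ i ∧ i < 3 ∧ k = (3 - 1) * m + i :=
    ⟨(k - 1) / 2, (k - 1) % 2 + 1, by omega, by omega, by omega⟩
  have hb := greedy_bound Nat.prime_three hN hi1 hi3 hkm h
  have hmc : ∀ m : ℕ, 2 * m.multichoose 2 = m * (m + 1) := by
    intro m
    rw [Nat.multichoose_eq, show m + 2 - 1 = m + 1 by omega, Nat.choose_two_right]
    rw [show (m + 1) * (m + 1 - 1) = m * (m + 1) by rw [Nat.add_sub_cancel]; ring]
    exact Nat.mul_div_cancel' (Nat.even_mul_succ_self m).two_dvd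
  have hS : 0 < S.card := by
    rcases Nat.eq_zero_or_pos S.card with h0 | h0
    · rw [h0] at hb; omega
    · exact h0
  have hc := hmc m
  obtain rfl | rfl : i = 1 ∨ i = 2 := by omega
  · have hcost : 2 * cost 3 m 1 = m * (m + 1) := by
      rw [← hc]; simp [cost]
    have hm : 2 ≤ m := by omega
    obtain ⟨l, rfl⟩ : ∃ l, m = l + 2 := ⟨m - 2, by omega⟩
    subst hkm
    have e1 : (3 - 1) * (l + 2) + 1 - 2 = 2 * l + 3 := by omega
    have e2 : (3 - 1) * (l + 2) + 1 + 4 = 2 * l + 9 := by omega
    have e3 : (3 - 1) * (l + 2) + 1 - 1 = 2 * l + 4 := by omega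
    rw [e1, e2, e3]
    have h4 : 4 * Fintype.card G ≤ S.card * (2 * ((l + 2) * (l + 2 + 1))) := by
      rw [← hcost]
      calc 4 * Fintype.card G ≤ 4 * (S.card * cost 3 (l + 2) 1) := Nat.mul_le_mul_left 4 hb
        _ = _ := by ring
    constructor
    · nlinarith [Nat.mul_le_mul_left 2 hb]
    · refine h4.trans_lt (Nat.mul_lt_mul_of_pos_left ?_ hS)
      nlinarith
  · have hcost : 2 * cost 3 m 2 = m * (m + 3) := by
      have : cost 3 m 2 = m.multichoose 2 + m.multichoose 1 := by
        unfold cost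
        rw [sum_Icc_succ_top (by omega)]
        simp
      rw [this, Nat.multichoose_one_right]
      nlinarith
    have hm : 1 ≤ m := by omega
    obtain ⟨l, rfl⟩ : ∃ l, m = l + 1 := ⟨m - 1, by omega⟩
    subst hkm
    have e1 : (3 - 1) * (l + 1) + 2 - 2 = 2 * l + 2 := by omega
    have e2 : (3 - 1) * (l + 1) + 2 + 4 = 2 * l + 8 := by omega
    have e3 : (3 - 1) * (l + 1) + 2 - 1 = 2 * l + 3 := by omega
    rw [e1, e2, e3]
    have h4 : 4 * Fintype.card G ≤ S.card * (2 * ((l + 1) * (l + 1 + 3))) := by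
      rw [← hcost]
      calc 4 * Fintype.card G ≤ 4 * (S.card * cost 3 (l + 1) 2) := Nat.mul_le_mul_left 4 hb
        _ = _ := by ring
    constructor
    · nlinarith [Nat.mul_le_mul_left 2 hb]
    · refine h4.trans_lt (Nat.mul_lt_mul_of_pos_left ?_ hS)
      nlinarith

end Pool.Agent.Q118.SumSys
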