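import Pool.Agent.Q118.SumCap
import Pool.Agent.Q118.SumCount
import Pool.Agent.Results.MP_b30443_co.CapSetRecord

/-!
# Triples given by sums: the exponent from large cap sets, and the number of edges
-/

set_option autoImplicit false

namespace Pool.Agent.Q118.SumCap

open Finset Pool.Agent.Q118.SumSys

theorem isCap_of_progFree {n : ℕ} {A : Finset (Fin n → ZMod 3)}
    (hA : Pool.Agent.Results.MP_b30443_co.CapSetRecord.ProgFree A) : IsCap A := by
  intro x hx y hy z hz hxyz
  have key : ∀ a b c : ZMod 3, a + b + c = 0 → a + 2 • (b - a) = c := by decide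
  have h1 := hA x (y - x) hx (by rw [add_sub_cancel]; exact hy) (by
    have : x + 2 • (y - x) = z := by
      funext i
      exact key _ _ _ (congrFun hxyz i)
    rw [this]; exact hz)
  exact (sub_eq_zero.1 h1).symm

theorem num1 : (3 : ℕ) ^ (10000 : ℕ) * 100000 ^ 13769 < 222086 ^ (13769 : ℕ) := by
  decide +kernel

theorem three_lt : (3 : ℝ) < (2.22086 : ℝ) ^ (1.3769 : ℝ) := by
  have h1 : ((3 : ℝ) ^ (10000 : ℕ)) * 100000 ^ (13769 : ℕ) < 222086 ^ (13769 : ℕ) := by
    exact_mod_cast num1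
  have h2 : ((3 : ℝ) ^ (10000 : ℕ)) < ((2.22086 : ℝ)) ^ (13769 : ℕ) := by
    have e : (2.22086 : ℝ) = 222086 / 100000 := by norm_num
    rw [e, div_pow, lt_div_iff₀ (by positivity)]
    exact h1
  have h3 : ((2.22086 : ℝ) ^ (1.3769 : ℝ)) ^ (10000 : ℕ) = (2.22086 : ℝ) ^ (13769 : ℕ) := by
    rw [← Real.rpow_natCast, ← Real.rpow_mul (by norm_num), ← Real.rpow_natCast]
    norm_num
  rw [← h3] at h2
  exact lt_of_pow_lt_pow_left₀ 10000 (by positivity) h2

/-- For large `k` there is a cap set of size at least `k / 2` in dimension `d` with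
`3 ^ d ≤ k ^ 1.377`. -/
theorem exists_cap : ∃ k0 : ℕ, ∀ k : ℕ, k0 ≤ k → ∃ (d : ℕ) (A : Finset (Fin d → ZMod 3)),
    IsCap A ∧ k ≤ 2 * A.card ∧ (3 : ℝ) ^ d ≤ (k : ℝ) ^ (1.377 : ℝ) := by
  obtain ⟨n0, hn0⟩ := Pool.Agent.Results.MP_b30443_co.CapSetRecord.result
  have hc1 : (1 : ℝ) < 2.22086 := by norm_num
  have hc0 : (0 : ℝ) < 2.22086 := by norm_num
  -- eventually `k ^ 0.0001 ≥ 3` and `k ≥ 2 * 2.22086 ^ n0`
  have ht : Filter.Tendsto (fun x : ℝ => x ^ (0.0001 : ℝ)) Filter.atTop Filter.atTop :=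
    tendsto_rpow_atTop (by norm_num)
  have h1 := (ht.comp tendsto_natCast_atTop_atTop).eventually_ge_atTop (3 : ℝ)
  have h2 := (tendsto_natCast_atTop_atTop (R := ℝ)).eventually_ge_atTop
    (2 * (2.22086 : ℝ) ^ n0 + 2)
  obtain ⟨k0, hk0⟩ := Filter.eventually_atTop.1 (h1.and h2)
  refine ⟨k0, fun k hk => ?_⟩
  obtain ⟨hk1, hk2⟩ := hk0 k hk
  simp only [Function.comp] at hk1
  have hpow0 : (1 : ℝ) ≤ (2.22086 : ℝ) ^ n0 := one_le_pow₀ hc1.le
  have hkpos : (0 : ℝ) < k := by linarith
  set x : ℝ := Real.logb 2.22086 ((k : ℝ) / 2) with hx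
  have hxpos : 0 ≤ x := Real.logb_nonneg hc1 (by linarith)
  have hcx : (2.22086 : ℝ) ^ x = (k : ℝ) / 2 :=
    Real.rpow_logb hc0 (by norm_num) (by positivity)
  set d := ⌈x⌉₊ with hd
  have hdx : x ≤ d := Nat.le_ceil x
  have hdx1 : (d : ℝ) < x + 1 := Nat.ceil_lt_add_one hxpos
  have hn0d : n0 ≤ d := by
    have : (n0 : ℝ) ≤ x := by
      rw [hx, Real.le_logb_iff_rpow_le hc1 (by positivity), Real.rpow_natCast]
      linarith
    exact_mod_cast this.trans hdx
  obtain ⟨A, hA, hAc⟩ := hn0 d hn0d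
  refine ⟨d, A, isCap_of_progFree hA, ?_, ?_⟩
  · have h3 : (k : ℝ) / 2 ≤ A.card := by
      calc (k : ℝ) / 2 = (2.22086 : ℝ) ^ x := hcx.symm
        _ ≤ (2.22086 : ℝ) ^ (d : ℝ) := Real.rpow_le_rpow_of_exponent_le hc1.le hdx
        _ = (2.22086 : ℝ) ^ d := Real.rpow_natCast _ _
        _ ≤ A.card := hAc
    have h4 : (k : ℝ) ≤ 2 * A.card := by linarith
    exact_mod_cast h4
  · calc (3 : ℝ) ^ d = (3 : ℝ) ^ (d : ℝ) := (Real.rpow_natCast _ _).symm
      _ ≤ (3 : ℝ) ^ (x + 1) := Real.rpow_le_rpow_of_exponent_le (by norm_num) hdx1.le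
      _ = 3 * (3 : ℝ) ^ x := by
        rw [Real.rpow_add (by norm_num), Real.rpow_one, mul_comm]
      _ ≤ 3 * ((2.22086 : ℝ) ^ (1.3769 : ℝ)) ^ x := by
        refine mul_le_mul_of_nonneg_left ?_ (by norm_num)
        exact Real.rpow_le_rpow (by norm_num) three_lt.le hxpos
      _ = 3 * ((k : ℝ) / 2) ^ (1.3769 : ℝ) := by
        rw [← Real.rpow_mul hc0.le, mul_comm (1.3769 : ℝ) x, Real.rpow_mul hc0.le, hcx]
      _ ≤ 3 * (k : ℝ) ^ (1.3769 : ℝ) := by
        refine mul_le_mul_of_nonneg_left ?_ (by norm_num)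
        exact Real.rpow_le_rpow (by positivity) (by linarith) (by norm_num)
      _ ≤ (k : ℝ) ^ (0.0001 : ℝ) * (k : ℝ) ^ (1.3769 : ℝ) := by
        refine mul_le_mul_of_nonneg_right hk1 (by positivity)
      _ = (k : ℝ) ^ (1.377 : ℝ) := by
        rw [← Real.rpow_add hkpos]; norm_num

variable {G : Type*} [AddCommGroup G] [Fintype G] [DecidableEq G]

/-- The number of edges from above. -/
theorem edges_le (N : ℕ) (T : Finset G) :
    3 * (sumGraph N T).card ≤ (N * Fintype.card G).choose 2 * (T.card * N) := by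
  classical
  have h1 := sum_card_bipartiteAbove_eq_sum_card_bipartiteBelow
    (s := powersetCard 2 (univ : Finset (G × Fin N))) (t := sumGraph N T)
    (fun A T => A ⊆ T)
  have hup : ∀ A ∈ powersetCard 2 (univ : Finset (G × Fin N)),
      ((sumGraph N T).bipartiteAbove (fun A T => A ⊆ T) A).card ≤ T.card * N := by
    intro A hA
    rw [mem_powersetCard] at hA
    set σ := ∑ v ∈ A, v.1 with hσ
    set B : Finset (G × Fin N) := univ.filter fun v => v.1 + σ ∈ T with hB
    have hBcard : B.card = T.card * N := by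
      have : B = (univ.filter fun g : G => g + σ ∈ T) ×ˢ (univ : Finset (Fin N)) := by
        ext v
        simp [hB, mem_product]
      rw [this, card_product, card_univ, Fintype.card_fin]
      congr 1
      refine card_nbij' (fun g => g + σ) (fun s => s - σ) ?_ ?_ ?_ ?_
      · intro g hg; simpa using hg
      · intro s hs; simpa using hs
      · intro g _; simp
      · intro s _; simp
    rw [← hBcard]
    have hsub : (sumGraph N T).bipartiteAbove (fun A T => A ⊆ T) A ⊆
        B.image fun v => insert v A := by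
      intro e he
      rw [mem_bipartiteAbove, sumGraph, mem_filter, mem_powersetCard] at he
      obtain ⟨⟨⟨-, he3⟩, heT⟩, hAe⟩ := he
      have hd : (e \ A).card = 1 := by
        rw [card_sdiff_of_subset hAe, he3, hA.2]
      obtain ⟨v, hv⟩ := card_eq_one.1 hd
      have hvA : v ∉ A := by
        have : v ∈ e \ A := by rw [hv]; exact mem_singleton_self v
        exact (mem_sdiff.1 this).2
      have he : insert v A = e := by
        rw [insert_eq, ← hv]
        exact sdiff_union_of_subset hAe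
      rw [mem_image]
      refine ⟨v, ?_, he⟩
      rw [hB, mem_filter]
      refine ⟨mem_univ _, ?_⟩
      rw [← he, sum_insert hvA] at heT
      exact heT
    exact (card_le_card hsub).trans card_image_le
  have hlow : ∀ e ∈ sumGraph N T, ((powersetCard 2
      (univ : Finset (G × Fin N))).bipartiteBelow (fun A T => A ⊆ T) e).card = 3 := by
    intro e he
    rw [sumGraph, mem_filter, mem_powersetCard] at he
    have : (powersetCard 2 (univ : Finset (G × Fin N))).bipartiteBelow
        (fun A T => A ⊆ T) e = powersetCard 2 e := by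
      ext A
      simp only [mem_bipartiteBelow, mem_powersetCard, subset_univ, true_and]
      tauto
    rw [this, card_powersetCard, he.1.2]
    rfl
  rw [sum_congr rfl hlow, sum_const, smul_eq_mul] at h1
  calc 3 * (sumGraph N T).card = (sumGraph N T).card * 3 := mul_comm _ _
    _ = _ := h1.symm
    _ ≤ ∑ _A ∈ powersetCard 2 (univ : Finset (G × Fin N)), (T.card * N) := sum_le_sum hup
    _ = _ := by
        rw [sum_const, card_powersetCard, card_univ, Fintype.card_prod, Fintype.card_fin,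
          smul_eq_mul, mul_comm N]

theorem edges_ge (N : ℕ) (T : Finset G) :
    (N * Fintype.card G).choose 2 * (T.card * N - 2) ≤ 3 * (sumGraph N T).card :=
  members N 3 (by norm_num) T

end Pool.Agent.Q118.SumCap
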