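import Pool.Agent.Q118.SumSys

/-!
# Sum families: the bound from greedily chosen sequences
-/

set_option autoImplicit false

namespace Pool.Agent.Q118.SumSys

open Finset

/-- The number of new sums when an element of multiplicity `i` is added to `m` elements. -/
def cost (p m i : ℕ) : ℕ := ∑ j ∈ Icc 1 i, m.multichoose (p - j)

section Greedy

variable {H : Type*} [AddCommGroup H] [Fintype H] [DecidableEq H]

/-- `x` avoids `S`: no `p` terms among `x 0, …, x (m - 1)`, each used at most `p - 1` times, have
their sum in `S`. -/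
def Avoids (p m : ℕ) (S : Finset H) (x : ℕ → H) : Prop :=
  ∀ M : Multiset ℕ, Multiset.card M = p → (∀ a ∈ M, a < m) → (∀ a, M.count a ≤ p - 1) →
    (M.map x).sum ∉ S

theorem step {p : ℕ} (hinj : ∀ j, 0 < j → j < p → Function.Injective fun x : H => j • x)
    (S : Finset H) (m i : ℕ) (hip : i < p) (x : ℕ → H) (hx : Avoids p m S x)
    (h : S.card * cost p m i < Fintype.card H) :
    ∃ x' : ℕ → H, ∀ M : Multiset ℕ, Multiset.card M = p → (∀ a ∈ M, a < m + 1) →
      (∀ a, M.count a ≤ p - 1) → M.count m ≤ i → (M.map x').sum ∉ S := by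
  classical
  let bad : Finset H := (Icc 1 i).biUnion fun j =>
    (univ : Finset (Sym (Fin m) (p - j))).biUnion fun μ =>
      univ.filter fun c => j • c + ((μ : Multiset (Fin m)).map fun a : Fin m => x (a : ℕ)).sum ∈ S
  have hbad : bad.card < Fintype.card H := by
    refine lt_of_le_of_lt ?_ h
    unfold cost
    rw [Finset.mul_sum]
    refine card_biUnion_le.trans (sum_le_sum fun j hj => ?_)
    rw [mem_Icc] at hj
    refine card_biUnion_le.trans ?_
    calc ∑ μ : Sym (Fin m) (p - j),
          (univ.filter fun c => j • c + ((μ : Multiset (Fin m)).map fun a : Fin m => x (a : ℕ)).sum ∈ S).card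
        ≤ ∑ _μ : Sym (Fin m) (p - j), S.card := by
          refine sum_le_sum fun μ _ => ?_
          refine card_le_card_of_injOn
            (fun c => j • c + ((μ : Multiset (Fin m)).map fun a : Fin m => x (a : ℕ)).sum) ?_ ?_
          · intro c hc
            simpa using hc
          · intro c _ c' _ hcc
            exact hinj j (by omega) (by omega) (add_right_cancel hcc)
      _ = S.card * m.multichoose (p - j) := by
          rw [sum_const, card_univ, Sym.card_sym_eq_multichoose, Fintype.card_fin, smul_eq_mul,
            mul_comm]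
  obtain ⟨c, hc⟩ : ∃ c, c ∉ bad := by
    by_contra hcon
    push Not at hcon
    have : (univ : Finset H) ⊆ bad := fun c _ => hcon c
    have := card_le_card this
    rw [card_univ] at this
    omega
  refine ⟨Function.update x m c, fun M hM hMm hcount hci hS => ?_⟩
  -- split `M`
  have hsplit := Multiset.filter_add_not (fun a => a = m) M
  rw [Multiset.filter_eq'] at hsplit
  set j := M.count m with hj
  set M' := M.filter (fun a => ¬ a = m) with hM'
  have hM'lt : ∀ a ∈ M', a < m := by
    intro a ha
    rw [hM', Multiset.mem_filter] at ha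
    have := hMm a ha.1
    omega
  have hmap : M'.map (Function.update x m c) = M'.map x := by
    refine Multiset.map_congr rfl fun a ha => ?_
    exact Function.update_of_ne (hM'lt a ha).ne _ _
  have hcardM' : Multiset.card M' = p - j := by
    have := congrArg Multiset.card hsplit
    rw [Multiset.card_add, Multiset.card_replicate, hM] at this
    omega
  have hsum : (M.map (Function.update x m c)).sum = j • c + (M'.map x).sum := by
    rw [← hsplit, Multiset.map_add, Multiset.sum_add, hmap, Multiset.map_replicate,
      Multiset.sum_replicate, Function.update_self]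
  rw [hsum] at hS
  rcases Nat.eq_zero_or_pos j with h0 | h0
  · have hMM' : M' = M := by
      rw [h0] at hsplit
      simpa using hsplit
    rw [h0, zero_smul, zero_add, hMM'] at hS
    exact hx M hM (by rw [← hMM']; exact hM'lt) hcount hS
  · apply hc
    obtain ⟨μ, hμ⟩ : ∃ μ : Multiset (Fin m), μ.map (Fin.val) = M' := by
      lift M' to Multiset (Fin m) using hM'lt with μ hμ
      exact ⟨μ, rfl⟩
    refine mem_biUnion.2 ⟨j, mem_Icc.2 ⟨h0, hci⟩, mem_biUnion.2
      ⟨⟨μ, ?_⟩, mem_univ _, mem_filter.2 ⟨mem_univ _, ?_⟩⟩⟩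
    · rw [← hcardM', ← hμ, Multiset.card_map]
    · have : (M'.map x) = μ.map fun a : Fin m => x (a : ℕ) := by
        rw [← hμ, Multiset.map_map]
        rfl
      rw [this] at hS
      exact hS

theorem cost_prev {p : ℕ} (hp : 2 ≤ p) (m i : ℕ) (hi : 1 ≤ i) :
    cost p m (p - 1) ≤ cost p (m + 1) i := by
  -- `cost p m (p - 1) + 1 = multichoose (m + 1) (p - 1)`
  have key : ∀ q, ∑ j ∈ Icc 1 q, m.multichoose j + 1 = (m + 1).multichoose q := by
    intro q
    induction q with
    | zero => simp
    | succ q ih =>
      rw [sum_Icc_succ_top (by omega), Nat.multichoose_succ_succ, ← ih]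
      ring
  have h1 : cost p m (p - 1) = ∑ j ∈ Icc 1 (p - 1), m.multichoose j := by
    unfold cost
    refine sum_nbij' (fun j => p - j) (fun j => p - j) ?_ ?_ ?_ ?_ ?_
    · intro j hj; rw [mem_Icc] at hj ⊢; omega
    · intro j hj; rw [mem_Icc] at hj ⊢; omega
    · intro j hj; rw [mem_Icc] at hj; omega
    · intro j hj; rw [mem_Icc] at hj; omega
    · intro j hj; rfl
  have h2 : (m + 1).multichoose (p - 1) ≤ cost p (m + 1) i := by
    unfold cost
    exact single_le_sum (f := fun j => (m + 1).multichoose (p - j)) (fun _ _ => Nat.zero_le _)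
      (mem_Icc.2 ⟨le_refl 1, hi⟩)
  have := key (p - 1)
  omega

theorem exists_avoids {p : ℕ} (hp : 2 ≤ p)
    (hinj : ∀ j, 0 < j → j < p → Function.Injective fun x : H => j • x)
    (S : Finset H) (m : ℕ) : ∀ i, 1 ≤ i → S.card * cost p m i < Fintype.card H →
    ∃ x : ℕ → H, Avoids p m S x := by
  induction m with
  | zero =>
    intro i _ _
    refine ⟨fun _ => 0, fun M hM hlt _ => ?_⟩
    exfalso
    have : M = 0 := Multiset.eq_zero_of_forall_notMem fun a ha => by
      have := hlt a ha
      omega
    rw [this] at hM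
    simp at hM
    omega
  | succ m ih =>
    intro i hi h
    have h1 : S.card * cost p m (p - 1) < Fintype.card H :=
      lt_of_le_of_lt (Nat.mul_le_mul_left _ (cost_prev hp m i hi)) h
    obtain ⟨x, hx⟩ := ih (p - 1) (by omega) h1
    obtain ⟨x', hx'⟩ := step hinj S m (p - 1) (by omega) x hx h1
    exact ⟨x', fun M hM hlt hc => hx' M hM hlt hc (hc m)⟩

/-- The greedy sequence: `m` elements of multiplicity `p - 1` and one of multiplicity `i`. -/
theorem greedy {p : ℕ} (hp : 2 ≤ p)
    (hinj : ∀ j, 0 < j → j < p → Function.Injective fun x : H => j • x)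
    (S : Finset H) (m i : ℕ) (hi : 1 ≤ i) (hip : i < p)
    (h : S.card * cost p m i < Fintype.card H) :
    ∃ x : ℕ → H, ∀ M : Multiset ℕ, Multiset.card M = p → (∀ a ∈ M, a < m + 1) →
      (∀ a, M.count a ≤ p - 1) → M.count m ≤ i → (M.map x).sum ∉ S := by
  obtain ⟨x, hx⟩ := exists_avoids hp hinj S m i hi h
  exact step hinj S m i hip x hx h

end Greedy

end Pool.Agent.Q118.SumSys
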