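import Pool.Agent.Q118.SumSys

/-!
# Sums in vector spaces over `F_p`: the bound from BCH codes
-/

set_option autoImplicit false

namespace Pool.Agent.Q118.SumLin

open Finset Pool.Agent.Q118.SumSys

/-- Evaluation at a nonzero vector is onto. -/
theorem eval_surjective {p : ℕ} [Fact p.Prime] {W V : Type*} [AddCommGroup W] [Module (ZMod p) W]
    [AddCommGroup V] [Module (ZMod p) V] (w : W) (hw : w ≠ 0) (v : V) :
    ∃ φ : W →ₗ[ZMod p] V, φ w = v := by
  obtain ⟨f, hf⟩ := Module.Projective.exists_dual_ne_zero (ZMod p) hw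
  refine ⟨f.smulRight ((f w)⁻¹ • v), ?_⟩
  rw [LinearMap.smulRight_apply, smul_smul, mul_inv_cancel₀ hf, one_smul]

/-- If some sequence of `k` elements of a finite vector space `W` over `F_p` has no `r` terms with
sum zero, then a `k`-covering sum family over a vector space `V` over `F_p` is dense. -/
theorem lin_bound {p : ℕ} [Fact p.Prime] {W V : Type*} [AddCommGroup W] [Module (ZMod p) W]
    [Fintype W] [AddCommGroup V] [Module (ZMod p) V] [Fintype V] [DecidableEq V]
    {N k r : ℕ} (hN : k ≤ N) {S : Finset V} (h : Covering k (sumFamily N r S))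
    (L : Fin k → W) (hL : ∀ Q : Finset (Fin k), Q.card = r → ∑ q ∈ Q, L q ≠ 0) :
    Fintype.card V ≤ S.card * (Fintype.card W - 1) := by
  classical
  by_contra hcon
  push Not at hcon
  have : Finite (W →ₗ[ZMod p] V) :=
    Finite.of_injective (fun φ : W →ₗ[ZMod p] V => (φ : W → V)) DFunLike.coe_injective
  have : Fintype (W →ₗ[ZMod p] V) := Fintype.ofFinite _
  let ev : W → (W →ₗ[ZMod p] V) →+ V := fun w =>
    { toFun := fun φ => φ w
      map_zero' := rfl
      map_add' := fun _ _ => rfl }
  obtain ⟨φ, hφ⟩ := exists_avoid (A := W →ₗ[ZMod p] V) (B := V) (univ.erase (0 : W)) ev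
    (fun w hw v => eval_surjective w (by simpa using hw) v) S
    (by rw [card_erase_of_mem (mem_univ _), card_univ]; exact hcon)
  obtain ⟨Q, hQ, hS⟩ := seq_of_covering hN h (fun q => φ (L q))
  rw [← map_sum] at hS
  exact hφ (∑ q ∈ Q, L q) (mem_erase.2 ⟨hL Q hQ, mem_univ _⟩) hS

/-- The exponents of the BCH code: `1 ≤ i ≤ r`, `p ∤ i`. -/
def expo (p r : ℕ) : Finset ℕ := (Icc 1 r).filter fun i => ¬ p ∣ i

theorem expo_card (p r : ℕ) : (expo p r).card = r - r / p := by
  have h1 := card_filter_add_card_filter_not (s := Icc 1 r) (fun i => p ∣ i)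
  have h2 : ((Icc 1 r).filter fun i => p ∣ i).card = r / p := by
    have : (Icc 1 r).filter (fun i => p ∣ i) = (Ioc 0 r).filter fun i => p ∣ i := by
      ext i; simp [mem_Icc, mem_Ioc]; omega
    rw [this, Nat.Ioc_filter_dvd_card_eq_div]
  rw [h2, Nat.card_Icc] at h1
  unfold expo
  omega

/-- No `r` terms of the BCH sequence (each column taken `p - 1` times) have sum zero. -/
theorem bch {p r : ℕ} [Fact p.Prime] {F : Type*} [Field F] [CharP F p] [DecidableEq F]
    (hr : p ≤ r) {k : ℕ} (e : Fin k → F × Fin (p - 1)) (he : Function.Injective e)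
    (Q : Finset (Fin k)) (hQ : Q.card = r)
    (hsum : ∀ i ∈ expo p r, ∑ q ∈ Q, (e q).1 ^ i = 0) : False := by
  classical
  have hp := (Fact.out : p.Prime)
  -- all power sums vanish
  have hall : ∀ i, 1 ≤ i → i ≤ r → ∑ q ∈ Q, (e q).1 ^ i = 0 := by
    intro i
    induction i using Nat.strong_induction_on with
    | _ i ih =>
      intro hi1 hir
      by_cases hd : p ∣ i
      · obtain ⟨j, rfl⟩ := hd
        have hj1 : 1 ≤ j := by
          rcases Nat.eq_zero_or_pos j with h0 | h0
          · subst h0; simp at hi1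
          · exact h0
        have hjlt : j < p * j := by
          have := hp.two_le
          nlinarith
        have h0 := ih j hjlt hj1 (by omega)
        have : ExpChar F p := ExpChar.prime hp
        have h1 := sum_pow_char p Q (fun q => (e q).1 ^ j)
        rw [h0, zero_pow hp.ne_zero] at h1
        rw [h1]
        refine sum_congr rfl fun q _ => ?_
        rw [← pow_mul, mul_comm]
      · exact hsum i (mem_filter.2 ⟨mem_Icc.2 ⟨hi1, hir⟩, hd⟩)
  -- the nonzero values
  set T : Finset F := (Q.image fun q => (e q).1).erase 0 with hT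
  have hmult : ∀ x : F, (Q.filter fun q => (e q).1 = x).card ≤ p - 1 := by
    intro x
    have : (Q.filter fun q => (e q).1 = x).card ≤ (univ : Finset (Fin (p - 1))).card := by
      refine card_le_card_of_injOn (fun q => (e q).2) (fun _ _ => mem_univ _) ?_
      intro q hq q' hq' hqq
      rw [coe_filter, Set.mem_ofPred_eq] at hq hq'
      exact he (Prod.ext (hq.2.trans hq'.2.symm) hqq)
    simpa using this
  have hTne : T.Nonempty := by
    by_contra hno
    rw [not_nonempty_iff_eq_empty] at hno
    have hall0 : ∀ q ∈ Q, (e q).1 = 0 := by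
      intro q hq
      by_contra hne
      have : (e q).1 ∈ T := mem_erase.2 ⟨hne, mem_image_of_mem _ hq⟩
      rw [hno] at this
      simp at this
    have h1 : (Q.filter fun q => (e q).1 = 0) = Q := filter_true_of_mem hall0
    have h2 := hmult 0
    rw [h1, hQ] at h2
    have := hp.two_le
    omega
  obtain ⟨x0, hx0⟩ := hTne
  have hTcard : T.card ≤ r := by
    rw [← hQ]
    exact (card_le_card (erase_subset _ _)).trans card_image_le
  -- the interpolation polynomial
  let P : Polynomial F := Polynomial.X * ∏ y ∈ T.erase x0, (Polynomial.X - Polynomial.C y)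
  have hdeg : P.natDegree ≤ r := by
    refine (Polynomial.natDegree_mul_le).trans ?_
    rw [Polynomial.natDegree_X, Polynomial.natDegree_prod_of_monic _ _
      (fun y _ => Polynomial.monic_X_sub_C y)]
    simp only [Polynomial.natDegree_X_sub_C, sum_const, smul_eq_mul, mul_one]
    rw [card_erase_of_mem hx0]
    have : 0 < T.card := card_pos.2 ⟨x0, hx0⟩
    omega
  have hP0 : P.coeff 0 = 0 := by simp [P]
  have heval : ∀ x : F, P.eval x = ∑ i ∈ Icc 1 r, P.coeff i * x ^ i := by
    intro x
    rw [Polynomial.eval_eq_sum_range' (n := r + 1) (by omega), sum_range_succ']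
    rw [hP0, zero_mul, add_zero]
    rw [show Icc 1 r = Ico 1 (r + 1) by ext; simp, sum_Ico_eq_sum_range]
    simp only [Nat.add_sub_cancel]
    exact sum_congr rfl fun i _ => by rw [add_comm 1 i]
  have hzero : ∑ q ∈ Q, P.eval (e q).1 = 0 := by
    simp only [heval]
    rw [sum_comm]
    refine sum_eq_zero fun i hi => ?_
    rw [mem_Icc] at hi
    rw [← mul_sum, hall i hi.1 hi.2, mul_zero]
  -- only the terms with value `x0` contribute
  have hx0ne : x0 ≠ 0 := (mem_erase.1 hx0).1
  have hother : ∀ q ∈ Q, (e q).1 ≠ x0 → P.eval (e q).1 = 0 := by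
    intro q hq hne
    by_cases h0 : (e q).1 = 0
    · rw [h0]; simp [P]
    · have hmem : (e q).1 ∈ T.erase x0 :=
        mem_erase.2 ⟨hne, mem_erase.2 ⟨h0, mem_image_of_mem _ hq⟩⟩
      simp only [P, Polynomial.eval_mul, Polynomial.eval_prod, Polynomial.eval_X,
        Polynomial.eval_sub, Polynomial.eval_C]
      rw [prod_eq_zero hmem (sub_self _), mul_zero]
  have hP1 : P.eval x0 ≠ 0 := by
    simp only [P, Polynomial.eval_mul, Polynomial.eval_prod, Polynomial.eval_X,
      Polynomial.eval_sub, Polynomial.eval_C]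
    refine mul_ne_zero hx0ne (prod_ne_zero_iff.2 fun y hy => ?_)
    exact sub_ne_zero.2 (ne_of_mem_erase hy).symm
  have hsplit : ∑ q ∈ Q, P.eval (e q).1 =
      ((Q.filter fun q => (e q).1 = x0).card : F) * P.eval x0 := by
    rw [← sum_filter_add_sum_filter_not Q (fun q => (e q).1 = x0)]
    rw [sum_congr rfl (g := fun _ => P.eval x0) (fun q hq => by rw [(mem_filter.1 hq).2]),
      sum_const, nsmul_eq_mul]
    rw [sum_eq_zero (s := Q.filter fun q => ¬ (e q).1 = x0)
      (fun q hq => hother q (mem_filter.1 hq).1 (mem_filter.1 hq).2), add_zero]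
  rw [hzero] at hsplit
  have hc : ((Q.filter fun q => (e q).1 = x0).card : F) = 0 := by
    rcases mul_eq_zero.1 hsplit.symm with h | h
    · exact h
    · exact absurd h hP1
  rw [CharP.cast_eq_zero_iff F p] at hc
  have hpos : 0 < (Q.filter fun q => (e q).1 = x0).card := by
    obtain ⟨q, hq, hqx⟩ := mem_image.1 (mem_erase.1 hx0).2
    exact card_pos.2 ⟨q, mem_filter.2 ⟨hq, hqx⟩⟩
  have := Nat.le_of_dvd hpos hc
  have := hmult x0
  have := hp.two_le
  omega

/-- **BCH bound.** -/
theorem bch_bound {p : ℕ} [Fact p.Prime] {V : Type*} [AddCommGroup V] [Module (ZMod p) V]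
    [Fintype V] [DecidableEq V] {N k r j : ℕ} (hr : p ≤ r) (hj : 1 ≤ j) (hN : k ≤ N)
    (hk : k ≤ (p - 1) * p ^ j) {S : Finset V} (h : Covering k (sumFamily N r S)) :
    Fintype.card V ≤ S.card * (p ^ (j * (r - r / p)) - 1) := by
  classical
  let F := GaloisField p j
  have : Fintype F := Fintype.ofFinite F
  have hF : Fintype.card F = p ^ j := by
    rw [← Nat.card_eq_fintype_card]; exact GaloisField.card p j (by omega)
  have hcard : Fintype.card (Fin k) ≤ Fintype.card (F × Fin (p - 1)) := by
    rw [Fintype.card_prod, hF, Fintype.card_fin, Fintype.card_fin, mul_comm]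
    exact hk
  obtain ⟨e⟩ := Function.Embedding.nonempty_of_card_le hcard
  have := lin_bound (p := p) (W := expo p r → F) (V := V) hN h
    (fun q i => (e q).1 ^ (i : ℕ)) (by
      intro Q hQ hz
      refine bch (p := p) (r := r) (F := F) hr e e.injective Q hQ ?_
      intro i hi
      have h1 := congrFun hz ⟨i, hi⟩
      rw [Finset.sum_apply] at h1
      exact h1)
  rw [Fintype.card_fun, hF, Fintype.card_coe, expo_card, ← pow_mul] at this
  exact this

/-- The bound for every `k`. -/
theorem bch_bound_all {p : ℕ} [Fact p.Prime] {V : Type*} [AddCommGroup V] [Module (ZMod p) V]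
    [Fintype V] [DecidableEq V] {N k r : ℕ} (hr : p ≤ r) (hk : p ≤ k) (hN : k ≤ N)
    {S : Finset V} (h : Covering k (sumFamily N r S)) :
    (((p : ℝ) - 1) / (p * k)) ^ (r - r / p) * Fintype.card V ≤ S.card := by
  classical
  have hp := (Fact.out : p.Prime)
  have hp2 := hp.two_le
  have hex : ∃ j, k ≤ (p - 1) * p ^ j := by
    refine ⟨k, ?_⟩
    calc k ≤ p ^ k := (Nat.lt_pow_self hp.one_lt).le
      _ ≤ (p - 1) * p ^ k := Nat.le_mul_of_pos_left _ (by omega)
  obtain ⟨j, hj, hmin⟩ : ∃ j, k ≤ (p - 1) * p ^ j ∧ ∀ l < j, ¬ k ≤ (p - 1) * p ^ l :=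
    ⟨Nat.find hex, Nat.find_spec hex, fun l hl => Nat.find_min hex hl⟩
  rcases j with _ | j
  · simp at hj
    omega
  have hb := bch_bound hr (by omega) hN hj h
  have hlt : (p - 1) * p ^ j < k := not_le.1 (hmin j (by omega))
  have hcast : ((p - 1 : ℕ) : ℝ) = (p : ℝ) - 1 := by
    rw [Nat.cast_sub (by omega)]; simp
  have hp0 : (0 : ℝ) < p := by exact_mod_cast hp.pos
  have hp1 : (0 : ℝ) < (p : ℝ) - 1 := by
    have : (2 : ℝ) ≤ p := by exact_mod_cast hp2
    linarith
  have hk0 : (0 : ℝ) < k := by exact_mod_cast (by omega : 0 < k)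
  set E := r - r / p with hE
  have hratio : (((p : ℝ) - 1) / (p * k)) * (p : ℝ) ^ (j + 1) ≤ 1 := by
    rw [div_mul_eq_mul_div, div_le_one (by positivity), pow_succ]
    have : ((p : ℝ) - 1) * (p : ℝ) ^ j ≤ k := by
      rw [← hcast]; exact_mod_cast hlt.le
    calc ((p : ℝ) - 1) * ((p : ℝ) ^ j * p) = p * (((p : ℝ) - 1) * (p : ℝ) ^ j) := by ring
      _ ≤ p * k := mul_le_mul_of_nonneg_left this hp0.le
  have hbR : (Fintype.card V : ℝ) ≤ S.card * (p : ℝ) ^ ((j + 1) * E) := by
    have h1 : Fintype.card V ≤ S.card * p ^ ((j + 1) * E) :=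
      hb.trans (Nat.mul_le_mul_left _ (Nat.sub_le _ _))
    exact_mod_cast h1
  calc (((p : ℝ) - 1) / (p * k)) ^ E * Fintype.card V
      ≤ (((p : ℝ) - 1) / (p * k)) ^ E * (S.card * (p : ℝ) ^ ((j + 1) * E)) :=
        mul_le_mul_of_nonneg_left hbR (by positivity)
    _ = S.card * ((((p : ℝ) - 1) / (p * k)) * (p : ℝ) ^ (j + 1)) ^ E := by
        rw [mul_pow, ← pow_mul]; ring
    _ ≤ S.card * 1 := by
        refine mul_le_mul_of_nonneg_left ?_ (Nat.cast_nonneg _)
        exact pow_le_one₀ (by positivity) hratio
    _ = S.card := mul_one _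

/-- Four terms with sum zero in `F_2^n`. -/
theorem four_covering {N k n : ℕ} (hk : 2 ^ (n + 1) ≤ (k - 2) * (k - 3)) :
    Covering k (sumFamily N 4 ({0} : Finset (Fin n → ZMod 2))) := by
  classical
  intro K hK
  have h2 : ∀ x : Fin n → ZMod 2, x + x = 0 := by
    intro x
    funext i
    change x i + x i = 0
    generalize x i = a
    revert a
    decide
  have hmem : ∀ T : Finset ((Fin n → ZMod 2) × Fin N), T.card = 4 → T ⊆ K →
      ∑ v ∈ T, v.1 = 0 → ∃ T ∈ sumFamily N 4 ({0} : Finset (Fin n → ZMod 2)), T ⊆ K := by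
    intro T h1 h3 h4
    exact ⟨T, by simp [sumFamily, mem_powersetCard, h1, h4], h3⟩
  -- a section of the labels
  set D := K.image Prod.fst with hD
  by_cases hbig : k ≤ D.card + 2
  · -- two pairs of labels with the same sum
    have hKne : K.Nonempty := by
      rw [← card_pos, hK]
      rcases Nat.eq_zero_or_pos k with h0 | h0
      · subst h0
        have := Nat.one_le_two_pow (n := n + 1)
        omega
      · exact h0
    obtain ⟨v0, hv0⟩ := hKne
    have hsec : ∀ a, ∃ v, a ∈ D → v ∈ K ∧ v.1 = a := by
      intro a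
      by_cases ha : a ∈ D
      · rw [hD, mem_image] at ha
        obtain ⟨v, hv, hva⟩ := ha
        exact ⟨v, fun _ => ⟨hv, hva⟩⟩
      · exact ⟨v0, fun h => absurd h ha⟩
    choose σ hσ0 using hsec
    have hσK : ∀ a ∈ D, σ a ∈ K := fun a ha => (hσ0 a ha).1
    have hσ : ∀ a ∈ D, (σ a).1 = a := fun a ha => (hσ0 a ha).2
    have hoff : D.offDiag.card = D.card * D.card - D.card := offDiag_card D
    have hcount : (univ.erase (0 : Fin n → ZMod 2)).card * 2 < D.offDiag.card := by
      rw [card_erase_of_mem (mem_univ _), card_univ, Fintype.card_fun, ZMod.card,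
        Fintype.card_fin, hoff]
      have hk3 : 3 ≤ k := by
        by_contra hc
        have : k - 3 = 0 := by omega
        rw [this, mul_zero] at hk
        have := Nat.one_le_two_pow (n := n + 1)
        omega
      obtain ⟨l, rfl⟩ : ∃ l, k = l + 3 := ⟨k - 3, by omega⟩
      have h5 : l + 1 ≤ D.card := by omega
      have h6 : (l + 1) * l ≤ D.card * D.card - D.card := by
        have : D.card * D.card - D.card = D.card * (D.card - 1) := by
          rw [Nat.mul_sub, mul_one]
        rw [this]
        exact Nat.mul_le_mul h5 (by omega)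
      have h7 : 2 ^ (n + 1) ≤ (l + 1) * l := by
        have e1 : l + 3 - 2 = l + 1 := by omega
        have e2 : l + 3 - 3 = l := by omega
        rwa [e1, e2] at hk
      have h8 : 2 ^ (n + 1) = 2 ^ n * 2 := pow_succ _ _
      have h9 := Nat.one_le_two_pow (n := n)
      omega
    obtain ⟨s, hs, hfib⟩ := exists_lt_card_fiber_of_mul_lt_card_of_maps_to
      (f := fun ab : (Fin n → ZMod 2) × (Fin n → ZMod 2) => ab.1 + ab.2)
      (s := D.offDiag) (t := univ.erase (0 : Fin n → ZMod 2)) (n := 2) (by
        intro ab hab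
        rw [mem_offDiag] at hab
        refine mem_erase.2 ⟨fun h0 => hab.2.2 ?_, mem_univ _⟩
        have : ab.1 = ab.1 + (ab.2 + ab.2) := by rw [h2, add_zero]
        rw [this, ← add_assoc, h0, zero_add]) hcount
    -- three ordered pairs with the same sum: two of them are disjoint
    obtain ⟨x, hx⟩ : ∃ x, x ∈ D.offDiag.filter fun ab => ab.1 + ab.2 = s := by
      apply Finset.Nonempty.exists_mem
      rw [← card_pos]; omega
    obtain ⟨y, hy, hyx⟩ : ∃ y ∈ D.offDiag.filter (fun ab => ab.1 + ab.2 = s),
        y ∉ ({x, (x.2, x.1)} : Finset _) := by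
      by_contra hno
      push Not at hno
      have : D.offDiag.filter (fun ab => ab.1 + ab.2 = s) ⊆ {x, (x.2, x.1)} := fun y hy =>
        hno y hy
      have := card_le_card this
      have := card_le_two (a := x) (b := (x.2, x.1))
      omega
    rw [mem_filter, mem_offDiag] at hx hy
    obtain ⟨⟨ha, hb, hab⟩, hs1⟩ := hx
    obtain ⟨⟨hc, hd, hcd⟩, hs2⟩ := hy
    rw [mem_insert, mem_singleton, not_or] at hyx
    set a := x.1 with ha'
    set b := x.2 with hb'
    set c := y.1 with hc'
    set d := y.2 with hd'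
    have hac : a ≠ c := by
      intro h
      apply hyx.1
      have : d = b := by
        have : a + d = a + b := by rw [h, hs2, ← h, hs1]
        exact add_left_cancel this
      exact Prod.ext h.symm this
    have hbc : b ≠ c := by
      intro h
      apply hyx.2
      have : d = a := by
        have h3 : b + d = b + a := by rw [h, hs2, ← h, add_comm b a, hs1]
        exact add_left_cancel h3
      exact Prod.ext h.symm this
    have had : a ≠ d := by
      intro h
      apply hyx.2
      have : c = b := by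
        have h3 : c + a = b + a := by rw [h, hs2, ← h, add_comm b a, hs1]
        exact add_right_cancel h3
      exact Prod.ext this h.symm
    have hbd : b ≠ d := by
      intro h
      apply hyx.1
      have : c = a := by
        have h3 : c + b = a + b := by rw [h, hs2, ← h, hs1]
        exact add_right_cancel h3
      exact Prod.ext this h.symm
    have hne : ∀ u ∈ D, ∀ v ∈ D, u ≠ v → σ u ≠ σ v := fun u hu v hv huv h => huv (by
      rw [← hσ u hu, ← hσ v hv, h])
    refine hmem {σ a, σ b, σ c, σ d} ?_ ?_ ?_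
    · rw [card_insert_of_notMem, card_insert_of_notMem, card_pair (hne c hc d hd hcd)]
      · simp [hne b hb c hc hbc, hne b hb d hd hbd]
      · simp [hne a ha b hb hab, hne a ha c hc hac, hne a ha d hd had]
    · intro v hv
      simp only [mem_insert, mem_singleton] at hv
      rcases hv with rfl | rfl | rfl | rfl
      · exact hσK a ha
      · exact hσK b hb
      · exact hσK c hc
      · exact hσK d hd
    · rw [sum_insert (by simp [hne a ha b hb hab, hne a ha c hc hac, hne a ha d hd had]),
        sum_insert (by simp [hne b hb c hc hbc, hne b hb d hd hbd]),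
        sum_pair (hne c hc d hd hcd), hσ a ha, hσ b hb, hσ c hc, hσ d hd, ← add_assoc, hs1, hs2,
        h2]
  · -- two disjoint pairs of points with equal labels
    push Not at hbig
    have hinj : ∃ u ∈ K, ∃ v ∈ K, u ≠ v ∧ u.1 = v.1 := by
      by_contra hno
      push Not at hno
      have : D.card = K.card := card_image_of_injOn fun u hu v hv huv => by
        by_contra hne
        exact hno u hu v hv hne huv
      omega
    obtain ⟨u, hu, v, hv, huv, huv1⟩ := hinj
    set K' := (K.erase u).erase v with hK'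
    have hK'c : K'.card = k - 2 := by
      rw [hK', card_erase_of_mem (mem_erase.2 ⟨huv.symm, hv⟩), card_erase_of_mem hu, hK]
      omega
    have hinj2 : ∃ w ∈ K', ∃ z ∈ K', w ≠ z ∧ w.1 = z.1 := by
      by_contra hno
      push Not at hno
      have h1 : (K'.image Prod.fst).card = K'.card := card_image_of_injOn fun u hu v hv huv => by
        by_contra hne
        exact hno u hu v hv hne huv
      have h3 : (K'.image Prod.fst).card ≤ D.card :=
        card_le_card (image_subset_image ((erase_subset _ _).trans (erase_subset _ _)))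
      omega
    obtain ⟨w, hw, z, hz, hwz, hwz1⟩ := hinj2
    rw [hK', mem_erase, mem_erase] at hw hz
    refine hmem {u, v, w, z} ?_ ?_ ?_
    · rw [card_insert_of_notMem, card_insert_of_notMem, card_pair hwz]
      · simp [Ne.symm hw.1, Ne.symm hz.1]
      · simp [huv, Ne.symm hw.2.1, Ne.symm hz.2.1]
    · intro t ht
      simp only [mem_insert, mem_singleton] at ht
      rcases ht with rfl | rfl | rfl | rfl
      · exact hu
      · exact hv
      · exact hw.2.2
      · exact hz.2.2
    · rw [sum_insert (by simp [huv, Ne.symm hw.2.1, Ne.symm hz.2.1]),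
        sum_insert (by simp [Ne.symm hw.1, Ne.symm hz.1]), sum_pair hwz, huv1, hwz1, h2,
        add_zero, h2]

end Pool.Agent.Q118.SumLin
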