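import Pool.Agent.Q118.SumLin
import Pool.Agent.Q118.SumCount

/-!
# Sums in vector spaces over `F_p`: the statement for uniform hypergraphs
-/

set_option autoImplicit false

namespace Pool.Agent.Q118.SumLin

open Finset Pool.Agent.Q118.SumSys

/-- `E` contains no complete `r`-graph on `m` vertices. -/
def CliqueFree {X : Type*} (r m : ℕ) (E : Finset (Finset X)) : Prop :=
  ∀ K : Finset X, K.card = m → ∃ e ⊆ K, e.card = r ∧ e ∉ E

theorem cliqueFree_iff {G : Type*} [AddCommGroup G] [Fintype G] [DecidableEq G] (N r m : ℕ)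
    (T : Finset G) :
    CliqueFree r m (sumFamily N r T) ↔ Covering m (sumFamily N r (univ \ T)) := by
  unfold CliqueFree Covering sumFamily
  refine forall_congr' fun K => forall_congr' fun _ => ?_
  simp only [mem_filter, mem_powersetCard, subset_univ, true_and, mem_sdiff, mem_univ, not_and]
  constructor
  · rintro ⟨e, h1, h2, h3⟩
    exact ⟨e, ⟨h2, h3 h2⟩, h1⟩
  · rintro ⟨e, ⟨h1, h2⟩, h3⟩
    exact ⟨e, h3, h1, fun _ => h2⟩

/-- The number of members of a sum family from above. -/
theorem members_le {G : Type*} [AddCommGroup G] [Fintype G] [DecidableEq G] (N r : ℕ)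
    (hr : 1 ≤ r) (T : Finset G) :
    r * (sumFamily N r T).card ≤ (N * Fintype.card G).choose (r - 1) * (T.card * N) := by
  classical
  have h1 := sum_card_bipartiteAbove_eq_sum_card_bipartiteBelow
    (s := powersetCard (r - 1) (univ : Finset (G × Fin N))) (t := sumFamily N r T)
    (fun A T => A ⊆ T)
  have hup : ∀ A ∈ powersetCard (r - 1) (univ : Finset (G × Fin N)),
      ((sumFamily N r T).bipartiteAbove (fun A T => A ⊆ T) A).card ≤ T.card * N := by
    intro A hA
    rw [mem_powersetCard] at hA
    set σ := ∑ v ∈ A, v.1 with hσ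
    set B : Finset (G × Fin N) := univ.filter fun v => v.1 + σ ∈ T with hB
    have hBcard : B.card = T.card * N := by
      have : B = (univ.filter fun g : G => g + σ ∈ T) ×ˢ (univ : Finset (Fin N)) := by
        ext v
        simp [hB, mem_product]
      rw [this, card_product, card_univ, Fintype.card_fin]
      congr 1
      refine card_nbij' (fun g => g + σ) (fun s => s - σ) ?_ ?_ ?_ ?_
      · intro g hg; simpa using hg
      · intro s hs; simpa using hs
      · intro g _; simp
      · intro s _; simp
    rw [← hBcard]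
    have hsub : (sumFamily N r T).bipartiteAbove (fun A T => A ⊆ T) A ⊆
        B.image fun v => insert v A := by
      intro e he
      rw [mem_bipartiteAbove, sumFamily, mem_filter, mem_powersetCard] at he
      obtain ⟨⟨⟨-, he3⟩, heT⟩, hAe⟩ := he
      have hd : (e \ A).card = 1 := by
        rw [card_sdiff_of_subset hAe, he3, hA.2]
        omega
      obtain ⟨v, hv⟩ := card_eq_one.1 hd
      have hvA : v ∉ A := by
        have : v ∈ e \ A := by rw [hv]; exact mem_singleton_self v
        exact (mem_sdiff.1 this).2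
      have he : insert v A = e := by
        rw [insert_eq, ← hv]
        exact sdiff_union_of_subset hAe
      rw [mem_image]
      refine ⟨v, ?_, he⟩
      rw [hB, mem_filter]
      refine ⟨mem_univ _, ?_⟩
      rw [← he, sum_insert hvA] at heT
      exact heT
    exact (card_le_card hsub).trans card_image_le
  have hlow : ∀ e ∈ sumFamily N r T, ((powersetCard (r - 1)
      (univ : Finset (G × Fin N))).bipartiteBelow (fun A T => A ⊆ T) e).card = r := by
    intro e he
    rw [sumFamily, mem_filter, mem_powersetCard] at he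
    have : (powersetCard (r - 1) (univ : Finset (G × Fin N))).bipartiteBelow
        (fun A T => A ⊆ T) e = powersetCard (r - 1) e := by
      ext A
      simp only [mem_bipartiteBelow, mem_powersetCard, subset_univ, true_and]
      tauto
    rw [this, card_powersetCard, he.1.2]
    obtain ⟨s, rfl⟩ : ∃ s, r = s + 1 := ⟨r - 1, by omega⟩
    simp
  rw [sum_congr rfl hlow, sum_const, smul_eq_mul] at h1
  calc r * (sumFamily N r T).card = (sumFamily N r T).card * r := mul_comm _ _
    _ = _ := h1.symm
    _ ≤ ∑ _A ∈ powersetCard (r - 1) (univ : Finset (G × Fin N)), (T.card * N) := sum_le_sum hup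
    _ = _ := by
        rw [sum_const, card_powersetCard, card_univ, Fintype.card_prod, Fintype.card_fin,
          smul_eq_mul, mul_comm N]

/-- The density bound for every `m`. -/
theorem density_le {V : Type*} [AddCommGroup V] [Fintype V] [DecidableEq V] {p r : ℕ}
    (hp : p.Prime) (hV : ∀ v : V, p • v = 0) (hpr : p ∣ r) (hr : 0 < r) {N m : ℕ} (hpm : p ≤ m)
    (hmN : m ≤ N) (T : Finset V) (hT : CliqueFree r m (sumFamily N r T)) :
    (T.card : ℝ) ≤ (1 - (((p : ℝ) - 1) / (p * m)) ^ (r - r / p)) * Fintype.card V := by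
  have : Fact p.Prime := ⟨hp⟩
  letI : Module (ZMod p) V := AddCommGroup.zmodModule hV
  have h1 := bch_bound_all (p := p) (V := V) (Nat.le_of_dvd hr hpr) hpm hmN
    ((cliqueFree_iff N r m T).1 hT)
  rw [card_sdiff_of_subset (subset_univ _), card_univ, Nat.cast_sub (card_le_univ T)] at h1
  linarith

/-- The vertices of a large clique for `m ≤ (p - 1) p ^ j`. -/
theorem density_le_pow {V : Type*} [AddCommGroup V] [Fintype V] [DecidableEq V] {p r : ℕ}
    (hp : p.Prime) (hV : ∀ v : V, p • v = 0) (hpr : p ∣ r) (hr : 0 < r) {N m j : ℕ} (hj : 1 ≤ j)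
    (hm : m ≤ (p - 1) * p ^ j) (hmN : m ≤ N) (T : Finset V)
    (hT : CliqueFree r m (sumFamily N r T)) :
    Fintype.card V ≤ (Fintype.card V - T.card) * (p ^ (j * (r - r / p)) - 1) := by
  have : Fact p.Prime := ⟨hp⟩
  letI : Module (ZMod p) V := AddCommGroup.zmodModule hV
  have h1 := bch_bound (p := p) (V := V) (Nat.le_of_dvd hr hpr) hj hmN hm
    ((cliqueFree_iff N r m T).1 hT)
  rwa [card_sdiff_of_subset (subset_univ _), card_univ] at h1

/-- The sharpness for four-element sets and `p = 2`. -/
theorem four_sharp {m : ℕ} (hm : 5 ≤ m) : ∃ n : ℕ,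
    (∀ N, CliqueFree 4 m (sumFamily N 4 ((univ : Finset (Fin n → ZMod 2)).erase 0))) ∧
    (m - 2) * (m - 3) < 4 * 2 ^ n ∧ 2 * 2 ^ n ≤ (m - 2) * (m - 3) := by
  classical
  have hex : ∃ n, (m - 2) * (m - 3) < 4 * 2 ^ n :=
    ⟨(m - 2) * (m - 3), by
      have := Nat.lt_two_pow_self (n := (m - 2) * (m - 3))
      omega⟩
  obtain ⟨n, hn, hmin⟩ : ∃ n, (m - 2) * (m - 3) < 4 * 2 ^ n ∧
      ∀ l < n, ¬ (m - 2) * (m - 3) < 4 * 2 ^ l :=
    ⟨Nat.find hex, Nat.find_spec hex, fun l hl => Nat.find_min hex hl⟩
  have h6 : 3 * 2 ≤ (m - 2) * (m - 3) := Nat.mul_le_mul (by omega) (by omega)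
  have hlow : 2 * 2 ^ n ≤ (m - 2) * (m - 3) := by
    rcases n with _ | n
    · simp; omega
    · have := hmin n (by omega)
      rw [pow_succ]
      omega
  refine ⟨n, fun N => ?_, hn, hlow⟩
  rw [cliqueFree_iff]
  have : (univ : Finset (Fin n → ZMod 2)) \ (univ.erase 0) = {0} := by
    ext x
    simp
  rw [this]
  exact four_covering (by rw [pow_succ]; omega)

end Pool.Agent.Q118.SumLin
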