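import Pool.Agent.Q118.SumGreedy

/-!
# Sum families: reduction to groups of prime power order
-/

set_option autoImplicit false

namespace Pool.Agent.Q118.SumSys

open Finset

variable {G : Type*} [AddCommGroup G] [Fintype G] [DecidableEq G]

theorem count_block (s k : ℕ) (Q : Finset (Fin k)) (a r : ℕ)
    (hr : ∀ q : Fin k, (q : ℕ) / s = a → (q : ℕ) < s * a + r) :
    (Q.filter fun q : Fin k => a = (q : ℕ) / s).card ≤ r := by
  classical
  have h1 : (Q.filter fun q : Fin k => a = (q : ℕ) / s).card ≤ (Ico (s * a) (s * a + r)).card := by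
    refine card_le_card_of_injOn (fun q : Fin k => (q : ℕ)) ?_ ?_
    · intro q hq
      rw [coe_filter, Set.mem_ofPred_eq] at hq
      have h2 := hr q hq.2.symm
      have h3 : s * a ≤ (q : ℕ) := by
        rw [hq.2]
        exact Nat.mul_div_le _ _
      simp only [coe_Ico, Set.mem_Ico]
      exact ⟨h3, h2⟩
    · intro q _ q' _ h
      exact Fin.ext h
  simpa using h1

/-- **Greedy bound**, with the cost as a sum. -/
theorem greedy_bound {p : ℕ} (hp : p.Prime) {N k m i : ℕ} (hN : k ≤ N) (hi : 1 ≤ i) (hip : i < p)
    (hk : k = (p - 1) * m + i) {S : Finset G} (h : Covering k (sumFamily N p S)) :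
    Fintype.card G ≤ S.card * cost p m i := by
  classical
  by_contra hcon
  push Not at hcon
  have hp2 := hp.two_le
  obtain ⟨a, b, hb, hab⟩ := Nat.exists_eq_pow_mul_and_not_dvd
    (Fintype.card_ne_zero (α := G)) p hp.ne_one
  let H : AddSubgroup G := (nsmulAddMonoidHom b : G →+ G).range
  let φ : (G × H) →+ G :=
    { toFun := fun z => p • z.1 + (z.2 : G)
      map_zero' := by simp
      map_add' := by
        intro z w
        simp only [Prod.fst_add, Prod.snd_add, smul_add, AddSubgroup.coe_add]
        abel }
  have hφ : Function.Surjective φ := by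
    have hc : Nat.Coprime p b := (Nat.Prime.coprime_iff_not_dvd hp).2 hb
    obtain ⟨u, v, huv⟩ := (Nat.isCoprime_iff_coprime (m := p) (n := b)).2 hc
    intro x
    refine ⟨(u • x, ⟨b • (v • x), ⟨v • x, rfl⟩⟩), ?_⟩
    change p • (u • x) + b • (v • x) = x
    rw [← natCast_zsmul (u • x) p, ← natCast_zsmul (v • x) b, smul_smul, smul_smul, ← add_smul,
      mul_comm (p : ℤ) u, mul_comm (b : ℤ) v, huv, one_smul]
  have hpre := preimage_card φ hφ S
  have hGpos : 0 < Fintype.card G := Fintype.card_pos
  -- average over `g`
  have hfib : (univ.filter fun z : G × H => φ z ∈ S).card =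
      ∑ g : G, (univ.filter fun y : H => p • g + (y : G) ∈ S).card := by
    rw [card_eq_sum_card_fiberwise (f := Prod.fst) (t := univ) (fun _ _ => by simp)]
    refine sum_congr rfl fun g _ => ?_
    refine card_nbij' (fun z => z.2) (fun y => (g, y)) ?_ ?_ ?_ ?_
    · intro z hz
      simp only [coe_filter, mem_filter, mem_univ, true_and, Set.mem_ofPred_eq] at hz ⊢
      rw [← hz.2]; exact hz.1
    · intro y hy
      simp only [coe_filter, mem_filter, mem_univ, true_and, Set.mem_ofPred_eq] at hy ⊢
      exact ⟨hy, trivial⟩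
    · intro z hz
      simp only [coe_filter, mem_filter, mem_univ, true_and, Set.mem_ofPred_eq] at hz
      exact Prod.ext hz.2.symm rfl
    · intro y _
      rfl
  obtain ⟨g, hg⟩ : ∃ g : G, (univ.filter fun y : H => p • g + (y : G) ∈ S).card * Fintype.card G ≤
      S.card * Fintype.card H := by
    by_contra hno
    push Not at hno
    have h1 : ∑ g : G, S.card * Fintype.card H <
        ∑ g : G, (univ.filter fun y : H => p • g + (y : G) ∈ S).card * Fintype.card G :=
      sum_lt_sum_of_nonempty univ_nonempty fun g _ => hno g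
    rw [← Finset.sum_mul univ (fun g : G => (univ.filter fun y : H => p • g + (y : G) ∈ S).card),
      ← hfib, hpre, sum_const, card_univ, smul_eq_mul, Fintype.card_prod] at h1
    have : Fintype.card G * (S.card * Fintype.card H) = S.card * (Fintype.card G * Fintype.card H) :=
      by ring
    omega
  set S' : Finset H := univ.filter fun y : H => p • g + (y : G) ∈ S with hS'
  have hsmall : S'.card * cost p m i < Fintype.card H := by
    have hHpos : 0 < Fintype.card H := Fintype.card_pos
    have h1 : (S'.card * cost p m i) * Fintype.card G < Fintype.card H * Fintype.card G := by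
      calc (S'.card * cost p m i) * Fintype.card G
          = (S'.card * Fintype.card G) * cost p m i := by ring
        _ ≤ (S.card * Fintype.card H) * cost p m i := Nat.mul_le_mul_right _ hg
        _ = (S.card * cost p m i) * Fintype.card H := by ring
        _ < Fintype.card G * Fintype.card H := Nat.mul_lt_mul_of_pos_right hcon hHpos
        _ = Fintype.card H * Fintype.card G := by ring
    exact lt_of_mul_lt_mul_right h1 (Nat.zero_le _)
  have hinj : ∀ j, 0 < j → j < p → Function.Injective fun x : H => j • x := by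
    intro j hj0 hjp x y hxy
    have hz : j • (x - y) = 0 := by
      rw [smul_sub, sub_eq_zero]; exact hxy
    obtain ⟨z, hz2⟩ := (x - y).2
    have hz3 : p ^ a • (x - y) = 0 := by
      apply Subtype.ext
      rw [AddSubgroup.coe_nsmul, AddSubgroup.coe_zero, ← hz2]
      change p ^ a • (b • z) = 0
      rw [smul_smul, ← hab]
      exact card_nsmul_eq_zero
    have hc : Nat.Coprime j (p ^ a) :=
      Nat.Coprime.pow_right a (Nat.coprime_of_lt_prime hj0.ne' hjp hp).symm
    obtain ⟨u, v, huv⟩ := (Nat.isCoprime_iff_coprime (m := j) (n := p ^ a)).2 hc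
    have h1 : x - y = (u * (j : ℤ) + v * ((p ^ a : ℕ) : ℤ)) • (x - y) := by rw [huv, one_smul]
    rw [add_smul, mul_smul, mul_smul, natCast_zsmul, natCast_zsmul, hz, hz3, smul_zero, smul_zero,
      add_zero] at h1
    exact sub_eq_zero.1 h1
  obtain ⟨x, hx⟩ := greedy hp2 hinj S' m i hi hip hsmall
  obtain ⟨Q, hQ, hQS⟩ := seq_of_covering hN h (fun q => g + (x ((q : ℕ) / (p - 1)) : G))
  refine hx (Q.val.map fun q : Fin k => (q : ℕ) / (p - 1)) ?_ ?_ ?_ ?_ ?_
  · rw [Multiset.card_map]; exact hQ
  · intro c hc
    rw [Multiset.mem_map] at hc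
    obtain ⟨q, -, rfl⟩ := hc
    rw [Nat.div_lt_iff_lt_mul (by omega)]
    have h1 := q.2
    have h2 : (m + 1) * (p - 1) = (p - 1) * m + (p - 1) := by ring
    omega
  · intro c
    rw [Multiset.count_map]
    refine count_block (p - 1) k Q c (p - 1) fun q hq => ?_
    have := Nat.lt_mul_div_succ (q : ℕ) (show 0 < p - 1 by omega)
    rw [hq] at this
    calc (q : ℕ) < (p - 1) * (c + 1) := this
      _ = (p - 1) * c + (p - 1) := by ring
  · rw [Multiset.count_map]
    refine count_block (p - 1) k Q m i fun q _ => ?_
    rw [← hk]; exact q.2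
  · rw [hS', mem_filter]
    refine ⟨mem_univ _, ?_⟩
    rw [Multiset.map_map]
    have h1 : ((Q.val.map (x ∘ fun q : Fin k => (q : ℕ) / (p - 1))).sum : H) =
        ∑ q ∈ Q, x ((q : ℕ) / (p - 1)) := rfl
    rw [h1, AddSubgroup.val_finsetSum]
    rw [sum_add_distrib, sum_const, hQ] at hQS
    exact hQS

/-- The cost in closed form. -/
theorem cost_eq {p : ℕ} (m i : ℕ) (hip : i < p) :
    cost p m i = (m + p - 1).choose (p - 1) - (m + p - 1 - i).choose (p - 1 - i) := by
  have key : ∀ i, i < p → cost p m i + (m + p - 1 - i).choose (p - 1 - i) =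
      (m + p - 1).choose (p - 1) := by
    intro i
    induction i with
    | zero => intro _; simp [cost]
    | succ i ih =>
      intro hi
      have h1 := ih (by omega)
      have h2 : cost p m (i + 1) = cost p m i + m.multichoose (p - (i + 1)) := by
        unfold cost
        rw [sum_Icc_succ_top (by omega)]
      rw [Nat.multichoose_eq] at h2
      obtain ⟨l, hl⟩ : ∃ l, p - 1 - i = l + 1 := ⟨p - 1 - (i + 1), by omega⟩
      have e1 : p - (i + 1) = l + 1 := by omega
      have e2 : m + p - 1 - i = (m + l) + 1 := by omega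
      have e3 : m + p - 1 - (i + 1) = m + l := by omega
      have e4 : p - 1 - (i + 1) = l := by omega
      have e5 : m + (l + 1) - 1 = m + l := by omega
      rw [hl, e2, Nat.choose_succ_succ'] at h1
      rw [h2, e1, e5, e3, e4]
      omega
  have := key i hip
  omega

end Pool.Agent.Q118.SumSys
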