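import Mathlib

/-!
# Families of `t`-sets defined by sums in a finite abelian group

`sumFamily N t S`: the `t`-subsets of `G × Fin N` whose labels (first coordinates) add up to an
element of `S`.  `Covering k F`: every `k`-set contains a member of `F`.
-/

set_option autoImplicit false

namespace Pool.Agent.Q118.SumSys

open Finset

/-- The `t`-subsets of `G × Fin N` whose labels (first coordinates) add up to an element of `S`. -/
def sumFamily {G : Type*} [AddCommMonoid G] [Fintype G] [DecidableEq G] (N t : ℕ) (S : Finset G) :
    Finset (Finset (G × Fin N)) :=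
  (powersetCard t univ).filter fun T => ∑ v ∈ T, v.1 ∈ S

/-- Every `k`-subset of `X` contains a member of `F`. -/
def Covering {X : Type*} (k : ℕ) (F : Finset (Finset X)) : Prop :=
  ∀ K : Finset X, K.card = k → ∃ T ∈ F, T ⊆ K

variable {G : Type*} [AddCommGroup G] [Fintype G] [DecidableEq G]

/-- A covering family gives, for every sequence of `k` labels, `t` terms with sum in `S`. -/
theorem seq_of_covering {N t k : ℕ} (hk : k ≤ N) {S : Finset G}
    (h : Covering k (sumFamily N t S)) (L : Fin k → G) :
    ∃ Q : Finset (Fin k), Q.card = t ∧ ∑ q ∈ Q, L q ∈ S := by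
  classical
  have hinj : Function.Injective (fun q : Fin k => (L q, Fin.castLE hk q)) := by
    intro a b hab
    have := congrArg Prod.snd hab
    simpa using this
  let e : Fin k ↪ G × Fin N := ⟨fun q => (L q, Fin.castLE hk q), hinj⟩
  obtain ⟨T, hT, hTK⟩ := h (univ.map e) (by simp)
  obtain ⟨Q, -, rfl⟩ := Finset.subset_map_iff.1 hTK
  rw [sumFamily, mem_filter, mem_powersetCard] at hT
  refine ⟨Q, by simpa using hT.1.2, ?_⟩
  have h2 := hT.2
  rw [Finset.sum_map] at h2
  exact h2

/-- Preimages under a surjective homomorphism have the expected size. -/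
theorem preimage_card {A B : Type*} [AddCommGroup A] [AddCommGroup B] [Fintype A] [Fintype B]
    [DecidableEq B] (f : A →+ B) (hf : Function.Surjective f) (S : Finset B) :
    (univ.filter fun a => f a ∈ S).card * Fintype.card B = S.card * Fintype.card A := by
  classical
  have hfib : ∀ y : B, (univ.filter fun a => f a = y).card = (univ.filter fun a => f a = 0).card :=
    fun y => AddMonoidHom.card_fiber_eq_of_mem_range f (hf y) (hf 0)
  have h1 : ∀ S : Finset B, (univ.filter fun a => f a ∈ S).card =
      S.card * (univ.filter fun a => f a = 0).card := by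
    intro S
    rw [card_eq_sum_card_fiberwise (f := f) (t := S) (fun a ha => by
      simpa using ha)]
    rw [Finset.sum_congr rfl (g := fun _ => (univ.filter fun a => f a = 0).card), sum_const,
      smul_eq_mul]
    intro y hy
    rw [← hfib y, filter_filter]
    congr 1
    ext a
    simp only [mem_filter, mem_univ, true_and]
    constructor
    · rintro ⟨-, h⟩; exact h
    · intro h; exact ⟨h ▸ hy, h⟩
  have h2 := h1 univ
  simp only [mem_univ, filter_true, card_univ] at h2
  rw [h1 S, h2]
  ring

/-- Union bound for several surjective homomorphisms. -/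
theorem exists_avoid {A B I : Type*} [AddCommGroup A] [AddCommGroup B] [Fintype A] [Fintype B]
    [DecidableEq B] (s : Finset I) (f : I → A →+ B)
    (hf : ∀ i ∈ s, Function.Surjective (f i)) (S : Finset B)
    (h : S.card * s.card < Fintype.card B) : ∃ a : A, ∀ i ∈ s, f i a ∉ S := by
  classical
  by_contra hcon
  push Not at hcon
  have hU : (univ : Finset A) ⊆ s.biUnion fun i => univ.filter fun a => f i a ∈ S := by
    intro a _
    obtain ⟨i, hi, ha⟩ := hcon a
    exact mem_biUnion.2 ⟨i, hi, by simpa using ha⟩
  have h1 := (card_le_card hU).trans card_biUnion_le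
  have hA : 0 < Fintype.card A := Fintype.card_pos
  have h2 : Fintype.card A * Fintype.card B ≤ (s.card * S.card) * Fintype.card A := by
    calc Fintype.card A * Fintype.card B
        ≤ (∑ i ∈ s, (univ.filter fun a => f i a ∈ S).card) * Fintype.card B :=
          Nat.mul_le_mul_right _ (by simpa using h1)
      _ = ∑ i ∈ s, S.card * Fintype.card A := by
          rw [Finset.sum_mul]
          exact Finset.sum_congr rfl fun i hi => preimage_card (f i) (hf i hi) S
      _ = (s.card * S.card) * Fintype.card A := by
          rw [sum_const, smul_eq_mul]; ring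
  have h3 : Fintype.card B ≤ s.card * S.card := by
    have : Fintype.card B * Fintype.card A ≤ (s.card * S.card) * Fintype.card A := by
      rw [mul_comm]; exact h2
    exact Nat.le_of_mul_le_mul_right this hA
  rw [mul_comm] at h
  omega

end Pool.Agent.Q118.SumSys
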