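import Mathlib

/-!
# Counting connected vertex sets in trees

Helper facts: a parent map of a tree, an upper bound for the number of connected
`k`-sets containing a given set, an upper bound for the number of connected `k`-sets that are not
stars, and an upper bound for the number of vertices near a vertex of large degree.
-/

namespace Pool.Agent.Q118.TreeProf

open SimpleGraph Finset

/-- Every tree has a parent map: every edge joins a vertex to its parent. -/
lemma exists_parent {V : Type} {T : SimpleGraph V} (hT : T.IsTree) :
    ∃ par : V → V, ∀ a b, T.Adj a b → par a = b ∨ par b = a := by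
  classical
  obtain ⟨r⟩ := hT.1.nonempty
  choose f hf hf' using (fun w => hT.existsUnique_path w r)
  have key : ∀ a b, T.Adj a b → T.dist r a = T.dist r b + 1 → (f a).snd = b := by
    intro a b hab hd
    obtain ⟨q, hq⟩ := hT.1.exists_walk_length_eq_dist b r
    have hp : (Walk.cons hab q).IsPath :=
      Walk.isPath_of_length_eq_dist _ (by
        rw [Walk.length_cons, hq, dist_comm, T.dist_comm (u := a), hd])
    rw [← hf' a _ hp]
    simp
  refine ⟨fun w => (f w).snd, fun a b hab => ?_⟩
  rcases hT.dist_eq_dist_add_one_of_adj r hab with h | h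
  · exact Or.inl (key a b hab h)
  · exact Or.inr (key b a hab.symm h)

/-- Combinatorial connectivity of a vertex set. -/
def Con {V : Type} (G : SimpleGraph V) (U : Finset V) : Prop :=
  ∀ A ⊆ U, A.Nonempty → A ≠ U → ∃ a ∈ A, ∃ b ∈ U, b ∉ A ∧ G.Adj a b

lemma con_of_connected {V : Type} {G : SimpleGraph V} {U : Finset V}
    (h : (G.induce (U : Set V)).Connected) : Con G U := by
  classical
  intro A hA hne hAU
  obtain ⟨a, ha⟩ := hne
  have hss : A ⊂ U := lt_of_le_of_ne hA hAU
  obtain ⟨b, hb, hbA⟩ := Finset.exists_of_ssubset hss
  obtain ⟨p⟩ := h.preconnected ⟨a, by simpa using hA ha⟩ ⟨b, by simpa using hb⟩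
  obtain ⟨⟨⟨x, y⟩, hxy⟩, _, hx, hy⟩ := p.exists_boundary_dart
    {z : (U : Set V) | (z : V) ∈ A} (by simpa using ha) (by simpa using hbA)
  refine ⟨x, by simpa using hx, y, by simpa using y.2, by simpa using hy, ?_⟩
  simpa using hxy

section
variable {V : Type} [Fintype V] [DecidableEq V] (G : SimpleGraph V) [DecidableRel G.Adj]

open Classical in
/-- The connected `k`-sets containing `A`, all of whose vertices have degree at most `D`. -/
noncomputable def fam (k D : ℕ) (A : Finset V) : Finset (Finset V) :=
  (univ : Finset (Finset V)).filter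
    (fun U => A ⊆ U ∧ U.card = k ∧ Con G U ∧ ∀ u ∈ U, G.degree u ≤ D)

lemma mem_fam {k D : ℕ} {A U : Finset V} : U ∈ fam G k D A ↔
    A ⊆ U ∧ U.card = k ∧ Con G U ∧ ∀ u ∈ U, G.degree u ≤ D := by
  simp [fam]

lemma fam_card (k D : ℕ) : ∀ (m : ℕ) (A : Finset V), A.Nonempty → A.card + m = k →
    (fam G k D A).card ≤ (k * D) ^ m := by
  classical
  intro m
  induction m with
  | zero =>
    intro A hA hc
    have : fam G k D A ⊆ {A} := by
      intro U hU
      rw [mem_fam] at hU
      rw [mem_singleton]
      exact (Finset.eq_of_subset_of_card_le hU.1 (by omega)).symm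
    calc (fam G k D A).card ≤ ({A} : Finset (Finset V)).card := card_le_card this
      _ = _ := by simp
  | succ m ih =>
    intro A hA hc
    set N := ((A.filter fun a => G.degree a ≤ D).biUnion fun a => G.neighborFinset a) \ A with hN
    have hsub : fam G k D A ⊆ N.biUnion fun v => fam G k D (insert v A) := by
      intro U hU
      have hU' := hU
      rw [mem_fam] at hU
      obtain ⟨h1, h2, h3, h4⟩ := hU
      have hne : A ≠ U := by
        rintro rfl
        omega
      obtain ⟨a, ha, b, hb, hbA, hab⟩ := h3 A h1 hA hne
      rw [mem_biUnion]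
      refine ⟨b, ?_, ?_⟩
      · rw [hN, mem_sdiff, mem_biUnion]
        refine ⟨⟨a, ?_, ?_⟩, hbA⟩
        · rw [mem_filter]
          exact ⟨ha, h4 a (h1 ha)⟩
        · rw [mem_neighborFinset]
          exact hab
      · rw [mem_fam]
        exact ⟨insert_subset hb h1, h2, h3, h4⟩
    have hNc : N.card ≤ k * D := by
      calc N.card ≤ ((A.filter fun a => G.degree a ≤ D).biUnion
              fun a => G.neighborFinset a).card := card_le_card sdiff_subset
        _ ≤ ∑ a ∈ A.filter (fun a => G.degree a ≤ D), (G.neighborFinset a).card :=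
            card_biUnion_le
        _ ≤ ∑ a ∈ A.filter (fun a => G.degree a ≤ D), D := by
            refine sum_le_sum fun a ha => ?_
            rw [card_neighborFinset_eq_degree]
            exact (mem_filter.1 ha).2
        _ = (A.filter (fun a => G.degree a ≤ D)).card * D := by simp
        _ ≤ A.card * D := Nat.mul_le_mul_right _ (card_le_card (filter_subset _ _))
        _ ≤ k * D := Nat.mul_le_mul_right _ (by omega)
    calc (fam G k D A).card ≤ (N.biUnion fun v => fam G k D (insert v A)).card :=
          card_le_card hsub
      _ ≤ ∑ v ∈ N, (fam G k D (insert v A)).card := card_biUnion_le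
      _ ≤ ∑ v ∈ N, (k * D) ^ m := by
          refine sum_le_sum fun v hv => ih _ ⟨v, mem_insert_self _ _⟩ ?_
          have : v ∉ A := (mem_sdiff.1 hv).2
          rw [card_insert_of_notMem this]
          omega
      _ = N.card * (k * D) ^ m := by simp
      _ ≤ (k * D) * (k * D) ^ m := Nat.mul_le_mul_right _ hNc
      _ = (k * D) ^ (m + 1) := by ring

/-- `U` is a star with some centre `h`. -/
def Starry {V : Type} (G : SimpleGraph V) (U : Finset V) : Prop :=
  ∃ h ∈ U, ∀ u ∈ U, u ≠ h → G.Adj h u

open Classical in
/-- Connected `k`-sets that are not stars. -/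
noncomputable def nonstar (k : ℕ) : Finset (Finset V) :=
  (univ : Finset (Finset V)).filter (fun U => U.card = k ∧ Con G U ∧ ¬ Starry G U)

lemma nonstar_card (k : ℕ) (hk : 3 ≤ k) :
    (nonstar G k).card ≤ ∑ h : V, ∑ x ∈ (G.neighborFinset h).filter
      (fun x => G.degree x ≤ G.degree h), G.degree x * (k * G.degree h) ^ (k - 3) := by
  classical
  have hsub : nonstar G k ⊆ (univ : Finset V).biUnion fun h =>
      ((G.neighborFinset h).filter (fun x => G.degree x ≤ G.degree h)).biUnion fun x =>
        ((G.neighborFinset x).erase h).biUnion fun y => fam G k (G.degree h) {h, x, y} := by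
    intro U hU
    rw [nonstar, mem_filter] at hU
    obtain ⟨-, hc, hcon, hns⟩ := hU
    have hUne : U.Nonempty := by
      rw [← card_pos]
      omega
    obtain ⟨h, hhU, hmax⟩ := exists_max_image U (fun v => G.degree v) hUne
    set A := U.filter (fun u => u = h ∨ G.Adj h u) with hA
    have hAU : A ≠ U := by
      intro hEq
      apply hns
      refine ⟨h, hhU, fun u hu hne => ?_⟩
      rw [← hEq, hA, mem_filter] at hu
      exact hu.2.resolve_left hne
    obtain ⟨a, ha, b, hb, hbA, hab⟩ := hcon A (filter_subset _ _)
      ⟨h, by simp [hA, hhU]⟩ hAU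
    have hb' : b ≠ h ∧ ¬ G.Adj h b := by
      rw [hA, mem_filter] at hbA
      push Not at hbA
      exact hbA hb
    have ha' : G.Adj h a := by
      rw [hA, mem_filter] at ha
      rcases ha.2 with h1 | h1
      · rw [h1] at hab
        exact absurd hab hb'.2
      · exact h1
    have haU : a ∈ U := by
      rw [hA, mem_filter] at ha
      exact ha.1
    rw [mem_biUnion]
    refine ⟨h, mem_univ _, ?_⟩
    rw [mem_biUnion]
    refine ⟨a, ?_, ?_⟩
    · rw [mem_filter, mem_neighborFinset]
      exact ⟨ha', hmax a haU⟩
    rw [mem_biUnion]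
    refine ⟨b, ?_, ?_⟩
    · rw [mem_erase, mem_neighborFinset]
      exact ⟨hb'.1, hab⟩
    rw [mem_fam]
    refine ⟨?_, hc, hcon, hmax⟩
    intro z hz
    simp only [mem_insert, mem_singleton] at hz
    rcases hz with rfl | rfl | rfl
    · exact hhU
    · exact haU
    · exact hb
  calc (nonstar G k).card ≤ _ := card_le_card hsub
    _ ≤ ∑ h : V, (((G.neighborFinset h).filter
          (fun x => G.degree x ≤ G.degree h)).biUnion fun x =>
        ((G.neighborFinset x).erase h).biUnion fun y =>
          fam G k (G.degree h) {h, x, y}).card := card_biUnion_le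
    _ ≤ _ := by
      refine sum_le_sum fun h _ => ?_
      refine le_trans card_biUnion_le ?_
      refine sum_le_sum fun x hx => ?_
      rw [mem_filter, mem_neighborFinset] at hx
      refine le_trans card_biUnion_le ?_
      calc ∑ y ∈ (G.neighborFinset x).erase h, (fam G k (G.degree h) {h, x, y}).card
          ≤ ∑ y ∈ (G.neighborFinset x).erase h, (k * G.degree h) ^ (k - 3) := by
            refine sum_le_sum fun y hy => ?_
            rw [mem_erase, mem_neighborFinset] at hy
            refine fam_card G k _ (k - 3) _ ⟨h, by simp⟩ ?_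
            have : ({h, x, y} : Finset V).card = 3 := by
              rw [card_eq_three]
              exact ⟨h, x, y, hx.1.ne, hy.1.symm, hy.2.ne, rfl⟩
            omega
        _ = ((G.neighborFinset x).erase h).card * (k * G.degree h) ^ (k - 3) := by simp
        _ ≤ G.degree x * (k * G.degree h) ^ (k - 3) := by
            refine Nat.mul_le_mul_right _ ?_
            rw [← card_neighborFinset_eq_degree]
            exact card_le_card (erase_subset _ _)

end

end Pool.Agent.Q118.TreeProf
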