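import Pool.Agent.Q118.TreeProf

/-!
# Counting connected vertex sets in trees, second part
-/

namespace Pool.Agent.Q118.TreeProf

open SimpleGraph Finset

lemma pow_split (j : ℕ) {η x : ℝ} (hη : 0 < η) (hx : 0 ≤ x) :
    x ^ j ≤ η * x ^ (j + 1) + (1 / η) ^ j := by
  by_cases h : 1 / η ≤ x
  · have h1 : 1 ≤ η * x := by
      rw [div_le_iff₀ hη] at h
      linarith
    have h2 : 0 ≤ x ^ j := pow_nonneg hx j
    have h3 : 0 ≤ (1 / η) ^ j := by positivity
    calc x ^ j = 1 * x ^ j := by ring
      _ ≤ (η * x) * x ^ j := mul_le_mul_of_nonneg_right h1 h2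
      _ = η * x ^ (j + 1) := by ring
      _ ≤ _ := by linarith
  · have h3 : x ^ j ≤ (1 / η) ^ j := pow_le_pow_left₀ hx (le_of_lt (not_le.1 h)) j
    have h4 : 0 ≤ η * x ^ (j + 1) := by positivity
    linarith

lemma edge_bound (m : ℕ) {L a b : ℝ} (hL : 0 < L) (ha : 0 ≤ a) (hb : 0 ≤ b) :
    a * b ^ m ≤ b ^ (m + 1) / L + L ^ m * a ^ (m + 1) := by
  by_cases h : L * a ≤ b
  · have h1 : a ≤ b / L := by
      rw [le_div_iff₀ hL]
      linarith
    have h2 : 0 ≤ b ^ m := pow_nonneg hb m
    have h3 : 0 ≤ L ^ m * a ^ (m + 1) := by positivity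
    calc a * b ^ m ≤ (b / L) * b ^ m := mul_le_mul_of_nonneg_right h1 h2
      _ = b ^ (m + 1) / L := by ring
      _ ≤ _ := by linarith
  · have h1 : b ^ m ≤ (L * a) ^ m := pow_le_pow_left₀ hb (le_of_lt (not_le.1 h)) m
    have h3 : 0 ≤ b ^ (m + 1) / L := by positivity
    calc a * b ^ m ≤ a * (L * a) ^ m := mul_le_mul_of_nonneg_left h1 ha
      _ = L ^ m * a ^ (m + 1) := by ring
      _ ≤ _ := by linarith

/-- The sum of the `j`-th powers of the degrees. -/
noncomputable def S {V : Type} [Fintype V] (G : SimpleGraph V) [DecidableRel G.Adj] (j : ℕ) : ℝ :=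
  ∑ v, (G.degree v : ℝ) ^ j

section
variable {V : Type} [Fintype V] [DecidableEq V] (G : SimpleGraph V) [DecidableRel G.Adj]

lemma nonstar_le (hG : G.IsTree) (m : ℕ) {L : ℝ} (hL : 0 < L) :
    ((nonstar G (m + 3)).card : ℝ) ≤
      ((m + 3 : ℕ) : ℝ) ^ m * (S G (m + 2) / L + (L ^ m + 1) * S G (m + 1)) := by
  obtain ⟨par, hpar⟩ := exists_parent hG
  have h1 := nonstar_card G (m + 3) (by omega)
  have h2 : ((nonstar G (m + 3)).card : ℝ) ≤ ∑ h : V, ∑ x ∈ (G.neighborFinset h).filter
      (fun x => G.degree x ≤ G.degree h), (G.degree x : ℝ) *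
        (((m + 3 : ℕ) : ℝ) * G.degree h) ^ m := by
    have h3 : ((nonstar G (m + 3)).card : ℝ) ≤ ((∑ h : V, ∑ x ∈ (G.neighborFinset h).filter
      (fun x => G.degree x ≤ G.degree h), G.degree x * ((m + 3) * G.degree h) ^ (m + 3 - 3) : ℕ) :
        ℝ) := by exact_mod_cast h1
    refine h3.trans (le_of_eq ?_)
    push_cast
    simp
  refine h2.trans ?_
  set K : ℝ := ((m + 3 : ℕ) : ℝ) with hK
  have hK0 : 0 ≤ K := by positivity
  have h4 : ∀ h : V, ∀ x ∈ (G.neighborFinset h).filter (fun x => G.degree x ≤ G.degree h),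
      (G.degree x : ℝ) * (K * G.degree h) ^ m ≤
        K ^ m * ((G.degree h : ℝ) ^ (m + 1) / L +
          ((if par x = h then L ^ m * (G.degree x : ℝ) ^ (m + 1) else 0) +
          (if par h = x then (G.degree h : ℝ) ^ (m + 1) else 0))) := by
    intro h x hx
    rw [mem_filter, mem_neighborFinset] at hx
    have e1 : (G.degree x : ℝ) * (K * G.degree h) ^ m =
        K ^ m * ((G.degree x : ℝ) * (G.degree h : ℝ) ^ m) := by ring
    rw [e1]
    refine mul_le_mul_of_nonneg_left ?_ (pow_nonneg hK0 m)
    have hx0 : (0 : ℝ) ≤ G.degree x := by positivity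
    have hh0 : (0 : ℝ) ≤ G.degree h := by positivity
    have hxh : (G.degree x : ℝ) ≤ G.degree h := by exact_mod_cast hx.2
    have q1 : (0 : ℝ) ≤ (G.degree h : ℝ) ^ (m + 1) / L := by positivity
    have q2 : (0 : ℝ) ≤ L ^ m * (G.degree x : ℝ) ^ (m + 1) := by positivity
    have q3 : (0 : ℝ) ≤ (G.degree h : ℝ) ^ (m + 1) := by positivity
    rcases hpar h x hx.1 with hp | hp
    · have e2 : (G.degree x : ℝ) * (G.degree h : ℝ) ^ m ≤ (G.degree h : ℝ) ^ (m + 1) := by
        calc (G.degree x : ℝ) * (G.degree h : ℝ) ^ m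
            ≤ (G.degree h : ℝ) * (G.degree h : ℝ) ^ m :=
              mul_le_mul_of_nonneg_right hxh (pow_nonneg hh0 m)
          _ = _ := by ring
      rw [if_pos hp]
      split_ifs <;> linarith
    · have e2 := edge_bound m hL hx0 hh0
      rw [if_pos hp]
      split_ifs <;> linarith
  have h5 : ∑ h : V, ∑ x ∈ (G.neighborFinset h).filter
      (fun x => G.degree x ≤ G.degree h), (G.degree x : ℝ) * (K * G.degree h) ^ m ≤
      ∑ h : V, (K ^ m * ((G.degree h : ℝ) ^ (m + 2) / L + (∑ x : V,
        ((if par x = h then L ^ m * (G.degree x : ℝ) ^ (m + 1) else 0) +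
          (if par h = x then (G.degree h : ℝ) ^ (m + 1) else 0))))) := by
    refine sum_le_sum fun h _ => ?_
    refine (sum_le_sum (h4 h)).trans ?_
    rw [← mul_sum]
    refine mul_le_mul_of_nonneg_left ?_ (pow_nonneg hK0 m)
    rw [sum_add_distrib]
    refine add_le_add ?_ ?_
    · rw [sum_const, nsmul_eq_mul]
      have c1 : (((G.neighborFinset h).filter
          (fun x => G.degree x ≤ G.degree h)).card : ℝ) ≤ G.degree h := by
        rw [← card_neighborFinset_eq_degree]
        exact_mod_cast card_le_card (filter_subset _ _)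
      have q1 : (0 : ℝ) ≤ (G.degree h : ℝ) ^ (m + 1) / L := by positivity
      calc _ ≤ (G.degree h : ℝ) * ((G.degree h : ℝ) ^ (m + 1) / L) :=
            mul_le_mul_of_nonneg_right c1 q1
        _ = _ := by ring
    · refine sum_le_sum_of_subset_of_nonneg (subset_univ _) ?_
      intro x _ _
      have q2 : (0 : ℝ) ≤ L ^ m * (G.degree x : ℝ) ^ (m + 1) := by positivity
      have q3 : (0 : ℝ) ≤ (G.degree h : ℝ) ^ (m + 1) := by positivity
      split_ifs <;> linarith
  refine h5.trans (le_of_eq ?_)
  rw [← mul_sum]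
  congr 1
  rw [sum_add_distrib, S, S, sum_div]
  congr 1
  simp_rw [sum_add_distrib]
  rw [add_mul, one_mul, mul_sum]
  congr 1
  · rw [sum_comm]
    refine sum_congr rfl fun x _ => ?_
    simp
  · refine sum_congr rfl fun x _ => ?_
    simp

omit [Fintype V] [DecidableEq V] in
/-- The vertices of a long shortest path start with an induced path. -/
lemma path_embed {G : SimpleGraph V} (w v : V) (k : ℕ) (hG : G.Connected)
    (hd : k ≤ G.dist w v + 1) (hk : 0 < k) :
    ∃ f : pathGraph k ↪g G, ∃ i, f i = w := by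
  obtain ⟨p, hp⟩ := hG.exists_walk_length_eq_dist w v
  have hdist : ∀ i, i ≤ p.length → G.dist w (p.getVert i) = i := by
    intro i hi
    rw [← length_eq_dist_of_subwalk hp (p.isSubwalk_take i), Walk.take_length]
    omega
  have hinj : ∀ i j : Fin k, p.getVert i = p.getVert j → i = j := by
    intro i j hij
    have h1 := hdist i (by omega)
    have h2 := hdist j (by omega)
    rw [hij, h2] at h1
    exact Fin.ext h1.symm
  refine ⟨⟨⟨fun i => p.getVert i, fun i j hij => hinj i j hij⟩, ?_⟩, ⟨0, hk⟩, ?_⟩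
  · intro i j
    simp only [Function.Embedding.coeFn_mk, pathGraph_adj]
    constructor
    · intro hadj
      have h3 := hadj.diff_dist_adj (u := w)
      rw [hdist i (by omega), hdist j (by omega)] at h3
      have hne : (i : ℕ) ≠ j := by
        intro h
        exact hadj.ne (by rw [h])
      omega
    · rintro (h | h)
      · rw [← h]
        exact p.adj_getVert_succ (by omega)
      · rw [← h]
        exact (p.adj_getVert_succ (by omega)).symm
  · simp

/-- There is a vertex of degree more than `D` at distance at most `j`. -/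
def Near (D : ℕ) : ℕ → V → Prop
  | 0, w => D < G.degree w
  | j + 1, w => D < G.degree w ∨ ∃ w', G.Adj w w' ∧ Near D j w'

/-- The vertices at distance at most `j`. -/
def reach : ℕ → V → Finset V
  | 0, w => {w}
  | j + 1, w => {w} ∪ (G.neighborFinset w).biUnion fun w' => reach j w'

/-- The bound for the size of a ball. -/
def cc (D : ℕ) : ℕ → ℕ
  | 0 => 1
  | j + 1 => 1 + D * cc D j

lemma reach_card (D : ℕ) : ∀ (j : ℕ) (w : V), ¬ Near G D j w →
    (reach G (j + 1) w).card ≤ cc D (j + 1) := by
  intro j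
  induction j with
  | zero =>
    intro w hw
    have hw' : G.degree w ≤ D := not_lt.1 hw
    have : reach G (0 + 1) w = {w} ∪ (G.neighborFinset w).biUnion fun w' => {w'} := rfl
    rw [this]
    refine (card_union_le _ _).trans ?_
    have h2 : ((G.neighborFinset w).biUnion fun w' => ({w'} : Finset V)).card ≤ D := by
      refine card_biUnion_le.trans ?_
      simpa using hw'
    simp only [card_singleton, cc]
    omega
  | succ j ih =>
    intro w hw
    have hw' : ¬ (D < G.degree w ∨ ∃ w', G.Adj w w' ∧ Near G D j w') := hw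
    push Not at hw'
    have : reach G (j + 1 + 1) w =
      {w} ∪ (G.neighborFinset w).biUnion fun w' => reach G (j + 1) w' := rfl
    rw [this]
    refine (card_union_le _ _).trans ?_
    have h2 : ((G.neighborFinset w).biUnion fun w' => reach G (j + 1) w').card ≤
        D * cc D (j + 1) := by
      refine card_biUnion_le.trans ?_
      calc ∑ w' ∈ G.neighborFinset w, (reach G (j + 1) w').card
          ≤ ∑ w' ∈ G.neighborFinset w, cc D (j + 1) := by
            refine sum_le_sum fun w' h' => ih w' (hw'.2 w' ?_)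
            simpa using h'
        _ = G.degree w * cc D (j + 1) := by simp
        _ ≤ D * cc D (j + 1) := Nat.mul_le_mul_right _ hw'.1
    rw [card_singleton]
    change 1 + _ ≤ 1 + D * cc D (j + 1)
    omega

lemma mem_reach : ∀ (j : ℕ) {w v : V} (p : G.Walk w v), p.length ≤ j → v ∈ reach G j w := by
  intro j
  induction j with
  | zero =>
    intro w v p hp
    cases p with
    | nil => simp [reach]
    | cons h q => simp at hp
  | succ j ih =>
    intro w v p hp
    cases p with
    | nil => simp [reach]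
    | cons h q =>
      rw [Walk.length_cons] at hp
      rw [reach, mem_union, mem_biUnion]
      exact Or.inr ⟨_, by simpa using h, ih q (by omega)⟩

end

/-- Few vertices are near to a vertex of large degree. -/
lemma near_card : ∀ (j : ℕ) (ε : ℝ), 0 < ε → ∃ D : ℕ, ∀ (V : Type) [Fintype V]
    (G : SimpleGraph V) [DecidableRel G.Adj] (s : Finset V), (∀ w ∈ s, Near G D j w) →
      (s.card : ℝ) ≤ ε * S G 2 := by
  intro j
  induction j with
  | zero =>
    intro ε hε
    obtain ⟨D, hD⟩ := exists_nat_ge (1 / ε)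
    refine ⟨D, fun V _ G _ s hs => ?_⟩
    rw [div_le_iff₀ hε] at hD
    have h1 : ∀ w ∈ s, (1 : ℝ) ≤ ε * (G.degree w : ℝ) ^ 2 := by
      intro w hw
      have h' : D < G.degree w := hs w hw
      have h1 : (D : ℝ) + 1 ≤ G.degree w := by exact_mod_cast h'
      have h0 : (0 : ℝ) ≤ D := by positivity
      have h2 : (D : ℝ) ≤ (G.degree w : ℝ) ^ 2 := by nlinarith
      have h3 := mul_le_mul_of_nonneg_left h2 hε.le
      linarith
    calc (s.card : ℝ) = ∑ w ∈ s, (1 : ℝ) := by simp
      _ ≤ ∑ w ∈ s, ε * (G.degree w : ℝ) ^ 2 := sum_le_sum h1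
      _ ≤ ∑ w, ε * (G.degree w : ℝ) ^ 2 :=
          sum_le_sum_of_subset_of_nonneg (subset_univ _) fun _ _ _ => by positivity
      _ = ε * S G 2 := by rw [S, mul_sum]
  | succ j ih =>
    intro ε hε
    set D1 : ℝ := 2 / ε with hD1
    have hD1p : 0 < D1 := by positivity
    obtain ⟨D, hD⟩ := ih (ε / (2 * (1 + D1))) (by positivity)
    refine ⟨D, fun V _ G _ s hs => ?_⟩
    classical
    set N := (univ : Finset V).filter (fun w => Near G D j w) with hNdef
    have hN := hD V G N (fun w hw => (mem_filter.1 hw).2)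
    have hsub : s ⊆ N ∪ N.biUnion fun w' => G.neighborFinset w' := by
      intro w hw
      have hw' : D < G.degree w ∨ ∃ w', G.Adj w w' ∧ Near G D j w' := hs w hw
      rw [mem_union]
      rcases hw' with h | ⟨w', h1, h2⟩
      · left
        rw [hNdef, mem_filter]
        refine ⟨mem_univ _, ?_⟩
        cases j with
        | zero => exact h
        | succ j => exact Or.inl h
      · right
        rw [mem_biUnion]
        exact ⟨w', by rw [hNdef, mem_filter]; exact ⟨mem_univ _, h2⟩, by simpa using h1.symm⟩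
    have hc : s.card ≤ N.card + ∑ w' ∈ N, G.degree w' := by
      refine (card_le_card hsub).trans ((card_union_le _ _).trans ?_)
      refine Nat.add_le_add_left ?_ _
      refine card_biUnion_le.trans (le_of_eq ?_)
      simp
    have hS : (0 : ℝ) ≤ S G 2 := sum_nonneg fun v _ => by positivity
    have hsum : (∑ w' ∈ N, (G.degree w' : ℝ)) ≤ D1 * N.card + S G 2 / D1 := by
      have h1 : ∀ w' ∈ N, (G.degree w' : ℝ) ≤ D1 + (G.degree w' : ℝ) ^ 2 / D1 := by
        intro w' _
        have h0 : (0 : ℝ) ≤ G.degree w' := by positivity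
        by_cases h : (G.degree w' : ℝ) ≤ D1
        · have : 0 ≤ (G.degree w' : ℝ) ^ 2 / D1 := by positivity
          linarith
        · have h2 : (G.degree w' : ℝ) ≤ (G.degree w' : ℝ) ^ 2 / D1 := by
            rw [le_div_iff₀ hD1p]
            nlinarith [not_le.1 h]
          linarith
      refine (sum_le_sum h1).trans ?_
      rw [sum_add_distrib, sum_const, nsmul_eq_mul, mul_comm]
      refine add_le_add le_rfl ?_
      rw [S, sum_div]
      exact sum_le_sum_of_subset_of_nonneg (subset_univ _) fun _ _ _ => by positivity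
    have hc' : (s.card : ℝ) ≤ N.card + ∑ w' ∈ N, (G.degree w' : ℝ) := by exact_mod_cast hc
    have h6 : (1 + D1) * (N.card : ℝ) ≤ ε / 2 * S G 2 := by
      calc (1 + D1) * (N.card : ℝ) ≤ (1 + D1) * (ε / (2 * (1 + D1)) * S G 2) :=
            mul_le_mul_of_nonneg_left hN (by positivity)
        _ = ε / 2 * S G 2 := by
            field_simp
    have h7 : S G 2 / D1 = ε / 2 * S G 2 := by
      rw [hD1]
      field_simp
    linarith

end Pool.Agent.Q118.TreeProf
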