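import Pool.Agent.Q118.TreeProf2

/-!
# Counting connected vertex sets in trees, third part
-/

namespace Pool.Agent.Q118.TreeProf

open SimpleGraph Finset

lemma S_two_le {V : Type} [Fintype V] (G : SimpleGraph V) [DecidableRel G.Adj] (m : ℕ) :
    S G 2 ≤ S G (m + 2) := by
  refine sum_le_sum fun v _ => ?_
  rcases Nat.eq_zero_or_pos (G.degree v) with h | h
  · simp [h]
  · exact pow_le_pow_right₀ (by exact_mod_cast h) (by omega)

lemma S_nonneg {V : Type} [Fintype V] (G : SimpleGraph V) [DecidableRel G.Adj] (m : ℕ) :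
    0 ≤ S G m := sum_nonneg fun v _ => by positivity

open Classical in
/-- `k`-sets inducing a path. -/
noncomputable def paths {V : Type} [Fintype V] (G : SimpleGraph V) (k : ℕ) : Finset (Finset V) :=
  (univ : Finset (Finset V)).filter fun U => Nonempty (G.induce (U : Set V) ≃g pathGraph k)

open Classical in
/-- `k`-sets inducing a star. -/
noncomputable def stars {V : Type} [Fintype V] (G : SimpleGraph V) {k : ℕ} (r : Fin k) :
    Finset (Finset V) :=
  (univ : Finset (Finset V)).filter fun U => Nonempty (G.induce (U : Set V) ≃g starGraph r)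

open Classical in
/-- `k`-sets inducing a tree. -/
noncomputable def trees {V : Type} [Fintype V] (G : SimpleGraph V) (k : ℕ) : Finset (Finset V) :=
  (univ : Finset (Finset V)).filter fun U => U.card = k ∧ (G.induce (U : Set V)).IsTree

/-- Few vertices, unless there are many paths. -/
lemma few_vertices (m : ℕ) (ε : ℝ) (hε : 0 < ε) : ∃ n₀ : ℕ, ∀ (V : Type) [Fintype V]
    (G : SimpleGraph V) [DecidableRel G.Adj], G.IsTree → n₀ ≤ Fintype.card V →
      (Fintype.card V : ℝ) ≤ ε * S G (m + 2) + (m + 3 : ℕ) * (paths G (m + 3)).card := by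
  classical
  obtain ⟨D, hD⟩ := near_card m ε hε
  refine ⟨cc D (m + 1) + 1, fun V _ G _ hT hn => ?_⟩
  have hfar : ∀ w, ¬ Near G D m w → ∃ U ∈ paths G (m + 3), w ∈ U := by
    intro w hw
    have h1 := reach_card G D m w hw
    obtain ⟨v, hv⟩ : ∃ v, v ∉ reach G (m + 1) w := by
      by_contra hcon
      push Not at hcon
      have : (univ : Finset V) ⊆ reach G (m + 1) w := fun v _ => hcon v
      have := card_le_card this
      rw [card_univ] at this
      omega
    have hdist : m + 3 ≤ G.dist w v + 1 := by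
      by_contra hlt
      obtain ⟨p, hp⟩ := hT.1.exists_walk_length_eq_dist w v
      exact hv (mem_reach G (m + 1) p (by omega))
    obtain ⟨f, i, hi⟩ := path_embed (G := G) w v (m + 3) hT.1 hdist (by omega)
    refine ⟨univ.image f, ?_, ?_⟩
    · rw [paths, mem_filter]
      refine ⟨mem_univ _, ?_⟩
      have : ((univ.image f : Finset V) : Set V) = Set.range f := by simp
      rw [this]
      exact ⟨f.isoInduceRange.symm⟩
    · rw [mem_image]
      exact ⟨i, mem_univ _, hi⟩
  have hcardU : ∀ U ∈ paths G (m + 3), U.card = m + 3 := by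
    intro U hU
    rw [paths, mem_filter] at hU
    obtain ⟨e⟩ := hU.2
    have := Fintype.card_congr e.toEquiv
    simpa using this
  have hcover : (univ : Finset V) ⊆ (univ.filter fun w => Near G D m w) ∪
      (paths G (m + 3)).biUnion id := by
    intro w _
    rw [mem_union]
    by_cases hw : Near G D m w
    · exact Or.inl (by simp [hw])
    · obtain ⟨U, hU, hwU⟩ := hfar w hw
      exact Or.inr (mem_biUnion.2 ⟨U, hU, hwU⟩)
  have h2 : Fintype.card V ≤ (univ.filter fun w => Near G D m w).card +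
      (m + 3) * (paths G (m + 3)).card := by
    rw [← card_univ]
    refine (card_le_card hcover).trans ((card_union_le _ _).trans ?_)
    refine Nat.add_le_add_left ?_ _
    refine card_biUnion_le.trans ?_
    rw [sum_congr rfl fun U hU => (by rw [id]; exact hcardU U hU : (id U : Finset V).card = m + 3)]
    rw [sum_const, smul_eq_mul, mul_comm]
  have h3 := hD V G (univ.filter fun w => Near G D m w) (fun w hw => (mem_filter.1 hw).2)
  have h4 := S_two_le G m
  have h5 : (Fintype.card V : ℝ) ≤ ((univ.filter fun w => Near G D m w).card : ℝ) +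
      (m + 3 : ℕ) * (paths G (m + 3)).card := by exact_mod_cast h2
  have h7 : ε * S G 2 ≤ ε * S G (m + 2) := mul_le_mul_of_nonneg_left h4 hε.le
  linarith

lemma choose_bound (j : ℕ) : ∃ C : ℕ, 0 < C ∧ ∀ d : ℕ, d ^ j ≤ C * (d.choose j + 1) := by
  refine ⟨2 ^ j * j.factorial + (2 * j + 1) ^ j, by positivity, fun d => ?_⟩
  by_cases h : d ≤ 2 * j
  · calc d ^ j ≤ (2 * j + 1) ^ j := Nat.pow_le_pow_left (by omega) j
      _ ≤ (2 ^ j * j.factorial + (2 * j + 1) ^ j) * 1 := by omega
      _ ≤ _ := Nat.mul_le_mul_left _ (by omega)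
  · have h1 := Nat.pow_sub_le_descFactorial d j
    rw [Nat.descFactorial_eq_factorial_mul_choose] at h1
    calc d ^ j ≤ (2 * (d + 1 - j)) ^ j := Nat.pow_le_pow_left (by omega) j
      _ = 2 ^ j * (d + 1 - j) ^ j := by rw [mul_pow]
      _ ≤ 2 ^ j * (j.factorial * d.choose j) := Nat.mul_le_mul_left _ h1
      _ = (2 ^ j * j.factorial) * d.choose j := by ring
      _ ≤ (2 ^ j * j.factorial + (2 * j + 1) ^ j) * (d.choose j + 1) :=
          Nat.mul_le_mul (by omega) (by omega)

section
variable {V : Type} [Fintype V] {G : SimpleGraph V}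

omit [Fintype V] in
lemma star_iso (hT : G.IsTree) {k : ℕ} (r : Fin k) {U : Finset V} (hc : U.card = k)
    (hU : Starry G U) : Nonempty (G.induce (U : Set V) ≃g starGraph r) := by
  classical
  obtain ⟨h, hh, hstar⟩ := hU
  have hcard : Fintype.card (U : Set V) = Fintype.card (Fin k) := by simp [hc]
  let e₀ : (U : Set V) ≃ Fin k := Fintype.equivOfCardEq hcard
  let hU : (U : Set V) := ⟨h, by simpa using hh⟩
  let e : (U : Set V) ≃ Fin k := e₀.trans (Equiv.swap (e₀ hU) r)
  have he : e hU = r := by simp [e]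
  have hiff : ∀ x : (U : Set V), e x = r ↔ x = hU := by
    intro x
    rw [← he]
    exact e.injective.eq_iff
  refine ⟨⟨e, ?_⟩⟩
  intro a b
  rw [starGraph_adj, hiff, hiff]
  simp only [comap_adj, Function.Embedding.subtype_apply, ne_eq, e.injective.eq_iff]
  constructor
  · rintro ⟨hne, rfl | rfl⟩
    · exact hstar b (by simp) (fun h' => hne (Subtype.ext h'.symm))
    · exact (hstar a (by simp) (fun h' => hne (Subtype.ext h'))).symm
  · intro hab
    refine ⟨fun h' => hab.ne (by rw [h']), ?_⟩
    by_contra hcon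
    push Not at hcon
    have h1 : G.Adj h a := hstar a (by simp) (fun h' => hcon.1 (Subtype.ext h'))
    have h2 : G.Adj h b := hstar b (by simp) (fun h' => hcon.2 (Subtype.ext h'))
    exact hT.isAcyclic.cliqueFree le_rfl {h, (a : V), (b : V)}
      (is3Clique_triple_iff.2 ⟨h1, h2, hab⟩)

lemma mem_stars {k : ℕ} {r : Fin k} {U : Finset V} :
    U ∈ stars G r ↔ Nonempty (G.induce (U : Set V) ≃g starGraph r) := by
  simp [stars]

omit [Fintype V] in
lemma card_of_iso {k : ℕ} {H : SimpleGraph (Fin k)} {U : Finset V}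
    (h : Nonempty (G.induce (U : Set V) ≃g H)) : U.card = k := by
  classical
  obtain ⟨e⟩ := h
  have := Fintype.card_congr e.toEquiv
  simpa using this

lemma stars_sum [DecidableEq V] [DecidableRel G.Adj] (hT : G.IsTree) (j : ℕ) (r : Fin (j + 1)) :
    ∑ v, (G.degree v).choose j ≤ (j + 1) * (stars G r).card := by
  classical
  have h1 : ∑ v, (G.degree v).choose j =
      ((univ : Finset V).sigma fun v => (G.neighborFinset v).powersetCard j).card := by
    rw [card_sigma]
    refine sum_congr rfl fun v _ => ?_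
    rw [card_powersetCard, card_neighborFinset_eq_degree]
  have h2 : ((stars G r).sigma fun U => U).card = (j + 1) * (stars G r).card := by
    rw [card_sigma, mul_comm]
    rw [sum_congr rfl fun U hU => card_of_iso (mem_stars.1 hU)]
    simp
  rw [h1, ← h2]
  have hmem : ∀ x ∈ (univ : Finset V).sigma fun v => (G.neighborFinset v).powersetCard j,
      x.1 ∉ x.2 ∧ x.2.card = j ∧ ∀ y ∈ x.2, G.Adj x.1 y := by
    rintro ⟨v, A⟩ hx
    rw [mem_sigma, mem_powersetCard] at hx
    refine ⟨fun hv => ?_, hx.2.2, fun y hy => ?_⟩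
    · have := hx.2.1 hv
      simp at this
    · have := hx.2.1 hy
      simpa using this
  refine card_le_card_of_injOn (fun x => ⟨insert x.1 x.2, x.1⟩) ?_ ?_
  · rintro ⟨v, A⟩ hx
    obtain ⟨h3, h4, h5⟩ := hmem _ hx
    simp only [coe_sigma, Set.mem_sigma_iff, mem_coe, mem_insert, true_or, and_true]
    rw [mem_stars]
    refine star_iso hT r ?_ ⟨v, mem_insert_self _ _, fun u hu hne => ?_⟩
    · rw [card_insert_of_notMem h3, h4]
    · rw [mem_insert] at hu
      exact h5 u (hu.resolve_left hne)
  · rintro ⟨v, A⟩ hx ⟨v', A'⟩ hx' heq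
    obtain ⟨h3, -, -⟩ := hmem _ hx
    obtain ⟨h3', -, -⟩ := hmem _ hx'
    simp only [Sigma.mk.injEq, heq_eq_eq] at heq
    obtain ⟨h6, h7⟩ := heq
    have hv : v = v' := by simpa using h7
    subst hv
    have h3a : v ∉ A := h3
    have h3b : v ∉ A' := h3'
    have : A = A' := by
      rw [← erase_insert h3a, h6, erase_insert h3b]
    subst this
    rfl

lemma sum_bound (hT : G.IsTree) [DecidableEq V] [DecidableRel G.Adj] (j C : ℕ)
    (hC : ∀ d : ℕ, d ^ j ≤ C * (d.choose j + 1)) (r : Fin (j + 1)) :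
    S G j ≤ C * ((j + 1 : ℕ) * (stars G r).card + Fintype.card V) := by
  have h1 : ∑ v, (G.degree v) ^ j ≤ C * ((j + 1) * (stars G r).card + Fintype.card V) := by
    calc ∑ v, (G.degree v) ^ j ≤ ∑ v : V, C * ((G.degree v).choose j + 1) :=
          sum_le_sum fun v _ => hC _
      _ = C * (∑ v, (G.degree v).choose j + Fintype.card V) := by
          rw [← mul_sum, sum_add_distrib]
          simp
      _ ≤ _ := by
          refine Nat.mul_le_mul_left _ (Nat.add_le_add_right ?_ _)
          exact stars_sum hT j r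
  rw [S]
  exact_mod_cast h1

lemma mem_trees {k : ℕ} {U : Finset V} :
    U ∈ trees G k ↔ U.card = k ∧ (G.induce (U : Set V)).IsTree := by
  simp [trees]

lemma stars_sub (hT : G.IsTree) {k : ℕ} (r : Fin k) : stars G r ⊆ trees G k := by
  intro U hU
  rw [mem_stars] at hU
  rw [mem_trees]
  refine ⟨card_of_iso hU, ?_⟩
  obtain ⟨e⟩ := hU
  exact e.isTree_iff.2 (isTree_starGraph r)

lemma paths_sub (hT : G.IsTree) (k : ℕ) : paths G (k + 1) ⊆ trees G (k + 1) := by
  intro U hU
  have hU' : Nonempty (G.induce (U : Set V) ≃g pathGraph (k + 1)) := by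
    simpa [paths] using hU
  rw [mem_trees]
  refine ⟨card_of_iso hU', ?_, hT.isAcyclic.induce _⟩
  obtain ⟨e⟩ := hU'
  exact e.connected_iff.2 (pathGraph_connected k)

lemma trees_sub (hT : G.IsTree) [DecidableEq V] [DecidableRel G.Adj] {k : ℕ} (r : Fin k) :
    trees G k ⊆ stars G r ∪ nonstar G k := by
  classical
  intro U hU
  rw [mem_trees] at hU
  rw [mem_union]
  by_cases h : Starry G U
  · exact Or.inl (mem_stars.2 (star_iso hT r hU.1 h))
  · right
    rw [nonstar, mem_filter]
    exact ⟨mem_univ _, hU.1, con_of_connected hU.2.1, h⟩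

end

/-- The main inequality. -/
lemma main_ineq (m : ℕ) (ε : ℝ) (hε : 0 < ε) : ∃ (n₀ : ℕ) (C : ℝ), ∀ (V : Type) [Fintype V]
    (G : SimpleGraph V) (r : Fin (m + 3)), G.IsTree → n₀ ≤ Fintype.card V →
      0 < (trees G (m + 3)).card ∧
      ((trees G (m + 3)).card : ℝ) ≤ (stars G r).card + ε * (trees G (m + 3)).card +
        C * (paths G (m + 3)).card := by
  obtain ⟨C₀, hC₀, hchoose⟩ := choose_bound (m + 2)
  -- constants
  set k : ℝ := ((m + 3 : ℕ) : ℝ) with hk
  have hk0 : 0 < k := by
    rw [hk]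
    positivity
  have hC₀' : (0 : ℝ) < C₀ := by exact_mod_cast hC₀
  set K : ℝ := 4 * C₀ * k with hK
  have hK0 : 0 < K := by positivity
  obtain ⟨n₁, hn₁⟩ := few_vertices m (1 / (2 * C₀)) (by positivity)
  set L : ℝ := 4 * k ^ m * K / ε with hL
  have hL0 : 0 < L := by positivity
  set M : ℝ := k ^ m * (L ^ m + 1) with hM
  have hM0 : 0 < M := by positivity
  set η : ℝ := ε / (4 * M * K) with hη
  have hη0 : 0 < η := by positivity
  set C₁ : ℝ := M * (1 / η) ^ (m + 1) with hC₁
  have hC₁0 : 0 < C₁ := by positivity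
  obtain ⟨n₂, hn₂⟩ := few_vertices m (ε / (4 * C₁ * K)) (by positivity)
  refine ⟨n₁ + n₂ + 1, C₁ * k, fun V _ G r hT hn => ?_⟩
  classical
  have e1 := hn₁ V G hT (by omega)
  have e2 := hn₂ V G hT (by omega)
  have e3 := sum_bound hT (m + 2) C₀ hchoose r
  have e4 := nonstar_le G hT m hL0
  have e5 : ((trees G (m + 3)).card : ℝ) ≤ (stars G r).card + (nonstar G (m + 3)).card := by
    have := (card_le_card (trees_sub hT r)).trans (card_union_le _ _)
    exact_mod_cast this
  have e6 : ((stars G r).card : ℝ) ≤ (trees G (m + 3)).card := by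
    exact_mod_cast card_le_card (stars_sub hT r)
  have e7 : ((paths G (m + 3)).card : ℝ) ≤ (trees G (m + 3)).card := by
    exact_mod_cast card_le_card (paths_sub hT (m + 2))
  have e8 : S G (m + 1) ≤ η * S G (m + 2) + (1 / η) ^ (m + 1) * Fintype.card V := by
    rw [S, S, mul_sum]
    calc ∑ v, (G.degree v : ℝ) ^ (m + 1)
        ≤ ∑ v, (η * (G.degree v : ℝ) ^ (m + 2) + (1 / η) ^ (m + 1)) :=
          sum_le_sum fun v _ => pow_split (m + 1) hη0 (by positivity)
      _ = _ := by
          rw [sum_add_distrib, sum_const, card_univ, nsmul_eq_mul, mul_comm (Fintype.card V : ℝ)]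
  have hS0 := S_nonneg G (m + 2)
  set s : ℝ := S G (m + 2) with hs
  set n : ℝ := (Fintype.card V : ℝ) with hn'
  set P : ℝ := ((paths G (m + 3)).card : ℝ) with hP
  set Z : ℝ := ((trees G (m + 3)).card : ℝ) with hZ
  set St : ℝ := ((stars G r).card : ℝ) with hSt
  set NS : ℝ := ((nonstar G (m + 3)).card : ℝ) with hNS
  have hP0 : 0 ≤ P := by positivity
  have hZ0 : 0 ≤ Z := by positivity
  have hn0 : 0 < n := by
    rw [hn']
    exact_mod_cast (by omega : 0 < Fintype.card V)
  -- s ≤ K Z
  have f1 : s ≤ K * Z := by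
    have g1 : C₀ * n ≤ s / 2 + C₀ * k * P := by
      calc C₀ * n ≤ C₀ * (1 / (2 * C₀) * s + k * P) := mul_le_mul_of_nonneg_left e1 hC₀'.le
        _ = s / 2 + C₀ * k * P := by
            field_simp
    have g2 : s ≤ C₀ * (k * St + n) := e3
    have g3 : C₀ * k * P ≤ C₀ * k * Z := mul_le_mul_of_nonneg_left e7 (by positivity)
    have g4 : C₀ * k * St ≤ C₀ * k * Z := mul_le_mul_of_nonneg_left e6 (by positivity)
    have g5 : C₀ * (k * St + n) = C₀ * k * St + C₀ * n := by ring
    rw [hK]
    nlinarith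
  constructor
  · -- Z > 0
    by_contra hcon
    have hz : (trees G (m + 3)).card = 0 := by omega
    have hZz : Z = 0 := by
      rw [hZ, hz]
      simp
    have hPz : P = 0 := le_antisymm (by rw [hZz] at e7; exact e7) hP0
    have hsz : s = 0 := le_antisymm (by rw [hZz] at f1; simpa using f1) hS0
    rw [hPz, hsz] at e1
    simp at e1
    linarith
  · -- the inequality
    have g1 : NS ≤ k ^ m * (s / L) + M * (η * s + (1 / η) ^ (m + 1) * n) := by
      calc NS ≤ k ^ m * (s / L + (L ^ m + 1) * S G (m + 1)) := e4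
        _ ≤ k ^ m * (s / L + (L ^ m + 1) * (η * s + (1 / η) ^ (m + 1) * n)) := by
            refine mul_le_mul_of_nonneg_left ?_ (by positivity)
            refine add_le_add le_rfl ?_
            exact mul_le_mul_of_nonneg_left e8 (by positivity)
        _ = _ := by rw [hM]; ring
    have g2 : k ^ m * (s / L) = ε / (4 * K) * s := by
      rw [hL]
      field_simp
    have g3 : M * (η * s + (1 / η) ^ (m + 1) * n) = ε / (4 * K) * s + C₁ * n := by
      rw [hC₁, mul_add, ← mul_assoc M η, ← mul_assoc M ((1 / η) ^ (m + 1)), hη]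
      congr 2
      field_simp
    have g4 : C₁ * n ≤ ε / (4 * K) * s + C₁ * k * P := by
      calc C₁ * n ≤ C₁ * (ε / (4 * C₁ * K) * s + k * P) :=
            mul_le_mul_of_nonneg_left e2 hC₁0.le
        _ = _ := by
            field_simp
    have g5 : ε / (4 * K) * s ≤ ε / 4 * Z := by
      calc ε / (4 * K) * s ≤ ε / (4 * K) * (K * Z) :=
            mul_le_mul_of_nonneg_left f1 (by positivity)
        _ = _ := by field_simp
    have g6 : 0 ≤ ε * Z := by positivity
    linarith

end Pool.Agent.Q118.TreeProf
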