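import Pool.Agent.Q118.Partite
set_option autoImplicit false
open Finset
open scoped Classical

/-!
Ramsey's theorem for several colours, transversals avoiding a colour, and the passage from coloured
complete graphs to sparse graphs with the help of the partite construction.
-/

namespace Pool.Agent.Q118.TypedRamsey

open Pool.Agent.Q118.Partite

/-- All pairs of distinct elements of `S` have colour `i`. -/
def Mono {I : Type} {r : ℕ} (c : Sym2 I → Fin r) (i : Fin r) (S : Finset I) : Prop :=
  ∀ a ∈ S, ∀ b ∈ S, a ≠ b → c s(a, b) = i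

theorem Mono.subset {I : Type} {r : ℕ} {c : Sym2 I → Fin r} {i : Fin r} {S T : Finset I}
    (h : Mono c i S) (hT : T ⊆ S) : Mono c i T :=
  fun a ha b hb hab => h a (hT ha) b (hT hb) hab

/-- Ramsey's theorem. -/
theorem ramsey (r : ℕ) (t : ℕ) : ∀ n : Fin r → ℕ, ∑ i, n i ≤ t → ∃ N : ℕ, ∀ (I : Type)
    (c : Sym2 I → Fin r) (X : Finset I), N ≤ X.card →
      ∃ i, ∃ S ⊆ X, S.card = n i ∧ Mono c i S := by
  induction t with
  | zero =>
    intro n hn
    refine ⟨1, fun I c X hX => ?_⟩
    obtain ⟨x, hx⟩ : X.Nonempty := card_pos.1 (by omega)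
    have h0 : n (c s(x, x)) = 0 := by
      have := single_le_sum (f := n) (fun i _ => Nat.zero_le _) (mem_univ (c s(x, x)))
      omega
    exact ⟨c s(x, x), ∅, empty_subset _, by rw [h0]; rfl, by intro a ha; simp at ha⟩
  | succ t ih =>
    intro n hn
    by_cases hz : ∃ i, n i = 0
    · obtain ⟨i, hi⟩ := hz
      exact ⟨0, fun I c X _ => ⟨i, ∅, empty_subset _, by rw [hi]; rfl, by
        intro a ha; simp at ha⟩⟩
    push Not at hz
    have hih : ∀ i, ∃ N : ℕ, ∀ (I : Type) (c : Sym2 I → Fin r) (X : Finset I), N ≤ X.card →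
      ∃ j, ∃ S ⊆ X, S.card = Function.update n i (n i - 1) j ∧ Mono c j S := by
      intro i
      apply ih
      rw [sum_update_of_mem (mem_univ i)]
      have h1 : ∑ j, n j = n i + ∑ j ∈ univ \ {i}, n j := by
        rw [← add_sum_erase univ n (mem_univ i), sdiff_singleton_eq_erase]
      have h2 : n i ≠ 0 := hz i
      omega
    choose N hN using hih
    refine ⟨1 + ∑ i, N i, fun I c X hX => ?_⟩
    obtain ⟨x, hx⟩ : X.Nonempty := card_pos.1 (by omega)
    have hfib : ∑ i, ((X.erase x).filter fun y => c s(x, y) = i).card = (X.erase x).card :=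
      (card_eq_sum_card_fiberwise (fun y _ => mem_coe.2 (mem_univ (c s(x, y))))).symm
    rw [card_erase_of_mem hx] at hfib
    obtain ⟨i, hi⟩ : ∃ i, N i ≤ ((X.erase x).filter fun y => c s(x, y) = i).card := by
      by_contra hcon
      push Not at hcon
      have hne : (univ : Finset (Fin r)).Nonempty := ⟨c s(x, x), mem_univ _⟩
      have := sum_lt_sum_of_nonempty hne fun i _ => hcon i
      omega
    obtain ⟨j, S, hS, hSc, hSm⟩ := hN i I c _ hi
    by_cases hji : j = i
    · subst hji
      rw [Function.update_self] at hSc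
      have hxS : x ∉ S := fun h => by
        have := hS h
        rw [mem_filter, mem_erase] at this
        exact this.1.1 rfl
      refine ⟨j, insert x S, ?_, ?_, ?_⟩
      · rw [insert_subset_iff]
        exact ⟨hx, fun y hy => mem_of_mem_erase (mem_filter.1 (hS hy)).1⟩
      · rw [card_insert_of_notMem hxS, hSc]
        have := hz j
        omega
      · intro a ha b hb hab
        rw [mem_insert] at ha hb
        rcases ha with rfl | ha <;> rcases hb with rfl | hb
        · exact absurd rfl hab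
        · exact (mem_filter.1 (hS hb)).2
        · rw [Sym2.eq_swap]
          exact (mem_filter.1 (hS ha)).2
        · exact hSm a ha b hb hab
    · rw [Function.update_of_ne hji] at hSc
      exact ⟨j, S, fun y hy => mem_of_mem_erase (mem_filter.1 (hS hy)).1, hSc, hSm⟩

theorem ramsey' {r : ℕ} (n : Fin r → ℕ) : ∃ N : ℕ, ∀ (I : Type)
    (c : Sym2 I → Fin r) (X : Finset I), N ≤ X.card →
      ∃ i, ∃ S ⊆ X, S.card = n i ∧ Mono c i S := ramsey r _ n le_rfl

/-- A transversal without a pair of colour `d`, when any two elements of a set have few common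
neighbours of colour `d` in every other set. -/
theorem transversal {I Λ : Type} [Nonempty I] {r : ℕ} (c : Sym2 I → Fin r) (d : Fin r) (k : ℕ)
    (J : Finset Λ) : ∀ Q : Λ → Finset I,
      (∀ j ∈ J, k * J.card ^ 3 + J.card ≤ (Q j).card) →
      (∀ i ∈ J, ∀ j ∈ J, i ≠ j → ∀ v ∈ Q j, ∀ v' ∈ Q j, v ≠ v' →
        ((Q i).filter fun u => c s(u, v) = d ∧ c s(u, v') = d).card ≤ k) →
      ∃ v : Λ → I, (∀ j ∈ J, v j ∈ Q j) ∧ ∀ i ∈ J, ∀ j ∈ J, i ≠ j → c s(v i, v j) ≠ d := by
  induction J using Finset.induction_on with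
  | empty =>
    intro Q _ _
    exact ⟨fun _ => Classical.arbitrary I, by simp, by simp⟩
  | insert j0 J hj0 ih =>
    intro Q hQ hcom
    rw [card_insert_of_notMem hj0] at hQ
    have hj0J : j0 ∈ insert j0 J := mem_insert_self _ _
    obtain ⟨T, hT, hTc⟩ := exists_subset_card_eq (show J.card + 1 ≤ (Q j0).card by
      have := hQ j0 hj0J
      omega)
    let bad : Λ → Finset I := fun i => (T ×ˢ T).biUnion fun p =>
      if p.1 ≠ p.2 then (Q i).filter fun u => c s(u, p.1) = d ∧ c s(u, p.2) = d else ∅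
    have hbad : ∀ i ∈ J, (bad i).card ≤ (J.card + 1) ^ 2 * k := by
      intro i hi
      refine card_biUnion_le.trans ?_
      have h1 : ∀ p ∈ T ×ˢ T, (if p.1 ≠ p.2 then
          (Q i).filter fun u => c s(u, p.1) = d ∧ c s(u, p.2) = d else ∅).card ≤ k := by
        intro p hp
        rw [mem_product] at hp
        split
        · rename_i hne
          exact hcom i (mem_insert_of_mem hi) j0 hj0J (fun e => hj0 (e ▸ hi)) p.1 (hT hp.1) p.2
            (hT hp.2) hne
        · simp
      refine (sum_le_sum h1).trans ?_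
      rw [sum_const, card_product, hTc, smul_eq_mul]
      exact le_of_eq (by ring)
    obtain ⟨v, hv1, hv2⟩ := ih (fun i => Q i \ bad i) (by
      intro j hj
      have h1 := hQ j (mem_insert_of_mem hj)
      have h2 := hbad j hj
      have h3 := le_card_sdiff (bad j) (Q j)
      have h4 : k * J.card ^ 3 + (J.card + 1) ^ 2 * k ≤ k * (J.card + 1) ^ 3 := by
        have : k * (J.card + 1) ^ 3 = k * J.card ^ 3 + (J.card + 1) ^ 2 * k +
          k * (J.card ^ 2 * 2 + J.card) := by ring
        rw [this]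
        exact Nat.le_add_right _ _
      omega) (by
      intro i hi j hj hij a ha a' ha' hne
      refine le_trans (card_le_card ?_) (hcom i (mem_insert_of_mem hi) j (mem_insert_of_mem hj)
        hij a (sdiff_subset ha) a' (sdiff_subset ha') hne)
      exact filter_subset_filter _ sdiff_subset)
    -- each chosen vertex has at most one neighbour of colour `d` in `T`
    have hone : ∀ i ∈ J, (T.filter fun t => c s(v i, t) = d).card ≤ 1 := by
      intro i hi
      rw [card_le_one]
      intro t ht t' ht'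
      by_contra hne
      rw [mem_filter] at ht ht'
      have h1 := hv1 i hi
      rw [mem_sdiff] at h1
      apply h1.2
      simp only [bad, mem_biUnion]
      refine ⟨(t, t'), mem_product.2 ⟨ht.1, ht'.1⟩, ?_⟩
      rw [if_pos hne, mem_filter]
      exact ⟨h1.1, ht.2, ht'.2⟩
    obtain ⟨t, htT, ht⟩ : ∃ t ∈ T, ∀ i ∈ J, c s(v i, t) ≠ d := by
      by_contra hcon
      push Not at hcon
      have hsub : T ⊆ J.biUnion fun i => T.filter fun t => c s(v i, t) = d := by
        intro t ht
        obtain ⟨i, hi, hit⟩ := hcon t ht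
        rw [mem_biUnion]
        exact ⟨i, hi, mem_filter.2 ⟨ht, hit⟩⟩
      have h1 := (card_le_card hsub).trans (card_biUnion_le.trans (sum_le_sum hone))
      rw [sum_const, smul_eq_mul, mul_one, hTc] at h1
      omega
    refine ⟨Function.update v j0 t, ?_, ?_⟩
    · intro j hj
      by_cases hjj : j = j0
      · rw [hjj, Function.update_self]
        exact hT htT
      · rw [Function.update_of_ne hjj]
        exact sdiff_subset (hv1 j (mem_of_mem_insert_of_ne hj hjj))
    · intro i hi j hj hij
      by_cases hii : i = j0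
      · have hjj : j ≠ j0 := fun e => hij (hii.trans e.symm)
        rw [hii, Function.update_self, Function.update_of_ne hjj, Sym2.eq_swap]
        exact ht j (mem_of_mem_insert_of_ne hj hjj)
      · by_cases hjj : j = j0
        · rw [hjj, Function.update_self, Function.update_of_ne hii]
          exact ht i (mem_of_mem_insert_of_ne hi hii)
        · rw [Function.update_of_ne hii, Function.update_of_ne hjj]
          exact hv2 i (mem_of_mem_insert_of_ne hi hii) j (mem_of_mem_insert_of_ne hj hjj) hij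

/-! ### Typed complete graphs -/

/-- The sets of size `k` all of whose pairs have the same type. -/
def Forb {I : Type} {m : ℕ} (τ : Sym2 I → Fin m) (k : ℕ) : Set (Finset I) :=
  {A | A.card = k ∧ ∃ t, Mono τ t A}

/-- The sets containing no forbidden set. -/
def Free {I : Type} {m : ℕ} (τ : Sym2 I → Fin m) (k : ℕ) : Set (Finset I) :=
  {B | ∀ A ∈ Forb τ k, ¬ A ⊆ B}

theorem free_of_card_lt {I : Type} {m : ℕ} (τ : Sym2 I → Fin m) {k : ℕ} {B : Finset I}
    (h : B.card < k) : B ∈ Free τ k := by
  intro A hA hAB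
  have := card_le_card hAB
  rw [hA.1] at this
  omega

/-- `G → (K_{a_1}, …, K_{a_r})`: every colouring of the edges of `G` with `r` colours has, for some
`i`, a set of `a_i` vertices any two of which are joined by an edge of colour `i`. -/
def Arrow {V : Type} {r : ℕ} (G : SimpleGraph V) (a : Fin r → ℕ) : Prop :=
  ∀ c : Sym2 V → Fin r, ∃ i, ∃ S : Finset V, S.card = a i ∧
    ∀ u ∈ S, ∀ v ∈ S, u ≠ v → G.Adj u v ∧ c s(u, v) = i

/-- From a typed complete graph with a Ramsey property to a graph. -/
theorem assemble {I : Type} [Finite I] {m : ℕ} (τ : Sym2 I → Fin m) {k r : ℕ} (hk : 3 ≤ k)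
    (hr : 0 < r) (a : Fin r → ℕ)
    (h : ∀ χ : Sym2 I → Fin r, ∃ i, ∃ B ∈ Free τ k, B.card = a i ∧ Mono χ i B) :
    ∃ (V : Type) (_ : Finite V) (G : SimpleGraph V),
      (∃ c : Sym2 V → Fin m, ∀ i, ¬ ∃ S : Finset V, S.card = k ∧
        ∀ u ∈ S, ∀ v ∈ S, u ≠ v → G.Adj u v ∧ c s(u, v) = i) ∧ Arrow G a := by
  have : Nonempty (Fin r) := ⟨⟨0, hr⟩⟩
  obtain ⟨P, h1, h2⟩ := construction (Fin r) (Forb τ k) (Free τ k)
    (fun A hA => by rw [hA.1]; exact hk) (fun B hB => hB)
  refine ⟨P.V, P.fin, P.G, ⟨fun e => τ (e.map P.π), ?_⟩, ?_⟩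
  · rintro i ⟨S, hS, hSm⟩
    have hinj : Set.InjOn P.π S := by
      intro u hu v hv huv
      by_contra hne
      exact P.part u v (hSm u hu v hv hne).1 huv
    have hV : Nonempty P.V := by
      obtain ⟨x, -⟩ : S.Nonempty := card_pos.1 (by omega)
      exact ⟨x⟩
    have hex : ∀ z ∈ S.image P.π, ∃ u ∈ S, P.π u = z := fun z hz => by
      simpa using hz
    choose! s hs1 hs2 using hex
    refine h1 (S.image P.π) ⟨by rw [card_image_of_injOn hinj, hS], i, ?_⟩ ⟨s, hs2, ?_⟩
    · intro z hz z' hz' hne
      have h3 := hSm _ (hs1 z hz) _ (hs1 z' hz') (fun e => hne (by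
        rw [← hs2 z hz, ← hs2 z' hz', e]))
      have h4 : τ (Sym2.map P.π s(s z, s z')) = i := h3.2
      rwa [Sym2.map_mk, hs2 z hz, hs2 z' hz'] at h4
    · intro z hz z' hz' hne
      exact (hSm _ (hs1 z hz) _ (hs1 z' hz') (fun e => hne (by
        rw [← hs2 z hz, ← hs2 z' hz', e]))).1
  · intro χ
    obtain ⟨χ0, hχ0⟩ := h2 χ
    obtain ⟨i, B, hB, hBc, hBm⟩ := h χ0
    obtain ⟨s, hs1, hs2⟩ := hχ0 B hB
    have hinj : Set.InjOn s B := by
      intro z hz z' hz' hzz
      rw [← hs1 z hz, ← hs1 z' hz', hzz]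
    refine ⟨i, B.image s, by rw [card_image_of_injOn hinj, hBc], ?_⟩
    intro u hu v hv huv
    rw [mem_image] at hu hv
    obtain ⟨z, hz, rfl⟩ := hu
    obtain ⟨z', hz', rfl⟩ := hv
    have hne : z ≠ z' := fun e => huv (by rw [e])
    obtain ⟨h3, h4⟩ := hs2 z hz z' hz' hne
    exact ⟨h3, by rw [h4]; exact hBm z hz z' hz' hne⟩

/-! ### Two types: rows -/

/-- The type of a pair: `0` inside a row, `1` otherwise. -/
noncomputable def tau2 {Λ X : Type} : Sym2 (Λ × X) → Fin 2 :=
  Sym2.lift ⟨fun a b => if a.1 = b.1 then 0 else 1, fun a b => by simp only [eq_comm]⟩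

theorem tau2_eq {Λ X : Type} (a b : Λ × X) : tau2 s(a, b) = if a.1 = b.1 then 0 else 1 := rfl

/-- `k-1` elements of a row and one element outside the row. -/
theorem free2_one {Λ X : Type} [DecidableEq (Λ × X)] {k : ℕ} (hk : 3 ≤ k) {T : Finset (Λ × X)} {v : Λ × X} {a : Λ}
    (hT : ∀ u ∈ T, u.1 = a) (hTc : T.card = k - 1) (hv : v.1 ≠ a) :
    insert v T ∈ Free (tau2 (Λ := Λ) (X := X)) k := by
  intro A hA hsub
  have hvT : v ∉ T := fun h => hv (hT v h)
  have hA' : A = insert v T := eq_of_subset_of_card_le hsub (by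
    rw [card_insert_of_notMem hvT, hTc, hA.1]; omega)
  obtain ⟨t, ht⟩ := hA.2
  rw [hA'] at ht
  obtain ⟨x, hx, y, hy, hxy⟩ := one_lt_card.1 (show 1 < T.card by omega)
  have h1 := ht x (mem_insert_of_mem hx) y (mem_insert_of_mem hy) hxy
  have h2 := ht v (mem_insert_self _ _) x (mem_insert_of_mem hx) (fun e => hvT (e ▸ hx))
  rw [tau2_eq, if_pos (by rw [hT x hx, hT y hy])] at h1
  rw [tau2_eq, if_neg (by rw [hT x hx]; exact hv)] at h2
  rw [← h1] at h2
  exact absurd h2 (by decide)

/-- A set inside two rows with fewer than `k` elements in each. -/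
theorem free2_two {Λ X : Type} {k : ℕ} (hk : 3 ≤ k) {B : Finset (Λ × X)} {a b : Λ}
    (hB : ∀ u ∈ B, u.1 = a ∨ u.1 = b) (ha : ∀ A ⊆ B, (∀ u ∈ A, u.1 = a) → A.card < k)
    (hb : ∀ A ⊆ B, (∀ u ∈ A, u.1 = b) → A.card < k) : B ∈ Free (tau2 (Λ := Λ) (X := X)) k := by
  rintro A ⟨hAc, t, ht⟩ hsub
  obtain ⟨x, hx⟩ : A.Nonempty := card_pos.1 (by omega)
  by_cases ht0 : t = 0
  · -- one row
    have hrow : ∀ u ∈ A, u.1 = x.1 := by
      intro u hu
      by_cases hux : u = x
      · rw [hux]
      · have := ht u hu x hx hux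
        rw [tau2_eq, ht0] at this
        by_contra hne
        rw [if_neg hne] at this
        exact absurd this (by decide)
    rcases hB x (hsub hx) with h | h
    · have := ha A hsub fun u hu => by rw [hrow u hu, h]
      omega
    · have := hb A hsub fun u hu => by rw [hrow u hu, h]
      omega
  · -- different rows
    have hinj : Set.InjOn Prod.fst (A : Set (Λ × X)) := by
      intro u hu w hw huw
      by_contra hne
      have := ht u hu w hw hne
      rw [tau2_eq, if_pos huw] at this
      exact ht0 this.symm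
    have h1 : A.image Prod.fst ⊆ {a, b} := by
      intro z hz
      rw [mem_image] at hz
      obtain ⟨u, hu, rfl⟩ := hz
      rw [mem_insert, mem_singleton]
      exact hB u (hsub hu)
    have h2 := (card_le_card h1).trans card_le_two
    rw [card_image_of_injOn hinj] at h2
    omega

end Pool.Agent.Q118.TypedRamsey
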