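import Pool.Agent.Q118.TypedRamsey
set_option autoImplicit false
open Finset
open scoped Classical

/-!
Typed complete graphs with the Ramsey property for `(K_{k+1}, K_{k-1}, K_l)`.
-/

namespace Pool.Agent.Q118.TypedThree

open Pool.Agent.Q118.Partite Pool.Agent.Q118.TypedRamsey

theorem free_pattern_one {I : Type} {m : ℕ} (τ : Sym2 I → Fin m) {k : ℕ} (hk : 3 ≤ k)
    {T : Finset I} {w : I} {t0 : Fin m} (hTc : T.card = k - 1) (hT : Mono τ t0 T) (hw : w ∉ T)
    (hcross : ∀ t ∈ T, τ s(t, w) ≠ t0) : insert w T ∈ Free τ k := by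
  intro A hA hsub
  have hA' : A = insert w T := eq_of_subset_of_card_le hsub (by
    rw [card_insert_of_notMem hw, hTc, hA.1]; omega)
  obtain ⟨t, ht⟩ := hA.2
  rw [hA'] at ht
  obtain ⟨x, hx, y, hy, hxy⟩ := one_lt_card.1 (show 1 < T.card by omega)
  have h1 := ht x (mem_insert_of_mem hx) y (mem_insert_of_mem hy) hxy
  have h2 := ht x (mem_insert_of_mem hx) w (mem_insert_self _ _) (fun e => hw (e ▸ hx))
  rw [hT x hx y hy hxy] at h1
  exact hcross x hx (by rw [h2, h1])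

theorem free_pattern_two {I : Type} {m : ℕ} (τ : Sym2 I → Fin m) {k : ℕ} (hk : 3 ≤ k)
    {T : Finset I} {w w' : I} {t0 : Fin m} (hTc : T.card = k - 1) (hT : Mono τ t0 T)
    (hww : τ s(w, w') = t0) (hcross : ∀ t ∈ T, τ s(t, w) ≠ t0 ∧ τ s(t, w') ≠ t0) :
    insert w (insert w' T) ∈ Free τ k := by
  rintro A ⟨hAc, t, ht⟩ hsub
  by_cases htt : t = t0
  · subst htt
    by_cases hx : ∃ x ∈ A, x ∈ T ∧ x ≠ w ∧ x ≠ w'
    · obtain ⟨x, hxA, hxT, hxw, hxw'⟩ := hx
      have h1 : w ∉ A := fun h => (hcross x hxT).1 (ht x hxA w h hxw)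
      have h2 : w' ∉ A := fun h => (hcross x hxT).2 (ht x hxA w' h hxw')
      have h3 : A ⊆ T := by
        intro y hy
        have := hsub hy
        rw [mem_insert, mem_insert] at this
        rcases this with rfl | rfl | h
        · exact absurd hy h1
        · exact absurd hy h2
        · exact h
      have := card_le_card h3
      omega
    · push Not at hx
      have h3 : A ⊆ {w, w'} := by
        intro y hy
        have := hsub hy
        rw [mem_insert, mem_insert] at this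
        rw [mem_insert, mem_singleton]
        rcases this with h | h | h
        · exact Or.inl h
        · exact Or.inr h
        · by_cases hyw : y = w
          · exact Or.inl hyw
          · exact Or.inr (hx y hy h hyw)
      have := (card_le_card h3).trans card_le_two
      omega
  · have h1 : (A.filter fun y => y ∈ T).card ≤ 1 := by
      rw [card_le_one]
      intro x hx y hy
      rw [mem_filter] at hx hy
      by_contra hxy
      exact htt (by rw [← ht x hx.1 y hy.1 hxy, hT x hx.2 y hy.2 hxy])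
    have h2 : (A.filter fun y => ¬ y ∈ T).card ≤ 1 := by
      rw [card_le_one]
      intro x hx y hy
      rw [mem_filter] at hx hy
      by_contra hxy
      have hx' := hsub hx.1
      have hy' := hsub hy.1
      rw [mem_insert, mem_insert] at hx' hy'
      have h3 := ht x hx.1 y hy.1 hxy
      rcases hx' with rfl | rfl | h
      · rcases hy' with rfl | rfl | h'
        · exact hxy rfl
        · exact htt (by rw [← h3, hww])
        · exact hy.2 h'
      · rcases hy' with rfl | rfl | h'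
        · exact htt (by rw [← h3, Sym2.eq_swap, hww])
        · exact hxy rfl
        · exact hy.2 h'
      · exact hx.2 h
    have h3 := card_filter_add_card_filter_not (s := A) (fun y => y ∈ T)
    omega

/-- Elimination of the colour `d` by passing to a transversal. -/
theorem elim {I Λ : Type} [Nonempty I] {m : ℕ} (τ : Sym2 I → Fin m) (χ : Sym2 I → Fin 3) {k : ℕ}
    (hk : 3 ≤ k) (d : Fin 3) (t0 : Fin m)
    (hno : (∀ B ∈ Free τ k, B.card = k + 1 → ¬ Mono χ d B) ∨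
      (∀ B ∈ Free τ k, B.card = k → ¬ Mono χ d B))
    (J : Finset Λ) (Q : Λ → Finset I) (hQ : ∀ j ∈ J, k * J.card ^ 3 + J.card ≤ (Q j).card)
    (hχ : ∀ j ∈ J, Mono χ d (Q j)) (hτ : ∀ j ∈ J, Mono τ t0 (Q j))
    (hdisj : ∀ i ∈ J, ∀ j ∈ J, i ≠ j → ∀ u ∈ Q i, u ∉ Q j)
    (hcross : ∀ i ∈ J, ∀ j ∈ J, i ≠ j → ∀ u ∈ Q i, ∀ v ∈ Q j, τ s(u, v) ≠ t0) :
    ∃ v : Λ → I, (∀ j ∈ J, v j ∈ Q j) ∧ ∀ i ∈ J, ∀ j ∈ J, i ≠ j → χ s(v i, v j) ≠ d := by
  refine transversal χ d k J Q hQ ?_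
  intro i hi j hj hij w hw w' hw' hww
  by_contra hcon
  push Not at hcon
  obtain ⟨T, hT, hTc⟩ := exists_subset_card_eq (show k - 1 ≤
    ((Q i).filter fun u => χ s(u, w) = d ∧ χ s(u, w') = d).card from by omega)
  have hTQ : T ⊆ Q i := fun u hu => (mem_filter.1 (hT hu)).1
  have hwT : w ∉ T := fun h => hdisj i hi j hj hij w (hTQ h) hw
  have hwT' : w' ∉ T := fun h => hdisj i hi j hj hij w' (hTQ h) hw'
  rcases hno with hno | hno
  · refine hno (insert w (insert w' T)) (free_pattern_two τ hk hTc ((hτ i hi).subset hTQ)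
      (hτ j hj w hw w' hw' hww) (fun t ht => ⟨hcross i hi j hj hij t (hTQ ht) w hw,
        hcross i hi j hj hij t (hTQ ht) w' hw'⟩)) ?_ ?_
    · rw [card_insert_of_notMem, card_insert_of_notMem hwT', hTc]
      · omega
      · rw [mem_insert, not_or]
        exact ⟨hww, hwT⟩
    · have h1 : ∀ t ∈ T, χ s(t, w) = d := fun t ht => (mem_filter.1 (hT ht)).2.1
      have h2 : ∀ t ∈ T, χ s(t, w') = d := fun t ht => (mem_filter.1 (hT ht)).2.2
      intro x hx y hy hxy
      rw [mem_insert, mem_insert] at hx hy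
      rcases hx with rfl | rfl | hx
      · rcases hy with rfl | rfl | hy
        · exact absurd rfl hxy
        · exact hχ j hj _ hw _ hw' hxy
        · rw [Sym2.eq_swap]; exact h1 y hy
      · rcases hy with rfl | rfl | hy
        · exact hχ j hj _ hw' _ hw hxy
        · exact absurd rfl hxy
        · rw [Sym2.eq_swap]; exact h2 y hy
      · rcases hy with rfl | rfl | hy
        · exact h1 x hx
        · exact h2 x hx
        · exact hχ i hi x (hTQ hx) y (hTQ hy) hxy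
  · refine hno (insert w T) (free_pattern_one τ hk hTc ((hτ i hi).subset hTQ) hwT
      (fun t ht => hcross i hi j hj hij t (hTQ ht) w hw)) ?_ ?_
    · rw [card_insert_of_notMem hwT, hTc]
      omega
    · intro x hx y hy hxy
      rw [mem_insert] at hx hy
      rcases hx with rfl | hx
      · rcases hy with rfl | hy
        · exact absurd rfl hxy
        · rw [Sym2.eq_swap]; exact (mem_filter.1 (hT hy)).2.1
      · rcases hy with rfl | hy
        · exact (mem_filter.1 (hT hx)).2.1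
        · exact hχ i hi x (hTQ hx) y (hTQ hy) hxy

/-- Two types: the case `l < k`. -/
theorem stage_lt {k l : ℕ} (hk : 3 ≤ k) (hlk : l < k) : ∃ M N : ℕ,
    ∀ χ : Sym2 (Fin M × Fin N) → Fin 3, ∃ i, ∃ B ∈ Free (tau2 (Λ := Fin M) (X := Fin N)) k,
      B.card = (![k + 1, k - 1, l] : Fin 3 → ℕ) i ∧ Mono χ i B := by
  obtain ⟨M, hM⟩ := ramsey' (![2, k - 1, l] : Fin 3 → ℕ)
  obtain ⟨N, hN⟩ := ramsey' (![k * (M + 1) ^ 3 + (M + 1), k - 1, l] : Fin 3 → ℕ)
  refine ⟨M + 1, N + 1, fun χ => ?_⟩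
  by_contra hno
  have hno' : ∀ i : Fin 3, ∀ B ∈ Free (tau2 (Λ := Fin (M + 1)) (X := Fin (N + 1))) k,
      B.card = (![k + 1, k - 1, l] : Fin 3 → ℕ) i → ¬ Mono χ i B :=
    fun i B hB hc hm => hno ⟨i, B, hB, hc, hm⟩
  have hrow : ∀ a : Fin (M + 1), ∃ S : Finset (Fin (M + 1) × Fin (N + 1)), (∀ u ∈ S, u.1 = a) ∧
      S.card = k * (M + 1) ^ 3 + (M + 1) ∧ Mono χ 0 S := by
    intro a
    obtain ⟨i, S, hS, hSc, hSm⟩ := hN _ χ (univ.image fun n : Fin (N + 1) => (a, n)) (by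
      rw [card_image_of_injective _ (fun n n' h => (Prod.mk.inj h).2), card_univ, Fintype.card_fin]
      omega)
    have hSa : ∀ u ∈ S, u.1 = a := fun u hu => by
      have := hS hu
      rw [mem_image] at this
      obtain ⟨n, -, rfl⟩ := this
      rfl
    fin_cases i
    · exact ⟨S, hSa, hSc, hSm⟩
    · exact absurd hSm (hno' 1 S (free_of_card_lt _ (by rw [hSc]; simp; omega)) hSc)
    · exact absurd hSm (hno' 2 S (free_of_card_lt _ (by rw [hSc]; simpa using hlk)) hSc)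
  choose Q hQ1 hQ2 hQ3 using hrow
  obtain ⟨v, hv1, hv2⟩ := elim tau2 χ hk 0 0 (Or.inl fun B hB hBc => hno' 0 B hB hBc) univ Q (by
    intro j _
    rw [hQ2, card_univ, Fintype.card_fin]) (fun j _ => hQ3 j) (by
    intro j _ u hu u' hu' _
    rw [tau2_eq, if_pos (by rw [hQ1 j u hu, hQ1 j u' hu'])]) (by
    intro i _ j _ hij u hu hu'
    exact hij (by rw [← hQ1 i u hu, hQ1 j u hu'])) (by
    intro i _ j _ hij u hu u' hu'
    rw [tau2_eq, if_neg (by rw [hQ1 i u hu, hQ1 j u' hu']; exact hij)]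
    decide)
  have hvinj : Function.Injective v := by
    intro a b hab
    rw [← hQ1 a _ (hv1 a (mem_univ a)), ← hQ1 b _ (hv1 b (mem_univ b)), hab]
  obtain ⟨i, S, hS, hSc, hSm⟩ := hM _ χ (univ.image v) (by
    rw [card_image_of_injective _ hvinj, card_univ, Fintype.card_fin]
    omega)
  fin_cases i
  · obtain ⟨x, hx, y, hy, hxy⟩ := one_lt_card.1 (show 1 < S.card by rw [hSc]; simp)
    have h1 := hSm x hx y hy hxy
    have hx' := hS hx
    have hy' := hS hy
    rw [mem_image] at hx' hy'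
    obtain ⟨a, -, rfl⟩ := hx'
    obtain ⟨b, -, rfl⟩ := hy'
    exact hv2 a (mem_univ a) b (mem_univ b) (fun e => hxy (by rw [e])) h1
  · exact hno' 1 S (free_of_card_lt _ (by rw [hSc]; simp; omega)) hSc hSm
  · exact hno' 2 S (free_of_card_lt _ (by rw [hSc]; simpa using hlk)) hSc hSm

/-- The type of a pair: `0` inside a row, `1` inside a block but not a row, `2` otherwise. -/
noncomputable def tau3 {Β Α X : Type} : Sym2 ((Β × Α) × X) → Fin 3 :=
  Sym2.lift ⟨fun a b => if a.1 = b.1 then 0 else if a.1.1 = b.1.1 then 1 else 2, fun a b => by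
    simp only [eq_comm]⟩

theorem tau3_eq {Β Α X : Type} (a b : (Β × Α) × X) :
    tau3 s(a, b) = if a.1 = b.1 then 0 else if a.1.1 = b.1.1 then 1 else 2 := rfl

/-- Three types: the case `l = k`. -/
theorem stage_eq {k : ℕ} (hk : 3 ≤ k) : ∃ b a N : ℕ,
    ∀ χ : Sym2 ((Fin b × Fin a) × Fin N) → Fin 3, ∃ i,
      ∃ B ∈ Free (tau3 (Β := Fin b) (Α := Fin a) (X := Fin N)) k,
      B.card = (![k + 1, k - 1, k] : Fin 3 → ℕ) i ∧ Mono χ i B := by
  -- the numbers
  obtain ⟨m1, hm1⟩ : ∃ m1, m1 = k - 1 := ⟨_, rfl⟩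
  obtain ⟨l1, hl1⟩ : ∃ l1, l1 = k * m1 ^ 3 + m1 := ⟨_, rfl⟩
  obtain ⟨m2a, hm2a⟩ := ramsey' (![l1, k - 1, 2] : Fin 3 → ℕ)
  obtain ⟨m2b, hm2b⟩ := ramsey' (![2, k - 1, l1] : Fin 3 → ℕ)
  obtain ⟨m2, hm2⟩ : ∃ m2, m2 = m2a + m2b + 1 := ⟨_, rfl⟩
  obtain ⟨l2, hl2⟩ : ∃ l2, l2 = k * (m1 * m2) ^ 3 + m1 * m2 := ⟨_, rfl⟩
  obtain ⟨N, hN⟩ := ramsey' (![l2, k - 1, l2] : Fin 3 → ℕ)
  refine ⟨2 * m1, 2 * m2, N + 1, fun χ => ?_⟩
  by_contra hno
  have hno' : ∀ i : Fin 3, ∀ B ∈ Free (tau3 (Β := Fin (2 * m1)) (Α := Fin (2 * m2))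
      (X := Fin (N + 1))) k,
      B.card = (![k + 1, k - 1, k] : Fin 3 → ℕ) i → ¬ Mono χ i B :=
    fun i B hB hc hm => hno ⟨i, B, hB, hc, hm⟩
  have hnod : ∀ d : Fin 3, d ≠ 1 → ((∀ B ∈ Free (tau3 (Β := Fin (2 * m1)) (Α := Fin (2 * m2))
      (X := Fin (N + 1))) k, B.card = k + 1 → ¬ Mono χ d B) ∨
      (∀ B ∈ Free (tau3 (Β := Fin (2 * m1)) (Α := Fin (2 * m2))
      (X := Fin (N + 1))) k, B.card = k → ¬ Mono χ d B)) := by
    intro d hd
    fin_cases d
    · exact Or.inl fun B hB hBc => hno' 0 B hB hBc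
    · exact absurd rfl hd
    · exact Or.inr fun B hB hBc => hno' 2 B hB hBc
  have h0m1 : 0 < 2 * m1 := by omega
  have h0m2 : 0 < 2 * m2 := by omega
  have hI : Nonempty ((Fin (2 * m1) × Fin (2 * m2)) × Fin (N + 1)) :=
    ⟨((⟨0, h0m1⟩, ⟨0, h0m2⟩), ⟨0, by omega⟩)⟩
  -- rows
  have hrow : ∀ r : Fin (2 * m1) × Fin (2 * m2), ∃ d : Fin 3, d ≠ 1 ∧
      ∃ S : Finset ((Fin (2 * m1) × Fin (2 * m2)) × Fin (N + 1)), (∀ u ∈ S, u.1 = r) ∧
      S.card = l2 ∧ Mono χ d S := by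
    intro r
    obtain ⟨i, S, hS, hSc, hSm⟩ := hN _ χ (univ.image fun n : Fin (N + 1) => (r, n)) (by
      rw [card_image_of_injective _ (fun n n' h => (Prod.mk.inj h).2), card_univ, Fintype.card_fin]
      omega)
    have hSa : ∀ u ∈ S, u.1 = r := fun u hu => by
      have := hS hu
      rw [mem_image] at this
      obtain ⟨n, -, rfl⟩ := this
      rfl
    fin_cases i
    · exact ⟨0, by decide, S, hSa, hSc, hSm⟩
    · exact absurd hSm (hno' 1 S (free_of_card_lt _ (by rw [hSc]; simp; omega)) hSc)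
    · exact ⟨2, by decide, S, hSa, hSc, hSm⟩
  choose dr hdr Q hQ1 hQ2 hQ3 using hrow
  -- pigeonhole inside a set of even size
  have hpig : ∀ (n : ℕ) (f : Fin (2 * n) → Fin 3), (∀ x, f x ≠ 1) → ∃ d : Fin 3, d ≠ 1 ∧
      ∃ A : Finset (Fin (2 * n)), A.card = n ∧ ∀ x ∈ A, f x = d := by
    intro n f hf
    have h1 := card_filter_add_card_filter_not (s := (univ : Finset (Fin (2 * n))))
      (fun x => f x = 0)
    rw [card_univ, Fintype.card_fin] at h1
    by_cases h2 : n ≤ (univ.filter fun x => f x = 0).card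
    · obtain ⟨A, hA, hAc⟩ := exists_subset_card_eq h2
      exact ⟨0, by decide, A, hAc, fun x hx => (mem_filter.1 (hA hx)).2⟩
    · obtain ⟨A, hA, hAc⟩ := exists_subset_card_eq
        (show n ≤ (univ.filter fun x => ¬ f x = 0).card by omega)
      refine ⟨2, by decide, A, hAc, fun x hx => ?_⟩
      have h3 := (mem_filter.1 (hA hx)).2
      have h4 := hf x
      have h5 : ∀ y : Fin 3, ¬ y = 0 → y ≠ 1 → y = 2 := by decide
      exact h5 _ h3 h4
  have hblock : ∀ b : Fin (2 * m1), ∃ d : Fin 3, d ≠ 1 ∧ ∃ A : Finset (Fin (2 * m2)),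
      A.card = m2 ∧ ∀ x ∈ A, dr (b, x) = d := fun b => hpig m2 _ fun x => hdr (b, x)
  choose db hdb A hAc hA using hblock
  obtain ⟨d, hd, Bs, hBs, hBsd⟩ := hpig m1 db hdb
  -- first elimination
  set J : Finset (Fin (2 * m1) × Fin (2 * m2)) := Bs.biUnion fun b => (A b).image fun x => (b, x)
    with hJ
  have hJmem : ∀ r, r ∈ J ↔ r.1 ∈ Bs ∧ r.2 ∈ A r.1 := by
    intro r
    rw [hJ, mem_biUnion]
    constructor
    · rintro ⟨b, hb, hr⟩
      rw [mem_image] at hr
      obtain ⟨x, hx, rfl⟩ := hr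
      exact ⟨hb, hx⟩
    · rintro ⟨h1, h2⟩
      exact ⟨r.1, h1, mem_image.2 ⟨r.2, h2, rfl⟩⟩
  have hJc : J.card ≤ m1 * m2 := by
    refine card_biUnion_le.trans ((sum_le_sum (g := fun _ => m2) fun b _ =>
      card_image_le.trans (hAc b).le).trans ?_)
    rw [sum_const, smul_eq_mul, hBs]
  have hJd : ∀ r ∈ J, dr r = d := by
    intro r hr
    rw [hJmem] at hr
    have := hA r.1 r.2 hr.2
    rw [← hBsd r.1 hr.1, ← this]
  obtain ⟨v, hv1, hv2⟩ := elim tau3 χ hk d 0 (hnod d hd) J Q (by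
    intro j _
    rw [hQ2, hl2]
    exact Nat.add_le_add (Nat.mul_le_mul_left _ (Nat.pow_le_pow_left hJc 3)) hJc)
    (fun j hj => by rw [← hJd j hj]; exact hQ3 j) (by
    intro j _ u hu u' hu' _
    rw [tau3_eq, if_pos (by rw [hQ1 j u hu, hQ1 j u' hu'])]) (by
    intro i _ j _ hij u hu hu'
    exact hij (by rw [← hQ1 i u hu, hQ1 j u hu'])) (by
    intro i _ j _ hij u hu u' hu'
    rw [tau3_eq, if_neg (by rw [hQ1 i u hu, hQ1 j u' hu']; exact hij)]
    split <;> decide)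
  have hv3 : ∀ r ∈ J, (v r).1 = r := fun r hr => hQ1 r _ (hv1 r hr)
  -- cliques inside the blocks
  have hsub : ∀ b ∈ Bs, ∃ S : Finset ((Fin (2 * m1) × Fin (2 * m2)) × Fin (N + 1)),
      S ⊆ (A b).image (fun x => v (b, x)) ∧ ∃ e : Fin 3, e ≠ d ∧ e ≠ 1 ∧ S.card = l1 ∧
        Mono χ e S := by
    intro b hb
    have hinj : Set.InjOn (fun x => v (b, x)) (A b) := by
      intro x hx y hy hxy
      have h1 := hv3 (b, x) ((hJmem _).2 ⟨hb, hx⟩)
      have h2 := hv3 (b, y) ((hJmem _).2 ⟨hb, hy⟩)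
      simp only at hxy
      rw [hxy, h2] at h1
      exact ((Prod.mk.inj h1).2).symm
    have hX : ((A b).image fun x => v (b, x)).card = m2 := by
      rw [card_image_of_injOn hinj, hAc]
    have hnd : ∀ S : Finset ((Fin (2 * m1) × Fin (2 * m2)) × Fin (N + 1)),
        S ⊆ (A b).image (fun x => v (b, x)) → S.card = 2 → ¬ Mono χ d S := by
      intro S hS hSc hSm
      obtain ⟨x, hx, y, hy, hxy⟩ := one_lt_card.1 (show 1 < S.card by omega)
      have h1 := hSm x hx y hy hxy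
      have hx' := hS hx
      have hy' := hS hy
      rw [mem_image] at hx' hy'
      obtain ⟨p, hp, rfl⟩ := hx'
      obtain ⟨q, hq, rfl⟩ := hy'
      exact hv2 (b, p) ((hJmem _).2 ⟨hb, hp⟩) (b, q) ((hJmem _).2 ⟨hb, hq⟩)
        (fun e => hxy (by rw [e])) h1
    have hd02 : d = 0 ∨ d = 2 := by
      have h5 : ∀ y : Fin 3, y ≠ 1 → y = 0 ∨ y = 2 := by decide
      exact h5 d hd
    rcases hd02 with rfl | rfl
    · obtain ⟨i, S, hS, hSc, hSm⟩ := hm2b _ χ ((A b).image fun x => v (b, x)) (by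
        rw [hX, hm2]; omega)
      fin_cases i
      · exact absurd hSm (hnd S hS hSc)
      · exact absurd hSm (hno' 1 S (free_of_card_lt _ (by rw [hSc]; simp; omega)) hSc)
      · exact ⟨S, hS, 2, by decide, by decide, hSc, hSm⟩
    · obtain ⟨i, S, hS, hSc, hSm⟩ := hm2a _ χ ((A b).image fun x => v (b, x)) (by
        rw [hX, hm2]; omega)
      fin_cases i
      · exact ⟨S, hS, 0, by decide, by decide, hSc, hSm⟩
      · exact absurd hSm (hno' 1 S (free_of_card_lt _ (by rw [hSc]; simp; omega)) hSc)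
      · exact absurd hSm (hnd S hS hSc)
  choose! S hS e he he1 hSc hSm using hsub
  -- the colour `e` does not depend on the block
  obtain ⟨e0, he0, he01, hee⟩ : ∃ e0 : Fin 3, e0 ≠ d ∧ e0 ≠ 1 ∧ ∀ b ∈ Bs, e b = e0 := by
    have h5 : ∀ y : Fin 3, y ≠ 1 → ∃ z : Fin 3, z ≠ y ∧ z ≠ 1 ∧
        ∀ w : Fin 3, w ≠ y → w ≠ 1 → w = z := by decide
    obtain ⟨z, hz1, hz2, hz3⟩ := h5 d hd
    exact ⟨z, hz1, hz2, fun b hb => hz3 _ (he b hb) (he1 b hb)⟩
  have hSrow : ∀ b ∈ Bs, ∀ u ∈ S b, u.1.1 = b ∧ u.1 ∈ J ∧ v u.1 = u := by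
    intro b hb u hu
    have := hS b hb hu
    rw [mem_image] at this
    obtain ⟨x, hx, rfl⟩ := this
    have hJ' := (hJmem (b, x)).2 ⟨hb, hx⟩
    have h1 := hv3 (b, x) hJ'
    rw [h1]
    exact ⟨rfl, hJ', rfl⟩
  obtain ⟨w, hw1, hw2⟩ := elim tau3 χ hk e0 1 (hnod e0 he01) Bs S (by
    intro j hj
    rw [hSc j hj, hBs, hl1]) (fun j hj => by rw [← hee j hj]; exact hSm j hj) (by
    intro j hj u hu u' hu' huu
    have h1 := hSrow j hj u hu
    have h2 := hSrow j hj u' hu'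
    have hne : u.1 ≠ u'.1 := fun e => huu (by rw [← h1.2.2, ← h2.2.2, e])
    rw [tau3_eq, if_neg hne, if_pos (by rw [h1.1, h2.1])]) (by
    intro i hi j hj hij u hu hu'
    exact hij (by rw [← (hSrow i hi u hu).1, (hSrow j hj u hu').1])) (by
    intro i hi j hj hij u hu u' hu'
    have h1 := (hSrow i hi u hu).1
    have h2 := (hSrow j hj u' hu').1
    rw [tau3_eq, if_neg (fun e => hij (by rw [← h1, ← h2, e])),
      if_neg (by rw [h1, h2]; exact hij)]
    decide)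
  -- the final clique
  have hwrow : ∀ b ∈ Bs, (w b).1.1 = b ∧ (w b).1 ∈ J ∧ v (w b).1 = w b := fun b hb =>
    hSrow b hb _ (hw1 b hb)
  have hwinj : Set.InjOn w Bs := by
    intro b hb b' hb' h
    rw [← (hwrow b hb).1, ← (hwrow b' hb').1, h]
  refine hno' 1 (Bs.image w) (free_of_card_lt _ ?_) ?_ ?_
  · rw [card_image_of_injOn hwinj, hBs, hm1]; omega
  · rw [card_image_of_injOn hwinj, hBs, hm1]; rfl
  · intro x hx y hy hxy
    rw [mem_image] at hx hy
    obtain ⟨b, hb, rfl⟩ := hx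
    obtain ⟨b', hb', rfl⟩ := hy
    have hbb : b ≠ b' := fun e => hxy (by rw [e])
    have h1 := hw2 b hb b' hb' hbb
    have h2 : χ s(w b, w b') ≠ d := by
      rw [← (hwrow b hb).2.2, ← (hwrow b' hb').2.2]
      refine hv2 _ (hwrow b hb).2.1 _ (hwrow b' hb').2.1 ?_
      intro e
      exact hbb (by rw [← (hwrow b hb).1, ← (hwrow b' hb').1, e])
    have h5 : ∀ y d e0 : Fin 3, y ≠ e0 → y ≠ d → e0 ≠ d → e0 ≠ 1 → d ≠ 1 → y = 1 := by decide
    exact h5 _ d e0 h1 h2 he0 he01 hd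

end Pool.Agent.Q118.TypedThree
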