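import Mathlib

/-!
Labels of the `r`-element sets of `n` ordered points: a lower bound for the number of
`(r+1)`-element sets `T` with label(`T` minus last point) at least label(`T` minus first point).
-/

namespace Pool.Agent.Q118.WinTuran

open Finset

variable {n : ℕ}

/-- `T` without its last point -/
def ini (T : Finset (Fin n)) : Finset (Fin n) := T.filter (fun x => ∃ y ∈ T, x < y)

/-- `T` without its first point -/
def tai (T : Finset (Fin n)) : Finset (Fin n) := T.filter (fun x => ∃ y ∈ T, y < x)

/-- the sets of `r + 1` points of diameter at most `N` -/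
def shorts (n r N : ℕ) : Finset (Finset (Fin n)) :=
  ((univ : Finset (Fin n)).powersetCard (r + 1)).filter
    (fun T => ∀ a ∈ T, ∀ b ∈ T, (b : ℕ) ≤ a + N)

theorem mem_shorts {r N : ℕ} {T : Finset (Fin n)} : T ∈ shorts n r N ↔
    T.card = r + 1 ∧ ∀ a ∈ T, ∀ b ∈ T, (b : ℕ) ≤ a + N := by
  rw [shorts, mem_filter, mem_powersetCard]
  exact ⟨fun h => ⟨h.1.2, h.2⟩, fun h => ⟨⟨subset_univ _, h.1⟩, h.2⟩⟩

theorem ini_insert {x : Finset (Fin n)} {b : Fin n} (h : ∀ a ∈ x, a < b) :
    ini (insert b x) = x := by
  ext a
  rw [ini, mem_filter, mem_insert]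
  constructor
  · rintro ⟨rfl | ha, y, hy, hlt⟩
    · rcases mem_insert.1 hy with rfl | hy
      · exact absurd hlt (lt_irrefl _)
      · exact absurd hlt (h y hy).not_gt
    · exact ha
  · intro ha
    exact ⟨Or.inr ha, b, mem_insert_self _ _, h a ha⟩

theorem tai_insert {x : Finset (Fin n)} {b : Fin n} (h : ∀ a ∈ x, b < a) :
    tai (insert b x) = x := by
  ext a
  rw [tai, mem_filter, mem_insert]
  constructor
  · rintro ⟨rfl | ha, y, hy, hlt⟩
    · rcases mem_insert.1 hy with rfl | hy
      · exact absurd hlt (lt_irrefl _)
      · exact absurd hlt (h y hy).not_gt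
    · exact ha
  · intro ha
    exact ⟨Or.inr ha, b, mem_insert_self _ _, h a ha⟩

theorem ini_eq_erase {T : Finset (Fin n)} (h : T.Nonempty) : ini T = T.erase (T.max' h) := by
  ext a
  rw [ini, mem_filter, mem_erase]
  constructor
  · rintro ⟨ha, y, hy, hlt⟩
    exact ⟨fun hc => by rw [hc] at hlt; exact absurd (T.le_max' y hy) hlt.not_ge, ha⟩
  · rintro ⟨h1, h2⟩
    exact ⟨h2, T.max' h, T.max'_mem h, lt_of_le_of_ne (T.le_max' a h2) h1⟩

theorem tai_eq_erase {T : Finset (Fin n)} (h : T.Nonempty) : tai T = T.erase (T.min' h) := by
  ext a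
  rw [tai, mem_filter, mem_erase]
  constructor
  · rintro ⟨ha, y, hy, hlt⟩
    exact ⟨fun hc => by rw [hc] at hlt; exact absurd (T.min'_le y hy) hlt.not_ge, ha⟩
  · rintro ⟨h1, h2⟩
    exact ⟨h2, T.min' h, T.min'_mem h, lt_of_le_of_ne (T.min'_le a h2) (Ne.symm h1)⟩

theorem card_ini {T : Finset (Fin n)} {r : ℕ} (h : T.card = r + 1) : (ini T).card = r := by
  have hne : T.Nonempty := by rw [← card_pos]; omega
  rw [ini_eq_erase hne, card_erase_of_mem (T.max'_mem hne), h]; rfl

theorem card_tai {T : Finset (Fin n)} {r : ℕ} (h : T.card = r + 1) : (tai T).card = r := by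
  have hne : T.Nonempty := by rw [← card_pos]; omega
  rw [tai_eq_erase hne, card_erase_of_mem (T.min'_mem hne), h]; rfl

/-! ### Counting extensions -/

theorem card_filter_val (a b : ℕ) (hb : b ≤ n) :
    ((univ : Finset (Fin n)).filter (fun v : Fin n => a ≤ (v : ℕ) ∧ (v : ℕ) < b)).card = b - a := by
  have h1 : (((univ : Finset (Fin n)).filter (fun v : Fin n => a ≤ (v : ℕ) ∧ (v : ℕ) < b)).map
      Fin.valEmbedding) = Finset.Ico a b := by
    ext v
    rw [mem_map, mem_Ico]
    constructor
    · rintro ⟨w, hw, rfl⟩
      exact (mem_filter.1 hw).2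
    · intro hv
      exact ⟨⟨v, by omega⟩, mem_filter.2 ⟨mem_univ _, hv⟩, rfl⟩
  rw [← card_map Fin.valEmbedding, h1, Nat.card_Ico]

theorem pred_le {r N : ℕ} {x : Finset (Fin n)} (hx : x.Nonempty) :
    ((shorts n r N).filter (fun T => tai T = x)).card ≤
      (x.min' hx : ℕ) - ((x.max' hx : ℕ) - N) := by
  have h0 := card_filter_val (n := n) ((x.max' hx : ℕ) - N) (x.min' hx : ℕ) (x.min' hx).2.le
  rw [← h0]
  apply card_le_card_of_injOn (fun T => if h : T.Nonempty then T.min' h else x.min' hx)
  · intro T hT
    rw [mem_coe, mem_filter, mem_shorts] at hT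
    obtain ⟨⟨hc, hd⟩, ht⟩ := hT
    have hne : T.Nonempty := by rw [← card_pos]; omega
    simp only [dif_pos hne]
    rw [mem_coe, mem_filter]
    have hxT : x ⊆ T := by rw [← ht]; exact filter_subset _ _
    have h1 : x.min' hx ∈ tai T := by rw [ht]; exact x.min'_mem hx
    rw [tai, mem_filter] at h1
    obtain ⟨-, y, hy, hlt⟩ := h1
    have h2 : T.min' hne < x.min' hx := lt_of_le_of_lt (T.min'_le y hy) hlt
    have h3 := hd _ (T.min'_mem hne) _ (hxT (x.max'_mem hx))
    refine ⟨mem_univ _, by omega, h2⟩
  · intro T hT T' hT' h
    rw [mem_coe, mem_filter, mem_shorts] at hT hT'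
    have hne : T.Nonempty := by rw [← card_pos]; omega
    have hne' : T'.Nonempty := by rw [← card_pos]; omega
    simp only [dif_pos hne, dif_pos hne'] at h
    rw [← insert_erase (T.min'_mem hne), ← insert_erase (T'.min'_mem hne'),
      ← tai_eq_erase hne, ← tai_eq_erase hne', hT.2, hT'.2, h]

theorem le_succ {r N : ℕ} {x : Finset (Fin n)} (hx : x.Nonempty) (hc : x.card = r) :
    min n ((x.min' hx : ℕ) + N + 1) - ((x.max' hx : ℕ) + 1) ≤
      ((shorts n r N).filter (fun T => ini T = x)).card := by
  have h0 := card_filter_val (n := n) ((x.max' hx : ℕ) + 1) (min n ((x.min' hx : ℕ) + N + 1))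
    (min_le_left _ _)
  rw [← h0]
  apply card_le_card_of_injOn (fun b => insert b x)
  · intro b hb
    rw [mem_coe, mem_filter] at hb
    have hlt : ∀ a ∈ x, a < b := by
      intro a ha
      have := x.le_max' a ha
      rw [Fin.le_def] at this
      rw [Fin.lt_def]
      omega
    have hbx : b ∉ x := fun h => lt_irrefl _ (hlt b h)
    rw [mem_coe, mem_filter, mem_shorts]
    refine ⟨⟨by rw [card_insert_of_notMem hbx, hc], ?_⟩, ini_insert hlt⟩
    have hbN : (b : ℕ) ≤ (x.min' hx : ℕ) + N := by
      have := hb.2.2
      have h2 := min_le_right n ((x.min' hx : ℕ) + N + 1)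
      omega
    intro a ha c hcc
    have ha2 : (x.min' hx : ℕ) ≤ a := by
      rcases mem_insert.1 ha with rfl | ha
      · have := x.min'_le _ (x.min'_mem hx)
        have := hlt _ (x.min'_mem hx)
        rw [Fin.lt_def] at this
        omega
      · exact x.min'_le a ha
    have hc2 : (c : ℕ) ≤ b := by
      rcases mem_insert.1 hcc with rfl | hcc
      · exact le_rfl
      · exact (hlt c hcc).le
    omega
  · intro b hb b' hb' h
    rw [mem_coe, mem_filter] at hb hb'
    simp only at h
    have h1 : b ∈ insert b' x := by rw [← h]; exact mem_insert_self _ _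
    rcases mem_insert.1 h1 with h1 | h1
    · exact h1
    · exfalso
      have := x.le_max' b h1
      rw [Fin.le_def] at this
      omega

theorem pred_le_succ {r N : ℕ} {x : Finset (Fin n)} (hx : x.Nonempty) (hc : x.card = r) :
    ((shorts n r N).filter (fun T => tai T = x)).card ≤
      ((shorts n r N).filter (fun T => ini T = x)).card + ((x.min' hx : ℕ) + N + 1 - n) := by
  have h1 := pred_le (r := r) (N := N) hx
  have h2 := le_succ (N := N) hx hc
  have h3 := (x.max' hx).2
  have h4 : (x.min' hx : ℕ) ≤ x.max' hx := x.min'_le _ (x.max'_mem hx)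
  omega

/-! ### The boundary term -/

theorem sum_boundary (r N : ℕ) (hr : 0 < r) :
    ∑ x ∈ ((univ : Finset (Fin n)).powersetCard r).attach,
      (((x.1.min' (by
        rw [← card_pos, (mem_powersetCard.1 x.2).2]; exact hr) : Fin n) : ℕ) + N + 1 - n) ≤
      (N + 1).choose (r + 1) := by
  classical
  have hne : ∀ x : {x // x ∈ (univ : Finset (Fin n)).powersetCard r}, x.1.Nonempty := fun x => by
    rw [← card_pos, (mem_powersetCard.1 x.2).2]; exact hr
  have hC : ((range (N + 1)).powersetCard (r + 1)).card = (N + 1).choose (r + 1) := by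
    rw [card_powersetCard, card_range]
  rw [← hC]
  have h1 : ∑ x ∈ ((univ : Finset (Fin n)).powersetCard r).attach,
      (((x.1.min' (hne x) : Fin n) : ℕ) + N + 1 - n) =
      (((univ : Finset (Fin n)).powersetCard r).attach.sigma
        (fun x => Finset.Ico n (((x.1.min' (hne x) : Fin n) : ℕ) + N + 1))).card := by
    rw [card_sigma]
    exact sum_congr rfl fun x _ => by rw [Nat.card_Ico]
  rw [h1]
  -- the injection
  let φ : (Σ _ : {x // x ∈ (univ : Finset (Fin n)).powersetCard r}, ℕ) → Finset ℕ := fun z =>
    insert ((n - 1 - (z.1.1.min' (hne z.1) : ℕ)) + 1 + (z.2 - n))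
      (z.1.1.image (fun v : Fin n => n - 1 - (v : ℕ)))
  have hlt : ∀ z : (Σ _ : {x // x ∈ (univ : Finset (Fin n)).powersetCard r}, ℕ),
      ∀ w ∈ z.1.1.image (fun v : Fin n => n - 1 - (v : ℕ)),
        w < (n - 1 - (z.1.1.min' (hne z.1) : ℕ)) + 1 + (z.2 - n) := by
    intro z w hw
    rw [mem_image] at hw
    obtain ⟨v, hv, rfl⟩ := hw
    have h2 : (z.1.1.min' (hne z.1) : ℕ) ≤ v := z.1.1.min'_le v hv
    omega
  have hinj : Function.Injective (fun v : Fin n => n - 1 - (v : ℕ)) := by
    intro v v' h
    have := v.2
    have := v'.2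
    simp only at h
    exact Fin.ext (by omega)
  apply card_le_card_of_injOn φ
  · intro z hz
    rw [mem_coe, mem_sigma, mem_Ico] at hz
    rw [mem_coe, mem_powersetCard]
    have hm := (z.1.1.min' (hne z.1)).2
    constructor
    · intro w hw
      rw [mem_range]
      rcases mem_insert.1 hw with rfl | hw
      · omega
      · have := hlt z w hw
        omega
    · rw [card_insert_of_notMem (fun h => lt_irrefl _ (hlt z _ h)),
        card_image_of_injective _ hinj, (mem_powersetCard.1 z.1.2).2]
  · intro z hz z' hz' h
    rw [mem_coe, mem_sigma, mem_Ico] at hz hz'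
    simp only [φ] at h
    -- the largest elements agree
    have key : ∀ (a a' : ℕ) (X X' : Finset ℕ), (∀ w ∈ X, w < a) → (∀ w ∈ X', w < a') →
        insert a X = insert a' X' → a = a' ∧ X = X' := by
      intro a a' X X' hX hX' hE
      have e1 : a ≤ a' := by
        have : a ∈ insert a' X' := by rw [← hE]; exact mem_insert_self _ _
        rcases mem_insert.1 this with h | h
        · exact h.le
        · exact (hX' a h).le
      have e2 : a' ≤ a := by
        have : a' ∈ insert a X := by rw [hE]; exact mem_insert_self _ _
        rcases mem_insert.1 this with h | h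
        · exact h.le
        · exact (hX a' h).le
      have e3 : a = a' := le_antisymm e1 e2
      subst e3
      refine ⟨rfl, ?_⟩
      rw [← erase_insert (fun h => lt_irrefl _ (hX a h)), hE,
        erase_insert (fun h => lt_irrefl _ (hX' a h))]
    obtain ⟨k1, k2⟩ := key _ _ _ _ (hlt z) (hlt z') h
    have k3 : z.1.1 = z'.1.1 := image_injective hinj k2
    obtain ⟨⟨x, hx⟩, y⟩ := z
    obtain ⟨⟨x', hx'⟩, y'⟩ := z'
    simp only at k3
    subst k3
    simp only at k1 hz hz'
    have : y = y' := by omega
    subst this
    rfl

/-! ### The number of short sets -/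

theorem choose_identity (N r : ℕ) : N * N.choose r = N.choose (r + 1) + r * (N + 1).choose (r + 1) := by
  have h1 := Nat.add_one_mul_choose_eq N r
  have h2 := Nat.choose_succ_succ' N r
  have h3 : (N + 1) * N.choose r = (r + 1) * (N + 1).choose (r + 1) := by rw [h1]; ring
  have h4 : N * N.choose r + N.choose r = r * (N + 1).choose (r + 1) + (N + 1).choose (r + 1) := by
    calc N * N.choose r + N.choose r = (N + 1) * N.choose r := by ring
      _ = _ := by rw [h3]; ring
  omega

theorem sum_choose (r : ℕ) : ∀ N, ∑ q ∈ range N, q.choose r = N.choose (r + 1) := by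
  intro N
  induction N with
  | zero => simp
  | succ N ih => rw [sum_range_succ, ih, Nat.choose_succ_succ' N r]; omega

theorem sum_min_choose (n N r : ℕ) :
    n * N.choose r ≤ ∑ q ∈ range n, (min q N).choose r + r * (N + 1).choose (r + 1) := by
  have h1 : ∑ q ∈ range n, (N.choose r - (min q N).choose r) ≤
      ∑ q ∈ range N, (N.choose r - q.choose r) := by
    calc ∑ q ∈ range n, (N.choose r - (min q N).choose r)
        = ∑ q ∈ (range n).filter (fun q => q < N), (N.choose r - (min q N).choose r) := by
          rw [sum_filter]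
          apply sum_congr rfl
          intro q _
          by_cases hq : q < N
          · rw [if_pos hq]
          · rw [if_neg hq, min_eq_right (by omega), Nat.sub_self]
      _ = ∑ q ∈ (range n).filter (fun q => q < N), (N.choose r - q.choose r) := by
          apply sum_congr rfl
          intro q hq
          rw [mem_filter] at hq
          rw [min_eq_left hq.2.le]
      _ ≤ _ := by
          apply sum_le_sum_of_subset
          intro q hq
          rw [mem_filter] at hq
          exact mem_range.2 hq.2
  have h2 : ∑ q ∈ range n, (N.choose r - (min q N).choose r) + ∑ q ∈ range n, (min q N).choose r =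
      n * N.choose r := by
    rw [← sum_add_distrib]
    rw [sum_congr rfl (g := fun _ => N.choose r)]
    · simp
    · intro q _
      exact Nat.sub_add_cancel (Nat.choose_le_choose r (min_le_right _ _))
  have h3 : ∑ q ∈ range N, (N.choose r - q.choose r) + ∑ q ∈ range N, q.choose r =
      N * N.choose r := by
    rw [← sum_add_distrib]
    rw [sum_congr rfl (g := fun _ => N.choose r)]
    · simp
    · intro q hq
      exact Nat.sub_add_cancel (Nat.choose_le_choose r (mem_range.1 hq).le)
  rw [sum_choose] at h3
  have h4 := choose_identity N r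
  omega

theorem card_shorts (r N : ℕ) :
    n * N.choose r ≤ (shorts n r N).card + r * (N + 1).choose (r + 1) := by
  classical
  have h0 := sum_min_choose n N r
  have h1 : ∑ q ∈ range n, (min q N).choose r ≤ (shorts n r N).card := by
    -- group by the first point
    let U : Fin n → Finset (Fin n) := fun p =>
      (univ : Finset (Fin n)).filter (fun v : Fin n => (p : ℕ) + 1 ≤ v ∧ (v : ℕ) < min n (p + N + 1))
    have hU : ∀ p : Fin n, (U p).card = min (n - 1 - p) N := by
      intro p
      have := p.2
      rw [card_filter_val _ _ (min_le_left _ _)]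
      omega
    have h2 : ∑ q ∈ range n, (min q N).choose r = ∑ p : Fin n, ((U p).card).choose r := by
      rw [← Finset.sum_range_reflect, ← Fin.sum_univ_eq_sum_range
        (fun j => (min (n - 1 - j) N).choose r) n]
      exact sum_congr rfl fun p _ => by rw [hU]
    rw [h2]
    have h3 : ∀ p : Fin n, ((U p).card).choose r =
        (((U p).powersetCard r).image (fun V => insert p V)).card := by
      intro p
      rw [card_image_of_injOn, card_powersetCard]
      intro V hV V' hV' h
      rw [mem_coe, mem_powersetCard] at hV hV'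
      have hp : ∀ V : Finset (Fin n), V ⊆ U p → p ∉ V := by
        intro V hV hpV
        have := hV hpV
        rw [mem_filter] at this
        omega
      simp only at h
      rw [← erase_insert (hp V hV.1), h, erase_insert (hp V' hV'.1)]
    rw [sum_congr rfl fun p _ => h3 p]
    rw [← card_biUnion]
    · apply card_le_card
      intro T hT
      rw [mem_biUnion] at hT
      obtain ⟨p, -, hT⟩ := hT
      rw [mem_image] at hT
      obtain ⟨V, hV, rfl⟩ := hT
      rw [mem_powersetCard] at hV
      have hVp : ∀ v ∈ V, (p : ℕ) + 1 ≤ v ∧ (v : ℕ) < min n (p + N + 1) := by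
        intro v hv
        have := hV.1 hv
        rw [mem_filter] at this
        exact this.2
      rw [mem_shorts]
      constructor
      · rw [card_insert_of_notMem (fun h => by have := hVp p h; omega), hV.2]
      · intro a ha b hb
        have h5 : (p : ℕ) ≤ a := by
          rcases mem_insert.1 ha with rfl | ha
          · exact le_rfl
          · have := hVp a ha; omega
        have h6 : (b : ℕ) ≤ p + N := by
          rcases mem_insert.1 hb with rfl | hb
          · omega
          · have := (hVp b hb).2
            have h7 := min_le_right n (p + N + 1)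
            omega
        omega
    · intro p _ p' _ hne
      rw [Function.onFun, disjoint_left]
      intro T hT hT'
      rw [mem_image] at hT hT'
      obtain ⟨V, hV, rfl⟩ := hT
      obtain ⟨V', hV', h⟩ := hT'
      rw [mem_powersetCard] at hV hV'
      have hVp : ∀ v ∈ V, (p : ℕ) + 1 ≤ v := by
        intro v hv
        have := hV.1 hv
        rw [mem_filter] at this
        exact this.2.1
      have hVp' : ∀ v ∈ V', (p' : ℕ) + 1 ≤ v := by
        intro v hv
        have := hV'.1 hv
        rw [mem_filter] at this
        exact this.2.1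
      have e1 : (p : ℕ) ≤ p' := by
        have : p' ∈ insert p V := by rw [← h]; exact mem_insert_self _ _
        rcases mem_insert.1 this with h | h
        · rw [h]
        · have := hVp p' h; omega
      have e2 : (p' : ℕ) ≤ p := by
        have : p ∈ insert p' V' := by rw [h]; exact mem_insert_self _ _
        rcases mem_insert.1 this with h | h
        · rw [h]
        · have := hVp' p h; omega
      exact hne (Fin.ext (le_antisymm e1 e2))
  omega

/-- The main inequality, for arbitrary labels `0, ..., L` of the sets of `r` points. -/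
theorem main (r N L : ℕ) (hr : 0 < r) (f : Finset (Fin n) → ℕ)
    (hf : ∀ x : Finset (Fin n), x.card = r → f x ≤ L) :
    n * N.choose r ≤ ((shorts n r N).filter (fun T => f (tai T) ≤ f (ini T))).card +
      ∑ T ∈ shorts n r N, (f (ini T) - f (tai T)) + (L + r) * (N + 1).choose (r + 1) := by
  classical
  have hne : ∀ x : {x // x ∈ (univ : Finset (Fin n)).powersetCard r}, x.1.Nonempty := fun x => by
    rw [← card_pos, (mem_powersetCard.1 x.2).2]; exact hr
  -- the telescoping sum
  have h1 : ∑ T ∈ shorts n r N, f (tai T) ≤
      ∑ T ∈ shorts n r N, f (ini T) + L * (N + 1).choose (r + 1) := by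
    have e1 : ∑ T ∈ shorts n r N, f (tai T) = ∑ x ∈ (univ : Finset (Fin n)).powersetCard r,
        ((shorts n r N).filter (fun T => tai T = x)).card * f x := by
      rw [← sum_fiberwise_of_maps_to (g := tai) (t := (univ : Finset (Fin n)).powersetCard r)]
      · apply sum_congr rfl
        intro x _
        rw [sum_congr rfl (g := fun _ => f x), sum_const, smul_eq_mul]
        intro T hT
        rw [(mem_filter.1 hT).2]
      · intro T hT
        rw [mem_powersetCard]
        exact ⟨subset_univ _, card_tai (mem_shorts.1 hT).1⟩
    have e2 : ∑ T ∈ shorts n r N, f (ini T) = ∑ x ∈ (univ : Finset (Fin n)).powersetCard r,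
        ((shorts n r N).filter (fun T => ini T = x)).card * f x := by
      rw [← sum_fiberwise_of_maps_to (g := ini) (t := (univ : Finset (Fin n)).powersetCard r)]
      · apply sum_congr rfl
        intro x _
        rw [sum_congr rfl (g := fun _ => f x), sum_const, smul_eq_mul]
        intro T hT
        rw [(mem_filter.1 hT).2]
      · intro T hT
        rw [mem_powersetCard]
        exact ⟨subset_univ _, card_ini (mem_shorts.1 hT).1⟩
    rw [e1, e2, ← sum_attach, ← sum_attach ((univ : Finset (Fin n)).powersetCard r)
      (fun x => ((shorts n r N).filter (fun T => ini T = x)).card * f x)]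
    calc ∑ x ∈ ((univ : Finset (Fin n)).powersetCard r).attach,
          ((shorts n r N).filter (fun T => tai T = x.1)).card * f x.1
        ≤ ∑ x ∈ ((univ : Finset (Fin n)).powersetCard r).attach,
          (((shorts n r N).filter (fun T => ini T = x.1)).card * f x.1 +
            L * (((x.1.min' (hne x) : Fin n) : ℕ) + N + 1 - n)) := by
          apply sum_le_sum
          intro x _
          have hxc := (mem_powersetCard.1 x.2).2
          have g1 := pred_le_succ (N := N) (hne x) hxc
          have g2 := hf x.1 hxc
          calc ((shorts n r N).filter (fun T => tai T = x.1)).card * f x.1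
              ≤ (((shorts n r N).filter (fun T => ini T = x.1)).card +
                (((x.1.min' (hne x) : Fin n) : ℕ) + N + 1 - n)) * f x.1 :=
                Nat.mul_le_mul_right _ g1
            _ = ((shorts n r N).filter (fun T => ini T = x.1)).card * f x.1 +
                (((x.1.min' (hne x) : Fin n) : ℕ) + N + 1 - n) * f x.1 := by ring
            _ ≤ _ := by
                rw [Nat.mul_comm L]
                exact Nat.add_le_add_left (Nat.mul_le_mul_left _ g2) _
      _ = ∑ x ∈ ((univ : Finset (Fin n)).powersetCard r).attach,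
          ((shorts n r N).filter (fun T => ini T = x.1)).card * f x.1 +
          L * ∑ x ∈ ((univ : Finset (Fin n)).powersetCard r).attach,
            (((x.1.min' (hne x) : Fin n) : ℕ) + N + 1 - n) := by
          rw [sum_add_distrib, mul_sum]
      _ ≤ _ := Nat.add_le_add_left (Nat.mul_le_mul_left _ (sum_boundary r N hr)) _
  -- positive parts
  have h2 : ∑ T ∈ shorts n r N, (f (tai T) - f (ini T)) + ∑ T ∈ shorts n r N, f (ini T) =
      ∑ T ∈ shorts n r N, (f (ini T) - f (tai T)) + ∑ T ∈ shorts n r N, f (tai T) := by
    rw [← sum_add_distrib, ← sum_add_distrib]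
    apply sum_congr rfl
    intro T _
    omega
  have h3 : ((shorts n r N).filter (fun T => ¬ f (tai T) ≤ f (ini T))).card ≤
      ∑ T ∈ shorts n r N, (f (tai T) - f (ini T)) := by
    rw [card_filter]
    apply sum_le_sum
    intro T _
    by_cases h : f (tai T) ≤ f (ini T)
    · rw [if_neg (not_not.2 h)]; exact Nat.zero_le _
    · rw [if_pos h]; omega
  have h4 := card_filter_add_card_filter_not (s := shorts n r N) (fun T => f (tai T) ≤ f (ini T))
  have h5 := card_shorts (n := n) r N
  have h6 : (L + r) * (N + 1).choose (r + 1) =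
      L * (N + 1).choose (r + 1) + r * (N + 1).choose (r + 1) := by ring
  omega

end Pool.Agent.Q118.WinTuran
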