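import Pool.Agent.Q118.WinTuran

/-!
Families of sets such that all increasing sequences have few windows outside the family.
-/

namespace Pool.Agent.Q118.WinTuran

open Finset

variable {n : ℕ}

/-- `x 0 < x 1 < ... < x (m - 1)` -/
def Chain (x : ℕ → Fin n) (m : ℕ) : Prop := ∀ i, i + 1 < m → x i < x (i + 1)

/-- the set `{x i, ..., x (i + t - 1)}` -/
def win (x : ℕ → Fin n) (i t : ℕ) : Finset (Fin n) := (Ico i (i + t)).image x

/-- the number of windows of length `t` of `x 0, ..., x (m - 1)` which are not in `F` -/
noncomputable def bad (F : Finset (Finset (Fin n))) (x : ℕ → Fin n) (m t : ℕ) : ℕ :=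
  ((range (m + 1 - t)).filter (fun i => win x i t ∉ F)).card

/-- all windows have diameter at most `N` -/
def Slow (N : ℕ) (x : ℕ → Fin n) (m t : ℕ) : Prop :=
  ∀ i, i + t ≤ m → (x (i + t - 1) : ℕ) ≤ x i + N

theorem Chain.lt {x : ℕ → Fin n} {m : ℕ} (h : Chain x m) : ∀ i j, i < j → j < m → x i < x j := by
  intro i j hij
  induction j, hij using Nat.le_induction with
  | base => intro hj; exact h i hj
  | succ j _ ih =>
    intro hj
    exact (ih (by omega)).trans (h j hj)

theorem Chain.le {x : ℕ → Fin n} {m : ℕ} (h : Chain x m) (i j : ℕ) (hij : i ≤ j) (hj : j < m) :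
    x i ≤ x j := by
  rcases Nat.eq_or_lt_of_le hij with rfl | hlt
  · exact le_rfl
  · exact (h.lt i j hlt hj).le

theorem Chain.mono {x : ℕ → Fin n} {m m' : ℕ} (h : Chain x m) (hm : m' ≤ m) : Chain x m' :=
  fun i hi => h i (by omega)

theorem tai_image {x : ℕ → Fin n} {m : ℕ} (h : Chain x m) (a b : ℕ) (hb : b ≤ m) :
    tai ((Ico a b).image x) = (Ico (a + 1) b).image x := by
  ext y
  rw [tai, mem_filter, mem_image, mem_image]
  constructor
  · rintro ⟨⟨i, hi, rfl⟩, z, hz, hlt⟩
    rw [mem_image] at hz
    obtain ⟨j, hj, rfl⟩ := hz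
    rw [mem_Ico] at hi hj
    refine ⟨i, mem_Ico.2 ⟨?_, hi.2⟩, rfl⟩
    by_contra hcon
    exact absurd hlt (h.le i j (by omega) (by omega)).not_gt
  · rintro ⟨i, hi, rfl⟩
    rw [mem_Ico] at hi
    exact ⟨⟨i, mem_Ico.2 ⟨by omega, hi.2⟩, rfl⟩, x a,
      mem_image_of_mem x (mem_Ico.2 ⟨le_rfl, by omega⟩), h.lt a i (by omega) (by omega)⟩

theorem card_image_chain {x : ℕ → Fin n} {m : ℕ} (h : Chain x m) (a b : ℕ) (hb : b ≤ m) :
    ((Ico a b).image x).card = b - a := by
  rw [card_image_of_injOn, Nat.card_Ico]
  intro i hi j hj hij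
  rw [mem_coe, mem_Ico] at hi hj
  rcases lt_trichotomy i j with hlt | heq | hlt
  · exact absurd hij (h.lt i j hlt (by omega)).ne
  · exact heq
  · exact absurd hij (h.lt j i hlt (by omega)).ne'

/-- an enumeration of a set -/
theorem exists_chain (S : Finset (Fin n)) {r : ℕ} (hr : 0 < r) (hS : S.card = r) :
    ∃ x : ℕ → Fin n, Chain x r ∧ (Ico 0 r).image x = S := by
  classical
  let e := S.orderEmbOfFin hS
  refine ⟨fun i => if h : i < r then e ⟨i, h⟩ else e ⟨0, hr⟩, ?_, ?_⟩
  · intro i hi
    simp only [dif_pos hi, dif_pos (show i < r by omega)]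
    exact e.strictMono (by rw [Fin.lt_def]; simp)
  · apply eq_of_subset_of_card_le
    · intro y hy
      rw [mem_image] at hy
      obtain ⟨i, hi, rfl⟩ := hy
      rw [mem_Ico] at hi
      simp only [dif_pos hi.2]
      exact orderEmbOfFin_mem S hS _
    · rw [card_image_chain (m := r) ?_ 0 r le_rfl, hS, Nat.sub_zero]
      intro i hi
      simp only [dif_pos hi, dif_pos (show i < r by omega)]
      exact e.strictMono (by rw [Fin.lt_def]; simp)

/-- possible numbers of bad windows of sequences ending with `S` -/
def counts (F : Finset (Finset (Fin n))) (N r : ℕ) (S : Finset (Fin n)) : Set ℕ :=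
  {c | ∃ (m : ℕ) (x : ℕ → Fin n), r ≤ m ∧ Chain x m ∧ Slow N x m (r + 1) ∧
    (Ico (m - r) m).image x = S ∧ c = bad F x m (r + 1)}

/-- the label of a set: the largest number of bad windows of a sequence ending with it -/
noncomputable def label (F : Finset (Finset (Fin n))) (N r : ℕ) (S : Finset (Fin n)) : ℕ :=
  sSup (counts F N r S)

theorem bdd {F : Finset (Finset (Fin n))} {N r L : ℕ}
    (hF : ∀ (m : ℕ) (x : ℕ → Fin n), Chain x m → Slow N x m (r + 1) → bad F x m (r + 1) ≤ L)
    (S : Finset (Fin n)) : BddAbove (counts F N r S) :=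
  ⟨L, by rintro c ⟨m, x, -, h1, h2, -, rfl⟩; exact hF m x h1 h2⟩

theorem label_le {F : Finset (Finset (Fin n))} {N r L : ℕ}
    (hF : ∀ (m : ℕ) (x : ℕ → Fin n), Chain x m → Slow N x m (r + 1) → bad F x m (r + 1) ≤ L)
    (S : Finset (Fin n)) : label F N r S ≤ L := by
  unfold label
  rcases Set.eq_empty_or_nonempty (counts F N r S) with h | h
  · rw [h]; simp
  · exact csSup_le h (by rintro c ⟨m, x, -, h1, h2, -, rfl⟩; exact hF m x h1 h2)

theorem label_step {F : Finset (Finset (Fin n))} {N r L : ℕ} (hr : 0 < r)
    (hF : ∀ (m : ℕ) (x : ℕ → Fin n), Chain x m → Slow N x m (r + 1) → bad F x m (r + 1) ≤ L)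
    {T : Finset (Fin n)} (hT : T ∈ shorts n r N) :
    label F N r (ini T) + (if T ∈ F then 0 else 1) ≤ label F N r (tai T) := by
  classical
  rw [mem_shorts] at hT
  obtain ⟨hc, hd⟩ := hT
  have hne : T.Nonempty := by rw [← card_pos]; omega
  -- the maximum is attained
  have hnon : (counts F N r (ini T)).Nonempty := by
    obtain ⟨x, hx1, hx2⟩ := exists_chain (ini T) hr (card_ini hc)
    exact ⟨_, r, x, le_rfl, hx1, fun i hi => by omega, by rw [Nat.sub_self]; exact hx2, rfl⟩
  obtain ⟨m, x, hm, h1, h2, h3, h4⟩ := Nat.sSup_mem hnon (bdd hF _)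
  change label F N r (ini T) = _ at h4
  -- extend the sequence by the last point of T
  let b := T.max' hne
  let y : ℕ → Fin n := Function.update x m b
  have y1 : ∀ i, i < m → y i = x i := fun i hi => Function.update_of_ne (by omega) _ _
  have y2 : y m = b := Function.update_self _ _ _
  have hini : ini T = T.erase b := ini_eq_erase hne
  have hmem : ∀ i, m - r ≤ i → i < m → x i ∈ T ∧ x i < b := by
    intro i hi hi2
    have : x i ∈ ini T := by
      rw [← h3]; exact mem_image_of_mem x (mem_Ico.2 ⟨hi, hi2⟩)
    rw [hini, mem_erase] at this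
    exact ⟨this.2, lt_of_le_of_ne (T.le_max' _ this.2) this.1⟩
  have hy : Chain y (m + 1) := by
    intro i hi
    rcases Nat.lt_or_ge (i + 1) m with h | h
    · rw [y1 i (by omega), y1 (i + 1) h]
      exact h1 i h
    · have hi' : i + 1 = m := by omega
      rw [y1 i (by omega), hi', y2]
      exact (hmem i (by omega) (by omega)).2
  have himg : (Ico (m - r) (m + 1)).image y = T := by
    have e1 : Ico (m - r) (m + 1) = insert m (Ico (m - r) m) := by
      ext i
      rw [mem_Ico, mem_insert, mem_Ico]
      omega
    rw [e1, image_insert, y2]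
    have e2 : (Ico (m - r) m).image y = ini T := by
      rw [← h3]
      apply image_congr
      intro i hi
      rw [mem_coe, mem_Ico] at hi
      exact y1 i hi.2
    rw [e2, hini, insert_erase (T.max'_mem hne)]
  have hslow : Slow N y (m + 1) (r + 1) := by
    intro i hi
    have e0 : i + (r + 1) - 1 = i + r := by omega
    rw [e0]
    rcases Nat.lt_or_ge (i + r) m with h | h
    · rw [y1 (i + r) h, y1 i (by omega)]
      have := h2 i (by omega)
      rw [e0] at this
      exact this
    · have e1 : i + r = m := by omega
      have e2 : i = m - r := by omega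
      apply hd
      · rw [← himg]
        exact mem_image_of_mem y (mem_Ico.2 ⟨by omega, by omega⟩)
      · rw [← himg]
        exact mem_image_of_mem y (mem_Ico.2 ⟨by omega, by omega⟩)
  have hlast : (Ico (m + 1 - r) (m + 1)).image y = tai T := by
    rw [← himg, tai_image hy _ _ le_rfl]
    have : m + 1 - r = m - r + 1 := by omega
    rw [this]
  have hbad : bad F y (m + 1) (r + 1) = bad F x m (r + 1) + (if T ∈ F then 0 else 1) := by
    unfold bad
    have e1 : m + 1 + 1 - (r + 1) = (m + 1 - (r + 1)) + 1 := by omega
    rw [e1, range_add_one, filter_insert]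
    have e2 : win y (m + 1 - (r + 1)) (r + 1) = T := by
      unfold win
      rw [← himg]
      congr 1
      ext i
      rw [mem_Ico, mem_Ico]
      omega
    have e3 : (range (m + 1 - (r + 1))).filter (fun i => win y i (r + 1) ∉ F) =
        (range (m + 1 - (r + 1))).filter (fun i => win x i (r + 1) ∉ F) := by
      apply filter_congr
      intro i hi
      rw [mem_range] at hi
      have : win y i (r + 1) = win x i (r + 1) := by
        unfold win
        apply image_congr
        intro j hj
        rw [mem_coe, mem_Ico] at hj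
        exact y1 j (by omega)
      rw [this]
    rw [e2, e3]
    by_cases hTF : T ∈ F
    · rw [if_neg (not_not.2 hTF), if_pos hTF, add_zero]
    · rw [if_pos hTF, if_neg hTF, card_insert_of_notMem (by simp)]
  have hfin : bad F y (m + 1) (r + 1) ∈ counts F N r (tai T) :=
    ⟨m + 1, y, by omega, hy, hslow, hlast, rfl⟩
  have := le_csSup (bdd hF _) hfin
  rw [hbad, ← h4] at this
  exact this

/-- The lower bound. -/
theorem class_bound {F : Finset (Finset (Fin n))} {N r L : ℕ} (hr : 0 < r)
    (hF : ∀ (m : ℕ) (x : ℕ → Fin n), Chain x m → Slow N x m (r + 1) → bad F x m (r + 1) ≤ L) :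
    n * N.choose r ≤ ((shorts n r N).filter (fun T => T ∈ F)).card +
      (L + r) * (N + 1).choose (r + 1) := by
  classical
  have h1 := main (n := n) r N L hr (label F N r) (fun x _ => label_le hF x)
  have h2 : ∑ T ∈ shorts n r N, (label F N r (ini T) - label F N r (tai T)) = 0 := by
    apply sum_eq_zero
    intro T hT
    have := label_step hr hF hT
    omega
  have h3 : ((shorts n r N).filter (fun T => label F N r (tai T) ≤ label F N r (ini T))).card ≤
      ((shorts n r N).filter (fun T => T ∈ F)).card := by
    apply card_le_card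
    intro T hT
    rw [mem_filter] at hT ⊢
    refine ⟨hT.1, ?_⟩
    by_contra hcon
    have := label_step hr hF hT.1
    rw [if_neg hcon] at this
    omega
  omega

/-- `n` points in `s` classes of sizes `⌊n/s⌋` and `⌊n/s⌋ + 1` -/
def turan (n s t : ℕ) : ℕ := (s - n % s) * (n / s).choose t + (n % s) * (n / s + 1).choose t

theorem turan_eq (n s r : ℕ) (hs : 0 < s) :
    n * (n / s).choose r = turan n s (r + 1) + s * r * (n / s + 1).choose (r + 1) := by
  unfold turan
  have h1 := choose_identity (n / s) r
  have h2 := Nat.choose_succ_succ' (n / s) r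
  have h3 : s * (n / s) + n % s = n := Nat.div_add_mod n s
  have h4 : n % s < s := Nat.mod_lt n hs
  obtain ⟨d, hd⟩ : ∃ d, s = n % s + d := ⟨s - n % s, by omega⟩
  have h5 : s - n % s = d := by omega
  rw [h5]
  have h6 : n * (n / s).choose r = s * ((n / s) * (n / s).choose r) + (n % s) * (n / s).choose r := by
    calc n * (n / s).choose r = (s * (n / s) + n % s) * (n / s).choose r := by rw [h3]
      _ = _ := by ring
  rw [h6, h1]
  have h7 : (n % s) * (n / s + 1).choose (r + 1) =
      (n % s) * (n / s).choose r + (n % s) * (n / s).choose (r + 1) := by rw [h2]; ring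
  rw [h7]
  have h8 : s * (n / s).choose (r + 1) = (n % s) * (n / s).choose (r + 1) +
      d * (n / s).choose (r + 1) := by
    rw [← add_mul, ← hd]
  have h9 : s * ((n / s).choose (r + 1) + r * (n / s + 1).choose (r + 1)) =
      s * (n / s).choose (r + 1) + s * r * (n / s + 1).choose (r + 1) := by ring
  rw [h9, h8]
  ring

theorem class_exact {F : Finset (Finset (Fin n))} {r s : ℕ} (hr : 0 < r) (hs : 0 < s)
    (hF : ∀ (m : ℕ) (x : ℕ → Fin n), Chain x m → Slow (n / s) x m (r + 1) →
      bad F x m (r + 1) ≤ (s - 1) * r) : turan n s (r + 1) ≤ F.card := by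
  classical
  have h1 := class_bound hr hF
  have h2 := turan_eq n s r hs
  have h3 : ((shorts n r (n / s)).filter (fun T => T ∈ F)).card ≤ F.card := by
    apply card_le_card
    intro T hT
    exact (mem_filter.1 hT).2
  have h4 : (s - 1) * r + r = s * r := by
    obtain ⟨d, rfl⟩ : ∃ d, s = d + 1 := ⟨s - 1, by omega⟩
    rw [Nat.add_sub_cancel]; ring
  rw [h4] at h1
  omega

/-! ### Coverings by families that are compressed relative to the first point -/

/-- If `{x 0, ..., x r}` is in `F` and `y 0 = x 0`, `y i ≤ x i`, then `{y 0, ..., y r}` is in `F`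
(both sequences increasing). -/
def FirstShifted (F : Finset (Finset (Fin n))) (r : ℕ) : Prop :=
  ∀ x y : ℕ → Fin n, Chain x (r + 1) → Chain y (r + 1) → y 0 = x 0 → (∀ i, i ≤ r → y i ≤ x i) →
    win x 0 (r + 1) ∈ F → win y 0 (r + 1) ∈ F

theorem win_shift (x : ℕ → Fin n) (i t : ℕ) : win (fun j => x (i + j)) 0 t = win x i t := by
  unfold win
  ext y
  rw [mem_image, mem_image]
  constructor
  · rintro ⟨j, hj, rfl⟩
    rw [mem_Ico] at hj
    exact ⟨i + j, mem_Ico.2 ⟨by omega, by omega⟩, rfl⟩
  · rintro ⟨j, hj, rfl⟩
    rw [mem_Ico] at hj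
    exact ⟨j - i, mem_Ico.2 ⟨by omega, by omega⟩, by
      change x (i + (j - i)) = x j
      congr 1
      omega⟩

theorem FirstShifted.win {F : Finset (Finset (Fin n))} {r : ℕ} (h : FirstShifted F r)
    {x y : ℕ → Fin n} {m m' i i' : ℕ} (hx : Chain x m) (hy : Chain y m') (hi : i + r < m)
    (hi' : i' + r < m') (h0 : y i' = x i) (hle : ∀ j, j ≤ r → y (i' + j) ≤ x (i + j))
    (hF : win x i (r + 1) ∈ F) : Pool.Agent.Q118.WinTuran.win y i' (r + 1) ∈ F := by
  have h1 := h (fun j => x (i + j)) (fun j => y (i' + j))
    (fun j hj => hx (i + j) (by omega)) (fun j hj => hy (i' + j) (by omega)) h0 hle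
  rw [win_shift, win_shift] at h1
  exact h1 hF

/-- Gathering the bad windows. -/
theorem gather {F : Finset (Finset (Fin n))} {r : ℕ} (hr : 0 < r) (hSh : FirstShifted F r)
    (x : ℕ → Fin n) : ∀ m, r ≤ m → Chain x m → ∃ y : ℕ → Fin n,
      Chain y (bad F x m (r + 1) + r) ∧ (∀ i, i < bad F x m (r + 1) → win y i (r + 1) ∉ F) ∧
      (∀ j, j < r → y (bad F x m (r + 1) + j) = x (m - r + j)) := by
  classical
  intro m hm
  induction m, hm using Nat.le_induction with
  | base =>
    intro hx
    have h0 : bad F x r (r + 1) = 0 := by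
      unfold bad
      have : r + 1 - (r + 1) = 0 := by omega
      rw [this]; simp
    rw [h0]
    refine ⟨x, by rw [zero_add]; exact hx, fun i hi => absurd hi (Nat.not_lt_zero _), ?_⟩
    intro j _
    rw [Nat.sub_self]
  | succ m hm ih =>
    intro hx
    obtain ⟨y, hy1, hy2, hy3⟩ := ih (hx.mono (Nat.le_succ m))
    have hbad : bad F x (m + 1) (r + 1) = bad F x m (r + 1) +
        (if win x (m - r) (r + 1) ∈ F then 0 else 1) := by
      unfold bad
      have e1 : m + 1 + 1 - (r + 1) = (m + 1 - (r + 1)) + 1 := by omega
      have e2 : m + 1 - (r + 1) = m - r := by omega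
      rw [e1, range_add_one, filter_insert, e2]
      by_cases hTF : win x (m - r) (r + 1) ∈ F
      · rw [if_neg (not_not.2 hTF), if_pos hTF, add_zero]
      · rw [if_pos hTF, if_neg hTF, card_insert_of_notMem (by simp)]
    set b := bad F x m (r + 1) with hb
    by_cases hT : win x (m - r) (r + 1) ∈ F
    · -- replace the last r points
      rw [hbad, if_pos hT, add_zero]
      let z : ℕ → Fin n := fun j => if j < b then y j else x (m - r + 1 + (j - b))
      have z1 : ∀ j, j < b → z j = y j := fun j hj => if_pos hj
      have z2 : ∀ j, z (b + j) = x (m - r + 1 + j) := fun j => by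
        simp only [z]
        rw [if_neg (by omega)]
        congr 1
        omega
      have hzy : ∀ j, j < b + r → y j ≤ z j := by
        intro j hj
        rcases Nat.lt_or_ge j b with h | h
        · rw [z1 j h]
        · obtain ⟨i, rfl⟩ : ∃ i, j = b + i := ⟨j - b, by omega⟩
          rw [z2, hy3 i (by omega)]
          exact hx.le _ _ (by omega) (by omega)
      have hz : Chain z (b + r) := by
        intro i hi
        rcases Nat.lt_or_ge (i + 1) b with h | h
        · rw [z1 i (by omega), z1 (i + 1) h]
          exact hy1 i hi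
        · rcases Nat.lt_or_ge i b with h' | h'
          · rw [z1 i h']
            exact (hy1 i hi).trans_le (hzy (i + 1) hi)
          · obtain ⟨j, rfl⟩ : ∃ j, i = b + j := ⟨i - b, by omega⟩
            have e1 : b + j + 1 = b + (j + 1) := by omega
            rw [e1, z2, z2]
            exact hx _ (by omega)
      refine ⟨z, hz, ?_, ?_⟩
      · intro i hi hcon
        refine hy2 i hi (hSh.win hz hy1 (by omega) (by omega) (z1 i hi).symm ?_ hcon)
        intro j hj
        exact hzy _ (by omega)
      · intro j _
        rw [z2]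
        congr 1
        omega
    · -- append the last point
      rw [hbad, if_neg hT]
      let z : ℕ → Fin n := Function.update y (b + r) (x m)
      have z1 : ∀ j, j < b + r → z j = y j := fun j hj => Function.update_of_ne (by omega) _ _
      have z2 : z (b + r) = x m := Function.update_self _ _ _
      have z3 : ∀ j, j ≤ r → z (b + j) = x (m - r + j) := by
        intro j hj
        rcases Nat.lt_or_ge j r with h | h
        · rw [z1 _ (by omega), hy3 j h]
        · have : j = r := by omega
          subst this
          rw [z2]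
          congr 1
          omega
      have hz : Chain z (b + 1 + r) := by
        intro i hi
        rcases Nat.lt_or_ge (i + 1) (b + r) with h | h
        · rw [z1 i (by omega), z1 (i + 1) h]
          exact hy1 i h
        · have e1 : i + 1 = b + r := by omega
          have e2 : i = b + (r - 1) := by omega
          rw [e1, z2, e2, z3 _ (by omega)]
          exact hx.lt _ _ (by omega) (by omega)
      refine ⟨z, hz, ?_, ?_⟩
      · intro i hi
        rcases Nat.lt_or_ge i b with h | h
        · have : win z i (r + 1) = win y i (r + 1) := by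
            unfold Pool.Agent.Q118.WinTuran.win
            apply image_congr
            intro j hj
            rw [mem_coe, mem_Ico] at hj
            exact z1 j (by omega)
          rw [this]
          exact hy2 i h
        · have : i = b := by omega
          subst this
          have : win z b (r + 1) = win x (m - r) (r + 1) := by
            rw [← win_shift z, ← win_shift x]
            unfold Pool.Agent.Q118.WinTuran.win
            apply image_congr
            intro j hj
            rw [mem_coe, mem_Ico] at hj
            exact z3 j (by omega)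
          rw [this]
          exact hT
      · intro j hj
        have e1 : b + 1 + j = b + (j + 1) := by omega
        rw [e1, z3 _ (by omega)]
        congr 1
        omega

end Pool.Agent.Q118.WinTuran
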