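import Pool.Agent.Q118.WinTuran2
import Pool.Agent.Q118.ConsecTuran3

/-!
Coverings compressed relative to the first point, the extremal families, the density.
-/

namespace Pool.Agent.Q118.WinTuran

open Finset Pool.Agent.Q118.ConsecTuran

variable {n : ℕ}

theorem covering_class {F : Finset (Finset (Fin n))} {r k : ℕ} (hr : 0 < r)
    (hSh : FirstShifted F r)
    (hcov : ∀ K : Finset (Fin n), K.card = k → ∃ B ∈ F, B.card = r + 1 ∧ B ⊆ K)
    (m : ℕ) (x : ℕ → Fin n) (hx : Chain x m) : bad F x m (r + 1) ≤ k - (r + 1) := by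
  classical
  by_contra hcon
  rw [not_le] at hcon
  rcases Nat.lt_or_ge m r with hm | hm
  · have : bad F x m (r + 1) = 0 := by
      unfold bad
      have : m + 1 - (r + 1) = 0 := by omega
      rw [this]; simp
    omega
  obtain ⟨y, hy1, hy2, -⟩ := gather hr hSh x m hm hx
  set b := bad F x m (r + 1) with hb
  have hkb : k ≤ b + r := by omega
  obtain ⟨B, hB, hBc, hBK⟩ := hcov ((Ico 0 k).image y) (by
    rw [card_image_chain hy1 0 k hkb, Nat.sub_zero])
  obtain ⟨z, hz1, hz2⟩ := exists_chain B (Nat.succ_pos r) hBc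
  have hc : ∀ l, ∃ c, l ≤ r → (c < k ∧ y c = z l) := by
    intro l
    by_cases hl : l ≤ r
    · have : z l ∈ (Ico 0 k).image y := hBK (by
        rw [← hz2]; exact mem_image_of_mem z (mem_Ico.2 ⟨Nat.zero_le _, by omega⟩))
      rw [mem_image] at this
      obtain ⟨c, hc, hcz⟩ := this
      exact ⟨c, fun _ => ⟨(mem_Ico.1 hc).2, hcz⟩⟩
    · exact ⟨0, fun h => absurd h hl⟩
  choose c hc using hc
  have hmono : ∀ l, l + 1 ≤ r → c l < c (l + 1) := by
    intro l hl
    by_contra hcon2
    rw [not_lt] at hcon2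
    have h1 := hc l (by omega)
    have h2 := hc (l + 1) hl
    have h3 := hy1.le (c (l + 1)) (c l) hcon2 (by omega)
    rw [h1.2, h2.2] at h3
    exact absurd (hz1 l (by omega)) h3.not_gt
  have hge : ∀ l, l ≤ r → c 0 + l ≤ c l := by
    intro l
    induction l with
    | zero => intro _; exact le_rfl
    | succ l ih =>
      intro hl
      have := ih (by omega)
      have := hmono l hl
      omega
  have h0 := hc 0 (Nat.zero_le _)
  have hr' := hc r le_rfl
  have hgr := hge r le_rfl
  refine hy2 (c 0) (by omega) (hSh.win (i := 0) (m := r + 1) hz1 hy1 (by omega) (by omega) h0.2 ?_ ?_)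
  · intro j hj
    rw [zero_add, ← (hc j hj).2]
    exact hy1.le _ _ (hge j hj) (by have := (hc j hj).1; omega)
  · unfold win
    rw [zero_add, hz2]
    exact hB

/-! ### The extremal families -/

/-- the `t`-sets inside the intervals -/
def blockT (n s t : ℕ) : Finset (Finset (Fin n)) :=
  (range s).biUnion (fun i => (block n s i).powersetCard t)

theorem card_blockT (n s t : ℕ) (hs : 0 < s) (ht : 0 < t) : (blockT n s t).card = turan n s t := by
  classical
  rw [blockT, Finset.card_biUnion]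
  · rw [turan, ← sum_sizes (fun x => x.choose t) (n / s) (n % s) s (Nat.mod_lt n hs).le]
    apply Finset.sum_congr rfl
    intro i hi
    rw [card_powersetCard, card_block n s i hs (mem_range.1 hi)]
  · intro i _ j _ hij
    simp only [Function.onFun]
    rw [Finset.disjoint_left]
    intro B hB hB'
    rw [mem_powersetCard] at hB hB'
    obtain ⟨v, hv⟩ : B.Nonempty := by
      rw [← Finset.card_pos]; omega
    have h1 := hB.1 hv
    have h2 := hB'.1 hv
    rw [block, mem_filter] at h1 h2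
    exact hij (h1.2.symm.trans h2.2)

theorem mem_blockT_card {s t : ℕ} {B : Finset (Fin n)} (h : B ∈ blockT n s t) : B.card = t := by
  rw [blockT, mem_biUnion] at h
  obtain ⟨i, -, hB⟩ := h
  exact (mem_powersetCard.1 hB).2

theorem win_mem_blockT {s r : ℕ} (hs : 0 < s) {x : ℕ → Fin n} {m i : ℕ} (hx : Chain x m)
    (hi : i + r < m) : win x i (r + 1) ∈ blockT n s (r + 1) ↔
      idx n s (x i) = idx n s (x (i + r)) := by
  classical
  rw [blockT, mem_biUnion]
  constructor
  · rintro ⟨j, -, hB⟩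
    rw [mem_powersetCard] at hB
    have h1 := hB.1 (mem_image_of_mem x (mem_Ico.2 ⟨le_rfl, by omega⟩) : x i ∈ win x i (r + 1))
    have h2 := hB.1 (mem_image_of_mem x (mem_Ico.2 ⟨by omega, by omega⟩) :
      x (i + r) ∈ win x i (r + 1))
    rw [block, mem_filter] at h1 h2
    rw [h1.2, h2.2]
  · intro h
    refine ⟨idx n s (x i), mem_range.2 (idx_lt n s _ hs (x i).2), ?_⟩
    rw [mem_powersetCard]
    constructor
    · intro y hy
      rw [win, mem_image] at hy
      obtain ⟨j, hj, rfl⟩ := hy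
      rw [mem_Ico] at hj
      have h1 := idx_mono n s (hx.le i j hj.1 (by omega))
      have h2 := idx_mono n s (hx.le j (i + r) (by omega) hi)
      rw [block, mem_filter]
      refine ⟨mem_univ _, ?_⟩
      omega
    · rw [win, card_image_chain hx _ _ (by omega)]
      omega

theorem blockT_class {s r : ℕ} (hs : 0 < s) (m : ℕ) (x : ℕ → Fin n) (hx : Chain x m) :
    bad (blockT n s (r + 1)) x m (r + 1) ≤ (s - 1) * r := by
  classical
  let Φ : ℕ → ℕ := fun i => ∑ l ∈ range r, idx n s (x (i + l))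
  have hstep : ∀ M, Φ (M + 1) + idx n s (x M) = Φ M + idx n s (x (M + r)) := by
    intro M
    have h1 : ∑ l ∈ range (r + 1), idx n s (x (M + l)) = Φ M + idx n s (x (M + r)) :=
      sum_range_succ _ _
    have h2 : ∑ l ∈ range (r + 1), idx n s (x (M + l)) = Φ (M + 1) + idx n s (x M) := by
      rw [sum_range_succ']
      congr 1
      apply sum_congr rfl
      intro l _
      congr 3
      omega
    omega
  have key : ∀ M, r + M ≤ m →
      ((range M).filter (fun i => win x i (r + 1) ∉ blockT n s (r + 1))).card + Φ 0 ≤ Φ M := by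
    intro M
    induction M with
    | zero => intro _; simp
    | succ M ih =>
      intro hM
      have h1 := ih (by omega)
      have h2 := hstep M
      have h3 : idx n s (x M) ≤ idx n s (x (M + r)) := idx_mono n s (hx.le M (M + r) (by omega) (by omega))
      have h4 := win_mem_blockT (s := s) hs hx (show M + r < m by omega)
      rw [range_add_one, filter_insert]
      by_cases hw : win x M (r + 1) ∈ blockT n s (r + 1)
      · rw [if_neg (not_not.2 hw)]
        omega
      · rw [if_pos hw, card_insert_of_notMem (by simp)]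
        have h5 : idx n s (x M) ≠ idx n s (x (M + r)) := fun h => hw (h4.2 h)
        omega
  rcases Nat.lt_or_ge m r with hm | hm
  · have : m + 1 - (r + 1) = 0 := by omega
    unfold bad
    rw [this]; simp
  · have h1 := key (m - r) (by omega)
    have h2 : Φ (m - r) ≤ (s - 1) * r := by
      calc Φ (m - r) ≤ ∑ _l ∈ range r, (s - 1) := by
            apply sum_le_sum
            intro l _
            have := idx_lt n s (x (m - r + l)) hs (x (m - r + l)).2
            omega
        _ = (s - 1) * r := by rw [sum_const, card_range, smul_eq_mul]; ring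
    unfold bad
    have e1 : m + 1 - (r + 1) = m - r := by omega
    rw [e1]
    omega

theorem blockT_shifted {s r : ℕ} (hs : 0 < s) : FirstShifted (blockT n s (r + 1)) r := by
  intro x y hx hy h0 hle hF
  rw [win_mem_blockT hs hx (by omega)] at hF
  rw [win_mem_blockT hs hy (by omega)]
  rw [zero_add] at hF ⊢
  have h1 := idx_mono n s (hy.le 0 r (Nat.zero_le _) (by omega))
  have h2 : idx n s (y r) ≤ idx n s (x r) := idx_mono n s (hle r le_rfl)
  rw [h0] at h1 ⊢
  omega

theorem class_covering {F : Finset (Finset (Fin n))} {r k : ℕ} (hr : r + 1 ≤ k)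
    (hF : ∀ (m : ℕ) (x : ℕ → Fin n), Chain x m → bad F x m (r + 1) ≤ k - (r + 1))
    (K : Finset (Fin n)) (hK : K.card = k) : ∃ B ∈ F, B.card = r + 1 ∧ B ⊆ K := by
  classical
  obtain ⟨x, hx, hxK⟩ := exists_chain K (by omega) hK
  by_contra hcon
  push Not at hcon
  have h1 := hF k x hx
  have h2 : bad F x k (r + 1) = k + 1 - (r + 1) := by
    unfold bad
    rw [filter_true_of_mem, card_range]
    intro i hi hwF
    rw [mem_range] at hi
    refine hcon _ hwF ?_ ?_
    · rw [win, card_image_chain hx _ _ (by omega)]; omega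
    · rw [← hxK, win]
      apply image_subset_image
      intro j hj
      rw [mem_Ico] at hj ⊢
      omega
  omega

/-! ### The density -/

theorem nat_bound {F : Finset (Finset (Fin n))} {r q N : ℕ} (hr : 0 < r) (hq : r ≤ q)
    (hF : ∀ (m : ℕ) (x : ℕ → Fin n), Chain x m → bad F x m (r + 1) ≤ q - r) :
    (r + 1) * n * (N + 1 - r) ^ r ≤ (r + 1).factorial * F.card + q * (N + 1) ^ (r + 1) := by
  classical
  have h1 := class_bound (N := N) hr (fun m x hx _ => hF m x hx)
  have h2 : ((shorts n r N).filter (fun T => T ∈ F)).card ≤ F.card :=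
    card_le_card fun T hT => (mem_filter.1 hT).2
  have h3 : q - r + r = q := Nat.sub_add_cancel hq
  rw [h3] at h1
  have h4 : (N + 1 - r) ^ r ≤ r.factorial * N.choose r := by
    rw [← Nat.descFactorial_eq_factorial_mul_choose]
    exact Nat.pow_sub_le_descFactorial N r
  have h5 : (r + 1).factorial * (N + 1).choose (r + 1) ≤ (N + 1) ^ (r + 1) := by
    rw [← Nat.descFactorial_eq_factorial_mul_choose]
    exact Nat.descFactorial_le_pow (N + 1) (r + 1)
  have h6 : (r + 1) * n * (N + 1 - r) ^ r ≤ (r + 1).factorial * (n * N.choose r) := by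
    calc (r + 1) * n * (N + 1 - r) ^ r ≤ (r + 1) * n * (r.factorial * N.choose r) :=
          Nat.mul_le_mul_left _ h4
      _ = (r + 1).factorial * (n * N.choose r) := by rw [Nat.factorial_succ]; ring
  have h7 : (r + 1).factorial * (n * N.choose r) ≤
      (r + 1).factorial * F.card + q * ((r + 1).factorial * (N + 1).choose (r + 1)) := by
    calc (r + 1).factorial * (n * N.choose r) ≤
          (r + 1).factorial * (F.card + q * (N + 1).choose (r + 1)) :=
          Nat.mul_le_mul_left _ (by omega)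
      _ = _ := by ring
  calc _ ≤ _ := h6
    _ ≤ _ := h7
    _ ≤ _ := Nat.add_le_add_left (Nat.mul_le_mul_left _ h5) _

open Filter Topology in
theorem density {r q : ℕ} (hr : 0 < r) (hq : r ≤ q) (ε : ℝ) (hε : 0 < ε) :
    ∃ n₀ : ℕ, ∀ n : ℕ, n₀ ≤ n → ∀ F : Finset (Finset (Fin n)),
      (∀ (m : ℕ) (x : ℕ → Fin n), Chain x m → bad F x m (r + 1) ≤ q - r) →
      (((r : ℝ) / q) ^ r - ε) * (n.choose (r + 1) : ℝ) ≤ F.card := by
  have hq0 : (0 : ℝ) < q := by exact_mod_cast lt_of_lt_of_le hr hq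
  set c : ℝ := (r : ℝ) / q with hc
  have hc0 : 0 ≤ c := by positivity
  clear_value c
  -- the limit
  have l1 : Tendsto (fun n : ℕ => ((⌊c * (n : ℝ)⌋₊ : ℕ) : ℝ) / (n : ℝ)) atTop (𝓝 c) :=
    (tendsto_nat_floor_mul_div_atTop hc0).comp tendsto_natCast_atTop_atTop
  have l2 : Tendsto (fun n : ℕ => (1 : ℝ) / (n : ℝ)) atTop (𝓝 0) := tendsto_one_div_atTop_nhds_zero_nat
  have l3 : Tendsto (fun n : ℕ => ((r : ℝ) + 1) *
      (((⌊c * (n : ℝ)⌋₊ : ℕ) : ℝ) / n + (1 - r) * (1 / n)) ^ r -
      q * (((⌊c * (n : ℝ)⌋₊ : ℕ) : ℝ) / n + 1 * (1 / n)) ^ (r + 1)) atTop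
      (𝓝 (((r : ℝ) + 1) * (c + (1 - r) * 0) ^ r - q * (c + 1 * 0) ^ (r + 1))) := by
    apply Tendsto.sub
    · exact ((l1.add (l2.const_mul _)).pow r).const_mul _
    · exact ((l1.add (l2.const_mul _)).pow (r + 1)).const_mul _
  have hlim : ((r : ℝ) + 1) * (c + (1 - r) * 0) ^ r - q * (c + 1 * 0) ^ (r + 1) = c ^ r := by
    rw [mul_zero, mul_zero, add_zero, pow_succ]
    have : (q : ℝ) * c = r := by rw [hc]; field_simp
    calc ((r : ℝ) + 1) * c ^ r - q * (c ^ r * c) = ((r : ℝ) + 1) * c ^ r - (q * c) * c ^ r := by ring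
      _ = c ^ r := by rw [this]; ring
  rw [hlim] at l3
  have ev := l3.eventually (lt_mem_nhds (show c ^ r - ε < c ^ r by linarith))
  -- the floor is at least r eventually
  obtain ⟨n₁, hn₁⟩ := eventually_atTop.1 ev
  refine ⟨max n₁ (⌈(r : ℝ) / c⌉₊ + 1), ?_⟩
  intro n hn F hF
  have hg := hn₁ n (le_trans (le_max_left _ _) hn)
  have hn1 : 1 ≤ n := by
    have := le_trans (le_max_right _ _) hn
    omega
  have hn0 : (0 : ℝ) < n := by exact_mod_cast hn1
  by_cases hneg : c ^ r - ε ≤ 0
  · calc (c ^ r - ε) * (n.choose (r + 1) : ℝ) ≤ 0 :=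
          mul_nonpos_of_nonpos_of_nonneg hneg (Nat.cast_nonneg _)
      _ ≤ _ := Nat.cast_nonneg _
  rw [not_le] at hneg
  set N := ⌊c * (n : ℝ)⌋₊ with hN
  have hcpos : 0 < c := by
    rw [hc]
    have : (0 : ℝ) < r := by exact_mod_cast hr
    positivity
  have hNr : r ≤ N := by
    rw [hN]
    apply Nat.le_floor
    have h1 : ⌈(r : ℝ) / c⌉₊ + 1 ≤ n := le_trans (le_max_right _ _) hn
    have h2 : (r : ℝ) / c ≤ n := by
      calc (r : ℝ) / c ≤ ⌈(r : ℝ) / c⌉₊ := Nat.le_ceil _
        _ ≤ n := by exact_mod_cast (by omega : ⌈(r : ℝ) / c⌉₊ ≤ n)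
    rw [div_le_iff₀ hcpos] at h2
    linarith
  have hb := nat_bound (N := N) hr hq hF
  have hb' : ((r : ℝ) + 1) * n * ((N : ℝ) + 1 - r) ^ r ≤
      ((r + 1).factorial : ℝ) * F.card + q * ((N : ℝ) + 1) ^ (r + 1) := by
    have h1 : (((N + 1 - r : ℕ)) : ℝ) = (N : ℝ) + 1 - r := by
      rw [Nat.cast_sub (by omega)]
      push_cast
      ring
    rw [← h1]
    exact_mod_cast hb
  have hch : ((r + 1).factorial : ℝ) * (n.choose (r + 1) : ℝ) ≤ (n : ℝ) ^ (r + 1) := by
    have := Nat.descFactorial_le_pow n (r + 1)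
    rw [Nat.descFactorial_eq_factorial_mul_choose] at this
    exact_mod_cast this
  have hfac : (0 : ℝ) < ((r + 1).factorial : ℝ) := by exact_mod_cast Nat.factorial_pos _
  -- rewrite the eventual inequality
  have hg2 : (c ^ r - ε) * (n : ℝ) ^ (r + 1) ≤ ((r : ℝ) + 1) * n * ((N : ℝ) + 1 - r) ^ r -
      q * ((N : ℝ) + 1) ^ (r + 1) := by
    have h1 : (N : ℝ) / n + (1 - r) * (1 / n) = ((N : ℝ) + 1 - r) / n := by ring
    have h2 : (N : ℝ) / n + 1 * (1 / n) = ((N : ℝ) + 1) / n := by ring
    rw [h1, h2, div_pow, div_pow] at hg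
    have h3 : ((r : ℝ) + 1) * (((N : ℝ) + 1 - r) ^ r / (n : ℝ) ^ r) -
        q * (((N : ℝ) + 1) ^ (r + 1) / (n : ℝ) ^ (r + 1)) =
        (((r : ℝ) + 1) * n * ((N : ℝ) + 1 - r) ^ r - q * ((N : ℝ) + 1) ^ (r + 1)) /
          (n : ℝ) ^ (r + 1) := by
      field_simp
      ring
    rw [h3, lt_div_iff₀ (by positivity)] at hg
    exact hg.le
  have hfin : ((r + 1).factorial : ℝ) * ((c ^ r - ε) * (n.choose (r + 1) : ℝ)) ≤
      ((r + 1).factorial : ℝ) * F.card := by
    calc ((r + 1).factorial : ℝ) * ((c ^ r - ε) * (n.choose (r + 1) : ℝ))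
        = (c ^ r - ε) * (((r + 1).factorial : ℝ) * (n.choose (r + 1) : ℝ)) := by ring
      _ ≤ (c ^ r - ε) * (n : ℝ) ^ (r + 1) := mul_le_mul_of_nonneg_left hch hneg.le
      _ ≤ ((r : ℝ) + 1) * n * ((N : ℝ) + 1 - r) ^ r - q * ((N : ℝ) + 1) ^ (r + 1) := hg2
      _ ≤ _ := by linarith
  exact le_of_mul_le_mul_left hfin hfac

end Pool.Agent.Q118.WinTuran
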